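import Pool.Agent.BLI.GGm

/-!
# BLI/Accept: the acceptance lemma (inside a model of ZF)
-/

universe u

namespace Pool.Agent.ZFIter.NPA.BLI

open Pool.Agent.H78.ZF Pool.Agent.ZFIter Pool.Agent.ZFIter.NPA Pool.Agent.ZFIter.NPA.BSM

variable {M : Type u} [ZFM M] {ι : Type}

/-- Some condition puts `n` into `y`, while the part of the Mathias real up to `n` is
`fs (ap s h) ∪ τ ∪ {n}`. -/
def Acc (Q s y h τ n : M) : Prop :=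
  n ∈ sn (ap s h) ∧ (∀ i, i ∈ τ → i ∈ n) ∧ ∃ h', LE Q h' h ∧ Nt Q y n h' ∧
    ∀ m, m ∈ (omega : M) → m ⊆ n → (m ∈ fs (ap s h') ↔ m ∈ fs (ap s h) ∨ m ∈ τ ∨ m = n)

instance DR.Acc (Q s y h τ n : (ι → M) → M) [DF Q] [DF s] [DF y] [DF h] [DF τ] [DF n] :
    DR (fun v => Acc (Q v) (s v) (y v) (h v) (τ v) (n v)) := by
  unfold BLI.Acc; infer_instance

theorem accept {p Q s y h : M} (hp : Selective p) (hQ : Po Q) (hs : IsProj Q (MP p) s)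
    (hh : h ∈ fs Q) (hy : FInf Q y h) (hsub : FSub Q y (pull Q (MP p) s (mname p)) h) :
    ∃ τ, τ ∈ (fsw : M) ∧ τ ⊆ sn (ap s h) ∧ sep omega (fun n => Acc Q s y h τ n) ∈ p := by
  by_contra hcon
  push Not at hcon
  obtain ⟨h1, h2, h3, _⟩ := MP_fs (hs.1.mem hh)
  obtain ⟨b, hb, hfus⟩ := Sel.fusion hp (fun τ n => τ ⊆ sn (ap s h) → ¬ Acc Q s y h τ n) (by
    intro τ hτ
    by_cases hτ' : τ ⊆ sn (ap s h)
    · exact hp.1.sep_up (hp.1.sep_not (hcon τ hτ hτ')) fun n _ h4 _ => h4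
    · exact UF.sep_univ hp.1 fun n _ h4 => absurd h4 hτ')
  have hab := UF.itr hp.1 h2 hb
  obtain ⟨h₁, hh₁, e₁⟩ := hs.2 h hh _ (mp_shrink (hs.1.mem hh) hab fun k hk => (mem_itr.1 hk).1)
  obtain ⟨N, hN, hNs⟩ := fin_bdd (mem_fsw.1 h1).2 (mem_fsw.1 h1).1
  obtain ⟨n, hno, hn, h₂, hh₂, hy₂⟩ := hy N hN h₁ hh₁
  obtain ⟨h₃, hh₃, hn₃⟩ := hsub n hno h₂ (hQ.trans hh₂ hh₁) hy₂ h₂ (hQ.refl hh₂.1)
  rw [Nt_pull hQ (po_MP p) hs.1, Nt_mname] at hn₃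
  have hn3 := hn₃.2.2.2.2
  have hle := hs.1.le (hQ.trans hh₃ hh₂)
  rw [e₁, LE_MP, fs_opair, sn_opair] at hle
  obtain ⟨_, _, hle1, hle2, hle3⟩ := hle
  have hns : ∀ i, i ∈ fs (ap s h) → i ∈ n := fun i hi => hn i (hNs i hi)
  have hn4 : n ∉ fs (ap s h) := fun h4 => not_mem_self _ (hns n h4)
  have hn5 := mem_itr.1 (hle2 n hn3 hn4)
  have h3f := (MP_fs (hs.1.mem hh₃.1)).1
  obtain ⟨τ, hτdef⟩ : ∃ τ : M, τ = sep (fs (ap s h₃)) (fun m => m ∈ n ∧ m ∉ fs (ap s h)) :=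
    ⟨_, rfl⟩
  have hτ : ∀ m, m ∈ τ ↔ m ∈ fs (ap s h₃) ∧ m ∈ n ∧ m ∉ fs (ap s h) := fun m => by
    rw [hτdef, mem_sep]
  have hτ2 : ∀ m, m ∈ τ → m ∈ sn (ap s h) ∧ m ∈ b := fun m hm =>
    mem_itr.1 (hle2 m ((hτ m).1 hm).1 ((hτ m).1 hm).2.2)
  refine hfus τ (sub_fsw h3f fun m hm => ((hτ m).1 hm).1) (fun m hm => (hτ2 m hm).2) n hn5.2
    (fun i hi => ((hτ i).1 hi).2.1) (fun m hm => (hτ2 m hm).1) ?_
  refine ⟨hn5.1, fun i hi => ((hτ i).1 hi).2.1, h₃, hQ.trans hh₃ (hQ.trans hh₂ hh₁),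
    hy₂.down hQ hh₃, fun m hmo hm => ⟨fun h4 => ?_, ?_⟩⟩
  · by_cases h5 : m ∈ fs (ap s h)
    · exact Or.inl h5
    · rcases (le_iff hmo hno).1 hm with h6 | h6
      · exact Or.inr (Or.inl ((hτ m).2 ⟨h4, h6, h5⟩))
      · exact Or.inr (Or.inr h6)
  · rintro (h4 | h4 | h4)
    · exact hle1 m h4
    · exact ((hτ m).1 h4).1
    · rw [h4]; exact hn3

end Pool.Agent.ZFIter.NPA.BLI
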