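import Pool.Agent.BLI.Defs

/-!
# BLI/Basic: basic facts on names and generic maps (inside a model of ZF)
-/

universe u

namespace Pool.Agent.ZFIter.NPA.BLI

open Pool.Agent.H78.ZF Pool.Agent.ZFIter Pool.Agent.ZFIter.NPA Pool.Agent.ZFIter.NPA.BSM

variable {M : Type u} [ZFM M] {ι : Type}

theorem LE.left {Q x y : M} (h : LE Q x y) : x ∈ fs Q := h.1
theorem LE.right {Q x y : M} (h : LE Q x y) : y ∈ fs Q := h.2.1

section
variable {Q : M} (hQ : Po Q)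
include hQ

theorem Po.refl {x : M} (h : x ∈ fs Q) : LE Q x x := hQ.1 x h
theorem Po.trans {x y z : M} (h : LE Q x y) (h' : LE Q y z) : LE Q x z := hQ.2 x y z h h'

theorem Nt.down {τ n h h' : M} (H : Nt Q τ n h) (hh : LE Q h' h) : Nt Q τ n h' := by
  obtain ⟨k, hk, h1⟩ := H
  exact ⟨k, hQ.trans hh hk, h1⟩

omit hQ in
theorem Nt.mem {τ n h : M} (H : Nt Q τ n h) : h ∈ fs Q := by
  obtain ⟨k, hk, _⟩ := H
  exact hk.1

theorem Fc.down {τ n h h' : M} (H : Fc Q τ n h) (hh : LE Q h' h) : Fc Q τ n h' :=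
  fun k hk => H k (hQ.trans hk hh)

theorem Nc.down {τ n h h' : M} (H : Nc Q τ n h) (hh : LE Q h' h) : Nc Q τ n h' :=
  fun k hk => H k (hQ.trans hk hh)

theorem Fc.of_mem {τ n h : M} (H : Nt Q τ n h) : Fc Q τ n h :=
  fun k hk => ⟨k, hQ.refl hk.1, H.down hQ hk⟩

theorem Fc.of_dense {τ n h : M} (H : ∀ h', LE Q h' h → ∃ h'', LE Q h'' h' ∧ Fc Q τ n h'') :
    Fc Q τ n h := by
  intro k hk
  obtain ⟨k1, hk1, h1⟩ := H k hk
  obtain ⟨k2, hk2, h2⟩ := h1 k1 (hQ.refl hk1.1)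
  exact ⟨k2, hQ.trans hk2 hk1, h2⟩

omit hQ in
/-- not forced `∉` -/
theorem exists_of_not_nc {τ n h : M} (H : ¬ Nc Q τ n h) : ∃ h', LE Q h' h ∧ Nt Q τ n h' := by
  unfold Nc at H
  push Not at H
  exact H

theorem Fc.not_nc {τ n h : M} (hh : h ∈ fs Q) (H : Fc Q τ n h) : ¬ Nc Q τ n h := by
  intro h1
  obtain ⟨k, hk, h2⟩ := H h (hQ.refl hh)
  exact h1 k hk h2

theorem Nc.not_nt {τ n h : M} (H : Nc Q τ n h) (H' : Nt Q τ n h) : False :=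
  H h (hQ.refl H'.mem) H'

theorem FSub.down {τ υ h h' : M} (H : FSub Q τ υ h) (hh : LE Q h' h) : FSub Q τ υ h' :=
  fun n hn k hk => H n hn k (hQ.trans hk hh)

theorem FInf.down {τ h h' : M} (H : FInf Q τ h) (hh : LE Q h' h) : FInf Q τ h' :=
  fun n hn k hk => H n hn k (hQ.trans hk hh)

theorem FAe.down {τ a h h' : M} (H : FAe Q τ a h) (hh : LE Q h' h) : FAe Q τ a h' :=
  fun k hk => H k (hQ.trans hk hh)

theorem Yy.down {p τ h h' : M} (H : Yy Q p τ h) (hh : LE Q h' h) : Yy Q p τ h' :=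
  ⟨hh.1, H.2.1.down hQ hh, fun a ha => (H.2.2 a ha).down hQ hh⟩

theorem FSub.refl (τ h : M) : FSub Q τ τ h := fun _ _ _ _ hk => Fc.of_mem hQ hk

theorem FSub.fc {τ υ n h h' : M} (H : FSub Q τ υ h) (hno : n ∈ (omega : M)) (hh : LE Q h' h)
    (hn : Fc Q τ n h') : Fc Q υ n h' := by
  refine Fc.of_dense hQ fun k hk => ?_
  obtain ⟨k1, hk1, h1⟩ := hn k hk
  exact ⟨k1, hk1, H n hno k1 (hQ.trans (hQ.trans hk1 hk) hh) h1⟩

theorem FSub.nc {τ υ n h h' : M} (H : FSub Q τ υ h) (hno : n ∈ (omega : M)) (hh : LE Q h' h)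
    (hn : Nc Q υ n h') : Nc Q τ n h' := by
  intro k hk hkτ
  obtain ⟨k1, hk1, h1⟩ := H n hno k (hQ.trans hk hh) hkτ k (hQ.refl hk.1)
  exact hn k1 (hQ.trans hk1 hk) h1

theorem FSub.trans {τ υ ω h : M} (H : FSub Q τ υ h) (H' : FSub Q υ ω h) : FSub Q τ ω h :=
  fun n hn k hk hkτ => H'.fc hQ hn hk (H n hn k hk hkτ)

theorem FSub.of_le {τ υ : M} (H : ∀ n k, n ∈ (omega : M) → Nt Q τ n k → Nt Q υ n k) (h : M) :
    FSub Q τ υ h := fun n hn k _ hk => Fc.of_mem hQ (H n k hn hk)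

/-- Forced `⊆` from semantic reasoning at a condition which decides what is needed. -/
theorem FSub.of_dense {τ υ h : M}
    (H : ∀ n, n ∈ (omega : M) → ∀ k, LE Q k h → Nt Q τ n k → ∃ k', LE Q k' k ∧ Nt Q υ n k') :
    FSub Q τ υ h :=
  fun n hn _ hk hkτ k1 hk1 => H n hn k1 (hQ.trans hk1 hk) (hkτ.down hQ hk1)

/-! The names. -/

theorem Nt_chk {A n k : M} : Nt Q (chk Q A) n k ↔ n ∈ (omega : M) ∧ n ∈ A ∧ k ∈ fs Q := by
  unfold chk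
  constructor
  · rintro ⟨k', h1, h2⟩
    rw [mem_sep, opair_mem_prod, fs_opair] at h2
    exact ⟨h2.1.1, h2.2, h1.1⟩
  · rintro ⟨h1, h2, h3⟩
    exact ⟨k, hQ.refl h3, by rw [mem_sep, opair_mem_prod, fs_opair]; exact ⟨⟨h1, h3⟩, h2⟩⟩

theorem Nt_cmp {τ n k : M} : Nt Q (cmp Q τ) n k ↔ n ∈ (omega : M) ∧ k ∈ fs Q ∧ Nc Q τ n k := by
  unfold cmp
  constructor
  · rintro ⟨k', h1, h2⟩
    rw [mem_sep, opair_mem_prod, fs_opair, sn_opair] at h2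
    exact ⟨h2.1.1, h1.1, h2.2.down hQ h1⟩
  · rintro ⟨h1, h2, h3⟩
    exact ⟨k, hQ.refl h2, by
      rw [mem_sep, opair_mem_prod, fs_opair, sn_opair]; exact ⟨⟨h1, h2⟩, h3⟩⟩

theorem Nt_inr {τ υ n k : M} : Nt Q (inr Q τ υ) n k ↔ n ∈ (omega : M) ∧ Nt Q τ n k ∧ Nt Q υ n k := by
  unfold inr
  constructor
  · rintro ⟨k', h1, h2⟩
    rw [mem_sep, opair_mem_prod, fs_opair, sn_opair] at h2
    exact ⟨h2.1.1, h2.2.1.down hQ h1, h2.2.2.down hQ h1⟩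
  · rintro ⟨h1, h2, h3⟩
    exact ⟨k, hQ.refl h2.mem, by
      rw [mem_sep, opair_mem_prod, fs_opair, sn_opair]; exact ⟨⟨h1, h2.mem⟩, h2, h3⟩⟩

theorem Nt_exn {t y Ψ e k : M} : Nt Q (exn Q t y Ψ) e k ↔ e ∈ (omega : M) ∧ k ∈ fs Q ∧
    ∃ n, n ∈ ap t e ∧ Nc Q y n k ∧ (∀ m, m ∈ ap t e → m ∈ n → Nt Q y m k) ∧ Nt Q Ψ n k := by
  unfold exn
  constructor
  · rintro ⟨k', h1, h2⟩
    rw [mem_sep, opair_mem_prod, fs_opair, sn_opair] at h2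
    obtain ⟨⟨h3, _⟩, n, h4, h5, h6, h7⟩ := h2
    exact ⟨h3, h1.1, n, h4, h5.down hQ h1, fun m hm hmn => (h6 m hm hmn).down hQ h1,
      h7.down hQ h1⟩
  · rintro ⟨h1, h2, h3⟩
    exact ⟨k, hQ.refl h2, by
      rw [mem_sep, opair_mem_prod, fs_opair, sn_opair]; exact ⟨⟨h1, h2⟩, h3⟩⟩

theorem Nt_imgN {F f y e k : M} : Nt Q (imgN Q F f y) e k ↔ e ∈ (omega : M) ∧ k ∈ fs Q ∧
    ∃ s, s ∈ F ∧ (∀ i, i ∈ s → Nt Q y i k) ∧ ap f s = e := by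
  unfold imgN
  constructor
  · rintro ⟨k', h1, h2⟩
    rw [mem_sep, opair_mem_prod, fs_opair, sn_opair] at h2
    obtain ⟨⟨h3, _⟩, s, h4, h5, h6⟩ := h2
    exact ⟨h3, h1.1, s, h4, fun i hi => (h5 i hi).down hQ h1, h6⟩
  · rintro ⟨h1, h2, h3⟩
    exact ⟨k, hQ.refl h2, by
      rw [mem_sep, opair_mem_prod, fs_opair, sn_opair]; exact ⟨⟨h1, h2⟩, h3⟩⟩

theorem inr_left (τ υ h : M) : FSub Q (inr Q τ υ) τ h :=
  FSub.of_le hQ (fun _ _ _ hk => ((Nt_inr hQ).1 hk).2.1) h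

theorem inr_right (τ υ h : M) : FSub Q (inr Q τ υ) υ h :=
  FSub.of_le hQ (fun _ _ _ hk => ((Nt_inr hQ).1 hk).2.2) h

theorem FSub.mk_inr {τ υ ω h : M} (H : FSub Q τ υ h) (H' : FSub Q τ ω h) :
    FSub Q τ (inr Q υ ω) h := by
  intro n hno k hk hkτ k1 hk1
  obtain ⟨k2, hk2, h2⟩ := H n hno k hk hkτ k1 hk1
  obtain ⟨k3, hk3, h3⟩ := H' n hno k hk hkτ k2 (hQ.trans hk2 hk1)
  exact ⟨k3, hQ.trans hk3 hk2, (Nt_inr hQ).2 ⟨hno, h2.down hQ hk3, h3⟩⟩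

theorem FSub.cmp_anti {τ υ h : M} (H : FSub Q τ υ h) : FSub Q (cmp Q υ) (cmp Q τ) h := by
  intro n hno k hk hkn
  have h1 := (Nt_cmp hQ).1 hkn
  exact Fc.of_mem hQ ((Nt_cmp hQ).2 ⟨hno, h1.2.1, H.nc hQ hno hk h1.2.2⟩)

theorem Yy.sub {p z z' h : M} (H : Yy Q p z h) (hs : FSub Q z' z h)
    (hi : FInf Q z' h) : Yy Q p z' h := by
  refine ⟨H.1, hi, fun a ha k hk => ?_⟩
  obtain ⟨k1, hk1, N, hNo, hN⟩ := H.2.2 a ha k hk
  exact ⟨k1, hk1, N, hNo, fun n hno hn hna => hs.nc hQ hno (hQ.trans hk1 hk) (hN n hno hn hna)⟩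

/-- Finitely many facts can be decided. -/
theorem decide_lt (z : M) {N : M} (hN : N ∈ (omega : M)) {h : M} (hh : h ∈ fs Q) :
    ∃ h', LE Q h' h ∧ ∀ m, m ∈ N → Nt Q z m h' ∨ Nc Q z m h' := by
  have key := omega_induction (fun N => ∃ h', LE Q h' h ∧ ∀ m, m ∈ N → Nt Q z m h' ∨ Nc Q z m h')
    ⟨h, hQ.refl hh, fun m hm => absurd hm (not_mem_emp _)⟩ (by
      rintro N _ ⟨k, hk, H⟩
      by_cases hN : Nc Q z N k
      · refine ⟨k, hk, fun m hm => ?_⟩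
        rw [mem_succ] at hm
        rcases hm with h1 | h1
        · exact H m h1
        · exact Or.inr (h1 ▸ hN)
      · obtain ⟨k1, hk1, h1⟩ := exists_of_not_nc hN
        refine ⟨k1, hQ.trans hk1 hk, fun m hm => ?_⟩
        rw [mem_succ] at hm
        rcases hm with h2 | h2
        · exact (H m h2).imp (fun h3 => h3.down hQ hk1) (fun h3 => h3.down hQ hk1)
        · exact Or.inl (h2 ▸ h1))
  exact key N hN

/-- `x(h) ∈ p` for every `z` forced to be a pseudo-intersection of `p`. -/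
theorem xmem {p : M} (hp : Uf p) {z h : M} (H : Yy Q p z h) :
    sep omega (fun n => ∃ h', LE Q h' h ∧ Nt Q z n h') ∈ p := by
  by_contra hcon
  have hc := hp.sep_not hcon
  obtain ⟨k, hk, N, hNo, hN⟩ := H.2.2 _ hc h (hQ.refl H.1)
  obtain ⟨n, hno, hn, k1, hk1, h1⟩ := H.2.1 N hNo k hk
  refine hN n hno hn ?_ k1 hk1 h1
  rw [mem_sep]
  rintro ⟨_, h2⟩
  exact h2 ⟨k1, hQ.trans hk1 hk, h1⟩

end

/-! ### Generic maps -/

theorem Hom.mem {Q P f x : M} (h : Hom Q P f) (hx : x ∈ fs Q) : ap f x ∈ fs P := h.1.ap_mem hx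

theorem Hom.le {Q P f x y : M} (h : Hom Q P f) (hx : LE Q x y) : LE P (ap f x) (ap f y) :=
  h.2 x y hx

/-- The identity map. -/
noncomputable def idf (Q : M) : M := mkf (fs Q) (fs Q) (fun x => x)

instance DF.idf (Q : (ι → M) → M) [DF Q] : DF (fun v => idf (Q v)) := by
  unfold BLI.idf; infer_instance

theorem ap_idf {Q x : M} (hx : x ∈ fs Q) : ap (idf Q) x = x := ap_mkf (fun _ h => h) hx

theorem hom_idf (Q : M) : Hom Q Q (idf Q) := by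
  refine ⟨mkf_fun fun _ h => h, fun x y h => ?_⟩
  rw [ap_idf h.1, ap_idf h.2.1]
  exact h

theorem isGen_idf (Q : M) : IsGen Q Q (idf Q) := by
  refine ⟨hom_idf Q, fun D hD q hq => ?_⟩
  obtain ⟨y, h1, h2⟩ := hD.2.2 q hq
  exact ⟨y, h1, by rw [ap_idf h1.1]; exact h2⟩

/-- The composition `f ∘ g`, `g : Q' → Q`, `f : Q → P`. -/
noncomputable def cpf (Q' P f g : M) : M := cmpf (fs Q') (fs P) f g

instance DF.cpf (Q' P f g : (ι → M) → M) [DF Q'] [DF P] [DF f] [DF g] :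
    DF (fun v => cpf (Q' v) (P v) (f v) (g v)) := by
  unfold BLI.cpf; infer_instance

theorem ap_cpf {Q' Q P f g x : M} (hf : Hom Q P f) (hg : Hom Q' Q g) (hx : x ∈ fs Q') :
    ap (cpf Q' P f g) x = ap f (ap g x) := ap_mkf (fun _ h => hf.mem (hg.mem h)) hx

theorem Hom.comp {Q' Q P f g : M} (hf : Hom Q P f) (hg : Hom Q' Q g) :
    Hom Q' P (cpf Q' P f g) := by
  refine ⟨mkf_fun fun _ h => hf.mem (hg.mem h), fun x y h => ?_⟩
  rw [ap_cpf hf hg h.1, ap_cpf hf hg h.2.1]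
  exact hf.le (hg.le h)

theorem IsProj.isGen {Q P f : M} (hf : IsProj Q P f) : IsGen Q P f := by
  refine ⟨hf.1, fun D hD q hq => ?_⟩
  obtain ⟨y, hy, hyD⟩ := hD.2.2 _ (hf.1.mem hq)
  obtain ⟨q', hq', e⟩ := hf.2 q hq y hy
  exact ⟨q', hq', e ▸ hyD⟩

theorem IsGen.below {Q P f : M} (hP : Po P) (hf : IsGen Q P f) (A : M → Prop) [D1 A]
    (hA : ∀ x y, LE P x y → A y → A x) {q : M} (hq : q ∈ fs Q)
    (hD : ∀ x, LE P x (ap f q) → ∃ y, LE P y x ∧ A y) : ∃ q', LE Q q' q ∧ A (ap f q') := by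
  obtain ⟨q', hq', h1⟩ := hf.2 (sep (fs P) (fun x => A x ∨ ∀ y, LE P y x → ¬ LE P y (ap f q))) (by
    refine ⟨fun x hx => by rw [mem_sep] at hx; exact hx.1, fun x y hxy hy => ?_, fun x hx => ?_⟩
    · rw [mem_sep] at hy ⊢
      refine ⟨hxy.1, ?_⟩
      rcases hy.2 with h | h
      · exact Or.inl (hA x y hxy h)
      · exact Or.inr fun z hz => h z (hP.trans hz hxy)
    · by_cases hx' : ∃ y, LE P y x ∧ LE P y (ap f q)
      · obtain ⟨y, hy, hyq⟩ := hx'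
        obtain ⟨y', hy', hD'⟩ := hD y hyq
        exact ⟨y', hP.trans hy' hy, by rw [mem_sep]; exact ⟨hy'.1, Or.inl hD'⟩⟩
      · push Not at hx'
        exact ⟨x, hP.refl hx, by rw [mem_sep]; exact ⟨hx, Or.inr hx'⟩⟩) q hq
  rw [mem_sep] at h1
  rcases h1.2 with h1 | h1
  · exact ⟨q', hq', h1⟩
  · exact absurd (hf.1.le hq') (h1 _ (hP.refl (hf.1.mem hq'.1)))

/-- A generic map meets every property which is dense everywhere. -/
theorem IsGen.meet {Q P f : M} (hP : Po P) (hf : IsGen Q P f) (A : M → Prop) [D1 A]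
    (hA : ∀ x y, LE P x y → A y → A x) (hD : ∀ x, x ∈ fs P → ∃ y, LE P y x ∧ A y) {q : M}
    (hq : q ∈ fs Q) : ∃ q', LE Q q' q ∧ A (ap f q') :=
  hf.below hP A hA hq fun x hx => hD x hx.1

theorem IsGen.comp {Q' Q P f g : M} (hQ : Po Q) (hf : IsGen Q P f)
    (hg : IsGen Q' Q g) : IsGen Q' P (cpf Q' P f g) := by
  refine ⟨hf.1.comp hg.1, fun D hD q hq => ?_⟩
  obtain ⟨q', h1, h2⟩ := hg.meet hQ (fun x => ap f x ∈ D) (fun x y hxy hy =>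
    hD.2.1 _ _ (hf.1.le hxy) hy) (fun x hx => hf.2 D hD x hx) hq
  exact ⟨q', h1, by rw [ap_cpf hf.1 hg.1 h1.1]; exact h2⟩

section
variable {Q P f : M} (hQ : Po Q) (hP : Po P) (hf : IsGen Q P f)
include hQ hP hf

omit hf in
theorem Nt_pull (hf : Hom Q P f) {τ n q : M} :
    Nt Q (pull Q P f τ) n q ↔ n ∈ (omega : M) ∧ q ∈ fs Q ∧ Nt P τ n (ap f q) := by
  unfold pull
  constructor
  · rintro ⟨k', h1, h2⟩
    rw [mem_sep, opair_mem_prod, fs_opair, sn_opair] at h2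
    exact ⟨h2.1.1, h1.1, h2.2.down hP (hf.le h1)⟩
  · rintro ⟨h1, h2, h3⟩
    exact ⟨q, hQ.refl h2, by
      rw [mem_sep, opair_mem_prod, fs_opair, sn_opair]; exact ⟨⟨h1, h2⟩, h3⟩⟩

theorem Fc.pull {τ n q : M} (hn : n ∈ (omega : M)) (H : Fc P τ n (ap f q)) :
    Fc Q (pull Q P f τ) n q := by
  intro q1 hq1
  obtain ⟨q2, h2, h3⟩ := hf.below hP (fun x => Nt P τ n x) (fun x y hxy hy => hy.down hP hxy)
    hq1.1 (fun x hx => H x (hP.trans hx (hf.1.le hq1)))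
  exact ⟨q2, h2, (Nt_pull hQ hP hf.1).2 ⟨hn, h2.1, h3⟩⟩

theorem Nc.pull {τ n q : M} (H : Nc P τ n (ap f q)) : Nc Q (pull Q P f τ) n q :=
  fun q1 hq1 h1 => H (ap f q1) (hf.1.le hq1) ((Nt_pull hQ hP hf.1).1 h1).2.2

theorem FSub.pull {τ υ q : M} (H : FSub P τ υ (ap f q)) :
    FSub Q (pull Q P f τ) (pull Q P f υ) q := by
  intro n hn q1 hq1 h1
  exact Fc.pull hQ hP hf hn (H n hn _ (hf.1.le hq1) ((Nt_pull hQ hP hf.1).1 h1).2.2)

theorem FInf.pull {τ q : M} (H : FInf P τ (ap f q)) : FInf Q (pull Q P f τ) q := by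
  intro N hN q1 hq1
  obtain ⟨q2, hq2, n, hno, hn, h2⟩ := hf.below hP
    (fun x => ∃ n, n ∈ (omega : M) ∧ N ⊆ n ∧ Nt P τ n x)
    (fun x y hxy ⟨n, h1, h2, h3⟩ => ⟨n, h1, h2, h3.down hP hxy⟩) hq1.1 (by
      intro x hx
      obtain ⟨n, hno, hn, y, hy, h3⟩ := H N hN x (hP.trans hx (hf.1.le hq1))
      exact ⟨y, hy, n, hno, hn, h3⟩)
  exact ⟨n, hno, hn, q2, hq2, (Nt_pull hQ hP hf.1).2 ⟨hno, hq2.1, h2⟩⟩

theorem FAe.pull {τ a q : M} (H : FAe P τ a (ap f q)) : FAe Q (pull Q P f τ) a q := by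
  intro q1 hq1
  obtain ⟨q2, hq2, N, hNo, hN⟩ := hf.below hP
    (fun x => ∃ N, N ∈ (omega : M) ∧ ∀ n, n ∈ (omega : M) → N ⊆ n → n ∉ a → Nc P τ n x)
    (fun x y hxy ⟨N, hNo, hN⟩ => ⟨N, hNo, fun n hno hn hna => (hN n hno hn hna).down hP hxy⟩)
    hq1.1 (by
      intro x hx
      obtain ⟨y, hy, N, hNo, hN⟩ := H x (hP.trans hx (hf.1.le hq1))
      exact ⟨y, hy, N, hNo, hN⟩)
  exact ⟨q2, hq2, N, hNo, fun n hno hn hna => Nc.pull hQ hP hf (hN n hno hn hna)⟩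

theorem Yy.pull {p τ q : M} (hq : q ∈ fs Q) (H : Yy P p τ (ap f q)) :
    Yy Q p (pull Q P f τ) q :=
  ⟨hq, FInf.pull hQ hP hf H.2.1, fun a ha => FAe.pull hQ hP hf (H.2.2 a ha)⟩

theorem Nt_pull_chk {A n k : M} :
    Nt Q (BLI.pull Q P f (chk P A)) n k ↔ Nt Q (chk Q A) n k := by
  rw [Nt_pull hQ hP hf.1, Nt_chk hP, Nt_chk hQ]
  constructor
  · rintro ⟨h1, h2, _, h4, _⟩; exact ⟨h1, h4, h2⟩
  · rintro ⟨h1, h2, h3⟩; exact ⟨h1, h3, h1, h2, hf.1.mem h3⟩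

theorem pull_chk_sub (A q : M) : FSub Q (BLI.pull Q P f (chk P A)) (chk Q A) q :=
  FSub.of_le hQ (fun _ _ _ h => (Nt_pull_chk hQ hP hf).1 h) q

theorem chk_pull_sub (A q : M) : FSub Q (chk Q A) (BLI.pull Q P f (chk P A)) q :=
  FSub.of_le hQ (fun _ _ _ h => (Nt_pull_chk hQ hP hf).2 h) q

theorem pull_inr_sub (τ υ q : M) :
    FSub Q (BLI.pull Q P f (inr P τ υ)) (inr Q (BLI.pull Q P f τ) (BLI.pull Q P f υ)) q := by
  refine FSub.of_le hQ (fun n k hn h => ?_) q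
  rw [Nt_pull hQ hP hf.1, Nt_inr hP] at h
  rw [Nt_inr hQ, Nt_pull hQ hP hf.1, Nt_pull hQ hP hf.1]
  exact ⟨hn, ⟨hn, h.2.1, h.2.2.2.1⟩, hn, h.2.1, h.2.2.2.2⟩

theorem inr_pull_sub (τ υ q : M) :
    FSub Q (inr Q (BLI.pull Q P f τ) (BLI.pull Q P f υ)) (BLI.pull Q P f (inr P τ υ)) q := by
  refine FSub.of_le hQ (fun n k hn h => ?_) q
  rw [Nt_inr hQ, Nt_pull hQ hP hf.1, Nt_pull hQ hP hf.1] at h
  rw [Nt_pull hQ hP hf.1, Nt_inr hP]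
  exact ⟨hn, h.2.1.2.1, hn, h.2.1.2.2, h.2.2.2.2⟩

theorem pull_cmp_sub (τ q : M) : FSub Q (BLI.pull Q P f (cmp P τ)) (cmp Q (BLI.pull Q P f τ)) q := by
  refine FSub.of_le hQ (fun n k hn h => ?_) q
  rw [Nt_pull hQ hP hf.1, Nt_cmp hP] at h
  rw [Nt_cmp hQ]
  exact ⟨hn, h.2.1, Nc.pull hQ hP hf h.2.2.2.2⟩

omit hQ in
theorem decide_pull (τ : M) {n k : M} (hk : k ∈ fs Q) :
    ∃ k', LE Q k' k ∧ (Nt P τ n (ap f k') ∨ Nc P τ n (ap f k')) := by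
  apply hf.meet hP (fun x => Nt P τ n x ∨ Nc P τ n x) _ _ hk
  · rintro a b hba (ha | ha)
    · exact Or.inl (ha.down hP hba)
    · exact Or.inr (ha.down hP hba)
  · intro x hx
    by_cases hx' : Nc P τ n x
    · exact ⟨x, hP.refl hx, Or.inr hx'⟩
    · obtain ⟨y, hy, h2⟩ := exists_of_not_nc hx'
      exact ⟨y, hy, Or.inl h2⟩

theorem cmp_pull_sub (τ q : M) :
    FSub Q (cmp Q (BLI.pull Q P f τ)) (BLI.pull Q P f (cmp P τ)) q := by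
  refine FSub.of_dense hQ fun n hn k _ hk => ?_
  rw [Nt_cmp hQ] at hk
  obtain ⟨k', hk', h1⟩ := decide_pull hP hf τ (n := n) hk.2.1
  rcases h1 with h1 | h1
  · exact absurd ((Nt_pull hQ hP hf.1).2 ⟨hn, hk'.1, h1⟩) (hk.2.2 k' hk')
  · exact ⟨k', hk', (Nt_pull hQ hP hf.1).2 ⟨hn, hk'.1, (Nt_cmp hP).2 ⟨hn, hf.1.mem hk'.1, h1⟩⟩⟩

end

/-- The pullback along a composition. -/
theorem Nt_pull_comp {Q' Q P f g τ n q : M} (hQ' : Po Q') (hQ : Po Q) (hP : Po P)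
    (hf : Hom Q P f) (hg : Hom Q' Q g) :
    Nt Q' (pull Q' P (cpf Q' P f g) τ) n q ↔ Nt Q' (pull Q' Q g (pull Q P f τ)) n q := by
  rw [Nt_pull hQ' hP (hf.comp hg), Nt_pull hQ' hQ hg, Nt_pull hQ hP hf]
  constructor
  · rintro ⟨h1, h2, h3⟩
    rw [ap_cpf hf hg h2] at h3
    exact ⟨h1, h2, h1, hg.mem h2, h3⟩
  · rintro ⟨h1, h2, _, _, h3⟩
    refine ⟨h1, h2, ?_⟩
    rw [ap_cpf hf hg h2]
    exact h3

theorem pull_comp_sub {Q' Q P f g : M} (hQ' : Po Q') (hQ : Po Q) (hP : Po P)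
    (hf : Hom Q P f) (hg : Hom Q' Q g) (τ q : M) :
    FSub Q' (pull Q' P (cpf Q' P f g) τ) (pull Q' Q g (pull Q P f τ)) q :=
  FSub.of_le hQ' (fun _ _ _ h => (Nt_pull_comp hQ' hQ hP hf hg).1 h) q

theorem comp_pull_sub {Q' Q P f g : M} (hQ' : Po Q') (hQ : Po Q) (hP : Po P)
    (hf : Hom Q P f) (hg : Hom Q' Q g) (τ q : M) :
    FSub Q' (pull Q' Q g (pull Q P f τ)) (pull Q' P (cpf Q' P f g) τ) q :=
  FSub.of_le hQ' (fun _ _ _ h => (Nt_pull_comp hQ' hQ hP hf hg).2 h) q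

/-! ### Exits (`t` is a function from `omega` to subsets of `omega`) -/

/-- The labels are sets of numbers. -/
def Lab (t : M) : Prop := ∀ e, e ∈ (omega : M) → ap t e ⊆ omega

instance DR.Lab (t : (ι → M) → M) [DF t] : DR (fun v => Lab (t v)) := by
  unfold BLI.Lab; infer_instance

section
variable {Q P f : M} (hQ : Po Q) (hP : Po P) (hf : IsGen Q P f) {t : M} (ht : Lab t)
include hQ

include hP hf ht in
theorem pull_exn_sub (y Ψ q : M) :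
    FSub Q (pull Q P f (exn P t y Ψ)) (exn Q t (pull Q P f y) (pull Q P f Ψ)) q := by
  refine FSub.of_le hQ (fun e k he h => ?_) q
  rw [Nt_pull hQ hP hf.1, Nt_exn hP] at h
  obtain ⟨_, hk, _, _, n, hn, h1, h2, h3⟩ := h
  rw [Nt_exn hQ]
  have hto := ht e he
  exact ⟨he, hk, n, hn, Nc.pull hQ hP hf h1, fun m hm hmn =>
    (Nt_pull hQ hP hf.1).2 ⟨hto m hm, hk, h2 m hm hmn⟩,
    (Nt_pull hQ hP hf.1).2 ⟨hto n hn, hk, h3⟩⟩

include hP hf ht in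
theorem exn_pull_sub (y Ψ q : M) :
    FSub Q (exn Q t (pull Q P f y) (pull Q P f Ψ)) (pull Q P f (exn P t y Ψ)) q := by
  refine FSub.of_dense hQ fun e he k _ hk => ?_
  rw [Nt_exn hQ] at hk
  obtain ⟨_, hkQ, n, hn, h1, h2, h3⟩ := hk
  have hto := ht e he
  obtain ⟨k1, hk1, h4⟩ := decide_pull hP hf y (n := n) hkQ
  rcases h4 with h4 | h4
  · exact absurd ((Nt_pull hQ hP hf.1).2 ⟨hto n hn, hk1.1, h4⟩) (h1 k1 hk1)
  · refine ⟨k1, hk1, (Nt_pull hQ hP hf.1).2 ⟨he, hk1.1, (Nt_exn hP).2 ⟨he, hf.1.mem hk1.1, n, hn, h4,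
      fun m hm hmn => ?_, ?_⟩⟩⟩
    · exact ((Nt_pull hQ hP hf.1).1 ((h2 m hm hmn).down hQ hk1)).2.2
    · exact ((Nt_pull hQ hP hf.1).1 (h3.down hQ hk1)).2.2

include ht in
theorem exn_mono {y Ψ Ψ' h : M} (H : FSub Q Ψ Ψ' h) : FSub Q (exn Q t y Ψ) (exn Q t y Ψ') h := by
  refine FSub.of_dense hQ fun e he k hkh hk => ?_
  rw [Nt_exn hQ] at hk
  obtain ⟨_, hkQ, n, hn, h1, h2, h3⟩ := hk
  obtain ⟨k1, hk1, h4⟩ := H n (ht e he n hn) k hkh h3 k (hQ.refl hkQ)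
  exact ⟨k1, hk1, (Nt_exn hQ).2 ⟨he, hk1.1, n, hn, h1.down hQ hk1,
    fun m hm hmn => (h2 m hm hmn).down hQ hk1, h4⟩⟩

include ht in
/-- If `z ⊆ w ⊆ y` and the first exit from `w` is in `y`, then the first exit from `z` is in `y`. -/
theorem exn_sub {z w y h : M} (H1 : FSub Q z w h) (H2 : FSub Q w y h) :
    FSub Q (exn Q t w y) (exn Q t z y) h := by
  refine FSub.of_dense hQ fun e he k hkh hk => ?_
  rw [Nt_exn hQ] at hk
  obtain ⟨_, hkQ, n, hn, h1, h2, h3⟩ := hk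
  have hto := ht e he
  have hno := hto n hn
  obtain ⟨k1, hk1, h4⟩ := decide_lt hQ z (succ_mem_omega hno) hkQ
  obtain ⟨k2, hk2, h5⟩ := decide_lt hQ y (succ_mem_omega hno) hk1.1
  have hk21 : LE Q k2 k := hQ.trans hk2 hk1
  obtain ⟨m0, hm0, ⟨hm1, hm2, hm3⟩, hmin⟩ := exists_least
    (fun m => m ∈ ap t e ∧ m ⊆ n ∧ Nc Q z m k2)
    ⟨n, hno, hn, sub_refl n, (H1.nc hQ hno hkh h1).down hQ hk21⟩
  have hm0s : m0 ∈ succ n := (lt_succ_iff hm0 hno).2 hm2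
  refine ⟨k2, hk21, (Nt_exn hQ).2 ⟨he, hk2.1, m0, hm1, hm3, fun m hm hmn => ?_, ?_⟩⟩
  · have h6 := hmin m hmn
    have hmo := hto m hm
    have hmle : m ⊆ n := sub_trans (omega_trans hm0 m hmn) hm2
    rcases h4 m ((lt_succ_iff hmo hno).2 hmle) with h7 | h7
    · exact h7.down hQ hk2
    · exact absurd ⟨hm, hmle, h7.down hQ hk2⟩ h6
  · rcases h5 m0 hm0s with h7 | h7
    · exact h7
    · exfalso
      rcases (le_iff hm0 hno).1 hm2 with h8 | h8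
      · have h9 := h2 _ hm1 h8
        exact (Fc.of_mem hQ (h9.down hQ hk21)).not_nc hQ hk2.1
          (H2.nc hQ hm0 (hQ.trans hk21 hkh) h7)
      · rw [h8] at h7
        exact h7 k2 (hQ.refl hk2.1) (h3.down hQ hk21)

include hP hf ht in
theorem pull_tsub_sub (y q : M) : FSub Q (pull Q P f (tsub P t y)) (tsub Q t (pull Q P f y)) q := by
  have h1 : FSub Q (exn Q t (pull Q P f y) (chk Q omega)) (pull Q P f (exn P t y (chk P omega))) q :=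
    (exn_mono hQ ht (chk_pull_sub hQ hP hf omega q)).trans hQ (exn_pull_sub hQ hP hf ht y _ q)
  exact (pull_cmp_sub hQ hP hf _ q).trans hQ (h1.cmp_anti hQ)

end

end Pool.Agent.ZFIter.NPA.BLI
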