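import Pool.Agent.BLI.MR

/-!
# BLI/RigRun: two generic sets whose intersection is an infinite subset of `z`
(inside a model of ZF)
-/

universe u

namespace Pool.Agent.ZFIter.NPA.BLI

open Pool.Agent.H78.ZF Pool.Agent.ZFIter Pool.Agent.ZFIter.NPA Pool.Agent.ZFIter.NPA.BSM

variable {M : Type u} [ZFM M] {ι : Type}

/-- The conditions of the run. -/
noncomputable def RT (Q z q S : M) : M :=
  sep (prod (fs Q) (fs (prP (GG S) (GG S)))) (fun x => LE Q (fs x) q ∧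
    fs (fs (sn x)) = fs (sn (sn x)) ∧
    ∀ n, n ∈ sn (fs (sn x)) → n ∈ sn (sn (sn x)) → Nt Q z n (fs x))

section
variable {Q z q S : M}

theorem RT_sub : RT Q z q S ⊆ prod (fs Q) (fs (prP (GG S) (GG S))) := fun x hx => by
  unfold RT at hx
  rw [mem_sep] at hx
  exact hx.1

theorem opair_RT {k a b : M} : opair k (opair a b) ∈ RT Q z q S ↔
    LE Q k q ∧ a ∈ fs (GG S) ∧ b ∈ fs (GG S) ∧ fs a = fs b ∧
      ∀ n, n ∈ sn a → n ∈ sn b → Nt Q z n k := by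
  unfold RT
  rw [mem_sep]
  simp only [fs_opair, sn_opair, opair_mem_prod, mem_prP]
  exact ⟨fun h => ⟨h.2.1, h.1.2.1, h.1.2.2, h.2.2.1, h.2.2.2⟩,
    fun h => ⟨⟨h.1.1, h.2.1, h.2.2.1⟩, h.1, h.2.2.2.1, h.2.2.2.2⟩⟩

theorem mem_RT {x : M} (hx : x ∈ RT Q z q S) : ∃ k a b, x = opair k (opair a b) ∧
    LE Q k q ∧ a ∈ fs (GG S) ∧ b ∈ fs (GG S) ∧ fs a = fs b ∧
      ∀ n, n ∈ sn a → n ∈ sn b → Nt Q z n k := by
  obtain ⟨k, _, c, hc, rfl⟩ := (mem_prod _ _ _).1 (RT_sub x hx)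
  unfold prP at hc
  rw [fs_sbP] at hc
  obtain ⟨a, _, b, _, rfl⟩ := (mem_prod _ _ _).1 hc
  exact ⟨k, a, b, rfl, opair_RT.1 hx⟩

theorem LE_RT {k a b k' a' b' : M} :
    LE (sbP Q (prP (GG S) (GG S)) (RT Q z q S)) (opair k (opair a b)) (opair k' (opair a' b')) ↔
      opair k (opair a b) ∈ RT Q z q S ∧ opair k' (opair a' b') ∈ RT Q z q S ∧
        LE Q k k' ∧ LE (GG S) a a' ∧ LE (GG S) b b' := by
  rw [LE_sbP]
  simp only [fs_opair, sn_opair, LE_prP]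

end

/-- Add the number `n` to the domain and to the set. -/
theorem gg_add {S a n : M} (hS : IdealS S) (ha : a ∈ fs (GG S)) (hn : n ∈ (omega : M))
    (hna : n ∉ fs a) : LE (GG S) (opair (ins (fs a) n) (ins (sn a) n)) a := by
  obtain ⟨h1, h2, h3, _⟩ := GG_fs ha
  have hZ : ins (fs a) n ∈ S := hS.union h1 (hS.sing hn)
  rw [LE_GG, fs_opair, sn_opair]
  refine ⟨opair_GG_of hS hZ fun k hk => ?_, ha, fun k hk => by rw [mem_ins]; exact Or.inl hk,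
    fun e he => ?_⟩
  · rw [mem_ins] at hk ⊢
    exact hk.imp (h3 k) id
  · rw [mem_ins]
    constructor
    · rintro (h | h)
      · exact h
      · rw [h] at he
        exact absurd he hna
    · exact Or.inl

theorem rigRun {Sm : M → Prop} (hSm : SmC Sm) {p Q z q : M} (hp : Selective p) (hQ : SP Sm Q)
    (hz : Yy Q p z q) :
    ∃ T f g₁ g₂ x w, SP Sm T ∧ IsGen T Q f ∧ IsGen T (GG (duS p)) g₁ ∧
      IsGen T (GG (duS p)) g₂ ∧ x ∈ fs T ∧ LE Q (ap f x) q ∧ FInf T w x ∧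
      FSub T w (pull T Q f z) x ∧
      FSub T w (pull T (GG (duS p)) g₁ (gname (duS p))) x ∧
      FSub T w (pull T (GG (duS p)) g₂ (gname (duS p))) x ∧
      FSub T (inr T (pull T (GG (duS p)) g₁ (gname (duS p)))
        (pull T (GG (duS p)) g₂ (gname (duS p)))) w x := by
  obtain ⟨S, hSdef⟩ : ∃ S : M, S = duS p := ⟨_, rfl⟩
  have hS : IdealS S := by rw [hSdef]; exact idealS_duS hp.1 hp.2.1
  rw [← hSdef]
  have hG : SP Sm (GG S) := sp_GG hSm hS.1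
  have hGG : SP Sm (prP (GG S) (GG S)) := sp_prP hSm hG hG
  have hT : SP Sm (sbP Q (prP (GG S) (GG S)) (RT Q z q S)) := sp_sbP hSm RT_sub hQ hGG
  have hfs : ∀ x, x ∈ fs (sbP Q (prP (GG S) (GG S)) (RT Q z q S)) ↔ x ∈ RT Q z q S := fun x => by
    rw [fs_sbP]
  obtain ⟨f, hfdef⟩ : ∃ f : M, f = pf1 Q (RT Q z q S) := ⟨_, rfl⟩
  have hfH : Hom (sbP Q (prP (GG S) (GG S)) (RT Q z q S)) Q f := by
    rw [hfdef]; exact hom_pf1 RT_sub
  have h2H : Hom (sbP Q (prP (GG S) (GG S)) (RT Q z q S)) (prP (GG S) (GG S))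
    (pf2 (prP (GG S) (GG S)) (RT Q z q S)) := hom_pf2 RT_sub
  have hpP := isProj_fst (A := GG S) (B := GG S) hG.1
  have hpQ := isProj_snd (A := GG S) (B := GG S) hG.1
  obtain ⟨g1, hg1def⟩ : ∃ g1 : M, g1 = cpf (sbP Q (prP (GG S) (GG S)) (RT Q z q S)) (GG S)
    (pf1 (GG S) (prod (fs (GG S)) (fs (GG S)))) (pf2 (prP (GG S) (GG S)) (RT Q z q S)) := ⟨_, rfl⟩
  obtain ⟨g2, hg2def⟩ : ∃ g2 : M, g2 = cpf (sbP Q (prP (GG S) (GG S)) (RT Q z q S)) (GG S)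
    (pf2 (GG S) (prod (fs (GG S)) (fs (GG S)))) (pf2 (prP (GG S) (GG S)) (RT Q z q S)) := ⟨_, rfl⟩
  have h1g : Hom (sbP Q (prP (GG S) (GG S)) (RT Q z q S)) (GG S) g1 := by
    rw [hg1def]; exact hpP.1.comp h2H
  have h2g : Hom (sbP Q (prP (GG S) (GG S)) (RT Q z q S)) (GG S) g2 := by
    rw [hg2def]; exact hpQ.1.comp h2H
  have hfa : ∀ k a b, opair k (opair a b) ∈ RT Q z q S →
      ap f (opair k (opair a b)) = k ∧ ap g1 (opair k (opair a b)) = a ∧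
        ap g2 (opair k (opair a b)) = b := by
    intro k a b hm
    have h1 := opair_RT.1 hm
    have hab : opair a b ∈ prod (fs (GG S)) (fs (GG S)) := by
      rw [opair_mem_prod]
      exact ⟨h1.2.1, h1.2.2.1⟩
    refine ⟨?_, ?_, ?_⟩
    · rw [hfdef, ap_pf1 RT_sub hm, fs_opair]
    · rw [hg1def, ap_cpf hpP.1 h2H ((hfs _).2 hm), ap_pf2 RT_sub hm, sn_opair,
        ap_pf1 (sub_refl _) hab, fs_opair]
    · rw [hg2def, ap_cpf hpQ.1 h2H ((hfs _).2 hm), ap_pf2 RT_sub hm, sn_opair,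
        ap_pf2 (sub_refl _) hab, sn_opair]
  have hx0 : opair q (opair (opair emp emp) (opair emp emp)) ∈ RT Q z q S := by
    refine opair_RT.2 ⟨hQ.1.refl hz.1, GG_top hS, GG_top hS, rfl, fun n hn => ?_⟩
    rw [sn_opair] at hn
    exact absurd hn (not_mem_emp n)
  obtain ⟨w, hwdef⟩ : ∃ w : M, w = mkNm (sbP Q (prP (GG S) (GG S)) (RT Q z q S))
    (fun n x => n ∈ sn (fs (sn x)) ∧ n ∈ sn (sn (sn x))) := ⟨_, rfl⟩
  have hw : ∀ n k a b, Nt (sbP Q (prP (GG S) (GG S)) (RT Q z q S)) w n (opair k (opair a b)) ↔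
      n ∈ (omega : M) ∧ opair k (opair a b) ∈ RT Q z q S ∧ n ∈ sn a ∧ n ∈ sn b := by
    intro n k a b
    rw [hwdef, Nt_mkNm hT.1 (fun n x x' hk hn => ?_), hfs]
    · simp only [fs_opair, sn_opair]
    · have hx1 := (hfs _).1 hk.1
      have hx2 := (hfs _).1 hk.2.1
      obtain ⟨k, a, b, rfl, _⟩ := mem_RT hx1
      obtain ⟨k', a', b', rfl, _⟩ := mem_RT hx2
      rw [LE_RT] at hk
      simp only [fs_opair, sn_opair] at hn ⊢
      have h3 := LE_GG.1 hk.2.2.2.1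
      have h4 := LE_GG.1 hk.2.2.2.2
      exact ⟨(h3.2.2.2 n ((GG_fs h3.2.1).2.2.1 n hn.1)).2 hn.1,
        (h4.2.2.2 n ((GG_fs h4.2.1).2.2.1 n hn.2)).2 hn.2⟩
  refine ⟨sbP Q (prP (GG S) (GG S)) (RT Q z q S), f, g1, g2,
    opair q (opair (opair emp emp) (opair emp emp)), w, hT, ⟨hfH, ?_⟩, ⟨h1g, ?_⟩, ⟨h2g, ?_⟩,
    (hfs _).2 hx0, ?_, ?_, ?_, ?_, ?_, ?_⟩
  · intro D hD x hx
    obtain ⟨k, a, b, rfl, h1, h2, h3, h4, h5⟩ := mem_RT ((hfs x).1 hx)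
    obtain ⟨k', hk', hkD⟩ := hD.2.2 k h1.1
    have hm : opair k' (opair a b) ∈ RT Q z q S := opair_RT.2
      ⟨hQ.1.trans hk' h1, h2, h3, h4, fun n hn hn' => (h5 n hn hn').down hQ.1 hk'⟩
    exact ⟨_, LE_RT.2 ⟨hm, (hfs _).1 hx, hk', hG.1.refl h2, hG.1.refl h3⟩,
      by rw [(hfa _ _ _ hm).1]; exact hkD⟩
  · intro D hD x hx
    obtain ⟨k, a, b, rfl, h1, h2, h3, h4, h5⟩ := mem_RT ((hfs x).1 hx)
    obtain ⟨a', ha', haD⟩ := hD.2.2 a h2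
    have ha := LE_GG.1 ha'
    have hb := GG_fs h3
    have hsub : sn b ⊆ fs a' := fun n hn => ha.2.2.1 n (by rw [h4]; exact hb.2.2.1 n hn)
    have hb' : opair (fs a') (sn b) ∈ fs (GG S) := opair_GG_of hS (GG_fs ha'.1).1 hsub
    have hm : opair k (opair a' (opair (fs a') (sn b))) ∈ RT Q z q S := by
      refine opair_RT.2 ⟨h1, ha'.1, hb', by rw [fs_opair], fun n hn hn' => ?_⟩
      rw [sn_opair] at hn'
      have h6 : n ∈ fs a := by rw [h4]; exact hb.2.2.1 n hn'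
      exact h5 n ((ha.2.2.2 n h6).1 hn) hn'
    refine ⟨_, LE_RT.2 ⟨hm, (hfs _).1 hx, hQ.1.refl h1.1, ha', LE_GG.2 ⟨hb', h3, ?_, ?_⟩⟩, ?_⟩
    · rw [fs_opair, ← h4]; exact ha.2.2.1
    · intro e _; rw [sn_opair]
    · rw [(hfa _ _ _ hm).2.1]; exact haD
  · intro D hD x hx
    obtain ⟨k, a, b, rfl, h1, h2, h3, h4, h5⟩ := mem_RT ((hfs x).1 hx)
    obtain ⟨b', hb', hbD⟩ := hD.2.2 b h3
    have hb := LE_GG.1 hb'
    have ha := GG_fs h2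
    have hsub : sn a ⊆ fs b' := fun n hn => hb.2.2.1 n (by rw [← h4]; exact ha.2.2.1 n hn)
    have ha' : opair (fs b') (sn a) ∈ fs (GG S) := opair_GG_of hS (GG_fs hb'.1).1 hsub
    have hm : opair k (opair (opair (fs b') (sn a)) b') ∈ RT Q z q S := by
      refine opair_RT.2 ⟨h1, ha', hb'.1, by rw [fs_opair], fun n hn hn' => ?_⟩
      rw [sn_opair] at hn
      have h6 : n ∈ fs b := by rw [← h4]; exact ha.2.2.1 n hn
      exact h5 n hn ((hb.2.2.2 n h6).1 hn')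
    refine ⟨_, LE_RT.2 ⟨hm, (hfs _).1 hx, hQ.1.refl h1.1, LE_GG.2 ⟨ha', h2, ?_, ?_⟩, hb'⟩, ?_⟩
    · rw [fs_opair, h4]; exact hb.2.2.1
    · intro e _; rw [sn_opair]
    · rw [(hfa _ _ _ hm).2.2]; exact hbD
  · rw [(hfa _ _ _ hx0).1]; exact hQ.1.refl hz.1
  · intro N hN x hx
    obtain ⟨k, a, b, rfl, h1, h2, h3, h4, h5⟩ := mem_RT ((hfs x).1 hx.1)
    have e1 := xmem hQ.1 hp.1 (hz.down hQ.1 h1)
    have haS := (GG_fs h2).1
    rw [hSdef, mem_duS] at haS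
    have e2 := UF.compl hp.1 haS.1 haS.2
    obtain ⟨n, hn⟩ := hp.1.ne (UF.itr hp.1 (UF.itr hp.1 e1 e2) (Sel.gt hp hN))
    simp only [mem_itr, mem_sep, mem_dif] at hn
    obtain ⟨⟨⟨hno, k', hk', hkz⟩, _, hna⟩, _, hNn⟩ := hn
    have hnb : n ∉ fs b := by rw [← h4]; exact hna
    have ha' := gg_add hS h2 hno hna
    have hb' := gg_add hS h3 hno hnb
    have hm : opair k' (opair (opair (ins (fs a) n) (ins (sn a) n))
        (opair (ins (fs b) n) (ins (sn b) n))) ∈ RT Q z q S := by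
      refine opair_RT.2 ⟨hQ.1.trans hk' h1, ha'.1, hb'.1, ?_, fun m hm1 hm2 => ?_⟩
      · rw [fs_opair, fs_opair, h4]
      · rw [sn_opair, mem_ins] at hm1 hm2
        rcases hm1 with hm1 | hm1
        · rcases hm2 with hm2 | hm2
          · exact (h5 m hm1 hm2).down hQ.1 hk'
          · rw [hm2]; exact hkz
        · rw [hm1]; exact hkz
    refine ⟨n, hno, omega_trans hno N hNn, _, LE_RT.2 ⟨hm, (hfs _).1 hx.1, hk', ha', hb'⟩,
      (hw _ _ _ _).2 ⟨hno, hm, ?_, ?_⟩⟩ <;> rw [sn_opair, mem_ins] <;> exact Or.inr rfl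
  · refine FSub.of_le hT.1 (fun n x hn hx => ?_) _
    obtain ⟨k, a, b, rfl, h1⟩ := mem_RT ((hfs x).1 hx.mem)
    rw [hw] at hx
    rw [Nt_pull hT.1 hQ.1 hfH, (hfa _ _ _ hx.2.1).1]
    exact ⟨hn, (hfs _).2 hx.2.1, h1.2.2.2.2 n hx.2.2.1 hx.2.2.2⟩
  · refine FSub.of_le hT.1 (fun n x hn hx => ?_) _
    obtain ⟨k, a, b, rfl, h1⟩ := mem_RT ((hfs x).1 hx.mem)
    rw [hw] at hx
    rw [Nt_pull hT.1 hG.1 h1g, (hfa _ _ _ hx.2.1).2.1, Nt_gname]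
    exact ⟨hn, (hfs _).2 hx.2.1, hn, h1.2.1, hx.2.2.1⟩
  · refine FSub.of_le hT.1 (fun n x hn hx => ?_) _
    obtain ⟨k, a, b, rfl, h1⟩ := mem_RT ((hfs x).1 hx.mem)
    rw [hw] at hx
    rw [Nt_pull hT.1 hG.1 h2g, (hfa _ _ _ hx.2.1).2.2, Nt_gname]
    exact ⟨hn, (hfs _).2 hx.2.1, hn, h1.2.2.1, hx.2.2.2⟩
  · refine FSub.of_le hT.1 (fun n x hn hx => ?_) _
    obtain ⟨k, a, b, rfl, h1⟩ := mem_RT ((hfs x).1 (Nt.mem ((Nt_inr hT.1).1 hx).2.1))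
    rw [Nt_inr hT.1, Nt_pull hT.1 hG.1 h1g, Nt_pull hT.1 hG.1 h2g] at hx
    obtain ⟨_, ⟨_, hxT, h6⟩, _, _, h7⟩ := hx
    have hxC := (hfs _).1 hxT
    rw [(hfa _ _ _ hxC).2.1, Nt_gname] at h6
    rw [(hfa _ _ _ hxC).2.2, Nt_gname] at h7
    exact (hw _ _ _ _).2 ⟨hn, hxC, h6.2.2, h7.2.2⟩

end Pool.Agent.ZFIter.NPA.BLI
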