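import Pool.Agent.BLI.ClaimE
import Pool.Agent.BLI.RigRun

/-!
# BLI/Rig: relevance (inside a model of ZF with choice)
-/

universe u

namespace Pool.Agent.ZFIter.NPA.BLI

open Pool.Agent.H78.ZF Pool.Agent.ZFIter Pool.Agent.ZFIter.NPA Pool.Agent.ZFIter.NPA.BSM

variable {M : Type u} [ZFM M] {ι : Type}

/-- The flipped name of a generic map. -/
noncomputable def flN (T S g : M) : M := pull T (GG S) (cpf T (GG S) (flf S) g) (gname S)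

section
variable {Sm : M → Prop} {p : M} {R : M → M → M → M → Prop} {t : M}

/-- The claim for a generic set containing `w`. -/
theorem rig_claim (hAC : AC M) (hSm : SmC Sm) (hp : Selective p) (hR : AbsRel Sm p R) (ht : Lab t)
    (hH : H0 Sm R t) (hQ : Qp Sm p R t) {T g w Y x : M} (hT : SP Sm T)
    (hg : IsGen T (GG (duS p)) g) (hY : Yy T p Y x) (hwY : FSub T w Y x)
    (hwg : FSub T w (pull T (GG (duS p)) g (gname (duS p))) x) {Q₁ f₁ q₁ z₁ : M}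
    (hQ₁ : SP Sm Q₁) (hf₁ : IsGen Q₁ T f₁) (hq₁ : q₁ ∈ fs Q₁) (hf₁q : LE T (ap f₁ q₁) x)
    (hz₁ : FInf Q₁ z₁ q₁) (hz₁w : FSub Q₁ z₁ (pull Q₁ T f₁ w) q₁) :
    ¬ R Q₁ z₁ (pull Q₁ T f₁ (exn T t Y (flN T (duS p) g))) q₁ := by
  intro H3
  have hS := idealS_duS hp.1 hp.2.1
  have hG : Po (GG (duS p)) := po_GG _
  have hfl := IsGen.comp hG (isGen_flf hS) hg
  have hs := IsGen.comp hT.1 hfl hf₁
  refine claimE hAC hSm hp hR ht hH hQ hQ₁ hs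
    (Yy.pull hQ₁.1 hT.1 hf₁ hq₁ (hY.down hT.1 hf₁q))
    (hz₁w.trans hQ₁.1 (FSub.pull hQ₁.1 hT.1 hf₁ (hwY.down hT.1 hf₁q))) ?_ ?_
  · intro n hn k hk hkz k' hk' hk'F
    have h1 : Fc Q₁ (pull Q₁ T f₁ w) n k := hz₁w n hn k hk hkz
    have h2 := (FSub.pull hQ₁.1 hT.1 hf₁ (hwg.down hT.1 hf₁q)).fc hQ₁.1 hn hk h1
    obtain ⟨k'', hk'', h3⟩ := h2 k' hk'
    rw [Nt_pull hQ₁.1 hT.1 hf₁.1] at h3
    have h4 := (Nt_pull_comp hQ₁.1 hT.1 hG hfl.1 hf₁.1).1 (hk'F.down hQ₁.1 hk'')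
    rw [Nt_pull hQ₁.1 hT.1 hf₁.1] at h4
    exact gname_flip_not hS hT.1 hg h3.2.2 _ (hT.1.refl (hf₁.1.mem hk''.1)) h4.2.2
  · refine hR.mono Q₁ z₁ z₁ _ _ q₁ hQ₁ H3 hz₁ (FSub.refl hQ₁.1 z₁ q₁) ?_
    exact (pull_exn_sub hQ₁.1 hT.1 hf₁ ht _ _ q₁).trans hQ₁.1 (exn_mono hQ₁.1 ht
      (comp_pull_sub hQ₁.1 hT.1 hG hfl.1 hf₁.1 _ q₁))

/-- The core of the proof of `rig`: no instance with an exit. -/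
theorem rig_no (hAC : AC M) (hSm : SmC Sm) (hp : Selective p) (hR : AbsRel Sm p R) (ht : Lab t)
    (hH : H0 Sm R t) (hQ : Qp Sm p R t) {Q y q z' : M} (hQs : SP Sm Q) (hy' : Yy Q p y q)
    (hz' : FInf Q z' q) (hz'y : FSub Q z' y q) : ¬ R Q z' (exn Q t y (chk Q omega)) q := by
  intro H2
  have hS := idealS_duS hp.1 hp.2.1
  have hG : Po (GG (duS p)) := po_GG _
  have hz'Y : Yy Q p z' q := hy'.sub hQs.1 hz'y hz'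
  obtain ⟨T, f', g₁, g₂, x, w, hT, hf', hg₁, hg₂, hx, hfx, hw, hwz, hw₁, hw₂, hw₁₂⟩ :=
    rigRun hSm hp hQs hz'Y
  obtain ⟨YT, hYTdef⟩ : ∃ YT : M, YT = pull T Q f' y := ⟨_, rfl⟩
  have hyT : Yy T p YT x := by
    rw [hYTdef]; exact Yy.pull hT.1 hQs.1 hf' hx (hy'.down hQs.1 hfx)
  have hwy : FSub T w YT x := by
    rw [hYTdef]; exact hwz.trans hT.1 (FSub.pull hT.1 hQs.1 hf' (hz'y.down hQs.1 hfx))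
  obtain ⟨Q₁, f₁, q₁, z₁, hQ₁, hf₁, hq₁, hf₁q, hz₁, hz₁w, HR₁⟩ := tot_of_not hR
    (A := exn T t YT (flN T (duS p) g₁)) hT (hyT.sub hT.1 hwy hw)
    (fun Q₁ f₁ q₁ z₁ hQ₁ hf₁ hq₁ hf₁q hz₁ hz₁w =>
      rig_claim hAC hSm hp hR ht hH hQ hT hg₁ hyT hwy hw₁ hQ₁ hf₁ hq₁ hf₁q hz₁ hz₁w)
  have hz₁Y : Yy Q₁ p z₁ q₁ := hR.yy Q₁ z₁ _ q₁ hQ₁ HR₁
  obtain ⟨Q₂, f₂, q₂, z₂, hQ₂, hf₂, hq₂, hf₂q, hz₂, hz₂z, HR₂⟩ := tot_of_not hR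
    (A := pull Q₁ T f₁ (exn T t YT (flN T (duS p) g₂))) hQ₁ hz₁Y (by
    intro Q₂ f₂ q₂ z₂ hQ₂ hf₂ hq₂ hf₂q hz₂ hz₂z H4
    refine rig_claim hAC hSm hp hR ht hH hQ hT hg₂ hyT hwy hw₂ hQ₂ (IsGen.comp hQ₁.1 hf₁ hf₂) hq₂ ?_
      hz₂ ?_ (hR.mono Q₂ z₂ z₂ _ _ q₂ hQ₂ H4 hz₂ (FSub.refl hQ₂.1 _ _)
        (comp_pull_sub hQ₂.1 hQ₁.1 hT.1 hf₁.1 hf₂.1 _ q₂))
    · rw [ap_cpf hf₁.1 hf₂.1 hq₂]
      exact hT.1.trans (hf₁.1.le hf₂q) hf₁q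
    · exact (hz₂z.trans hQ₂.1 (FSub.pull hQ₂.1 hQ₁.1 hf₂ (hz₁w.down hQ₁.1 hf₂q))).trans hQ₂.1
        (comp_pull_sub hQ₂.1 hQ₁.1 hT.1 hf₁.1 hf₂.1 _ q₂))
  -- collect
  obtain ⟨F, hFdef⟩ : ∃ F : M, F = cpf Q₂ T f₁ f₂ := ⟨_, rfl⟩
  have hFg : IsGen Q₂ T F := by rw [hFdef]; exact IsGen.comp hQ₁.1 hf₁ hf₂
  have hq₂x : LE T (ap F q₂) x := by
    rw [hFdef, ap_cpf hf₁.1 hf₂.1 hq₂]
    exact hT.1.trans (hf₁.1.le hf₂q) hf₁q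
  have hz₂w : FSub Q₂ z₂ (pull Q₂ T F w) q₂ := by
    rw [hFdef]
    exact (hz₂z.trans hQ₂.1 (FSub.pull hQ₂.1 hQ₁.1 hf₂ (hz₁w.down hQ₁.1 hf₂q))).trans hQ₂.1
      (comp_pull_sub hQ₂.1 hQ₁.1 hT.1 hf₁.1 hf₂.1 _ q₂)
  obtain ⟨Y, hY⟩ : ∃ Y : M, Y = pull Q₂ T F YT := ⟨_, rfl⟩
  -- the exits of the two flipped generic sets
  have K1 : R Q₂ z₂ (cmp Q₂ (exn Q₂ t Y (pull Q₂ T F (flN T (duS p) g₁)))) q₂ := by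
    refine transfer hR hQ₁ hQ₂ hf₂ HR₁ hq₂ hf₂q hz₂ hz₂z ?_
    refine (pull_cmp_sub hQ₂.1 hQ₁.1 hf₂ _ q₂).trans hQ₂.1 (FSub.cmp_anti hQ₂.1 ?_)
    rw [hY]
    refine (exn_pull_sub hQ₂.1 hT.1 hFg ht _ _ q₂).trans hQ₂.1 ?_
    rw [hFdef]
    exact pull_comp_sub hQ₂.1 hQ₁.1 hT.1 hf₁.1 hf₂.1 _ q₂
  have K2 : R Q₂ z₂ (cmp Q₂ (exn Q₂ t Y (pull Q₂ T F (flN T (duS p) g₂)))) q₂ := by
    refine hR.mono Q₂ z₂ z₂ _ _ q₂ hQ₂ HR₂ hz₂ (FSub.refl hQ₂.1 z₂ q₂) (FSub.cmp_anti hQ₂.1 ?_)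
    rw [hY]
    refine (exn_pull_sub hQ₂.1 hT.1 hFg ht _ _ q₂).trans hQ₂.1 ?_
    rw [hFdef]
    exact pull_comp_sub hQ₂.1 hQ₁.1 hT.1 hf₁.1 hf₂.1 _ q₂
  have K3 : R Q₂ z₂ (exn Q₂ t Y (chk Q₂ omega)) q₂ := by
    have H2T : R T w (exn T t YT (chk T omega)) x := by
      refine transfer hR hQs hT hf' H2 hx hfx hw hwz ?_
      rw [hYTdef]
      exact (pull_exn_sub hT.1 hQs.1 hf' ht _ _ x).trans hT.1 (exn_mono hT.1 ht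
        (pull_chk_sub hT.1 hQs.1 hf' _ x))
    refine transfer hR hT hQ₂ hFg H2T hq₂ hq₂x hz₂ hz₂w ?_
    rw [hY]
    exact (pull_exn_sub hQ₂.1 hT.1 hFg ht _ _ q₂).trans hQ₂.1 (exn_mono hQ₂.1 ht
      (pull_chk_sub hQ₂.1 hT.1 hFg _ q₂))
  have K4 := hR.inter Q₂ z₂ _ _ q₂ hQ₂ (hR.inter Q₂ z₂ _ _ q₂ hQ₂ K1 K2) K3
  refine no_empty hR hQ₂ K4 ?_
  intro e he k hk hkB
  rw [Nt_inr hQ₂.1, Nt_inr hQ₂.1, Nt_exn hQ₂.1] at hkB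
  obtain ⟨_, ⟨_, hk1, hk2⟩, _, hkQ, n, hn, hn1, hn2, _⟩ := hkB
  have hno := ht e he n hn
  have aux : ∀ g, IsGen T (GG (duS p)) g →
      Nt Q₂ (cmp Q₂ (exn Q₂ t Y (pull Q₂ T F (flN T (duS p) g)))) e k →
      Fc Q₂ (pull Q₂ T F (pull T (GG (duS p)) g (gname (duS p)))) n k := by
    intro g hg hkc
    rw [Nt_cmp hQ₂.1] at hkc
    intro k' hk'
    obtain ⟨k1, hk1', h1⟩ := hFg.meet hT.1 (fun x => n ∈ fs (ap g x)) (fun a b hab hb => by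
      have h5 := LE_GG.1 (hg.1.le hab)
      exact h5.2.2.1 n hb) (fun a ha => gname_dense hS hT.1 hg hno ha) hk'.1
    refine ⟨k1, hk1', ?_⟩
    rw [Nt_pull hQ₂.1 hT.1 hFg.1, gname_pull_iff hT.1 hg (hFg.1.mem hk1'.1)]
    refine ⟨hno, hk1'.1, hno, ?_⟩
    by_contra h3
    have hk1k := hQ₂.1.trans hk1' hk'
    refine hkc.2.2 k1 hk1k ((Nt_exn hQ₂.1).2 ⟨he, hk1'.1, n, hn, hn1.down hQ₂.1 hk1k,
      fun m hm hmn => (hn2 m hm hmn).down hQ₂.1 hk1k, ?_⟩)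
    rw [Nt_pull hQ₂.1 hT.1 hFg.1]
    unfold flN
    rw [gname_flip_iff hS hT.1 hg (hFg.1.mem hk1'.1)]
    exact ⟨hno, hk1'.1, hno, h1, h3⟩
  obtain ⟨k1, hk1', h3⟩ := aux g₁ hg₁ hk1 k (hQ₂.1.refl hkQ)
  obtain ⟨k2, hk2', h4⟩ := aux g₂ hg₂ hk2 k1 hk1'
  have h3' := h3.down hQ₂.1 hk2'
  have hk2k := hQ₂.1.trans hk2' hk1'
  rw [Nt_pull hQ₂.1 hT.1 hFg.1] at h3' h4
  have h5 : Nt Q₂ (pull Q₂ T F (inr T (pull T (GG (duS p)) g₁ (gname (duS p)))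
      (pull T (GG (duS p)) g₂ (gname (duS p))))) n k2 := by
    rw [Nt_pull hQ₂.1 hT.1 hFg.1, Nt_inr hT.1]
    exact ⟨hno, hk2'.1, hno, h3'.2.2, h4.2.2⟩
  have h6 : Fc Q₂ (pull Q₂ T F w) n k2 :=
    (FSub.pull hQ₂.1 hT.1 hFg (hw₁₂.down hT.1 hq₂x)) n hno k2 (hQ₂.1.trans hk2k hk) h5
  have h7 : Fc Q₂ Y n k2 := by
    rw [hY]
    exact (FSub.pull hQ₂.1 hT.1 hFg (hwy.down hT.1 hq₂x)).fc hQ₂.1 hno (hQ₂.1.trans hk2k hk) h6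
  exact h7.not_nc hQ₂.1 hk2'.1 (hn1.down hQ₂.1 hk2k)

end

theorem rig (hAC : AC M) {Sm : M → Prop} (hSm : SmC Sm) {p : M} (hp : Selective p)
    {R : M → M → M → M → Prop} (hR : AbsRel Sm p R) {t : M} (ht : Lab t) (hH : H0 Sm R t)
    (hQ : Qp Sm p R t) : RelT Sm p R t := by
  intro P y h hP hy
  obtain ⟨Q, f, q, z, hQs, hf, hq, hfq, hz, hzy, HR⟩ := tot_of_not hR
    (A := exn P t y (chk P omega)) hP hy (by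
    intro Q f q z' hQs hf hq hfq hz' hz'y H1
    refine rig_no hAC hSm hp hR ht hH hQ hQs (Yy.pull hQs.1 hP.1 hf hq (hy.down hP.1 hfq)) hz' hz'y
      (hR.mono Q z' z' _ _ q hQs H1 hz' (FSub.refl hQs.1 z' q) ?_)
    exact (pull_exn_sub hQs.1 hP.1 hf ht _ _ q).trans hQs.1 (exn_mono hQs.1 ht
      (pull_chk_sub hQs.1 hP.1 hf _ q)))
  refine ⟨Q, f, q, z, hQs, hf, hq, hfq, hzy, ?_⟩
  refine hR.mono Q z z _ _ q hQs HR hz (FSub.refl hQs.1 z q) ?_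
  unfold tsub
  refine FSub.cmp_anti hQs.1 ?_
  exact (exn_mono hQs.1 ht (chk_pull_sub hQs.1 hP.1 hf _ q)).trans hQs.1
    (exn_pull_sub hQs.1 hP.1 hf ht _ _ q)

end Pool.Agent.ZFIter.NPA.BLI
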