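import Pool.Agent.BLI.Sub

/-!
# BLI/Sep: the separation lemma (inside a model of ZF)

`sep_dcmp`: let `W(i)`, `i ∈ I`, be finitely many ultrafilters with disjoint supports `C(i)`, and let
`A(n)` be disjoint sets and `T(n)` sets of sets such that `W(i)`-large sets (for all `i`) meet `A(n)` in
a member of `T(n)` for almost all `n`, and sets which meet `A(n)` in a member of `T(n)` for almost all
`n` are `W(i)`-large for some `i`. Then one of the `W(i)` is decomposable.
-/

universe u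

namespace Pool.Agent.ZFIter.NPA.BLI

open Pool.Agent.H78.ZF Pool.Agent.ZFIter Pool.Agent.ZFIter.NPA Pool.Agent.ZFIter.NPA.BSM

variable {M : Type u} [ZFM M] {ι : Type}

/-- The union of the sets `X(i)`, `i ∈ I`. -/
noncomputable def bU (I X : M) : M := sUn (img I (fun n => ap X n))

instance DF.bU (I X : (ι → M) → M) [DF I] [DF X] : DF (fun v => bU (I v) (X v)) := by
  unfold BLI.bU; infer_instance

theorem mem_bU {I X k : M} : k ∈ bU I X ↔ ∃ n, n ∈ I ∧ k ∈ ap X n := by
  unfold bU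
  rw [mem_sUn]
  constructor
  · rintro ⟨y, hy, hk⟩
    rw [mem_img] at hy
    obtain ⟨n, hn, rfl⟩ := hy
    exact ⟨n, hn, hk⟩
  · rintro ⟨n, hn, hk⟩
    exact ⟨ap X n, by rw [mem_img]; exact ⟨n, hn, rfl⟩, hk⟩

/-- The union of the values of a sequence. -/
noncomputable def uS (X : M) : M := bU omega X

instance DF.uS (X : (ι → M) → M) [DF X] : DF (fun v => uS (X v)) := by
  unfold BLI.uS; infer_instance

theorem mem_uS {X k : M} : k ∈ uS X ↔ ∃ n, n ∈ (omega : M) ∧ k ∈ ap X n := mem_bU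

/-- The sequence `B` of subsets of `omega` is disjoint. -/
def DjS (B : M) : Prop := (∀ n, n ∈ (omega : M) → ap B n ⊆ omega) ∧
  ∀ i j, i ∈ (omega : M) → j ∈ (omega : M) → i ≠ j → Disj (ap B i) (ap B j)

instance DR.DjS (B : (ι → M) → M) [DF B] : DR (fun v => DjS (B v)) := by
  unfold BLI.DjS; infer_instance

theorem uS_sub {B X : M} (hB : DjS B) (hX : ∀ n, n ∈ (omega : M) → ap X n ⊆ ap B n) :
    uS X ⊆ omega := by
  intro k hk
  obtain ⟨n, hn, h⟩ := mem_uS.1 hk
  exact hB.1 n hn k (hX n hn k h)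

theorem uS_itr {B X n : M} (hB : DjS B) (hX : ∀ n, n ∈ (omega : M) → ap X n ⊆ ap B n)
    (hn : n ∈ (omega : M)) : itr (uS X) (ap B n) = ap X n := by
  refine ext fun k => ?_
  rw [mem_itr, mem_uS]
  constructor
  · rintro ⟨⟨m, hm, h1⟩, h2⟩
    by_cases h : m = n
    · rw [← h]; exact h1
    · exact absurd h2 (hB.2 m n hm hn h k (hX m hm k h1))
  · intro h
    exact ⟨⟨n, hn, h⟩, hX n hn k h⟩

/-- `V` is an ultrafilter on the set `B`. -/
def UOn (B V : M) : Prop :=
  (∀ X X', X ⊆ B → X' ⊆ B → (itr X X' ∈ V ↔ X ∈ V ∧ X' ∈ V)) ∧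
    ∀ X, X ⊆ B → (dif B X ∈ V ↔ X ∉ V)

instance DR.UOn (B V : (ι → M) → M) [DF B] [DF V] : DR (fun v => UOn (B v) (V v)) := by
  unfold BLI.UOn; infer_instance

theorem UOn.base {B V : M} (h : UOn B V) : B ∈ V ∧ emp ∉ V := by
  have h0 : emp ∉ V := by
    intro h0
    have h1 := (h.2 emp (emp_sub _)).1
    have h2 := (h.1 emp B (emp_sub _) (sub_refl _)).1 (by
      have e : itr emp B = (emp : M) := ext fun k => by
        rw [mem_itr]; exact ⟨fun h => h.1, fun h => absurd h (not_mem_emp k)⟩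
      rw [e]; exact h0)
    have e : dif B emp = B := ext fun k => by
      rw [mem_dif]; exact ⟨fun h => h.1, fun h => ⟨h, not_mem_emp k⟩⟩
    rw [e] at h1
    exact h1 h2.2 h0
  refine ⟨?_, h0⟩
  have h1 := (h.2 emp (emp_sub _)).2 h0
  have e : dif B emp = B := ext fun k => by
    rw [mem_dif]; exact ⟨fun h => h.1, fun h => ⟨h, not_mem_emp k⟩⟩
  rw [e] at h1
  exact h1

theorem itr_sub_left (A B : M) : itr A B ⊆ A := fun _ h => (mem_itr.1 h).1

theorem itr_sub_right (A B : M) : itr A B ⊆ B := fun _ h => (mem_itr.1 h).2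

theorem dif_sub (A B : M) : dif A B ⊆ A := fun _ h => (mem_dif.1 h).1

theorem UOn.uf {B V : M} (h : UOn B V) (hB : B ⊆ omega) :
    Uf (sep (pow omega) (fun X => itr X B ∈ V)) := by
  refine ⟨?_, ?_, ?_, ?_, ?_, ?_⟩
  · intro A hA
    rw [mem_sep, mem_pow] at hA
    exact hA.1
  · rw [mem_sep, mem_pow]
    refine ⟨sub_refl _, ?_⟩
    have e : itr omega B = B := ext fun k => by
      rw [mem_itr]; exact ⟨fun h => h.2, fun h => ⟨hB k h, h⟩⟩
    rw [e]
    exact h.base.1
  · rw [mem_sep]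
    rintro ⟨_, h1⟩
    have e : itr emp B = (emp : M) := ext fun k => by
      rw [mem_itr]; exact ⟨fun h => h.1, fun h => absurd h (not_mem_emp k)⟩
    rw [e] at h1
    exact h.base.2 h1
  · intro A A' hA hA'
    have e0 : sep A (fun k => k ∈ A') = itr A A' := rfl
    rw [e0]
    rw [mem_sep, mem_pow] at hA hA' ⊢
    refine ⟨sub_trans (itr_sub_left _ _) hA.1, ?_⟩
    have e : itr (itr A A') B = itr (itr A B) (itr A' B) := ext fun k => by
      simp only [mem_itr]; tauto
    rw [e]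
    exact (h.1 _ _ (itr_sub_right _ _) (itr_sub_right _ _)).2 ⟨hA.2, hA'.2⟩
  · intro A A' hA hAA' hA'
    rw [mem_sep, mem_pow] at hA ⊢
    refine ⟨hA', ?_⟩
    have e : itr (itr A B) (itr A' B) = itr A B := ext fun k => by
      simp only [mem_itr]
      have := hAA' k
      tauto
    exact ((h.1 _ _ (itr_sub_right A B) (itr_sub_right A' B)).1 (by rw [e]; exact hA.2)).2
  · intro A hA
    have e0 : sep omega (fun k => k ∉ A) = dif omega A := rfl
    rw [e0]
    by_cases hc : itr A B ∈ V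
    · exact Or.inl (by rw [mem_sep, mem_pow]; exact ⟨hA, hc⟩)
    · right
      rw [mem_sep, mem_pow]
      refine ⟨dif_sub _ _, ?_⟩
      have e : itr (dif omega A) B = dif B (itr A B) := ext fun k => by
        simp only [mem_itr, mem_dif]
        have := hB k
        tauto
      rw [e]
      exact (h.2 _ (itr_sub_right _ _)).2 hc

theorem uf_pr {e : M} (he : e ∈ (omega : M)) : Uf (sep (pow omega) (fun X : M => e ∈ X)) := by
  refine ⟨?_, ?_, ?_, ?_, ?_, ?_⟩
  · intro A hA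
    rw [mem_sep, mem_pow] at hA
    exact hA.1
  · rw [mem_sep, mem_pow]
    exact ⟨sub_refl _, he⟩
  · rw [mem_sep]
    rintro ⟨_, h1⟩
    exact not_mem_emp e h1
  · intro A A' hA hA'
    rw [mem_sep, mem_pow] at hA hA' ⊢
    refine ⟨fun k hk => hA.1 k ((mem_sep _ _ _).1 hk).1, ?_⟩
    rw [mem_sep]
    exact ⟨hA.2, hA'.2⟩
  · intro A A' hA hAA' hA'
    rw [mem_sep, mem_pow] at hA ⊢
    exact ⟨hA', hAA' e hA.2⟩
  · intro A hA
    by_cases hc : e ∈ A
    · exact Or.inl (by rw [mem_sep, mem_pow]; exact ⟨hA, hc⟩)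
    · right
      rw [mem_sep, mem_pow]
      refine ⟨fun k hk => ((mem_sep _ _ _).1 hk).1, ?_⟩
      rw [mem_sep]
      exact ⟨he, hc⟩

theorem agree_mem {p : M} (hp : Uf p) {P Q : M → Prop} [D1 P] [D1 Q]
    (h : sep omega P ∈ p ↔ sep omega Q ∈ p) : sep omega (fun n => P n ↔ Q n) ∈ p := by
  by_cases hP : sep omega P ∈ p
  · exact hp.sep_inter hP (h.1 hP) fun n _ h1 h2 => ⟨fun _ => h2, fun _ => h1⟩
  · exact hp.sep_inter (hp.sep_not hP) (hp.sep_not fun h' => hP (h.2 h'))
      fun n _ h1 h2 => ⟨fun h3 => absurd h3 h1, fun h3 => absurd h3 h2⟩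

theorem sep_omega_congr {P Q : M → Prop} [D1 P] [D1 Q]
    (h : ∀ k, k ∈ (omega : M) → (P k ↔ Q k)) : sep omega P = sep omega Q := by
  refine ext fun k => ?_
  rw [mem_sep, mem_sep]
  exact ⟨fun h1 => ⟨h1.1, (h k h1.1).1 h1.2⟩, fun h1 => ⟨h1.1, (h k h1.1).2 h1.2⟩⟩

theorem dcmp_of_internal (hAC : AC M) {p W B V : M} (hp : Uf p) (hW : Uf W) (hB : DjS B)
    (h : ∀ Y, Y ⊆ omega → (Y ∈ W ↔ sep omega (fun n => itr Y (ap B n) ∈ ap V n) ∈ p)) :
    Dcmp p W := by
  have hU : ∀ X : M, (∀ n, n ∈ (omega : M) → ap X n ⊆ ap B n) →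
      (uS X ∈ W ↔ sep omega (fun n => ap X n ∈ ap V n) ∈ p) := by
    intro X hX
    rw [h _ (uS_sub hB hX)]
    rw [sep_omega_congr (P := fun n => itr (uS X) (ap B n) ∈ ap V n)
      (Q := fun n => ap X n ∈ ap V n) (fun n hn => by rw [uS_itr hB hX hn])]
  have ha : sep omega (fun n => ∀ X X', X ⊆ ap B n → X' ⊆ ap B n →
      (itr X X' ∈ ap V n ↔ X ∈ ap V n ∧ X' ∈ ap V n)) ∈ p := by
    by_contra hcon
    have hc := hp.sep_not hcon
    obtain ⟨X, hXf, hX⟩ := ac_rel hAC omega (pow omega) (fun n X => X ⊆ ap B n ∧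
      ∃ X', X' ⊆ ap B n ∧ ((¬ ∀ X X', X ⊆ ap B n → X' ⊆ ap B n →
        (itr X X' ∈ ap V n ↔ X ∈ ap V n ∧ X' ∈ ap V n)) →
          ¬ (itr X X' ∈ ap V n ↔ X ∈ ap V n ∧ X' ∈ ap V n))) (by
        intro n hn
        by_cases hn1 : ∀ X X', X ⊆ ap B n → X' ⊆ ap B n →
          (itr X X' ∈ ap V n ↔ X ∈ ap V n ∧ X' ∈ ap V n)
        · exact ⟨emp, by simp, emp_sub _, emp, emp_sub _, fun h' => absurd hn1 h'⟩
        · have hn' := hn1
          push Not at hn'
          simp only [not_forall] at hn1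
          obtain ⟨X, X', h1, h2, h3⟩ := hn1
          exact ⟨X, by rw [mem_pow]; exact sub_trans h1 (hB.1 n hn), h1, X', h2, fun _ => h3⟩)
    obtain ⟨X', hXf', hX'⟩ := ac_rel hAC omega (pow omega) (fun n X' => X' ⊆ ap B n ∧
        ((¬ ∀ X X', X ⊆ ap B n → X' ⊆ ap B n →
        (itr X X' ∈ ap V n ↔ X ∈ ap V n ∧ X' ∈ ap V n)) →
          ¬ (itr (ap X n) X' ∈ ap V n ↔ ap X n ∈ ap V n ∧ X' ∈ ap V n))) (by
        intro n hn
        obtain ⟨_, X', h2, h3⟩ := hX n hn
        exact ⟨X', by rw [mem_pow]; exact sub_trans h2 (hB.1 n hn), h2, h3⟩)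
    have hXs : ∀ n, n ∈ (omega : M) → ap X n ⊆ ap B n := fun n hn => (hX n hn).1
    have hXs' : ∀ n, n ∈ (omega : M) → ap X' n ⊆ ap B n := fun n hn => (hX' n hn).1
    have h1 := hU X hXs
    have h2 := hU X' hXs'
    have h3 : itr (uS X) (uS X') ∈ W ↔ sep omega (fun n => itr (ap X n) (ap X' n) ∈ ap V n) ∈ p := by
      rw [h _ (sub_trans (itr_sub_left _ _) (uS_sub hB hXs))]
      rw [sep_omega_congr (P := fun n => itr (itr (uS X) (uS X')) (ap B n) ∈ ap V n)
        (Q := fun n => itr (ap X n) (ap X' n) ∈ ap V n) (fun n hn => by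
          rw [← uS_itr hB hXs hn, ← uS_itr hB hXs' hn]
          have e : itr (itr (uS X) (uS X')) (ap B n) =
              itr (itr (uS X) (ap B n)) (itr (uS X') (ap B n)) := ext fun k => by
            simp only [mem_itr]; tauto
          rw [e])]
    have h4 : sep omega (fun n => itr (ap X n) (ap X' n) ∈ ap V n) ∈ p ↔
        sep omega (fun n => ap X n ∈ ap V n ∧ ap X' n ∈ ap V n) ∈ p := by
      rw [← h3]
      constructor
      · intro h5
        have h6 := h1.1 (hW.up h5 (itr_sub_left _ _) (uS_sub hB hXs))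
        have h7 := h2.1 (hW.up h5 (itr_sub_right _ _) (uS_sub hB hXs'))
        exact hp.sep_inter h6 h7 fun n _ h8 h9 => ⟨h8, h9⟩
      · intro h5
        exact UF.itr hW (h1.2 (hp.sep_up h5 fun n _ h6 => h6.1))
          (h2.2 (hp.sep_up h5 fun n _ h6 => h6.2))
    have h5 := agree_mem hp h4
    obtain ⟨n, hn, hn1, hn2⟩ := hp.sep_and hc h5
    exact (hX' n hn).2 hn1 hn2
  have hb : sep omega (fun n => ∀ X, X ⊆ ap B n → (dif (ap B n) X ∈ ap V n ↔ X ∉ ap V n)) ∈ p := by
    by_contra hcon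
    have hc := hp.sep_not hcon
    obtain ⟨X, hXf, hX⟩ := ac_rel hAC omega (pow omega) (fun n X => X ⊆ ap B n ∧
      ((¬ ∀ X, X ⊆ ap B n → (dif (ap B n) X ∈ ap V n ↔ X ∉ ap V n)) →
          ¬ (dif (ap B n) X ∈ ap V n ↔ X ∉ ap V n))) (by
        intro n hn
        by_cases hn1 : ∀ X, X ⊆ ap B n → (dif (ap B n) X ∈ ap V n ↔ X ∉ ap V n)
        · exact ⟨emp, by simp, emp_sub _, fun h' => absurd hn1 h'⟩
        · simp only [not_forall] at hn1
          obtain ⟨X, h1, h3⟩ := hn1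
          exact ⟨X, by rw [mem_pow]; exact sub_trans h1 (hB.1 n hn), h1, fun _ => h3⟩)
    have hXs : ∀ n, n ∈ (omega : M) → ap X n ⊆ ap B n := fun n hn => (hX n hn).1
    have h1 := hU X hXs
    have h3 : dif omega (uS X) ∈ W ↔ sep omega (fun n => dif (ap B n) (ap X n) ∈ ap V n) ∈ p := by
      rw [h _ (dif_sub _ _)]
      rw [sep_omega_congr (P := fun n => itr (dif omega (uS X)) (ap B n) ∈ ap V n)
        (Q := fun n => dif (ap B n) (ap X n) ∈ ap V n) (fun n hn => by
          rw [← uS_itr hB hXs hn]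
          have e : itr (dif omega (uS X)) (ap B n) =
              dif (ap B n) (itr (uS X) (ap B n)) := ext fun k => by
            simp only [mem_itr, mem_dif]
            have := hB.1 n hn k
            tauto
          rw [e])]
    have h4 : sep omega (fun n => dif (ap B n) (ap X n) ∈ ap V n) ∈ p ↔
        sep omega (fun n => ap X n ∉ ap V n) ∈ p := by
      rw [← h3]
      constructor
      · intro h5
        refine hp.sep_not fun h6 => ?_
        exact UF.not_compl hW (h1.2 h6) h5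
      · intro h5
        refine UF.compl hW (uS_sub hB hXs) fun h6 => ?_
        obtain ⟨n, _, h7, h8⟩ := hp.sep_and h5 (h1.1 h6)
        exact h7 h8
    have h5 := agree_mem hp h4
    obtain ⟨n, hn, hn1, hn2⟩ := hp.sep_and hc h5
    exact (hX n hn).2 hn1 hn2
  have hG : sep omega (fun n => UOn (ap B n) (ap V n)) ∈ p :=
    hp.sep_inter ha hb fun n _ h1 h2 => ⟨h1, h2⟩
  have hms : ∀ n X : M, X ∈ sep (pow omega) (fun X => (UOn (ap B n) (ap V n) ∧
      itr X (ap B n) ∈ ap V n) ∨ (¬ UOn (ap B n) (ap V n) ∧ emp ∈ X)) ↔ X ⊆ omega ∧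
      ((UOn (ap B n) (ap V n) ∧ itr X (ap B n) ∈ ap V n) ∨
        (¬ UOn (ap B n) (ap V n) ∧ emp ∈ X)) := by
    intro n X
    rw [mem_sep, mem_pow]
  obtain ⟨V', hV'⟩ : ∃ V' : M, V' = mkseq omega (fun n => sep (pow omega) (fun X =>
    (UOn (ap B n) (ap V n) ∧ itr X (ap B n) ∈ ap V n) ∨ (¬ UOn (ap B n) (ap V n) ∧ emp ∈ X))) :=
    ⟨_, rfl⟩
  have hVa : ∀ n, n ∈ (omega : M) → ap V' n = sep (pow omega) (fun X =>
    (UOn (ap B n) (ap V n) ∧ itr X (ap B n) ∈ ap V n) ∨ (¬ UOn (ap B n) (ap V n) ∧ emp ∈ X)) := by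
    intro n hn
    rw [hV', ap_mkseq hn]
  refine ⟨B, V', fun n hn => ⟨hB.1 n hn, ?_⟩, hB.2, ?_, ?_⟩
  · rw [hVa n hn]
    by_cases hc : UOn (ap B n) (ap V n)
    · have e : sep (pow omega) (fun X => (UOn (ap B n) (ap V n) ∧
        itr X (ap B n) ∈ ap V n) ∨ (¬ UOn (ap B n) (ap V n) ∧ emp ∈ X)) =
          sep (pow omega) (fun X => itr X (ap B n) ∈ ap V n) := ext fun X => by
        rw [hms, mem_sep, mem_pow]; tauto
      rw [e]
      exact hc.uf (hB.1 n hn)
    · have e : sep (pow omega) (fun X => (UOn (ap B n) (ap V n) ∧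
        itr X (ap B n) ∈ ap V n) ∨ (¬ UOn (ap B n) (ap V n) ∧ emp ∈ X)) =
          sep (pow omega) (fun X : M => emp ∈ X) := ext fun X => by
        rw [hms, mem_sep, mem_pow]; tauto
      rw [e]
      exact uf_pr emp_mem_omega
  · refine hp.sep_up hG fun n hn hG => ?_
    rw [hVa n hn, hms]
    refine ⟨hB.1 n hn, Or.inl ⟨hG, ?_⟩⟩
    have e : itr (ap B n) (ap B n) = ap B n := ext fun k => by rw [mem_itr]; tauto
    rw [e]
    exact hG.base.1
  · intro X hX
    rw [h X hX]
    constructor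
    · intro h1
      refine hp.sep_inter hG h1 fun n hn hG h2 => ?_
      rw [hVa n hn, hms]
      exact ⟨hX, Or.inl ⟨hG, h2⟩⟩
    · intro h1
      refine hp.sep_inter hG h1 fun n hn hG h2 => ?_
      rw [hVa n hn, hms] at h2
      rcases h2.2 with h3 | h3
      · exact h3.2
      · exact absurd hG h3.1

/-- The set `T'(n)` of the step of `sep_dcmp`. -/
noncomputable def stT (A R T : M) : M := mkseq omega (fun n => sep (pow omega) (fun X =>
  ∃ Z, Z ⊆ itr (ap A n) R ∧ un X Z ∈ ap T n ∧ un X (dif (itr (ap A n) R) Z) ∈ ap T n))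

theorem mem_stT {A R T n X : M} (hn : n ∈ (omega : M)) (hX : X ⊆ omega) : X ∈ ap (stT A R T) n ↔
    ∃ Z, Z ⊆ itr (ap A n) R ∧ un X Z ∈ ap T n ∧ un X (dif (itr (ap A n) R) Z) ∈ ap T n := by
  unfold stT
  rw [ap_mkseq hn, mem_sep, mem_pow]
  exact ⟨fun h => h.2, fun h => ⟨hX, h⟩⟩

/-- The step of `sep_dcmp`: one ultrafilter which is not decomposable can be removed. -/
theorem sep_step (hAC : AC M) {p : M} (hp : Uf p) {A : M} (hA : DjS A) {I C W : M}
    (hW : ∀ i, i ∈ I → Uf (ap W i) ∧ ap C i ∈ ap W i) {R D Wr : M} (hDo : D ⊆ omega)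
    (hD : ∀ i, i ∈ I → ap C i ⊆ D) (hRD : Disj R D) (hWr : Uf Wr) (hR : R ∈ Wr) (T : M)
    (hnd : ¬ Dcmp p Wr)
    (h1 : ∀ Y, Y ⊆ omega → Y ∈ Wr → (∀ i, i ∈ I → Y ∈ ap W i) →
      sep omega (fun n => itr (itr Y (ap A n)) (un R D) ∈ ap T n) ∈ p)
    (h2 : ∀ Y, Y ⊆ omega → sep omega (fun n => itr (itr Y (ap A n)) (un R D) ∈ ap T n) ∈ p →
      Y ∈ Wr ∨ ∃ i, i ∈ I ∧ Y ∈ ap W i) :
    (∀ Y, Y ⊆ omega → (∀ i, i ∈ I → Y ∈ ap W i) →
      sep omega (fun n => itr (itr Y (ap A n)) D ∈ ap (stT A R T) n) ∈ p) ∧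
    (∀ Y, Y ⊆ omega → sep omega (fun n => itr (itr Y (ap A n)) D ∈ ap (stT A R T) n) ∈ p →
      ∃ i, i ∈ I ∧ Y ∈ ap W i) := by
  have hRo : R ⊆ omega := UF.sub hWr hR
  have hXo : ∀ X n : M, X ⊆ omega → itr (itr X (ap A n)) D ⊆ omega := fun X n hX =>
    sub_trans (itr_sub_left _ _) (sub_trans (itr_sub_left _ _) hX)
  constructor
  · intro X hXo' hX
    by_contra hcon
    apply hnd
    have α : ∀ Y, Y ∈ Wr →
        sep omega (fun n => un (itr (itr X (ap A n)) D) (itr Y (itr (ap A n) R)) ∈ ap T n) ∈ p := by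
      intro Y hY
      have hYo : Y ⊆ omega := UF.sub hWr hY
      have h0 : un (itr X D) (itr Y R) ⊆ omega := by
        intro k hk
        rw [mem_un, mem_itr, mem_itr] at hk
        rcases hk with hk | hk
        · exact hDo k hk.2
        · exact hRo k hk.2
      have h3 := h1 (un (itr X D) (itr Y R)) h0
        (hWr.up (UF.itr hWr hY hR) (sub_un_right _ _) h0) (by
        intro i hi
        refine (hW i hi).1.up (UF.itr (hW i hi).1 (hX i hi) (hW i hi).2) (fun k hk => ?_) h0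
        rw [mem_itr] at hk
        rw [mem_un, mem_itr]
        exact Or.inl ⟨hk.1, hD i hi k hk.2⟩)
      refine hp.sep_up h3 fun n _ hn => ?_
      have e : itr (itr (un (itr X D) (itr Y R)) (ap A n)) (un R D) =
          un (itr (itr X (ap A n)) D) (itr Y (itr (ap A n) R)) := ext fun k => by
        simp only [mem_itr, mem_un]
        tauto
      rw [e] at hn
      exact hn
    have hBs : ∀ n, n ∈ (omega : M) →
        ap (mkseq omega (fun n => itr (ap A n) R)) n = itr (ap A n) R := fun n hn => ap_mkseq hn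
    have hVs : ∀ n, n ∈ (omega : M) → ap (mkseq omega (fun n => sep (pow omega) (fun Y =>
        un (itr (itr X (ap A n)) D) Y ∈ ap T n))) n =
          sep (pow omega) (fun Y => un (itr (itr X (ap A n)) D) Y ∈ ap T n) :=
      fun n hn => ap_mkseq hn
    refine dcmp_of_internal hAC (B := mkseq omega (fun n => itr (ap A n) R))
      (V := mkseq omega (fun n => sep (pow omega) (fun Y =>
        un (itr (itr X (ap A n)) D) Y ∈ ap T n))) hp hWr ⟨fun n hn => ?_, fun i j hi hj hij => ?_⟩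
      (fun Y hYo => ?_)
    · rw [hBs n hn]
      exact sub_trans (itr_sub_left _ _) (hA.1 n hn)
    · rw [hBs i hi, hBs j hj]
      intro k hk hk'
      exact hA.2 i j hi hj hij k (mem_itr.1 hk).1 (mem_itr.1 hk').1
    · have e : sep omega (fun n => itr Y (ap (mkseq omega (fun n => itr (ap A n) R)) n) ∈
          ap (mkseq omega (fun n => sep (pow omega) (fun Y =>
            un (itr (itr X (ap A n)) D) Y ∈ ap T n))) n) =
          sep omega (fun n => un (itr (itr X (ap A n)) D) (itr Y (itr (ap A n) R)) ∈ ap T n) :=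
        sep_omega_congr fun n hn => by
          rw [hBs n hn, hVs n hn, mem_sep, mem_pow]
          exact ⟨fun h => h.2, fun h => ⟨sub_trans (itr_sub_left _ _) hYo, h⟩⟩
      rw [e]
      refine ⟨fun hY => α Y hY, fun hY => ?_⟩
      by_contra hYW
      have h3 := α (dif omega Y) (UF.compl hWr hYo hYW)
      apply hcon
      refine hp.sep_inter hY h3 fun n hn h4 h5 => ?_
      rw [mem_stT hn (hXo X n hXo')]
      refine ⟨itr Y (itr (ap A n) R), itr_sub_right _ _, h4, ?_⟩
      have e : dif (itr (ap A n) R) (itr Y (itr (ap A n) R)) =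
          itr (dif omega Y) (itr (ap A n) R) := ext fun k => by
        simp only [mem_itr, mem_dif]
        have := hRo k
        tauto
      rw [e]
      exact h5
  · intro X hXo' hX
    obtain ⟨Z, hZf, hZ⟩ := ac_rel hAC omega (pow omega) (fun n Z => Z ⊆ itr (ap A n) R ∧
      (itr (itr X (ap A n)) D ∈ ap (stT A R T) n → un (itr (itr X (ap A n)) D) Z ∈ ap T n ∧
        un (itr (itr X (ap A n)) D) (dif (itr (ap A n) R) Z) ∈ ap T n)) (by
        intro n hn
        by_cases hc : itr (itr X (ap A n)) D ∈ ap (stT A R T) n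
        · have hc' := hc
          rw [mem_stT hn (hXo X n hXo')] at hc'
          obtain ⟨Z, h3, h4⟩ := hc'
          exact ⟨Z, by
            rw [mem_pow]; exact sub_trans h3 (sub_trans (itr_sub_right _ _) hRo), h3, fun _ => h4⟩
        · exact ⟨emp, by simp, emp_sub _, fun h' => absurd h' hc⟩)
    have key : ∀ Y, Y ⊆ R → Y ∉ Wr →
        sep omega (fun n => un (itr (itr X (ap A n)) D) (itr Y (ap A n)) ∈ ap T n) ∈ p →
        ∃ i, i ∈ I ∧ X ∈ ap W i := by
      intro Y hY hYW hYT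
      have h0 : un (itr X D) Y ⊆ omega := by
        intro k hk
        rw [mem_un, mem_itr] at hk
        rcases hk with hk | hk
        · exact hDo k hk.2
        · exact hRo k (hY k hk)
      have h3 := h2 (un (itr X D) Y) h0 (by
        refine hp.sep_up hYT fun n hn hn' => ?_
        have e : itr (itr (un (itr X D) Y) (ap A n)) (un R D) =
            un (itr (itr X (ap A n)) D) (itr Y (ap A n)) := ext fun k => by
          simp only [mem_itr, mem_un]
          have := hY k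
          tauto
        rw [e]
        exact hn')
      rcases h3 with h3 | ⟨i, hi, h3⟩
      · exfalso
        apply hYW
        refine hWr.up (UF.itr hWr h3 hR) (fun k hk => ?_) (sub_trans hY hRo)
        rw [mem_itr, mem_un, mem_itr] at hk
        rcases hk with ⟨hk1 | hk1, hk2⟩
        · exact absurd hk1.2 (hRD k hk2)
        · exact hk1
      · refine ⟨i, hi, (hW i hi).1.up (UF.itr (hW i hi).1 h3 (hW i hi).2) (fun k hk => ?_) hXo'⟩
        rw [mem_itr, mem_un, mem_itr] at hk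
        rcases hk with ⟨hk1 | hk1, hk2⟩
        · exact hk1.1
        · exact absurd (hD i hi k hk2) (hRD k (hY k hk1))
    have hZs : ∀ n, n ∈ (omega : M) → ap Z n ⊆ ap A n := fun n hn =>
      sub_trans (hZ n hn).1 (itr_sub_left _ _)
    have hZR : uS Z ⊆ R := by
      intro k hk
      obtain ⟨n, hn, h⟩ := mem_uS.1 hk
      exact itr_sub_right _ _ k ((hZ n hn).1 k h)
    by_cases hYW : uS Z ∈ Wr
    · refine key (dif R (uS Z)) (dif_sub _ _) (fun h3 => ?_) ?_
      · exact UF.not_disj hWr hYW h3 fun k hk hk' => (mem_dif.1 hk').2 hk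
      · refine hp.sep_up hX fun n hn hn' => ?_
        have e : itr (dif R (uS Z)) (ap A n) = dif (itr (ap A n) R) (ap Z n) := by
          rw [← uS_itr hA hZs hn]
          refine ext fun k => ?_
          simp only [mem_itr, mem_dif]
          tauto
        rw [e]
        exact ((hZ n hn).2 hn').2
    · refine key (uS Z) hZR hYW ?_
      refine hp.sep_up hX fun n hn hn' => ?_
      rw [uS_itr hA hZs hn]
      exact ((hZ n hn).2 hn').1

/-- The separation lemma. -/
theorem sep_dcmp (hAC : AC M) {p : M} (hp : Uf p) {A : M} (hA : DjS A) {I C W : M} (hI : FinM I)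
    (hC : ∀ i j, i ∈ I → j ∈ I → i ≠ j → Disj (ap C i) (ap C j))
    (hW : ∀ i, i ∈ I → Uf (ap W i) ∧ ap C i ∈ ap W i) (T : M)
    (h1 : ∀ Y, Y ⊆ omega → (∀ i, i ∈ I → Y ∈ ap W i) →
      sep omega (fun n => itr (itr Y (ap A n)) (bU I C) ∈ ap T n) ∈ p)
    (h2 : ∀ Y, Y ⊆ omega → sep omega (fun n => itr (itr Y (ap A n)) (bU I C) ∈ ap T n) ∈ p →
      ∃ i, i ∈ I ∧ Y ∈ ap W i) :
    ∃ i, i ∈ I ∧ Dcmp p (ap W i) := by
  have key : ∀ I, FinM I → (∀ i j, i ∈ I → j ∈ I → i ≠ j → Disj (ap C i) (ap C j)) →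
      (∀ i, i ∈ I → Uf (ap W i) ∧ ap C i ∈ ap W i) → ∀ T : M,
      (∀ Y, Y ⊆ omega → (∀ i, i ∈ I → Y ∈ ap W i) →
        sep omega (fun n => itr (itr Y (ap A n)) (bU I C) ∈ ap T n) ∈ p) →
      (∀ Y, Y ⊆ omega → sep omega (fun n => itr (itr Y (ap A n)) (bU I C) ∈ ap T n) ∈ p →
        ∃ i, i ∈ I ∧ Y ∈ ap W i) → ∃ i, i ∈ I ∧ Dcmp p (ap W i) := by
    apply fin_induction (fun I => (∀ i j, i ∈ I → j ∈ I → i ≠ j → Disj (ap C i) (ap C j)) →
      (∀ i, i ∈ I → Uf (ap W i) ∧ ap C i ∈ ap W i) → ∀ T : M,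
      (∀ Y, Y ⊆ omega → (∀ i, i ∈ I → Y ∈ ap W i) →
        sep omega (fun n => itr (itr Y (ap A n)) (bU I C) ∈ ap T n) ∈ p) →
      (∀ Y, Y ⊆ omega → sep omega (fun n => itr (itr Y (ap A n)) (bU I C) ∈ ap T n) ∈ p →
        ∃ i, i ∈ I ∧ Y ∈ ap W i) → ∃ i, i ∈ I ∧ Dcmp p (ap W i))
    · intro _ _ T h1 h2
      obtain ⟨i, hi, _⟩ := h2 omega (sub_refl _) (h1 omega (sub_refl _) fun i hi =>
        absurd hi (not_mem_emp i))
      exact absurd hi (not_mem_emp i)
    · intro I r _ hr ih hC hW T h1 h2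
      by_cases hnd : Dcmp p (ap W r)
      · exact ⟨r, by rw [mem_ins]; exact Or.inr rfl, hnd⟩
      · have hrI : ∀ i, i ∈ I → i ≠ r := fun i hi h => hr (h ▸ hi)
        have hr' : r ∈ ins I r := by rw [mem_ins]; exact Or.inr rfl
        have hi' : ∀ i, i ∈ I → i ∈ ins I r := fun i hi => by rw [mem_ins]; exact Or.inl hi
        have e : bU (ins I r) C = un (ap C r) (bU I C) := ext fun k => by
          rw [mem_un, mem_bU, mem_bU]
          constructor
          · rintro ⟨i, hi, hk⟩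
            rw [mem_ins] at hi
            rcases hi with hi | rfl
            · exact Or.inr ⟨i, hi, hk⟩
            · exact Or.inl hk
          · rintro (hk | ⟨i, hi, hk⟩)
            · exact ⟨r, hr', hk⟩
            · exact ⟨i, hi' i hi, hk⟩
        rw [e] at h1 h2
        have hst := sep_step hAC hp hA (I := I) (C := C) (W := W)
          (fun i hi => hW i (hi' i hi)) (R := ap C r)
          (D := bU I C) (fun k hk => by
            obtain ⟨i, hi, hk⟩ := mem_bU.1 hk
            exact UF.sub (hW i (hi' i hi)).1 (hW i (hi' i hi)).2 k hk)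
          (fun i hi k hk => mem_bU.2 ⟨i, hi, hk⟩) (fun k hk hk' => by
            obtain ⟨i, hi, hk'⟩ := mem_bU.1 hk'
            exact hC i r (hi' i hi) hr' (hrI i hi) k hk' hk)
          (hW r hr').1 (hW r hr').2 T hnd (by
            intro Y hYo hYr hY
            refine h1 Y hYo ?_
            intro i hi
            rw [mem_ins] at hi
            rcases hi with hi | rfl
            · exact hY i hi
            · exact hYr) (by
            intro Y hYo hY
            obtain ⟨i, hi, h3⟩ := h2 Y hYo hY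
            rw [mem_ins] at hi
            rcases hi with hi | rfl
            · exact Or.inr ⟨i, hi, h3⟩
            · exact Or.inl h3)
        obtain ⟨i, hi, h3⟩ := ih (fun i j hi hj => hC i j (hi' i hi) (hi' j hj))
          (fun i hi => hW i (hi' i hi)) _ hst.1 hst.2
        exact ⟨i, hi' i hi, h3⟩
  exact key I hI hC hW T h1 h2

end Pool.Agent.ZFIter.NPA.BLI
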