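import Pool.Agent.BLI.UDefs

/-!
# BLI/StepTree: the step property of a full tree of ultrafilters (inside a model of ZF)
-/

universe u

namespace Pool.Agent.ZFIter.NPA.BLI

open Pool.Agent.H78.ZF Pool.Agent.ZFIter Pool.Agent.ZFIter.NPA Pool.Agent.ZFIter.NPA.BSM

variable {M : Type u} [ZFM M] {ι : Type}

theorem UF.un_mem {u A B : M} (h : Uf u) (hA : A ⊆ omega) (hB : B ⊆ omega) (hAB : un A B ∈ u) :
    A ∈ u ∨ B ∈ u := by
  by_cases hc : A ∈ u
  · exact Or.inl hc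
  · right
    refine h.up (UF.itr h hAB (UF.compl h hA hc)) (fun k hk => ?_) hB
    rw [mem_itr, mem_un, mem_dif] at hk
    rcases hk with ⟨hk1 | hk1, hk2⟩
    · exact absurd hk1 hk2.2
    · exact hk1

theorem UF.emp {u : M} (h : Uf u) : emp ∉ u := h.2.2.1

theorem UF.not_mem {u A : M} (h : Uf u) (hA : A ⊆ omega) (hc : A ∉ u) :
    sep omega (fun k => k ∉ A) ∈ u := by
  have := UF.compl h hA hc
  unfold dif at this
  exact this

/-- Two points above each other in a large set. -/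
theorem Sel.two {p : M} (hp : Selective p) {x : M} (hx : x ∈ p) :
    ∃ m m', m ∈ x ∧ m' ∈ x ∧ m ∈ m' := by
  obtain ⟨m, hm⟩ := hp.1.ne hx
  obtain ⟨m', hm', h⟩ := Sel.exists_gt hp hx (UF.sub hp.1 hx m hm)
  exact ⟨m, m', hm, hm', h⟩

theorem ins_sub {s b m : M} (hs : s ⊆ b) (hm : m ∈ b) : ins s m ⊆ b := by
  intro i hi
  rw [mem_ins] at hi
  rcases hi with h | rfl
  · exact hs i h
  · exact hm

theorem idealS_tree {p U t b W : M} (hp : Selective p) (hD : TreeD p U t b W) :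
    IdealS (STr b W) := by
  have hbo : b ⊆ omega := UF.sub hp.1 hD.mem
  refine ⟨fun Z hZ => (mem_pow _ _).2 (mem_STr.1 hZ).1, fun A B hB hAB => ?_, fun A B hA hB => ?_,
    fun n hn => ?_⟩
  · rw [mem_STr] at hB ⊢
    exact ⟨sub_trans hAB hB.1, fun s hs hsb hA => hB.2 s hs hsb ((hD.uf s hs).up hA hAB hB.1)⟩
  · rw [mem_STr] at hA hB ⊢
    refine ⟨fun k hk => ?_, fun s hs hsb hAB => ?_⟩
    · rw [mem_un] at hk
      exact hk.elim (hA.1 k) (hB.1 k)
    · rcases UF.un_mem (hD.uf s hs) hA.1 hB.1 hAB with h | h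
      · exact hA.2 s hs hsb h
      · exact hB.2 s hs hsb h
  · rw [mem_STr]
    refine ⟨fun k hk => by rw [mem_sing] at hk; rw [hk]; exact hn, fun s hs hsb hc => ?_⟩
    have h1 := (hD.lim s (sing n) hs hsb (fun k hk => by rw [mem_sing] at hk; rw [hk]; exact hn)).1 hc
    have hY := UF.itr hp.1 h1 (Sel.above hp hs hD.mem)
    obtain ⟨m, m', hm, hm', hlt⟩ := Sel.two hp hY
    rw [mem_itr, mem_sep, mem_sep] at hm hm'
    have key : ∀ k, k ∈ b → sing n ∈ ap W (ins s k) → Ini (ins s k) (ap t n) := by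
      intro k hkb hk
      have hks : ins s k ∈ (fsw : M) := ins_fsw hs (hbo k hkb)
      have h2 := UF.itr (hD.uf _ hks) hk (hD.cone _ hks (ins_sub hsb hkb))
      obtain ⟨e, he⟩ := (hD.uf _ hks).ne h2
      rw [mem_itr, mem_sing, mem_sep] at he
      rw [← he.1]
      exact he.2.2
    have k1 := key m hm.2.1 hm.1.2
    have k2 := key m' hm'.2.1 hm'.1.2
    have h3 : m ∈ ap t n := k1.1 m (by rw [mem_ins]; exact Or.inr rfl)
    have h4 : m ∉ ins s m' := by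
      rw [mem_ins]
      rintro (h | h)
      · exact not_mem_self m (hm.2.2 m h)
      · rw [h] at hlt
        exact not_mem_self m' hlt
    have h5 := k2.2 m h3 h4 m' (by rw [mem_ins]; exact Or.inr rfl)
    exact lt_asymm (hbo m hm.2.1) h5 hlt

theorem stepTree (hAC : AC M) {p U t b W : M} (hp : Selective p) (hD : TreeD p U t b W) :
    StepP p (STr b W) t := by
  have hbo : b ⊆ omega := UF.sub hp.1 hD.mem
  intro G0 G1 G2 hG0 hG1 hG2 W0 m0 hW0 hm0 hW0m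
  have hempty : (emp : M) ∈ STr b W := by
    rw [mem_STr]
    exact ⟨emp_sub _, fun s hs _ => UF.emp (hD.uf s hs)⟩
  obtain ⟨A, hAf, hA⟩ := ac_rel hAC omega (pow omega) (fun n A => A ∈ STr b W ∧
    ((∃ A', A' ∈ ap G0 n) → A ∈ ap G0 n)) (by
      intro n hn
      by_cases h : ∃ A, A ∈ ap G0 n
      · obtain ⟨A, hA⟩ := h
        have h1 := hG0.1 n hn A hA
        exact ⟨A, (mem_pow _ _).2 (mem_STr.1 h1).1, h1, fun _ => hA⟩
      · exact ⟨emp, (mem_pow _ _).2 (emp_sub _), hempty, fun h' => absurd h' h⟩)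
  obtain ⟨D, hDd⟩ : ∃ D : M, ∀ e, e ∈ D ↔ e ∈ (omega : M) ∧
      ∃ n, n ∈ (omega : M) ∧ m0 ∈ n ∧ e ∈ ap A n ∧ Rlv (ap t e) W0 n :=
    ⟨sep omega (fun e => ∃ n, n ∈ (omega : M) ∧ m0 ∈ n ∧ e ∈ ap A n ∧ Rlv (ap t e) W0 n),
      fun e => by rw [mem_sep]⟩
  have hDo : D ⊆ omega := fun e he => ((hDd e).1 he).1
  have hDS : D ∈ STr b W := by
    rw [mem_STr]
    refine ⟨hDo, fun s hs hsb hcon => ?_⟩
    have h1 := (hD.lim s D hs hsb hDo).1 hcon
    have hY := UF.itr hp.1 h1 (UF.itr hp.1 (Sel.above hp hs hD.mem) (Sel.gt hp hm0))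
    obtain ⟨m, hm⟩ := hp.1.ne hY
    rw [mem_itr, mem_itr, mem_sep, mem_sep, mem_sep] at hm
    obtain ⟨⟨hmo, hm1⟩, ⟨hmb, _⟩, _, hm3⟩ := hm
    have hms : ins s m ∈ (fsw : M) := ins_fsw hs hmo
    have hs' := ins_sub hsb hmb
    have h2 := UF.itr (hD.uf _ hms) hm1 (hD.cone _ hms hs')
    have h3 := UF.fin (hD.uf _ hms) (fun n e => e ∉ ap A n) (nat_fin (succ_mem_omega hmo))
      (fun n hn => by
        have hno := mem_omega_of_mem hn (succ_mem_omega hmo)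
        have h4 := (mem_STr.1 (hA n hno).1)
        exact UF.not_mem (hD.uf _ hms) h4.1 (h4.2 _ hms hs'))
    obtain ⟨e, he⟩ := (hD.uf _ hms).ne (UF.itr (hD.uf _ hms) h2 h3)
    rw [mem_itr, mem_itr, mem_sep, mem_sep, hDd] at he
    obtain ⟨⟨⟨_, n, hn, hmn, heA, hR⟩, _, he⟩, _, hall⟩ := he
    refine hall n ?_ heA
    by_contra hc
    rw [lt_succ_iff hn hmo] at hc
    have hmlt : m ∈ n := by
      rcases le_or_lt hn hmo with h5 | h5
      · exact absurd h5 hc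
      · exact h5
    rcases hR m (he.1 m (by rw [mem_ins]; exact Or.inr rfl)) (omega_trans hn m hmlt) with h | h
    · exact not_mem_self m0 (hW0m m h m0 hm3)
    · rw [h] at hmlt
      exact not_mem_self n hmlt
  have hx := hG0.2 emp hempty
  have h1 := hG1.2 D hDS
  have h2 := hG2.2 emp hempty
  obtain ⟨n, hn⟩ := hp.1.ne (UF.itr hp.1 (UF.itr hp.1 (UF.itr hp.1 hx h1) h2) (Sel.gt hp hm0))
  rw [mem_itr, mem_itr, mem_itr, mem_sep, mem_sep, mem_sep, mem_sep] at hn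
  obtain ⟨⟨⟨⟨hno, A0, hA0, _⟩, _, B, hB, hBD⟩, _, B', hB', _⟩, _, hmn⟩ := hn
  refine ⟨n, hno, hmn, ap A n, B, B', (hA n hno).2 ⟨A0, hA0⟩, hB, hB', ?_⟩
  intro e he0 he1 _ hR
  exact hBD e he1 ((hDd e).2 ⟨(mem_STr.1 (hA n hno).1).1 e he0, n, hno, hmn, he0, hR⟩)

end Pool.Agent.ZFIter.NPA.BLI
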