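import Pool.Agent.BLI.DisjSel
import Pool.Agent.BLI.Sep
import Pool.Agent.BLI.StepTree

/-!
# BLI/StepFront: the step property of a front of non-decomposable ultrafilters (inside a model of ZF)
-/

universe u

namespace Pool.Agent.ZFIter.NPA.BLI

open Pool.Agent.H78.ZF Pool.Agent.ZFIter Pool.Agent.ZFIter.NPA Pool.Agent.ZFIter.NPA.BSM

variable {M : Type u} [ZFM M] {ι : Type}

theorem idealS_front {p U t F W : M} (hD : FrontD p U t F W) : IdealS (SFr F W) := by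
  refine ⟨fun Z hZ => (mem_pow _ _).2 (mem_SFr.1 hZ).1, fun A B hB hAB => ?_, fun A B hA hB => ?_,
    fun n hn => ?_⟩
  · rw [mem_SFr] at hB ⊢
    exact ⟨sub_trans hAB hB.1, fun s hs hA => hB.2 s hs ((hD.uf s hs).up hA hAB hB.1)⟩
  · rw [mem_SFr] at hA hB ⊢
    refine ⟨fun k hk => ?_, fun s hs hAB => ?_⟩
    · rw [mem_un] at hk
      exact hk.elim (hA.1 k) (hB.1 k)
    · rcases UF.un_mem (hD.uf s hs) hA.1 hB.1 hAB with h | h
      · exact hA.2 s hs h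
      · exact hB.2 s hs h
  · rw [mem_SFr]
    exact ⟨fun k hk => by rw [mem_sing] at hk; rw [hk]; exact hn, fun s hs hc => hD.np s n hs hn hc⟩

theorem fin_pow_fsw {s : M} (hs : s ∈ (fsw : M)) : FinM (pow s) := by
  rw [mem_fsw] at hs
  obtain ⟨b, hb, h1⟩ := fin_bdd hs.2 hs.1
  refine fin_sub (fin_pow_nat hb) fun x hx => ?_
  rw [mem_pow] at hx ⊢
  exact sub_trans hx h1

theorem stepFront (hAC : AC M) {p U t F W : M} (hp : Selective p) (hD : FrontD p U t F W) :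
    StepP p (SFr F W) t := by
  intro G0 G1 G2 hG0 hG1 hG2 W0 m0 hW0 hm0 _
  by_contra hno
  have hno' : ∀ n, n ∈ (omega : M) → m0 ∈ n → ∀ A0 A1 A2, A0 ∈ ap G0 n → A1 ∈ ap G1 n →
      A2 ∈ ap G2 n → ∃ e, e ∈ A0 ∧ e ∈ A1 ∧ e ∈ A2 ∧ Rlv (ap t e) W0 n := by
    intro n hn hmn A0 A1 A2 h0 h1 h2
    by_contra h
    push Not at h
    exact hno ⟨n, hn, hmn, A0, A1, A2, h0, h1, h2, fun e e0 e1 e2 => h e e0 e1 e2⟩
  have hS := idealS_front hD
  obtain ⟨x, A, hx, hA1, hA2, hAS, hA3⟩ := disjSel hAC hp hS hG0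
  have hxo := UF.sub hp.1 hx
  have hAo : ∀ n, n ∈ (omega : M) → ap A n ⊆ omega := fun n hn => (mem_SFr.1 (hAS n hn)).1
  have hAd : DjS A := ⟨hAo, hA3⟩
  obtain ⟨I, hI⟩ : ∃ I : M, ∀ s, s ∈ I ↔ s ⊆ W0 ∧ s ∈ F :=
    ⟨sep F (fun s => s ⊆ W0), fun s => by rw [mem_sep]; exact and_comm⟩
  have hIf : FinM I := fin_sub (fin_pow_fsw hW0) fun s hs => (mem_pow _ _).2 ((hI s).1 hs).1
  obtain ⟨C, hCdef⟩ : ∃ C : M, C = mkseq I (fun s => sep omega (fun e => ap t e = s)) := ⟨_, rfl⟩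
  have hCa : ∀ s, s ∈ I → ap C s = sep omega (fun e => ap t e = s) := fun s hs => by
    rw [hCdef, ap_mkseq hs]
  have hC : ∀ s, s ∈ I → ∀ e, e ∈ ap C s ↔ e ∈ (omega : M) ∧ ap t e = s := fun s hs e => by
    rw [hCa s hs, mem_sep]
  obtain ⟨CI, hCI⟩ : ∃ CI : M, CI = bU I C := ⟨_, rfl⟩
  have mCI : ∀ e, e ∈ CI ↔ e ∈ (omega : M) ∧ ap t e ∈ I := by
    intro e
    rw [hCI, mem_bU]
    constructor
    · rintro ⟨s, hs, he⟩
      rw [hC s hs] at he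
      exact ⟨he.1, by rw [he.2]; exact hs⟩
    · rintro ⟨he, hs⟩
      exact ⟨ap t e, hs, (hC _ hs e).2 ⟨he, rfl⟩⟩
  have hCIo : CI ⊆ omega := fun e he => ((mCI e).1 he).1
  -- a set inside `CI` which belongs to `W s` forces `s ∈ I`
  have hin : ∀ s, s ∈ F → ∀ Z, Z ∈ ap W s → Z ⊆ CI → s ∈ I := by
    intro s hs Z hZ hZC
    obtain ⟨e, he⟩ := (hD.uf s hs).ne (UF.itr (hD.uf s hs) hZ (hD.cell s hs))
    rw [mem_itr, mem_sep] at he
    have h1 := (mCI e).1 (hZC e he.1)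
    rw [he.2.2] at h1
    exact h1.2
  obtain ⟨D, hDd⟩ : ∃ D : M, ∀ e, e ∈ D ↔ e ∈ (omega : M) ∧
      ∃ n, n ∈ x ∧ m0 ∈ n ∧ e ∈ ap A n ∧ Rlv (ap t e) W0 n ∧ e ∉ CI :=
    ⟨sep omega (fun e => ∃ n, n ∈ x ∧ m0 ∈ n ∧ e ∈ ap A n ∧ Rlv (ap t e) W0 n ∧ e ∉ CI),
      fun e => by rw [mem_sep]⟩
  have hDo : D ⊆ omega := fun e he => ((hDd e).1 he).1
  have hDS : D ∈ SFr F W := by
    rw [mem_SFr]
    refine ⟨hDo, fun s hs hDW => ?_⟩
    have hu := hD.uf s hs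
    have h1 := UF.itr hu hDW (hD.cell s hs)
    by_cases hsW : s ⊆ W0
    · obtain ⟨e, he⟩ := hu.ne h1
      rw [mem_itr, mem_sep, hDd] at he
      obtain ⟨⟨heo, n, _, _, _, _, h2⟩, _, he2⟩ := he
      exact h2 ((mCI e).2 ⟨heo, by rw [he2]; exact (hI s).2 ⟨hsW, hs⟩⟩)
    · have hex : ∃ m, m ∈ s ∧ m ∉ W0 := by
        by_contra h
        push Not at h
        exact hsW h
      obtain ⟨m, hms, hmW⟩ := hex
      have hmo : m ∈ (omega : M) := (mem_fsw.1 (hD.sub s hs)).1 m hms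
      have h3 := UF.fin hu (fun n e => e ∉ ap A n) (nat_fin (succ_mem_omega hmo))
        (fun n hn => by
          have hno := mem_omega_of_mem hn (succ_mem_omega hmo)
          have h4 := mem_SFr.1 (hAS n hno)
          exact UF.not_mem hu h4.1 (h4.2 s hs))
      obtain ⟨e, he⟩ := hu.ne (UF.itr hu h1 h3)
      rw [mem_itr, mem_itr, mem_sep, mem_sep, hDd] at he
      obtain ⟨⟨⟨_, n, hn, hmn, heA, hR, _⟩, _, he⟩, _, hall⟩ := he
      have hno := hxo n hn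
      refine hall n ?_ heA
      by_contra hc
      rw [lt_succ_iff hno hmo] at hc
      have hmlt : m ∈ n := by
        rcases le_or_lt hno hmo with h5 | h5
        · exact absurd h5 hc
        · exact h5
      rcases hR m (by rw [he]; exact hms) (omega_trans hno m hmlt) with h | h
      · exact hmW h
      · rw [h] at hmlt
        exact not_mem_self n hmlt
  obtain ⟨T, hTdef⟩ : ∃ T : M, T = mkseq omega (fun n => sep (pow omega) (fun Y =>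
    ∃ B, B ∈ ap G1 n ∧ Disj B D ∧ itr (itr B (ap A n)) CI ⊆ Y)) := ⟨_, rfl⟩
  have hT : ∀ n, n ∈ (omega : M) → ∀ Y, Y ∈ ap T n ↔ Y ⊆ omega ∧
      ∃ B, B ∈ ap G1 n ∧ Disj B D ∧ itr (itr B (ap A n)) CI ⊆ Y := fun n hn Y => by
    rw [hTdef, ap_mkseq hn, mem_sep, mem_pow]
  suffices hmain : ∃ i, i ∈ I ∧ Dcmp p (ap W i) by
    obtain ⟨s, hs, hdc⟩ := hmain
    exact hD.nd s ((hI s).1 hs).2 hdc
  refine sep_dcmp hAC hp.1 hAd hIf (C := C) (W := W) ?_ ?_ T ?_ ?_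
  · intro i j hi hj hij e he1 he2
    rw [hC i hi] at he1
    rw [hC j hj] at he2
    exact hij (he1.2.symm.trans he2.2)
  · intro i hi
    rw [hCa i hi]
    exact ⟨hD.uf i ((hI i).1 hi).2, hD.cell i ((hI i).1 hi).2⟩
  · -- h1
    intro Y hYo hY
    rw [← hCI]
    obtain ⟨Z2, hZ2⟩ : ∃ Z2 : M, Z2 = dif (itr (uS A) CI) Y := ⟨_, rfl⟩
    have hZ2S : Z2 ∈ SFr F W := by
      rw [mem_SFr]
      refine ⟨fun k hk => ?_, fun s hs h => ?_⟩
      · rw [hZ2, mem_dif, mem_itr] at hk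
        exact hCIo k hk.1.2
      · have h1 := hin s hs _ h (fun e he => by
          rw [hZ2, mem_dif, mem_itr] at he
          exact he.1.2)
        obtain ⟨e, he⟩ := (hD.uf s hs).ne (UF.itr (hD.uf s hs) h (hY s h1))
        rw [mem_itr, hZ2, mem_dif] at he
        exact he.1.2 he.2
    have h3 := hG1.2 _ (hS.2.2.1 _ _ hDS hZ2S)
    refine hp.1.sep_up h3 fun n hn hn' => ?_
    obtain ⟨B, hB, hBZ⟩ := hn'
    rw [hT n hn]
    refine ⟨sub_trans (itr_sub_left _ _) (sub_trans (itr_sub_left _ _) hYo), B, hB,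
      fun k hk hk' => hBZ k hk ((mem_un _ _ _).2 (Or.inl hk')), fun e he => ?_⟩
    rw [mem_itr, mem_itr] at he ⊢
    refine ⟨⟨?_, he.1.2⟩, he.2⟩
    by_contra he4
    refine hBZ e he.1.1 ((mem_un _ _ _).2 (Or.inr ?_))
    rw [hZ2, mem_dif, mem_itr, mem_uS]
    exact ⟨⟨⟨n, hn, he.1.2⟩, he.2⟩, he4⟩
  · -- h2
    intro Y hYo hY
    rw [← hCI] at hY
    by_contra hnY
    push Not at hnY
    obtain ⟨Z, hZdef⟩ : ∃ Z : M, Z = itr (itr Y (uS A)) CI := ⟨_, rfl⟩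
    have hZ : Z ∈ SFr F W := by
      rw [mem_SFr]
      refine ⟨fun k hk => ?_, fun s hs h => ?_⟩
      · rw [hZdef, mem_itr] at hk
        exact hCIo k hk.2
      · have h1 := hin s hs _ h (fun e he => by
          rw [hZdef, mem_itr] at he
          exact he.2)
        refine hnY s h1 ((hD.uf s hs).up h (fun e he => ?_) hYo)
        rw [hZdef, mem_itr, mem_itr] at he
        exact he.1.1
    have h3 := hG2.2 _ hZ
    obtain ⟨n, hn⟩ := hp.1.ne (UF.itr hp.1 (UF.itr hp.1 hY h3) (UF.itr hp.1 hx (Sel.gt hp hm0)))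
    rw [mem_itr, mem_itr, mem_itr, mem_sep, mem_sep, mem_sep] at hn
    obtain ⟨⟨⟨hno, hn1⟩, _, B', hB', hB'Z⟩, hnx, _, hmn⟩ := hn
    rw [hT n hno] at hn1
    obtain ⟨_, B, hB, hBD, hBY⟩ := hn1
    obtain ⟨e, he0, he1, he2, hrel⟩ := hno' n hno hmn (ap A n) B B' (hA1 n hnx) hB hB'
    have heo : e ∈ (omega : M) := hAo n hno e he0
    by_cases heC : e ∈ CI
    · have h5 := hBY e (mem_itr.2 ⟨mem_itr.2 ⟨he1, he0⟩, heC⟩)
      rw [mem_itr, mem_itr] at h5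
      refine hB'Z e he2 ?_
      rw [hZdef, mem_itr, mem_itr, mem_uS]
      exact ⟨⟨h5.1.1, n, hno, he0⟩, heC⟩
    · exact hBD e he1 ((hDd e).2 ⟨heo, n, hnx, hmn, he0, hrel, heC⟩)

end Pool.Agent.ZFIter.NPA.BLI
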