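import Pool.Agent.BLI.QpD

/-!
# BLI/TBs: truncated labels are relevant when (Q') fails (inside a model of ZF with choice)
-/

universe u

namespace Pool.Agent.ZFIter.NPA.BLI

open Pool.Agent.H78.ZF Pool.Agent.ZFIter Pool.Agent.ZFIter.NPA Pool.Agent.ZFIter.NPA.BSM

variable {M : Type u} [ZFM M] {ι : Type}

/-- The label `t(e)` truncated at its first element outside `B`. -/
noncomputable def tB (t B : M) : M :=
  mkseq omega (fun e => sep (ap t e) (fun m => ∀ m', m' ∈ ap t e → m' ⊆ m → m' ∈ B))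

instance DF.tB (t B : (ι → M) → M) [DF t] [DF B] : DF (fun v => tB (t v) (B v)) := by
  unfold BLI.tB; infer_instance

theorem mem_tB {t B e m : M} (he : e ∈ (omega : M)) : m ∈ ap (tB t B) e ↔
    m ∈ ap t e ∧ ∀ m', m' ∈ ap t e → m' ⊆ m → m' ∈ B := by
  unfold tB
  rw [ap_mkseq he, mem_sep]

theorem lab_tB {t B : M} (ht : Lab t) : Lab (tB t B) := fun e he m hm =>
  ht e he m ((mem_tB he).1 hm).1

theorem FSub.of_le' {P τ υ h : M} (hP : Po P)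
    (H : ∀ n, n ∈ (omega : M) → ∀ k, LE P k h → Nt P τ n k → Nt P υ n k) : FSub P τ υ h :=
  fun n hn k hk hkτ => Fc.of_mem hP (H n hn k hk hkτ)

theorem relT_tB (hAC : AC M) {Sm : M → Prop} (hSm : SmC Sm) {p : M} (hp : Selective p)
    {R : M → M → M → M → Prop} (hR : AbsRel Sm p R) {t : M} (ht : Lab t) (hH : H0 Sm R t)
    (hQ : ¬ Qp Sm p R t) : ∃ B, B ∈ p ∧ RelT Sm p R (tB t B) := by
  unfold Qp at hQ
  push Not at hQ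
  obtain ⟨B, hB, P, z, y, h, hP, hy, hzy, H⟩ := hQ
  refine ⟨B, hB, ?_⟩
  intro P₂ y₂ h₂ hP₂ hy₂
  have hz : Yy P p z h := hR.yy P z _ h hP H
  obtain ⟨T, f, g, x, w, hT, hf, hg, hx, hfx, hgx, hw, hwz, hwy⟩ := mixedRun hSm hp hP hP₂ hz hy₂
  have hyT : Yy T p (pull T P f y) x := Yy.pull hT.1 hP.1 hf hx (hy.down hP.1 hfx)
  have hwyT : FSub T w (pull T P f y) x :=
    hwz.trans hT.1 (FSub.pull hT.1 hP.1 hf (hzy.down hP.1 hfx))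
  obtain ⟨Q, f', q, z', hQ', hf', hq, hf'q, hz', hz'w, HR⟩ :=
    exit_eq hAC hSm hp hR ht hH hT hyT hwyT (FSub.refl hT.1 w x) hw
  have hgc := IsGen.comp hT.1 hg hf'
  have hfc := IsGen.comp hT.1 hf hf'
  obtain ⟨Y, hY⟩ : ∃ Y : M, Y = pull Q T f' (pull T P f y) := ⟨_, rfl⟩
  obtain ⟨w', hw'⟩ : ∃ w' : M, w' = pull Q T f' w := ⟨_, rfl⟩
  obtain ⟨Y₂, hY₂⟩ : ∃ Y₂ : M, Y₂ = pull Q P₂ (cpf Q P₂ g f') y₂ := ⟨_, rfl⟩
  rw [← hY, ← hw'] at HR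
  have hz'z : FSub Q z' (pull Q P (cpf Q P f f') z) q :=
    (hz'w.trans hQ'.1 (FSub.pull hQ'.1 hT.1 hf' (hwz.down hT.1 hf'q))).trans hQ'.1
      (comp_pull_sub hQ'.1 hT.1 hP.1 hf.1 hf'.1 z q)
  have H2 : R Q z' (exn Q t Y (chk Q (dif omega B))) q := by
    refine transfer hR hP hQ' hfc H hq ?_ hz' hz'z ?_
    · rw [ap_cpf hf.1 hf'.1 hq]
      exact hP.1.trans (hf.1.le hf'q) hfx
    · -- pull along the composition
      refine FSub.of_le hQ'.1 (fun e k he hk => ?_) q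
      rw [Nt_pull_comp hQ'.1 hT.1 hP.1 hf.1 hf'.1, Nt_pull hQ'.1 hT.1 hf'.1,
        Nt_pull hT.1 hP.1 hf.1, Nt_exn hP.1] at hk
      obtain ⟨_, hkQ, _, hkT, _, hkP, n, hn, h1, h2, h3⟩ := hk
      have hto := ht e he
      rw [Nt_exn hQ'.1]
      refine ⟨he, hkQ, n, hn, ?_, fun m hm hmn => ?_, ?_⟩
      · rw [hY]
        exact Nc.pull hQ'.1 hT.1 hf' (Nc.pull hT.1 hP.1 hf h1)
      · rw [hY, Nt_pull hQ'.1 hT.1 hf'.1, Nt_pull hT.1 hP.1 hf.1]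
        exact ⟨hto m hm, hkQ, hto m hm, hkT, h2 m hm hmn⟩
      · rw [Nt_chk hP.1] at h3
        rw [Nt_chk hQ'.1]
        exact ⟨h3.1, h3.2.1, hkQ⟩
  have H3 := hR.inter Q z' _ _ q hQ' HR H2
  have hwy₂ : FSub Q w' Y₂ q := by
    rw [hw', hY₂]
    exact (FSub.pull hQ'.1 hT.1 hf' (hwy.down hT.1 hf'q)).trans hQ'.1
      (comp_pull_sub hQ'.1 hT.1 hP₂.1 hg.1 hf'.1 y₂ q)
  refine ⟨Q, cpf Q P₂ g f', q, z', hQ', hgc, hq, ?_, ?_, ?_⟩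
  · rw [ap_cpf hg.1 hf'.1 hq]
    exact hP₂.1.trans (hg.1.le hf'q) hgx
  · rw [← hY₂]
    rw [← hw'] at hz'w
    exact hz'w.trans hQ'.1 hwy₂
  · rw [← hY₂]
    refine hR.mono Q z' z' _ _ q hQ' H3 hz' (FSub.refl hQ'.1 z' q) ?_
    refine FSub.of_le' hQ'.1 (fun e he k hk hkA => ?_)
    rw [Nt_inr hQ'.1, Nt_cmp hQ'.1, Nt_exn hQ'.1] at hkA
    obtain ⟨_, ⟨_, hkQ, hk1⟩, _, _, n, hn, hn1, hn2, hn3⟩ := hkA
    rw [Nt_chk hQ'.1, mem_dif] at hn3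
    unfold tsub
    rw [Nt_cmp hQ'.1]
    refine ⟨he, hkQ, ?_⟩
    intro k' hk' hk'E
    rw [Nt_exn hQ'.1] at hk'E
    obtain ⟨_, _, m, hm, hm3, _, _⟩ := hk'E
    obtain ⟨hm1, hm2⟩ := (mem_tB he).1 hm
    have hmo := ht e he m hm1
    have hno := ht e he n hn
    have hmn : m ∈ n := by
      rcases le_or_lt hno hmo with h4 | h4
      · exact absurd (hm2 n hn h4) hn3.2.1.2
      · exact h4
    have hNw : Nc Q w' m k' := hwy₂.nc hQ'.1 hmo (hQ'.1.trans hk' hk) hm3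
    obtain ⟨k'', hk'', n₀, hn₀o, hn₀m, hn₀t, hn₀N, hn₀s⟩ :=
      first_exit hQ'.1 ht he hm1 hk'.1 hNw
    refine hk1 k'' (hQ'.1.trans hk'' hk') ((Nt_exn hQ'.1).2 ⟨he, hk''.1, n₀, hn₀t, hn₀N, hn₀s, ?_⟩)
    exact (hn2 n₀ hn₀t (lt_of_le_of_lt hn₀o hno hn₀m hmn)).down hQ'.1 (hQ'.1.trans hk'' hk')

end Pool.Agent.ZFIter.NPA.BLI
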