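import Pool.Agent.BLI.Run3
import Pool.Agent.BLI.Rig
import Pool.Agent.BLI.TBs
import Pool.Agent.BLI.StepFront
import Pool.Agent.BLI.StepTree

/-!
# BLI/Cases: both kinds of data are impossible (inside a model of ZF)

The internal version of `BLS/Cases`.
-/

universe u

namespace Pool.Agent.ZFIter.NPA.BLI

open Pool.Agent.H78.ZF Pool.Agent.ZFIter Pool.Agent.ZFIter.NPA Pool.Agent.ZFIter.NPA.BSM

variable {M : Type u} [ZFM M] {ι : Type}

private theorem sepo (A : M) (P : M → Prop) [D1 P] : sep A P ⊆ A := fun _ hk =>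
  ((mem_sep _ _ _).1 hk).1

theorem front_false (hAC : AC M) {Sm : M → Prop} (hSm : SmC Sm) {p : M} (hp : Selective p)
    {R : M → M → M → M → Prop} (hR : AbsRel Sm p R) {U : M}
    (hU : ∀ A, A ⊆ omega → (A ∈ U ↔ InU Sm R A)) {t F W : M} (hD : FrontD p U t F W) : False := by
  have H : ∀ B, B ∈ p → InU Sm R (sep omega (fun e => ap t e ⊆ B)) := by
    intro B hB
    refine (hU _ (sepo _ _)).1 (hD.lim B _ hB (sepo _ _) fun s hs hsB => ?_)
    refine UF.of_mem (hD.uf s hs) (hD.cell s hs) fun e he => ?_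
    rw [mem_sep] at he
    rw [he.2]
    exact hsB
  have hH : H0 Sm R t := fun N hN => by
    refine inU_mono hR (H _ (Sel.gt hp hN)) fun e he h1 => ?_
    rw [mem_sep] at h1 ⊢
    exact ⟨he, fun m hm => ((mem_sep _ _ _).1 (h1.2 m hm)).2⟩
  have hrel := rig hAC hSm hp hR hD.lab hH (qp_of_rel hSm hp hR H)
  refine run3 hSm hp hR (idealS_front hD) (fun Z hZ hZU => ?_) hD.lab hrel
    (stepFront hAC hp hD)
  obtain ⟨hZo, hZs⟩ := mem_SFr.1 hZ
  have h1 : dif omega Z ∈ U := by
    refine hD.lim omega _ hp.1.2.1 (fun k hk => (mem_dif.1 hk).1) fun s hs _ => ?_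
    exact UF.compl (hD.uf s hs) hZo (hZs s hs)
  exact inU_compl hR hSm hp hZU ((hU _ (fun k hk => (mem_dif.1 hk).1)).1 h1)

private theorem tree_run (hAC : AC M) {Sm : M → Prop} (hSm : SmC Sm) {p : M} (hp : Selective p)
    {R : M → M → M → M → Prop} (hR : AbsRel Sm p R) {U : M}
    (hU : ∀ A, A ⊆ omega → (A ∈ U ↔ InU Sm R A)) {t b W : M} (hD : TreeD p U t b W)
    (hrel : RelT Sm p R t) : False := by
  refine run3 hSm hp hR (idealS_tree hp hD) (fun Z hZ hZU => ?_) hD.lab hrel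
    (stepTree hAC hp hD)
  obtain ⟨hZo, hZs⟩ := mem_STr.1 hZ
  have h1 : Z ∉ ap W emp := hZs emp emp_fsw (emp_sub _)
  rw [hD.root] at h1
  exact h1 ((hU Z hZo).2 hZU)

theorem tree_false (hAC : AC M) {Sm : M → Prop} (hSm : SmC Sm) {p : M} (hp : Selective p)
    {R : M → M → M → M → Prop} (hR : AbsRel Sm p R) {U : M}
    (hU : ∀ A, A ⊆ omega → (A ∈ U ↔ InU Sm R A)) {t b W : M} (hD : TreeD p U t b W) : False := by
  have ht := hD.lab
  have hH : H0 Sm R t := by
    intro N hN
    refine (hU _ (sepo _ _)).1 ?_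
    rw [← hD.root]
    refine (hD.lim emp _ emp_fsw (emp_sub _) (sepo _ _)).2 ?_
    refine UF.of_mem hp.1 (UF.itr hp.1 hD.mem (Sel.gt hp hN)) fun n hn => ?_
    rw [mem_itr, mem_sep] at hn
    obtain ⟨hn1, hno, hn2⟩ := hn
    have hs1 : ins emp n ∈ (fsw : M) := ins_fsw emp_fsw hno
    have hs2 : ins emp n ⊆ b := by
      intro k hk
      rw [mem_ins] at hk
      rcases hk with hk | rfl
      · exact absurd hk (not_mem_emp _)
      · exact hn1
    refine UF.of_mem (hD.uf _ hs1) (hD.cone _ hs1 hs2) fun e he => ?_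
    rw [mem_sep] at he
    obtain ⟨heo, he1, he2⟩ := he
    intro m hm
    by_cases hmn : m = n
    · rw [hmn]
      exact hn2
    · have h2 := he2 m hm (by
        rw [mem_ins]
        rintro (h | h)
        · exact absurd h (not_mem_emp _)
        · exact hmn h) n (by rw [mem_ins]; exact Or.inr rfl)
      exact lt_trans (ht e heo m hm) hn2 h2
  by_cases hQ : Qp Sm p R t
  · exact tree_run hAC hSm hp hR hU hD (rig hAC hSm hp hR ht hH hQ)
  · obtain ⟨B, hB, hrel⟩ := relT_tB hAC hSm hp hR ht hH hQ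
    have hD' : TreeD p U (tB t B) (itr b B) W := by
      refine ⟨lab_tB ht, hD.uf, UF.itr hp.1 hD.mem hB, hD.root, fun s hs hsb => ?_,
        fun s X hs hsb hX => ?_⟩
      · have hsb1 : s ⊆ b := fun k hk => (mem_itr.1 (hsb k hk)).1
        refine UF.of_mem (hD.uf s hs) (hD.cone s hs hsb1) fun e he => ?_
        rw [mem_sep] at he
        obtain ⟨heo, he1, he2⟩ := he
        refine ⟨fun m hm => ?_, fun i hi his j hj => ?_⟩
        · rw [mem_tB heo]
          refine ⟨he1 m hm, fun m' hm' hle => ?_⟩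
          by_cases h1 : m' ∈ s
          · exact (mem_itr.1 (hsb m' h1)).2
          · exact absurd (hle m (he2 m' hm' h1 m hm)) (not_mem_self m)
        · exact he2 i ((mem_tB heo).1 hi).1 his j hj
      · exact hD.lim s X hs (fun k hk => (mem_itr.1 (hsb k hk)).1) hX
    exact tree_run hAC hSm hp hR hU hD' hrel

end Pool.Agent.ZFIter.NPA.BLI
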