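import Pool.Agent.BLI.Sub

/-!
# BLI/DisjSel: disjoint selectors inside a model of ZF with choice
-/

universe u

namespace Pool.Agent.ZFIter.NPA.BLI

open Pool.Agent.H78.ZF Pool.Agent.ZFIter Pool.Agent.ZFIter.NPA Pool.Agent.ZFIter.NPA.BSM

variable {M : Type u} [ZFM M] {ι : Type}

theorem IdealS.emp_mem {S : M} (hS : IdealS S) : emp ∈ S :=
  hS.2.1 _ _ (hS.2.2.2 emp emp_mem_omega) (emp_sub _)

theorem IdealS.sub_om {S A : M} (hS : IdealS S) (hA : A ∈ S) : A ⊆ omega := by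
  have := hS.1 A hA
  rwa [mem_pow] at this

/-- Finite unions. -/
theorem IdealS.biUn {S : M} (hS : IdealS S) (G : M → M) [F1 G] :
    ∀ n, n ∈ (omega : M) → (∀ k, k ∈ n → G k ∈ S) →
      sep omega (fun j => ∃ k, k ∈ n ∧ j ∈ G k) ∈ S := by
  have e1 : ∀ κ : Type, ∀ a : (κ → M) → M, [DF a] → DF (fun v => G (a v)) :=
    fun κ a _ => F1.comp G a
  have e2 : ∀ n : M, D1 (fun j : M => ∃ k, k ∈ n ∧ j ∈ G k) := fun n => by
    have := e1 (Option Unit) (fun v => v none)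
    exact ⟨by infer_instance⟩
  have e3 : D1 (fun n : M => (∀ k, k ∈ n → G k ∈ S) →
      sep omega (fun j => ∃ k, k ∈ n ∧ j ∈ G k) ∈ S) := by
    have := e1 (Option Unit) (fun v => v none)
    have := e1 (Option (Option Unit)) (fun v => v none)
    exact ⟨by infer_instance⟩
  apply omega_induction (fun n => (∀ k, k ∈ n → G k ∈ S) →
      sep omega (fun j => ∃ k, k ∈ n ∧ j ∈ G k) ∈ S)
  · intro _
    refine hS.2.1 _ _ hS.emp_mem fun j hj => ?_
    rw [mem_sep] at hj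
    obtain ⟨_, k, hk, _⟩ := hj
    exact absurd hk (not_mem_emp k)
  · intro n hn ih hG
    have h1 := ih fun k hk => hG k (by rw [mem_succ]; exact Or.inl hk)
    have h2 := hG n (by rw [mem_succ]; exact Or.inr rfl)
    refine hS.2.1 _ _ (hS.2.2.1 _ _ h1 h2) fun j hj => ?_
    rw [mem_sep] at hj
    rw [mem_un, mem_sep]
    obtain ⟨hj, k, hk, hjk⟩ := hj
    rw [mem_succ] at hk
    rcases hk with hk | rfl
    · exact Or.inl ⟨hj, k, hk, hjk⟩
    · exact Or.inr hjk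

/-- A member of `F(n)` which is disjoint from `Z` (if there is one), chosen by `c`. -/
noncomputable def slc (c F Z n : M) : M :=
  sep (ap c (sep (ap F n) (fun A => Disj A Z))) (fun _ => ∃ A, A ∈ ap F n ∧ Disj A Z)

instance DF.slc (c F Z n : (ι → M) → M) [DF c] [DF F] [DF Z] [DF n] :
    DF (fun v => slc (c v) (F v) (Z v) (n v)) := by
  unfold BLI.slc; infer_instance

/-- `c` chooses from the nonempty subsets of `S`. -/
def Chs (c S : M) : Prop := ∀ s : M, s ⊆ S → s ≠ emp → ap c s ∈ s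

section
variable {p S F c : M} (hS : IdealS S) (hF : DFam p S F) (hc : Chs c S)
include hS hF hc

theorem slc_spec {Z n : M} (hn : n ∈ (omega : M)) (h : ∃ A, A ∈ ap F n ∧ Disj A Z) :
    slc c F Z n ∈ ap F n ∧ Disj (slc c F Z n) Z := by
  have h1 := hc (sep (ap F n) (fun A => Disj A Z))
    (fun A hA => hF.1 n hn A (by rw [mem_sep] at hA; exact hA.1)) (by
      rw [ne_emp_iff]
      obtain ⟨A, hA⟩ := h
      exact ⟨A, by rw [mem_sep]; exact hA⟩)
  rw [mem_sep] at h1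
  have e : slc c F Z n = ap c (sep (ap F n) (fun A => Disj A Z)) := ext fun z => by
    unfold slc
    rw [mem_sep]
    exact ⟨fun hz => hz.1, fun hz => ⟨hz, h⟩⟩
  rw [e]
  exact h1

theorem slc_mem {Z n : M} (hn : n ∈ (omega : M)) : slc c F Z n ∈ S := by
  by_cases h : ∃ A, A ∈ ap F n ∧ Disj A Z
  · exact hF.1 n hn _ (slc_spec hS hF hc hn h).1
  · refine hS.2.1 _ _ hS.emp_mem fun z hz => ?_
    unfold slc at hz
    rw [mem_sep] at hz
    exact absurd hz.2 h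

end

/-- The unions. -/
noncomputable def zz (c F n : M) : M :=
  erec (fun n g => sep omega (fun j => ∃ k, k ∈ n ∧ (j ∈ ap g k ∨ j ∈ slc c F (ap g k) n))) n

instance DF.zz (c F n : (ι → M) → M) [DF c] [DF F] [DF n] :
    DF (fun v => zz (c v) (F v) (n v)) := by
  unfold BLI.zz; infer_instance

theorem zz_eq (c F n : M) :
    zz c F n = sep omega (fun j => ∃ k, k ∈ n ∧ (j ∈ zz c F k ∨ j ∈ slc c F (zz c F k) n)) := by
  have hF2 : F2 (fun n g : M => sep omega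
      (fun j => ∃ k, k ∈ n ∧ (j ∈ ap g k ∨ j ∈ slc c F (ap g k) n))) := ⟨by infer_instance⟩
  unfold zz
  rw [erec_eq]
  refine ext fun j => ?_
  rw [mem_sep, mem_sep]
  constructor
  · rintro ⟨h1, k, hk, h2⟩
    rw [ap_mkseq hk] at h2
    exact ⟨h1, k, hk, h2⟩
  · rintro ⟨h1, k, hk, h2⟩
    refine ⟨h1, k, hk, ?_⟩
    rw [ap_mkseq hk]
    exact h2

theorem zz_lt {S p c F k n : M} (hS : IdealS S) (hF : DFam p S F) (hc : Chs c S)
    (hn : n ∈ (omega : M)) (hk : k ∈ n) :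
    zz c F k ⊆ zz c F n ∧ slc c F (zz c F k) n ⊆ zz c F n := by
  constructor
  · intro j hj
    rw [zz_eq c F n, mem_sep]
    refine ⟨?_, k, hk, Or.inl hj⟩
    rw [zz_eq, mem_sep] at hj
    exact hj.1
  · intro j hj
    rw [zz_eq c F n, mem_sep]
    exact ⟨hS.sub_om (slc_mem hS hF hc hn) j hj, k, hk, Or.inr hj⟩

theorem zz_mem {S p c F : M} (hS : IdealS S) (hF : DFam p S F) (hc : Chs c S) :
    ∀ n, n ∈ (omega : M) → zz c F n ∈ S := by
  have key : ∀ n, n ∈ (omega : M) → ∀ m, m ∈ n → zz c F m ∈ S := by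
    apply omega_induction (fun n => ∀ m, m ∈ n → zz c F m ∈ S)
    · intro m hm
      exact absurd hm (not_mem_emp m)
    · intro n hn ih m hm
      rw [mem_succ] at hm
      rcases hm with hm | rfl
      · exact ih m hm
      · have hG : F1 (fun k : M => un (zz c F k) (slc c F (zz c F k) m)) := ⟨by infer_instance⟩
        have h1 := hS.biUn (fun k : M => un (zz c F k) (slc c F (zz c F k) m)) m hn
          (fun k hk => hS.2.2.1 _ _ (ih k hk) (slc_mem hS hF hc hn))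
        rw [zz_eq]
        refine hS.2.1 _ _ h1 fun j hj => ?_
        rw [mem_sep] at hj ⊢
        obtain ⟨hj, k, hk, h2⟩ := hj
        refine ⟨hj, k, hk, ?_⟩
        rw [mem_un]
        exact h2
  intro n hn
  exact key (succ n) (succ_mem_omega hn) n (by rw [mem_succ]; exact Or.inr rfl)

/-- The predecessor of `n` in `x`, when it exists: the union of the elements of `x` below `n`. -/
noncomputable def prd (x n : M) : M := sep omega (fun j => ∃ k, k ∈ x ∧ k ∈ n ∧ j ∈ k)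

instance DF.prd (x n : (ι → M) → M) [DF x] [DF n] : DF (fun v => prd (x v) (n v)) := by
  unfold BLI.prd; infer_instance

theorem prd_spec {x n k₀ : M} (hx : x ⊆ omega) (hn : n ∈ (omega : M)) (hk₀ : k₀ ∈ x)
    (hk₀n : k₀ ∈ n) : prd x n ∈ x ∧ prd x n ∈ n ∧ ∀ k, k ∈ x → k ∈ n → k ⊆ prd x n := by
  have hs : sep x (fun k => k ∈ n) ∈ (fsw : M) :=
    sub_fsw (nat_fsw hn) fun k hk => by rw [mem_sep] at hk; exact hk.2
  obtain ⟨m, hm, h1⟩ := exists_max hs (by
    rw [ne_emp_iff]; exact ⟨k₀, by rw [mem_sep]; exact ⟨hk₀, hk₀n⟩⟩)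
  rw [mem_sep] at hm
  have h2 : ∀ k, k ∈ x → k ∈ n → k ⊆ m := fun k h3 h4 => h1 k (by rw [mem_sep]; exact ⟨h3, h4⟩)
  have e : prd x n = m := ext fun j => by
    unfold prd
    rw [mem_sep]
    constructor
    · rintro ⟨_, k, h3, h4, h5⟩
      exact h2 k h3 h4 j h5
    · intro hj
      exact ⟨mem_omega_of_mem hj (hx m hm.1), m, hm.1, hm.2, hj⟩
  rw [e]
  exact ⟨hm.1, hm.2, h2⟩

theorem disjSel (hAC : AC M) {p S F : M} (hp : Selective p) (hS : IdealS S)
    (hF : DFam p S F) :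
    ∃ x A, x ∈ p ∧ (∀ n, n ∈ x → ap A n ∈ ap F n) ∧
      (∀ n, n ∈ (omega : M) → n ∉ x → ap A n = emp) ∧
      (∀ n, n ∈ (omega : M) → ap A n ∈ S) ∧
      ∀ n m, n ∈ (omega : M) → m ∈ (omega : M) → n ≠ m → Disj (ap A n) (ap A m) := by
  obtain ⟨c, hc⟩ := ac_fun hAC S
  have hc : Chs c S := hc
  obtain ⟨x0, hx0, hd⟩ := Sel.diag hp (fun k n => ∃ A, A ∈ ap F n ∧ Disj A (zz c F k))
    (fun k hk => hF.2 _ (zz_mem hS hF hc k hk))
  have hx0o := UF.sub hp.1 hx0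
  obtain ⟨m0, hm0o, hm0x, hm0m⟩ := exists_least (fun m => m ∈ x0) (by
    obtain ⟨k, hk⟩ := hp.1.ne hx0
    exact ⟨k, hx0o k hk, hk⟩)
  obtain ⟨x, hxdef⟩ : ∃ x : M, x = dif x0 (sing m0) := ⟨_, rfl⟩
  have hx : x ∈ p := by
    rw [hxdef]
    exact Sel.dif_mem hp hx0 (fin_sing m0)
  have hxm : ∀ n, n ∈ x ↔ n ∈ x0 ∧ n ≠ m0 := by
    intro n
    rw [hxdef, mem_dif, mem_sing]
  have hprd : ∀ n, n ∈ x → prd x0 n ∈ x0 ∧ prd x0 n ∈ n ∧
      ∀ k, k ∈ x0 → k ∈ n → k ⊆ prd x0 n := by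
    intro n hn
    rw [hxm] at hn
    refine prd_spec hx0o (hx0o n hn.1) hm0x ?_
    rcases trichotomy (hx0o n hn.1) hm0o with h | h | h
    · exact absurd hn.1 (hm0m n h)
    · exact absurd h hn.2
    · exact h
  obtain ⟨A, hA⟩ : ∃ A : M, A = mkseq omega
    (fun n => sep (slc c F (zz c F (prd x0 n)) n) (fun _ => n ∈ x)) := ⟨_, rfl⟩
  have hAn : ∀ n, n ∈ (omega : M) → n ∈ x → ap A n = slc c F (zz c F (prd x0 n)) n := by
    intro n hn hnx
    rw [hA, ap_mkseq hn]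
    exact ext fun z => by rw [mem_sep]; exact ⟨fun h => h.1, fun h => ⟨h, hnx⟩⟩
  have hAe : ∀ n, n ∈ (omega : M) → n ∉ x → ap A n = emp := by
    intro n hn hnx
    rw [hA, ap_mkseq hn]
    exact eq_emp fun z hz => by rw [mem_sep] at hz; exact hnx hz.2
  have hsel : ∀ n, n ∈ x → slc c F (zz c F (prd x0 n)) n ∈ ap F n ∧
      Disj (slc c F (zz c F (prd x0 n)) n) (zz c F (prd x0 n)) := by
    intro n hn
    obtain ⟨h1, h2, _⟩ := hprd n hn
    have hn' := (hxm n).1 hn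
    exact slc_spec hS hF hc (hx0o n hn'.1) (hd _ h1 n hn'.1 h2)
  refine ⟨x, A, hx, ?_, hAe, ?_, ?_⟩
  · intro n hn
    rw [hAn n (hx0o n ((hxm n).1 hn).1) hn]
    exact (hsel n hn).1
  · intro n hn
    by_cases h : n ∈ x
    · rw [hAn n hn h]
      exact slc_mem hS hF hc hn
    · rw [hAe n hn h]
      exact hS.emp_mem
  · have key : ∀ n' n, n' ∈ (omega : M) → n ∈ (omega : M) → n' ∈ n →
        Disj (ap A n') (ap A n) := by
      intro n' n hn'o hno hlt j hj hj'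
      by_cases h1 : n' ∈ x
      swap
      · rw [hAe n' hn'o h1] at hj
        exact not_mem_emp j hj
      by_cases h2 : n ∈ x
      swap
      · rw [hAe n hno h2] at hj'
        exact not_mem_emp j hj'
      rw [hAn n' hn'o h1] at hj
      rw [hAn n hno h2] at hj'
      obtain ⟨h3, h4, _⟩ := hprd n' h1
      obtain ⟨h5, h6, h7⟩ := hprd n h2
      have h8 := (zz_lt hS hF hc hn'o h4).2 j hj
      have h9 : zz c F n' ⊆ zz c F (prd x0 n) := by
        rcases (le_iff hn'o (hx0o _ h5)).1 (h7 n' ((hxm n').1 h1).1 hlt) with h | h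
        · exact (zz_lt hS hF hc (hx0o _ h5) h).1
        · rw [← h]; exact sub_refl _
      exact (hsel n h2).2 j hj' (h9 j h8)
    intro n m hn hm hne
    rcases trichotomy hn hm with h | h | h
    · exact key n m hn hm h
    · exact absurd h hne
    · intro j hj hj'
      exact key m n hm hn h j hj' hj

theorem freeSet {p A : M} (hp : Selective p)
    (hAo : ∀ n, n ∈ (omega : M) → ap A n ⊆ omega)
    (hA : ∀ n m, n ∈ (omega : M) → m ∈ (omega : M) → n ≠ m → Disj (ap A n) (ap A m))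
    (hn : ∀ n, n ∈ (omega : M) → n ∉ ap A n) :
    ∃ x, x ∈ p ∧ ∀ n, n ∈ x → ∀ k, k ∈ x → k ∉ ap A n := by
  have hfin : FinM (sep omega (fun k => ap A k ∈ p)) := by
    by_cases h : ∃ k, k ∈ (omega : M) ∧ ap A k ∈ p
    · obtain ⟨k, hk, hkp⟩ := h
      refine fin_sub (fin_sing k) fun k' hk' => ?_
      rw [mem_sep] at hk'
      rw [mem_sing]
      by_contra hne
      exact UF.not_disj hp.1 hkp hk'.2 (hA k k' hk hk'.1 fun e => hne e.symm)
    · refine fin_sub fin_emp fun k' hk' => ?_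
      rw [mem_sep] at hk'
      exact absurd ⟨k', hk'⟩ h
  have hB : ∀ k, k ∈ (omega : M) → sep omega (fun n => k ∉ ap A n) ∈ p := by
    intro k hk
    have h1 : FinM (sep omega (fun n => k ∈ ap A n)) := by
      by_cases h : ∃ n, n ∈ (omega : M) ∧ k ∈ ap A n
      · obtain ⟨n, hn', hkn⟩ := h
        refine fin_sub (fin_sing n) fun n' hn'' => ?_
        rw [mem_sep] at hn''
        rw [mem_sing]
        by_contra hne
        exact hA n n' hn' hn''.1 (fun e => hne e.symm) k hkn hn''.2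
      · refine fin_sub fin_emp fun n' hn'' => ?_
        rw [mem_sep] at hn''
        exact absurd ⟨n', hn''⟩ h
    refine UF.of_mem hp.1 (Sel.fin_compl hp h1) fun n hn' => ?_
    rw [mem_dif, mem_sep] at hn'
    exact fun h => hn'.2 ⟨hn'.1, h⟩
  obtain ⟨x0, hx0, hd⟩ := Sel.diag hp (fun k n => ap A k ∉ p → n ∉ ap A k ∧ k ∉ ap A n) (by
      intro k hk
      by_cases h : ap A k ∈ p
      · exact UF.sep_univ hp.1 fun n _ h' => absurd h h'
      · have h1 := UF.compl hp.1 (hAo k hk) h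
        refine UF.of_mem hp.1 (UF.itr hp.1 h1 (hB k hk)) fun n hn' _ => ?_
        rw [mem_itr, mem_dif, mem_sep] at hn'
        exact ⟨hn'.1.2, hn'.2.2⟩)
  refine ⟨dif x0 (sep omega (fun k => ap A k ∈ p)), Sel.dif_mem hp hx0 hfin, ?_⟩
  intro n hnx k hkx
  rw [mem_dif, mem_sep] at hnx hkx
  have hno := UF.sub hp.1 hx0 n hnx.1
  have hko := UF.sub hp.1 hx0 k hkx.1
  rcases trichotomy hko hno with h | h | h
  · exact (hd k hkx.1 n hnx.1 h fun h' => hkx.2 ⟨hko, h'⟩).2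
  · rw [h]
    exact hn n hno
  · exact (hd n hnx.1 k hkx.1 h fun h' => hnx.2 ⟨hno, h'⟩).1

/-- Two families which avoid the point which enters are never cross-intersecting. -/
theorem stepE (hAC : AC M) {p F₀ F₁ m : M} (hp : Selective p)
    (hS : IdealS (sep (pow omega) (fun Z => Z ∉ p)))
    (hF₀ : DFam p (sep (pow omega) (fun Z => Z ∉ p)) F₀)
    (hF₁ : DFam p (sep (pow omega) (fun Z => Z ∉ p)) F₁)
    (hn : ∀ n, n ∈ (omega : M) → ∀ A, A ∈ ap F₀ n → n ∉ A) (hm : m ∈ (omega : M)) :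
    ∃ n A₀ A₁, n ∈ (omega : M) ∧ m ∈ n ∧ A₀ ∈ ap F₀ n ∧ A₁ ∈ ap F₁ n ∧ Disj A₀ A₁ := by
  obtain ⟨x, A, hx, h1, h2, h2', h3⟩ := disjSel hAC hp hS hF₀
  have h4 : ∀ n, n ∈ (omega : M) → n ∉ ap A n := by
    intro n hno
    by_cases h : n ∈ x
    · exact hn n hno _ (h1 n h)
    · rw [h2 n hno h]
      exact not_mem_emp n
  obtain ⟨x', hx', h5⟩ := freeSet hp (fun n hn => hS.sub_om (h2' n hn)) h3 h4
  obtain ⟨Z, hZ⟩ : ∃ Z : M, Z = sep omega (fun k => ∃ n, n ∈ x' ∧ k ∈ ap A n) := ⟨_, rfl⟩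
  have hZp : Z ∉ p := by
    intro h
    refine UF.not_disj hp.1 h hx' fun k hk hk' => ?_
    rw [hZ, mem_sep] at hk
    obtain ⟨_, n, hnx, hkn⟩ := hk
    exact h5 n hnx k hk' hkn
  have hZS : Z ∈ sep (pow omega) (fun Z => Z ∉ p) := by
    rw [mem_sep, mem_pow]
    refine ⟨?_, hZp⟩
    rw [hZ]
    exact fun k hk => by rw [mem_sep] at hk; exact hk.1
  have h6 := hF₁.2 Z hZS
  obtain ⟨n, hn'⟩ := hp.1.ne (UF.itr hp.1 (UF.itr hp.1 (UF.itr hp.1 hx hx') h6) (Sel.gt hp hm))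
  rw [mem_itr, mem_itr, mem_itr, mem_sep, mem_sep] at hn'
  obtain ⟨⟨⟨hnx, hnx'⟩, hno, B, hB, hBZ⟩, _, hmn⟩ := hn'
  refine ⟨n, ap A n, B, hno, hmn, h1 n hnx, hB, fun k hk hk' => ?_⟩
  refine hBZ k hk' ?_
  rw [hZ, mem_sep]
  exact ⟨hS.sub_om (h2' n hno) k hk, n, hnx', hk⟩

end Pool.Agent.ZFIter.NPA.BLI
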