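import Pool.Agent.BLI.MR

/-!
# BLI/GRun: the run posets with two and with three sides (inside a model of ZF)

* `grun2`: `T` = the pairs `(a, b)` of conditions `≤ h₀` with equal domains such that the part where both
  values are `1` is contained in the domain of `h₀`; `w n` = both sides put `n` into `z`.
* `grun3`: `T` = the `((a, (b, c)), (W, N))` as in `BLS/GRun`.
-/

universe u

namespace Pool.Agent.ZFIter.NPA.BLI

open Pool.Agent.H78.ZF Pool.Agent.ZFIter Pool.Agent.ZFIter.NPA Pool.Agent.ZFIter.NPA.BSM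

variable {M : Type u} [ZFM M] {ι : Type}

section
variable {P S s : M} (hS : IdealS S) (hs : IsProj P (GG S) s)
include hS hs

/-- Enlarge the domain of the condition `b` to `Z`, with the value `0` at the new points. -/
theorem enl {b Z : M} (hb : b ∈ fs P) (hZ : Z ∈ S) (hsub : fs (ap s b) ⊆ Z) :
    ∃ b', LE P b' b ∧ fs (ap s b') = Z ∧ sn (ap s b') = sn (ap s b) := by
  have hm := hs.1.mem hb
  obtain ⟨h1, h2, h3, h4⟩ := GG_fs hm
  have hx : LE (GG S) (opair Z (sn (ap s b))) (ap s b) := by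
    rw [LE_GG, fs_opair, sn_opair]
    exact ⟨opair_GG_of hS hZ (sub_trans h3 hsub), hm, hsub, fun _ _ => Iff.rfl⟩
  obtain ⟨b', hb', e⟩ := hs.2 b hb _ hx
  refine ⟨b', hb', ?_, ?_⟩
  · rw [e, fs_opair]
  · rw [e, sn_opair]

omit hS in
/-- The values in the old domain do not change. -/
theorem old_val {a a' e : M} (h : LE P a' a) (he : e ∈ fs (ap s a)) :
    e ∈ sn (ap s a') ↔ e ∈ sn (ap s a) := by
  have h1 := hs.1.le h
  rw [LE_GG] at h1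
  exact h1.2.2.2 e he

omit hS in
theorem fs_mono {a a' : M} (h : LE P a' a) : fs (ap s a) ⊆ fs (ap s a') := by
  have h1 := hs.1.le h
  rw [LE_GG] at h1
  exact h1.2.2.1

omit hS in
theorem sn_sub_fs {a : M} (h : a ∈ fs P) : sn (ap s a) ⊆ fs (ap s a) :=
  (GG_fs (hs.1.mem h)).2.2.1

omit hS in
theorem fs_mem_S {a : M} (h : a ∈ fs P) : fs (ap s a) ∈ S := (GG_fs (hs.1.mem h)).1

end

/-! ### Two sides -/

/-- The conditions of the run with two sides. -/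
noncomputable def G2C (P s h₀ : M) : M :=
  sep (prod (fs P) (fs P)) (fun x => LE P (fs x) h₀ ∧ LE P (sn x) h₀ ∧
    fs (ap s (fs x)) = fs (ap s (sn x)) ∧
    ∀ e, e ∈ sn (ap s (fs x)) → e ∈ sn (ap s (sn x)) → e ∈ fs (ap s h₀))

theorem opair_G2C {P s h₀ a b : M} : opair a b ∈ G2C P s h₀ ↔ LE P a h₀ ∧ LE P b h₀ ∧
    fs (ap s a) = fs (ap s b) ∧
    ∀ e, e ∈ sn (ap s a) → e ∈ sn (ap s b) → e ∈ fs (ap s h₀) := by
  unfold G2C
  rw [mem_sep, opair_mem_prod, fs_opair, sn_opair]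
  exact ⟨fun h => h.2, fun h => ⟨⟨h.1.1, h.2.1.1⟩, h⟩⟩

theorem G2C_sub {P s h₀ : M} : G2C P s h₀ ⊆ prod (fs P) (fs P) := fun x hx => by
  unfold G2C at hx
  rw [mem_sep] at hx
  exact hx.1

theorem mem_G2C {P s h₀ x : M} (hx : x ∈ G2C P s h₀) : ∃ a b, x = opair a b ∧ LE P a h₀ ∧
    LE P b h₀ ∧ fs (ap s a) = fs (ap s b) ∧
    ∀ e, e ∈ sn (ap s a) → e ∈ sn (ap s b) → e ∈ fs (ap s h₀) := by
  obtain ⟨a, _, b, _, rfl⟩ := (mem_prod _ _ _).1 (G2C_sub x hx)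
  exact ⟨a, b, rfl, opair_G2C.1 hx⟩

theorem grun2 {Sm : M → Prop} (hSm : SmC Sm) {p S P s z h₀ : M} (hS : IdealS S) (hP : SP Sm P)
    (hs : IsProj P (GG S) s) (hz : Yy P p z h₀)
    (step : ∀ a b, LE P a h₀ → LE P b h₀ → fs (ap s a) = fs (ap s b) → ∀ N, N ∈ (omega : M) →
      ∃ n A B, n ∈ (omega : M) ∧ N ∈ n ∧ A ∈ ap (Dec P s z a) n ∧ B ∈ ap (Dec P s z b) n ∧
        Disj A B) :
    ∃ T f g x w, SP Sm T ∧ IsGen T P f ∧ IsGen T P g ∧ x ∈ fs T ∧ LE P (ap f x) h₀ ∧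
      LE P (ap g x) h₀ ∧ FInf T w x ∧ FSub T w (pull T P f z) x ∧ FSub T w (pull T P g z) x ∧
      ∀ y, LE T y x → ∀ e, e ∈ sn (ap s (ap f y)) → e ∈ sn (ap s (ap g y)) →
        e ∈ fs (ap s h₀) := by
  have hP1 := hP.1
  obtain ⟨C, hCdef⟩ : ∃ C : M, C = G2C P s h₀ := ⟨_, rfl⟩
  have hC : C ⊆ prod (fs P) (fs P) := by rw [hCdef]; exact G2C_sub
  have hCm : ∀ a b, opair a b ∈ C ↔ LE P a h₀ ∧ LE P b h₀ ∧ fs (ap s a) = fs (ap s b) ∧
      ∀ e, e ∈ sn (ap s a) → e ∈ sn (ap s b) → e ∈ fs (ap s h₀) := fun a b => by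
    rw [hCdef]; exact opair_G2C
  have hCe : ∀ x, x ∈ C → ∃ a b, x = opair a b ∧ LE P a h₀ ∧ LE P b h₀ ∧
      fs (ap s a) = fs (ap s b) ∧
      ∀ e, e ∈ sn (ap s a) → e ∈ sn (ap s b) → e ∈ fs (ap s h₀) := fun x hx => by
    rw [hCdef] at hx; exact mem_G2C hx
  have hT : SP Sm (sbP P P C) := sp_sbP hSm hC hP hP
  obtain ⟨T, hTdef⟩ : ∃ T : M, T = sbP P P C := ⟨_, rfl⟩
  have hfsT : fs T = C := by rw [hTdef, fs_sbP]
  have hLE : ∀ a b a' b', LE T (opair a' b') (opair a b) ↔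
      opair a' b' ∈ C ∧ opair a b ∈ C ∧ LE P a' a ∧ LE P b' b := fun a b a' b' => by
    rw [hTdef, LE_sbP, fs_opair, sn_opair, fs_opair, sn_opair]
  rw [← hTdef] at hT
  have hf1 : ∀ a b, opair a b ∈ C → ap (pf1 P C) (opair a b) = a := fun a b h => by
    rw [ap_pf1 hC h, fs_opair]
  have hf2 : ∀ a b, opair a b ∈ C → ap (pf2 P C) (opair a b) = b := fun a b h => by
    rw [ap_pf2 hC h, sn_opair]
  have hH1 : Hom T P (pf1 P C) := by rw [hTdef]; exact hom_pf1 hC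
  have hH2 : Hom T P (pf2 P C) := by rw [hTdef]; exact hom_pf2 hC
  -- genericity
  have hg1 : IsGen T P (pf1 P C) := by
    refine ⟨hH1, fun D hD q hq => ?_⟩
    rw [hfsT] at hq
    obtain ⟨a, b, rfl, ha, hb, hab, he⟩ := hCe q hq
    obtain ⟨a', ha', haD⟩ := hD.2.2 a ha.1
    obtain ⟨b', hb', h1, h2⟩ := enl hS hs hb.1 (fs_mem_S hs ha'.1)
      (by rw [← hab]; exact fs_mono hs ha')
    have hm : opair a' b' ∈ C := (hCm _ _).2 ⟨hP1.trans ha' ha, hP1.trans hb' hb, h1.symm,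
      fun e h3 h4 => by
        rw [h2] at h4
        refine he e ?_ h4
        have h5 : e ∈ fs (ap s a) := by rw [hab]; exact sn_sub_fs hs hb.1 e h4
        exact (old_val hs ha' h5).1 h3⟩
    exact ⟨opair a' b', (hLE _ _ _ _).2 ⟨hm, hq, ha', hb'⟩, by rw [hf1 _ _ hm]; exact haD⟩
  have hg2 : IsGen T P (pf2 P C) := by
    refine ⟨hH2, fun D hD q hq => ?_⟩
    rw [hfsT] at hq
    obtain ⟨a, b, rfl, ha, hb, hab, he⟩ := hCe q hq
    obtain ⟨b', hb', hbD⟩ := hD.2.2 b hb.1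
    obtain ⟨a', ha', h1, h2⟩ := enl hS hs ha.1 (fs_mem_S hs hb'.1)
      (by rw [hab]; exact fs_mono hs hb')
    have hm : opair a' b' ∈ C := (hCm _ _).2 ⟨hP1.trans ha' ha, hP1.trans hb' hb, h1,
      fun e h3 h4 => by
        rw [h2] at h3
        refine he e h3 ?_
        have h5 : e ∈ fs (ap s b) := by rw [← hab]; exact sn_sub_fs hs ha.1 e h3
        exact (old_val hs hb' h5).1 h4⟩
    exact ⟨opair a' b', (hLE _ _ _ _).2 ⟨hm, hq, ha', hb'⟩, by rw [hf2 _ _ hm]; exact hbD⟩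
  -- the name
  have hD2 : D2 (fun n x : M => Nt P z n (fs x) ∧ Nt P z n (sn x)) := ⟨by infer_instance⟩
  obtain ⟨w, hw⟩ : ∃ w : M, w = mkNm T (fun n x => Nt P z n (fs x) ∧ Nt P z n (sn x)) := ⟨_, rfl⟩
  have hNw : ∀ n x, Nt T w n x ↔ n ∈ (omega : M) ∧ x ∈ C ∧ Nt P z n (fs x) ∧ Nt P z n (sn x) := by
    intro n x
    rw [hw, Nt_mkNm hT.1, hfsT]
    intro n k k' hk h
    rw [hTdef, LE_sbP] at hk
    exact ⟨h.1.down hP1 hk.2.2.1, h.2.down hP1 hk.2.2.2⟩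
  have hx : opair h₀ h₀ ∈ C := (hCm _ _).2 ⟨hP1.refl hz.1, hP1.refl hz.1, rfl,
    fun e he _ => sn_sub_fs hs hz.1 e he⟩
  refine ⟨T, pf1 P C, pf2 P C, opair h₀ h₀, w, hT, hg1, hg2, ?_, ?_, ?_, ?_, ?_, ?_, ?_⟩
  · rw [hfsT]; exact hx
  · rw [hf1 _ _ hx]; exact hP1.refl hz.1
  · rw [hf2 _ _ hx]; exact hP1.refl hz.1
  · intro N hN k hk
    have hkC := hk.1
    rw [hfsT] at hkC
    obtain ⟨a, b, rfl, ha, hb, hab, he⟩ := hCe k hkC
    obtain ⟨n, A, B, hn, hNn, hA, hB, hAB⟩ := step a b ha hb hab N hN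
    rw [mem_Dec hn] at hA hB
    obtain ⟨a', ha', hna, rfl⟩ := hA
    obtain ⟨b', hb', hnb, rfl⟩ := hB
    have hZ : un (fs (ap s a')) (fs (ap s b')) ∈ S := hS.union (fs_mem_S hs ha'.1) (fs_mem_S hs hb'.1)
    obtain ⟨a2, ha2, h1, h2⟩ := enl hS hs ha'.1 hZ (sub_un_left _ _)
    obtain ⟨b2, hb2, h3, h4⟩ := enl hS hs hb'.1 hZ (sub_un_right _ _)
    have hm : opair a2 b2 ∈ C := (hCm _ _).2 ⟨hP1.trans (hP1.trans ha2 ha') ha,
      hP1.trans (hP1.trans hb2 hb') hb, by rw [h1, h3], fun e h5 h6 => by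
        rw [h2] at h5
        rw [h4] at h6
        by_cases h7 : e ∈ fs (ap s a)
        · exact he e ((old_val hs ha' h7).1 h5) ((old_val hs hb' (by rw [← hab]; exact h7)).1 h6)
        · exfalso
          exact hAB e (mem_dif.2 ⟨h5, h7⟩) (mem_dif.2 ⟨h6, by rw [← hab]; exact h7⟩)⟩
    refine ⟨n, hn, omega_trans hn N hNn, opair a2 b2,
      (hLE _ _ _ _).2 ⟨hm, hkC, hP1.trans ha2 ha', hP1.trans hb2 hb'⟩, (hNw _ _).2 ⟨hn, hm, ?_, ?_⟩⟩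
    · rw [fs_opair]; exact hna.down hP1 ha2
    · rw [sn_opair]; exact hnb.down hP1 hb2
  · refine FSub.of_le hT.1 (fun n k hn hk => ?_) _
    rw [Nt_pull hT.1 hP1 hH1]
    obtain ⟨_, h1, h2, _⟩ := (hNw _ _).1 hk
    refine ⟨hn, by rw [hfsT]; exact h1, ?_⟩
    rw [ap_pf1 hC h1]
    exact h2
  · refine FSub.of_le hT.1 (fun n k hn hk => ?_) _
    rw [Nt_pull hT.1 hP1 hH2]
    obtain ⟨_, h1, _, h2⟩ := (hNw _ _).1 hk
    refine ⟨hn, by rw [hfsT]; exact h1, ?_⟩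
    rw [ap_pf2 hC h1]
    exact h2
  · intro y hy e h1 h2
    have hyC := hy.1
    rw [hfsT] at hyC
    obtain ⟨a, b, rfl, ha, hb, hab, he⟩ := hCe y hyC
    rw [hf1 _ _ hyC] at h1
    rw [hf2 _ _ hyC] at h2
    exact he e h1 h2

/-! ### Three sides -/

/-- Finite sets of numbers `W` with a bound `N`: below `N` nothing changes any more. -/
noncomputable def wnP : M := mkPo (prod fsw omega)
  (fun x y => sn y ⊆ sn x ∧ ∀ m, m ⊆ sn y → (m ∈ fs x ↔ m ∈ fs y))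

theorem fs_wnP : fs (wnP : M) = prod fsw omega := fs_mkPo _ _

theorem LE_wnP {x y : M} : LE wnP x y ↔ x ∈ prod (fsw : M) omega ∧ y ∈ prod (fsw : M) omega ∧
    sn y ⊆ sn x ∧ ∀ m, m ⊆ sn y → (m ∈ fs x ↔ m ∈ fs y) := by
  have : D2 (fun x y : M => sn y ⊆ sn x ∧ ∀ m, m ⊆ sn y → (m ∈ fs x ↔ m ∈ fs y)) :=
    ⟨by infer_instance⟩
  exact LE_mkPo

theorem po_wnP : Po (wnP : M) := by
  constructor
  · intro s hs
    rw [fs_wnP] at hs
    exact LE_wnP.2 ⟨hs, hs, sub_refl _, fun _ _ => Iff.rfl⟩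
  · intro a b c h1 h2
    rw [LE_wnP] at h1 h2 ⊢
    exact ⟨h1.1, h2.2.1, sub_trans h2.2.2.1 h1.2.2.1, fun m hm =>
      (h1.2.2.2 m (sub_trans hm h2.2.2.1)).trans (h2.2.2.2 m hm)⟩

theorem sp_wnP {Sm : M → Prop} (hSm : SmC Sm) : SP Sm (wnP : M) := by
  refine ⟨po_wnP, ?_⟩
  rw [fs_wnP]
  exact hSm.prod _ _ (sm_fsw hSm) (sm_omega hSm)

/-- The last invariant: what is decided to be `1` on all sides is safe. -/
def Ok3 (s h₀ t a b c W N : M) : Prop :=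
  ∀ e, e ∈ sn (ap s a) → e ∈ sn (ap s b) → e ∈ sn (ap s c) → e ∉ fs (ap s h₀) →
    ∃ m, m ∈ ap t e ∧ m ⊆ N ∧ m ∉ W

instance DR.Ok3 (s h₀ t a b c W N : (ι → M) → M) [DF s] [DF h₀] [DF t] [DF a]
    [DF b] [DF c] [DF W] [DF N] :
    DR (fun v => Ok3 (s v) (h₀ v) (t v) (a v) (b v) (c v) (W v) (N v)) := by
  unfold BLI.Ok3; infer_instance

/-- The elements of `W` are in `z` on all sides. -/
def Wz3 (P z a b c W : M) : Prop := ∀ n, n ∈ W → Nt P z n a ∧ Nt P z n b ∧ Nt P z n c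

instance DR.Wz3 (P z a b c W : (ι → M) → M) [DF P] [DF z] [DF a] [DF b] [DF c] [DF W] :
    DR (fun v => Wz3 (P v) (z v) (a v) (b v) (c v) (W v)) := by
  unfold BLI.Wz3; infer_instance

/-- The invariants of the run with three sides. -/
def Inv3 (P s z h₀ t a b c W N : M) : Prop :=
  LE P a h₀ ∧ LE P b h₀ ∧ LE P c h₀ ∧ fs (ap s a) = fs (ap s b) ∧ fs (ap s a) = fs (ap s c) ∧
    W ∈ (fsw : M) ∧ N ∈ (omega : M) ∧ (∀ i, i ∈ W → i ⊆ N) ∧ Wz3 P z a b c W ∧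
    Ok3 s h₀ t a b c W N

instance DR.Inv3 (P s z h₀ t a b c W N : (ι → M) → M) [DF P] [DF s] [DF z] [DF h₀] [DF t] [DF a]
    [DF b] [DF c] [DF W] [DF N] :
    DR (fun v => Inv3 (P v) (s v) (z v) (h₀ v) (t v) (a v) (b v) (c v) (W v) (N v)) := by
  unfold BLI.Inv3; infer_instance

/-- The states. -/
noncomputable def G3C (P s z h₀ t : M) : M :=
  sep (prod (fs (prP P (prP P P))) (fs (wnP : M))) (fun x =>
    Inv3 P s z h₀ t (fs (fs x)) (fs (sn (fs x))) (sn (sn (fs x))) (fs (sn x)) (sn (sn x)))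

/-- A state. -/
noncomputable def st3 (a b c W N : M) : M := opair (opair a (opair b c)) (opair W N)

section
variable {P s z h₀ t : M}

theorem G3C_sub : G3C P s z h₀ t ⊆ prod (fs (prP P (prP P P))) (fs (wnP : M)) := fun x hx => by
  unfold G3C at hx
  rw [mem_sep] at hx
  exact hx.1

theorem st3_mem {a b c W N : M} : st3 a b c W N ∈ G3C P s z h₀ t ↔ Inv3 P s z h₀ t a b c W N := by
  unfold G3C st3
  rw [mem_sep]
  simp only [fs_opair, sn_opair, opair_mem_prod, mem_prP, fs_wnP]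
  constructor
  · exact fun h => h.2
  · exact fun h => ⟨⟨⟨h.1.1, h.2.1.1, h.2.2.1.1⟩, h.2.2.2.2.2.1, h.2.2.2.2.2.2.1⟩, h⟩

theorem mem_G3C {x : M} (hx : x ∈ G3C P s z h₀ t) : ∃ a b c W N, x = st3 a b c W N ∧
    Inv3 P s z h₀ t a b c W N := by
  obtain ⟨y, hy, v, hv, rfl⟩ := (mem_prod _ _ _).1 (G3C_sub x hx)
  unfold prP at hy
  rw [fs_sbP] at hy
  obtain ⟨a, _, u, hu, rfl⟩ := (mem_prod _ _ _).1 hy
  rw [fs_sbP] at hu
  obtain ⟨b, _, c, _, rfl⟩ := (mem_prod _ _ _).1 hu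
  rw [fs_wnP] at hv
  obtain ⟨W, _, N, _, rfl⟩ := (mem_prod _ _ _).1 hv
  exact ⟨a, b, c, W, N, rfl, st3_mem.1 hx⟩

/-- The forcing with three sides. -/
noncomputable def G3P (P s z h₀ t : M) : M := sbP (prP P (prP P P)) wnP (G3C P s z h₀ t)

theorem fs_G3P : fs (G3P P s z h₀ t) = G3C P s z h₀ t := by unfold G3P; rw [fs_sbP]

theorem LE_G3P {a b c W N a' b' c' W' N' : M} :
    LE (G3P P s z h₀ t) (st3 a' b' c' W' N') (st3 a b c W N) ↔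
      Inv3 P s z h₀ t a' b' c' W' N' ∧ Inv3 P s z h₀ t a b c W N ∧ LE P a' a ∧ LE P b' b ∧
        LE P c' c ∧ N ⊆ N' ∧ ∀ m, m ⊆ N → (m ∈ W' ↔ m ∈ W) := by
  unfold G3P
  rw [LE_sbP, st3_mem, st3_mem]
  unfold st3
  simp only [fs_opair, sn_opair, LE_prP, LE_wnP, opair_mem_prod]
  constructor
  · exact fun h => ⟨h.1, h.2.1, h.2.2.1.1, h.2.2.1.2.1, h.2.2.1.2.2, h.2.2.2.2.2.1,
      h.2.2.2.2.2.2⟩
  · intro h
    obtain ⟨h1, h2, h3, h4, h5, h6, h7⟩ := h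
    exact ⟨h1, h2, ⟨h3, h4, h5⟩, ⟨h1.2.2.2.2.2.1, h1.2.2.2.2.2.2.1⟩,
      ⟨h2.2.2.2.2.2.1, h2.2.2.2.2.2.2.1⟩, h6, h7⟩

theorem Inv3.ext {S a b c W N a' b' c' : M} (hP : Po P) (hs : IsProj P (GG S) s)
    (h : Inv3 P s z h₀ t a b c W N) (ha : LE P a' a) (hb : LE P b' b) (hc : LE P c' c)
    (e1 : fs (ap s a') = fs (ap s b')) (e2 : fs (ap s a') = fs (ap s c'))
    (hold : ∀ e, e ∈ sn (ap s a') → e ∈ sn (ap s b') → e ∈ sn (ap s c') → e ∈ fs (ap s a)) :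
    Inv3 P s z h₀ t a' b' c' W N := by
  obtain ⟨h1, h2, h3, h4, h5, h6, h7, h8, h9, h10⟩ := h
  refine ⟨hP.trans ha h1, hP.trans hb h2, hP.trans hc h3, e1, e2, h6, h7, h8, fun n hn => ?_,
    fun e k1 k2 k3 k4 => ?_⟩
  · obtain ⟨g1, g2, g3⟩ := h9 n hn
    exact ⟨g1.down hP ha, g2.down hP hb, g3.down hP hc⟩
  · have he := hold e k1 k2 k3
    exact h10 e ((old_val hs ha he).1 k1) ((old_val hs hb (by rw [← h4]; exact he)).1 k2)
      ((old_val hs hc (by rw [← h5]; exact he)).1 k3) k4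

/-- The sides. -/
noncomputable def g3f (P C : M) : M := mkf C (fs P) (fun x => fs (fs x))
noncomputable def g3g (P C : M) : M := mkf C (fs P) (fun x => fs (sn (fs x)))
noncomputable def g3k (P C : M) : M := mkf C (fs P) (fun x => sn (sn (fs x)))

theorem g3_mem {x : M} (hx : x ∈ G3C P s z h₀ t) :
    fs (fs x) ∈ fs P ∧ fs (sn (fs x)) ∈ fs P ∧ sn (sn (fs x)) ∈ fs P := by
  obtain ⟨a, b, c, W, N, rfl, h⟩ := mem_G3C hx
  unfold st3
  simp only [fs_opair, sn_opair]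
  exact ⟨h.1.1, h.2.1.1, h.2.2.1.1⟩

theorem ap_g3f {a b c W N : M} (h : Inv3 P s z h₀ t a b c W N) :
    ap (g3f P (G3C P s z h₀ t)) (st3 a b c W N) = a := by
  unfold g3f
  rw [ap_mkf (fun x hx => (g3_mem hx).1) (st3_mem.2 h)]
  unfold st3
  simp only [fs_opair]

theorem ap_g3g {a b c W N : M} (h : Inv3 P s z h₀ t a b c W N) :
    ap (g3g P (G3C P s z h₀ t)) (st3 a b c W N) = b := by
  unfold g3g
  rw [ap_mkf (fun x hx => (g3_mem hx).2.1) (st3_mem.2 h)]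
  unfold st3
  simp only [fs_opair, sn_opair]

theorem ap_g3k {a b c W N : M} (h : Inv3 P s z h₀ t a b c W N) :
    ap (g3k P (G3C P s z h₀ t)) (st3 a b c W N) = c := by
  unfold g3k
  rw [ap_mkf (fun x hx => (g3_mem hx).2.2) (st3_mem.2 h)]
  unfold st3
  simp only [fs_opair, sn_opair]

theorem hom_g3f : Hom (G3P P s z h₀ t) P (g3f P (G3C P s z h₀ t)) := by
  refine ⟨by rw [fs_G3P]; exact mkf_fun fun x hx => (g3_mem hx).1, fun x y h => ?_⟩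
  have hx := h.1
  have hy := h.2.1
  rw [fs_G3P] at hx hy
  obtain ⟨a, b, c, W, N, rfl, h1⟩ := mem_G3C hx
  obtain ⟨a', b', c', W', N', rfl, h2⟩ := mem_G3C hy
  rw [ap_g3f h1, ap_g3f h2]
  exact (LE_G3P.1 h).2.2.1

theorem hom_g3g : Hom (G3P P s z h₀ t) P (g3g P (G3C P s z h₀ t)) := by
  refine ⟨by rw [fs_G3P]; exact mkf_fun fun x hx => (g3_mem hx).2.1, fun x y h => ?_⟩
  have hx := h.1
  have hy := h.2.1
  rw [fs_G3P] at hx hy
  obtain ⟨a, b, c, W, N, rfl, h1⟩ := mem_G3C hx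
  obtain ⟨a', b', c', W', N', rfl, h2⟩ := mem_G3C hy
  rw [ap_g3g h1, ap_g3g h2]
  exact (LE_G3P.1 h).2.2.2.1

theorem hom_g3k : Hom (G3P P s z h₀ t) P (g3k P (G3C P s z h₀ t)) := by
  refine ⟨by rw [fs_G3P]; exact mkf_fun fun x hx => (g3_mem hx).2.2, fun x y h => ?_⟩
  have hx := h.1
  have hy := h.2.1
  rw [fs_G3P] at hx hy
  obtain ⟨a, b, c, W, N, rfl, h1⟩ := mem_G3C hx
  obtain ⟨a', b', c', W', N', rfl, h2⟩ := mem_G3C hy
  rw [ap_g3k h1, ap_g3k h2]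
  exact (LE_G3P.1 h).2.2.2.2.1

end

section
variable {S P s z h₀ t : M} (hS : IdealS S) (hP : Po P) (hs : IsProj P (GG S) s)
include hS hP hs

theorem gen_g3f : IsGen (G3P P s z h₀ t) P (g3f P (G3C P s z h₀ t)) := by
  refine ⟨hom_g3f, fun D hD q hq => ?_⟩
  rw [fs_G3P] at hq
  obtain ⟨a, b, c, W, N, rfl, h⟩ := mem_G3C hq
  have hbP := h.2.1.1
  have hcP := h.2.2.1.1
  obtain ⟨a', ha', haD⟩ := hD.2.2 a h.1.1
  obtain ⟨b', hb', h1, h2⟩ := enl hS hs hbP (fs_mem_S hs ha'.1)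
    (by rw [← h.2.2.2.1]; exact fs_mono hs ha')
  obtain ⟨c', hc', h3, h4⟩ := enl hS hs hcP (fs_mem_S hs ha'.1)
    (by rw [← h.2.2.2.2.1]; exact fs_mono hs ha')
  have h' : Inv3 P s z h₀ t a' b' c' W N := h.ext hP hs ha' hb' hc' h1.symm h3.symm
    fun e _ h5 _ => by
      rw [h2] at h5
      rw [h.2.2.2.1]
      exact sn_sub_fs hs hbP e h5
  exact ⟨st3 a' b' c' W N, LE_G3P.2 ⟨h', h, ha', hb', hc', sub_refl _, fun _ _ => Iff.rfl⟩,
    by rw [ap_g3f h']; exact haD⟩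

theorem gen_g3g : IsGen (G3P P s z h₀ t) P (g3g P (G3C P s z h₀ t)) := by
  refine ⟨hom_g3g, fun D hD q hq => ?_⟩
  rw [fs_G3P] at hq
  obtain ⟨a, b, c, W, N, rfl, h⟩ := mem_G3C hq
  have haP := h.1.1
  have hcP := h.2.2.1.1
  obtain ⟨b', hb', hbD⟩ := hD.2.2 b h.2.1.1
  obtain ⟨a', ha', h1, h2⟩ := enl hS hs haP (fs_mem_S hs hb'.1)
    (by rw [h.2.2.2.1]; exact fs_mono hs hb')
  obtain ⟨c', hc', h3, h4⟩ := enl hS hs hcP (fs_mem_S hs hb'.1)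
    (by rw [← h.2.2.2.2.1, h.2.2.2.1]; exact fs_mono hs hb')
  have h' : Inv3 P s z h₀ t a' b' c' W N := h.ext hP hs ha' hb' hc' h1 (h1.trans h3.symm)
    fun e h5 _ _ => by
      rw [h2] at h5
      exact sn_sub_fs hs haP e h5
  exact ⟨st3 a' b' c' W N, LE_G3P.2 ⟨h', h, ha', hb', hc', sub_refl _, fun _ _ => Iff.rfl⟩,
    by rw [ap_g3g h']; exact hbD⟩

theorem gen_g3k : IsGen (G3P P s z h₀ t) P (g3k P (G3C P s z h₀ t)) := by
  refine ⟨hom_g3k, fun D hD q hq => ?_⟩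
  rw [fs_G3P] at hq
  obtain ⟨a, b, c, W, N, rfl, h⟩ := mem_G3C hq
  have haP := h.1.1
  have hbP := h.2.1.1
  obtain ⟨c', hc', hcD⟩ := hD.2.2 c h.2.2.1.1
  obtain ⟨a', ha', h1, h2⟩ := enl hS hs haP (fs_mem_S hs hc'.1)
    (by rw [h.2.2.2.2.1]; exact fs_mono hs hc')
  obtain ⟨b', hb', h3, h4⟩ := enl hS hs hbP (fs_mem_S hs hc'.1)
    (by rw [← h.2.2.2.1, h.2.2.2.2.1]; exact fs_mono hs hc')
  have h' : Inv3 P s z h₀ t a' b' c' W N := h.ext hP hs ha' hb' hc' (h1.trans h3.symm) h1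
    fun e h5 _ _ => by
      rw [h2] at h5
      exact sn_sub_fs hs haP e h5
  exact ⟨st3 a' b' c' W N, LE_G3P.2 ⟨h', h, ha', hb', hc', sub_refl _, fun _ _ => Iff.rfl⟩,
    by rw [ap_g3k h']; exact hcD⟩

end

theorem grun3 {Sm : M → Prop} (hSm : SmC Sm) {p S P s z h₀ t : M} (hS : IdealS S) (hP : SP Sm P)
    (hs : IsProj P (GG S) s) (hz : Yy P p z h₀)
    (step : ∀ a b c, LE P a h₀ → LE P b h₀ → LE P c h₀ → fs (ap s a) = fs (ap s b) →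
      fs (ap s a) = fs (ap s c) → ∀ W N, W ∈ (fsw : M) → N ∈ (omega : M) → (∀ i, i ∈ W → i ⊆ N) →
      ∃ n A B C, n ∈ (omega : M) ∧ N ∈ n ∧ A ∈ ap (Dec P s z a) n ∧ B ∈ ap (Dec P s z b) n ∧
        C ∈ ap (Dec P s z c) n ∧ ∀ e, e ∈ A → e ∈ B → e ∈ C → ¬ Rlv (ap t e) W n) :
    ∃ T f g k x w, SP Sm T ∧ IsGen T P f ∧ IsGen T P g ∧ IsGen T P k ∧ x ∈ fs T ∧
      LE P (ap f x) h₀ ∧ LE P (ap g x) h₀ ∧ LE P (ap k x) h₀ ∧ FInf T w x ∧
      FSub T w (pull T P f z) x ∧ FSub T w (pull T P g z) x ∧ FSub T w (pull T P k z) x ∧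
      ∀ y, LE T y x → ∀ e, e ∉ fs (ap s h₀) → e ∈ sn (ap s (ap f y)) → e ∈ sn (ap s (ap g y)) →
        e ∈ sn (ap s (ap k y)) → ∃ n, n ∈ ap t e ∧ Nc T w n y := by
  have hP1 := hP.1
  have hT : SP Sm (G3P P s z h₀ t) :=
    sp_sbP hSm G3C_sub (sp_prP hSm hP (sp_prP hSm hP hP)) (sp_wnP hSm)
  have hx0 : Inv3 P s z h₀ t h₀ h₀ h₀ emp emp :=
    ⟨hP1.refl hz.1, hP1.refl hz.1, hP1.refl hz.1, rfl, rfl, emp_fsw, emp_mem_omega,
      fun i hi => absurd hi (not_mem_emp i), fun i hi => absurd hi (not_mem_emp i),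
      fun e he _ _ he' => absurd (sn_sub_fs hs hz.1 e he) he'⟩
  have hD2 : D2 (fun n x : M => n ∈ fs (sn x)) := ⟨by infer_instance⟩
  obtain ⟨w, hw⟩ : ∃ w : M, w = mkNm (G3P P s z h₀ t) (fun n x => n ∈ fs (sn x)) := ⟨_, rfl⟩
  have hNw : ∀ n a b c W N, Nt (G3P P s z h₀ t) w n (st3 a b c W N) ↔
      Inv3 P s z h₀ t a b c W N ∧ n ∈ W := by
    intro n a b c W N
    rw [hw, Nt_mkNm hT.1, fs_G3P, st3_mem]
    · unfold st3
      rw [sn_opair, fs_opair]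
      constructor
      · exact fun h => h.2
      · exact fun h => ⟨(mem_fsw.1 h.1.2.2.2.2.2.1).1 n h.2, h⟩
    · intro n x y hxy hn
      have hx := hxy.1
      have hy := hxy.2.1
      rw [fs_G3P] at hx hy
      obtain ⟨a, b, c, W, N, rfl, h1⟩ := mem_G3C hx
      obtain ⟨a', b', c', W', N', rfl, h2⟩ := mem_G3C hy
      rw [LE_G3P] at hxy
      unfold st3 at hn ⊢
      rw [sn_opair, fs_opair] at hn ⊢
      exact (hxy.2.2.2.2.2.2 n (h2.2.2.2.2.2.2.2.1 n hn)).2 hn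
  refine ⟨G3P P s z h₀ t, g3f P (G3C P s z h₀ t), g3g P (G3C P s z h₀ t), g3k P (G3C P s z h₀ t),
    st3 h₀ h₀ h₀ emp emp, w, hT, gen_g3f hS hP1 hs, gen_g3g hS hP1 hs, gen_g3k hS hP1 hs,
    by rw [fs_G3P]; exact st3_mem.2 hx0, by rw [ap_g3f hx0]; exact hP1.refl hz.1,
    by rw [ap_g3g hx0]; exact hP1.refl hz.1, by rw [ap_g3k hx0]; exact hP1.refl hz.1,
    ?_, ?_, ?_, ?_, ?_⟩
  · intro N0 hN0 u hu
    have hu1 := hu.1
    rw [fs_G3P] at hu1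
    obtain ⟨a, b, c, W, N, rfl, h⟩ := mem_G3C hu1
    obtain ⟨h1, h2, h3, h4, h5, h6, h7, h8, h9, h10⟩ := h
    obtain ⟨N', hN', hl1, hl2⟩ : ∃ N', N' ∈ (omega : M) ∧ N ⊆ N' ∧ N0 ⊆ N' := by
      rcases trichotomy h7 hN0 with h | h | h
      · exact ⟨N0, hN0, omega_trans hN0 N h, sub_refl _⟩
      · exact ⟨N0, hN0, by rw [h]; exact sub_refl _, sub_refl _⟩
      · exact ⟨N, h7, sub_refl _, omega_trans h7 N0 h⟩
    obtain ⟨n, A, B, C, hn, hNn, hA, hB, hC, hR⟩ := step a b c h1 h2 h3 h4 h5 W N' h6 hN'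
      (fun i hi => sub_trans (h8 i hi) hl1)
    rw [mem_Dec hn] at hA hB hC
    obtain ⟨a', ha', hna, rfl⟩ := hA
    obtain ⟨b', hb', hnb, rfl⟩ := hB
    obtain ⟨c', hc', hnc, rfl⟩ := hC
    have hN'n : N' ⊆ n := omega_trans hn N' hNn
    have hne : ∀ m, m ⊆ N → m ≠ n := fun m hm e => by
      rw [e] at hm
      exact not_mem_self N' (hl1 N' (hm N' hNn))
    obtain ⟨Z, hZ, z1, z2, z3⟩ : ∃ Z, Z ∈ S ∧ fs (ap s a') ⊆ Z ∧ fs (ap s b') ⊆ Z ∧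
        fs (ap s c') ⊆ Z :=
      ⟨un (un (fs (ap s a')) (fs (ap s b'))) (fs (ap s c')),
        hS.union (hS.union (fs_mem_S hs ha'.1) (fs_mem_S hs hb'.1)) (fs_mem_S hs hc'.1),
        sub_trans (sub_un_left _ _) (sub_un_left _ _),
        sub_trans (sub_un_right _ _) (sub_un_left _ _), sub_un_right _ _⟩
    obtain ⟨a2, ha2, i1, i2⟩ := enl hS hs ha'.1 hZ z1
    obtain ⟨b2, hb2, i3, i4⟩ := enl hS hs hb'.1 hZ z2
    obtain ⟨c2, hc2, i5, i6⟩ := enl hS hs hc'.1 hZ z3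
    have hinv : Inv3 P s z h₀ t a2 b2 c2 (ins W n) n := by
      refine ⟨hP1.trans (hP1.trans ha2 ha') h1, hP1.trans (hP1.trans hb2 hb') h2,
        hP1.trans (hP1.trans hc2 hc') h3, by rw [i1, i3], by rw [i1, i5], ins_fsw h6 hn, hn,
        fun i hi => ?_, fun m hm => ?_, fun e k1 k2 k3 k4 => ?_⟩
      · rw [mem_ins] at hi
        rcases hi with hi | rfl
        · exact sub_trans (sub_trans (h8 i hi) hl1) hN'n
        · exact sub_refl _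
      · rw [mem_ins] at hm
        rcases hm with hm | rfl
        · obtain ⟨g1, g2, g3⟩ := h9 m hm
          exact ⟨g1.down hP1 (hP1.trans ha2 ha'), g2.down hP1 (hP1.trans hb2 hb'),
            g3.down hP1 (hP1.trans hc2 hc')⟩
        · exact ⟨hna.down hP1 ha2, hnb.down hP1 hb2, hnc.down hP1 hc2⟩
      · rw [i2] at k1
        rw [i4] at k2
        rw [i6] at k3
        by_cases he : e ∈ fs (ap s a)
        · obtain ⟨m, m1, m2, m3⟩ := h10 e ((old_val hs ha' he).1 k1)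
            ((old_val hs hb' (by rw [← h4]; exact he)).1 k2)
            ((old_val hs hc' (by rw [← h5]; exact he)).1 k3) k4
          refine ⟨m, m1, sub_trans (sub_trans m2 hl1) hN'n, fun hm => ?_⟩
          rw [mem_ins] at hm
          rcases hm with hm | hm
          · exact m3 hm
          · exact hne m m2 hm
        · have h11 := hR e (mem_dif.2 ⟨k1, he⟩) (mem_dif.2 ⟨k2, by rw [← h4]; exact he⟩)
            (mem_dif.2 ⟨k3, by rw [← h5]; exact he⟩)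
          unfold Rlv at h11
          push Not at h11
          obtain ⟨m, m1, m2, m3, m4⟩ := h11
          refine ⟨m, m1, m2, fun hm => ?_⟩
          rw [mem_ins] at hm
          rcases hm with hm | hm
          · exact m3 hm
          · exact m4 hm
    refine ⟨n, hn, sub_trans hl2 hN'n, st3 a2 b2 c2 (ins W n) n,
      LE_G3P.2 ⟨hinv, st3_mem.1 hu1, hP1.trans ha2 ha', hP1.trans hb2 hb', hP1.trans hc2 hc',
        sub_trans hl1 hN'n, fun m hm => ?_⟩, (hNw _ _ _ _ _ _).2 ⟨hinv, ?_⟩⟩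
    · rw [mem_ins]
      exact ⟨fun h => h.resolve_right (hne m hm), Or.inl⟩
    · rw [mem_ins]
      exact Or.inr rfl
  · refine FSub.of_le hT.1 (fun n k hn hk => ?_) _
    have hk1 := hk.mem
    rw [fs_G3P] at hk1
    obtain ⟨a, b, c, W, N, rfl, h⟩ := mem_G3C hk1
    rw [hNw] at hk
    rw [Nt_pull hT.1 hP1 hom_g3f, ap_g3f h]
    exact ⟨hn, by rw [fs_G3P]; exact hk1, (h.2.2.2.2.2.2.2.2.1 n hk.2).1⟩
  · refine FSub.of_le hT.1 (fun n k hn hk => ?_) _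
    have hk1 := hk.mem
    rw [fs_G3P] at hk1
    obtain ⟨a, b, c, W, N, rfl, h⟩ := mem_G3C hk1
    rw [hNw] at hk
    rw [Nt_pull hT.1 hP1 hom_g3g, ap_g3g h]
    exact ⟨hn, by rw [fs_G3P]; exact hk1, (h.2.2.2.2.2.2.2.2.1 n hk.2).2.1⟩
  · refine FSub.of_le hT.1 (fun n k hn hk => ?_) _
    have hk1 := hk.mem
    rw [fs_G3P] at hk1
    obtain ⟨a, b, c, W, N, rfl, h⟩ := mem_G3C hk1
    rw [hNw] at hk
    rw [Nt_pull hT.1 hP1 hom_g3k, ap_g3k h]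
    exact ⟨hn, by rw [fs_G3P]; exact hk1, (h.2.2.2.2.2.2.2.2.1 n hk.2).2.2⟩
  · intro y hy e he h1 h2 h3
    have hy1 := hy.1
    rw [fs_G3P] at hy1
    obtain ⟨a, b, c, W, N, rfl, h⟩ := mem_G3C hy1
    rw [ap_g3f h] at h1
    rw [ap_g3g h] at h2
    rw [ap_g3k h] at h3
    obtain ⟨m, m1, m2, m3⟩ := h.2.2.2.2.2.2.2.2.2 e h1 h2 h3 he
    refine ⟨m, m1, fun y' hy' hm => ?_⟩
    have hy2 := hy'.1
    rw [fs_G3P] at hy2
    obtain ⟨a', b', c', W', N', rfl, h'⟩ := mem_G3C hy2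
    rw [hNw] at hm
    rw [LE_G3P] at hy'
    exact m3 ((hy'.2.2.2.2.2.2 m m2).1 hm.2)

end Pool.Agent.ZFIter.NPA.BLI
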