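import Pool.Agent.BLI.Sub

/-!
# BLI/TwoStep: two-step representation (inside a model of ZF)
-/

universe u

namespace Pool.Agent.ZFIter.NPA.BLI

open Pool.Agent.H78.ZF Pool.Agent.ZFIter Pool.Agent.ZFIter.NPA Pool.Agent.ZFIter.NPA.BSM

variable {M : Type u} [ZFM M] {ι : Type}

/-- `μ` is a reduction of `h`. -/
def Redc (P G f μ h : M) : Prop :=
  h ∈ fs P ∧ LE G μ (ap f h) ∧ ∀ μ', LE G μ' μ → ∃ h', LE P h' h ∧ LE G (ap f h') μ'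

instance DR.Redc (P G f μ h : (ι → M) → M) [DF P] [DF G] [DF f] [DF μ] [DF h] :
    DR (fun v => Redc (P v) (G v) (f v) (μ v) (h v)) := by
  unfold BLI.Redc; infer_instance

theorem exists_redc {P G f k : M} (hG : Po G) (hf : IsGen P G f) (hk : k ∈ fs P) :
    ∃ μ, Redc P G f μ k := by
  by_contra hc
  have h1 : ∀ μ, LE G μ (ap f k) → ∃ μ', LE G μ' μ ∧ ∀ h', LE P h' k → ¬ LE G (ap f h') μ' := by
    intro μ hμ
    by_contra h2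
    push Not at h2
    exact hc ⟨μ, hk, hμ, h2⟩
  obtain ⟨h', hh', h2⟩ := hf.below hG (fun μ => ∀ h', LE P h' k → ¬ LE G (ap f h') μ)
    (fun a b hba ha h' hh' hb => ha h' hh' (hG.trans hb hba)) hk h1
  exact h2 h' hh' (hG.refl (hf.1.mem hh'.1))

theorem twoStep {Sm : M → Prop} (hSm : SmC Sm) {P G f h : M} (hP : SP Sm P) (hG : SP Sm G)
    (hf : IsGen P G f) (hh : h ∈ fs P) :
    ∃ Q r s q, SP Sm Q ∧ IsGen Q P r ∧ IsProj Q G s ∧ q ∈ fs Q ∧ ap r q = h ∧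
      (∀ x, x ∈ fs Q → LE G (ap s x) (ap f (ap r x))) ∧
      (∀ τ x, FSub Q (pull Q P r (pull P G f τ)) (pull Q G s τ) x) ∧
      ∀ τ x, FSub Q (pull Q G s τ) (pull Q P r (pull P G f τ)) x := by
  obtain ⟨μ₀, hμ₀⟩ := exists_redc hG.1 hf hh
  obtain ⟨C, hCdef⟩ : ∃ C : M, C = sep (prod (fs G) (fs P)) (fun x => Redc P G f (fs x) (sn x)) :=
    ⟨_, rfl⟩
  have hC : C ⊆ prod (fs G) (fs P) := fun x hx => by
    rw [hCdef, mem_sep] at hx; exact hx.1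
  have hCm : ∀ μ k, opair μ k ∈ C ↔ Redc P G f μ k := by
    intro μ k
    rw [hCdef, mem_sep, opair_mem_prod, fs_opair, sn_opair]
    exact ⟨fun h => h.2, fun h => ⟨⟨h.2.1.1, h.1⟩, h⟩⟩
  have hCe : ∀ x, x ∈ C → ∃ μ k, x = opair μ k ∧ Redc P G f μ k := by
    intro x hx
    obtain ⟨a, _, b, _, rfl⟩ := (mem_prod _ _ _).1 (hC x hx)
    exact ⟨a, b, rfl, (hCm a b).1 hx⟩
  have hQ : SP Sm (sbP G P C) := sp_sbP hSm hC hG hP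
  have hr : IsGen (sbP G P C) P (pf2 P C) := by
    refine ⟨hom_pf2 hC, fun D hD q hq => ?_⟩
    rw [fs_sbP] at hq
    obtain ⟨μ, k, rfl, hk⟩ := hCe q hq
    obtain ⟨k0, hk0, h0⟩ := hk.2.2 μ (hG.1.refl hk.2.1.1)
    obtain ⟨k1, hk1, h1⟩ := hD.2.2 k0 hk0.1
    obtain ⟨μ1, hμ1⟩ := exists_redc hG.1 hf hk1.1
    have hm := (hCm _ _).2 hμ1
    refine ⟨opair μ1 k1, ?_, ?_⟩
    · rw [LE_sbP, fs_opair, sn_opair, fs_opair, sn_opair]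
      exact ⟨hm, hq, hG.1.trans hμ1.2.1 (hG.1.trans (hf.1.le hk1) h0), hP.1.trans hk1 hk0⟩
    · rw [ap_pf2 hC hm, sn_opair]
      exact h1
  have hs : IsProj (sbP G P C) G (pf1 G C) := by
    refine ⟨hom_pf1 hC, fun q hq x hx => ?_⟩
    rw [fs_sbP] at hq
    obtain ⟨μ, k, rfl, hk⟩ := hCe q hq
    rw [ap_pf1 hC hq, fs_opair] at hx
    have hm : opair x k ∈ C := (hCm _ _).2
      ⟨hk.1, hG.1.trans hx hk.2.1, fun μ' hμ' => hk.2.2 μ' (hG.1.trans hμ' hx)⟩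
    refine ⟨opair x k, ?_, ?_⟩
    · rw [LE_sbP, fs_opair, sn_opair, fs_opair, sn_opair]
      exact ⟨hm, hq, hx, hP.1.refl hk.1⟩
    · rw [ap_pf1 hC hm, fs_opair]
  have hm0 : opair μ₀ h ∈ C := (hCm _ _).2 hμ₀
  refine ⟨sbP G P C, pf2 P C, pf1 G C, opair μ₀ h, hQ, hr, hs, ?_, ?_, ?_, ?_, ?_⟩
  · rw [fs_sbP]; exact hm0
  · rw [ap_pf2 hC hm0, sn_opair]
  · intro x hx
    rw [fs_sbP] at hx
    obtain ⟨μ, k, rfl, hk⟩ := hCe x hx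
    rw [ap_pf1 hC hx, ap_pf2 hC hx, fs_opair, sn_opair]
    exact hk.2.1
  · intro τ x
    refine FSub.of_le hQ.1 (fun n q hn hq => ?_) x
    rw [Nt_pull hQ.1 hP.1 hr.1, Nt_pull hP.1 hG.1 hf.1] at hq
    rw [Nt_pull hQ.1 hG.1 hs.1]
    obtain ⟨_, hqQ, _, _, h1⟩ := hq
    have hqC := hqQ
    rw [fs_sbP] at hqC
    obtain ⟨μ, k, rfl, hk⟩ := hCe q hqC
    refine ⟨hn, hqQ, ?_⟩
    rw [ap_pf2 hC hqC, sn_opair] at h1
    rw [ap_pf1 hC hqC, fs_opair]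
    exact h1.down hG.1 hk.2.1
  · intro τ x
    refine FSub.of_dense hQ.1 fun n hn q _ hq => ?_
    rw [Nt_pull hQ.1 hG.1 hs.1] at hq
    obtain ⟨_, hqQ, h1⟩ := hq
    have hqC := hqQ
    rw [fs_sbP] at hqC
    obtain ⟨μ, k, rfl, hk⟩ := hCe q hqC
    rw [ap_pf1 hC hqC, fs_opair] at h1
    obtain ⟨k0, hk0, h0⟩ := hk.2.2 μ (hG.1.refl hk.2.1.1)
    obtain ⟨μ1, hμ1⟩ := exists_redc hG.1 hf hk0.1
    have hm := (hCm _ _).2 hμ1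
    refine ⟨opair μ1 k0, ?_, ?_⟩
    · rw [LE_sbP, fs_opair, sn_opair, fs_opair, sn_opair]
      exact ⟨hm, hqC, hG.1.trans hμ1.2.1 h0, hk0⟩
    · rw [Nt_pull hQ.1 hP.1 hr.1, Nt_pull hP.1 hG.1 hf.1, ap_pf2 hC hm, sn_opair, fs_sbP]
      exact ⟨hn, hm, hn, hk0.1, h1.down hG.1 h0⟩

end Pool.Agent.ZFIter.NPA.BLI
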