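import Pool.Agent.BLI.QpD
import Pool.Agent.BLI.TwoStep
import Pool.Agent.BLI.DisjSel
import Pool.Agent.BLI.GRun

/-!
# BLI/ClaimE: exits do not fall into generic sets disjoint from `z`
(inside a model of ZF with choice)
-/

universe u

namespace Pool.Agent.ZFIter.NPA.BLI

open Pool.Agent.H78.ZF Pool.Agent.ZFIter Pool.Agent.ZFIter.NPA Pool.Agent.ZFIter.NPA.BSM

variable {M : Type u} [ZFM M] {ι : Type}

/-- The run with two sides (no labels): no point outside the decided part is in both sets. -/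
theorem run2 (hAC : AC M) {Sm : M → Prop} (hSm : SmC Sm) {p : M} (hp : Selective p)
    {P s z h : M} (hP : SP Sm P) (hs : IsProj P (GG (duS p)) s) (hz : Yy P p z h)
    (key : ∀ k, LE P k h → ∀ n, Nt P z n k → n ∉ sn (ap s k)) :
    ∃ T f₀ f₁ x w, SP Sm T ∧ IsGen T P f₀ ∧ IsGen T P f₁ ∧ x ∈ fs T ∧ LE P (ap f₀ x) h ∧
      LE P (ap f₁ x) h ∧ FInf T w x ∧ FSub T w (pull T P f₀ z) x ∧ FSub T w (pull T P f₁ z) x ∧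
      ∀ e, e ∈ (omega : M) → ∀ y, LE T y x → e ∈ sn (ap s (ap f₀ y)) →
        e ∈ sn (ap s (ap f₁ y)) → e ∈ fs (ap s h) := by
  have hS := idealS_duS hp.1 hp.2.1
  obtain ⟨T, f, g, x, w, hT, hf, hg, hx, hfx, hgx, hw, hwf, hwg, hlast⟩ := grun2 hSm hS hP hs hz (by
    intro a b ha hb _ N hN
    have hFa : DFam p (duS p) (Dec P s z a) := dfam_dec hp.1 hS hP.1 hs (hz.down hP.1 ha)
    have hFb : DFam p (duS p) (Dec P s z b) := dfam_dec hp.1 hS hP.1 hs (hz.down hP.1 hb)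
    obtain ⟨n, A, B, hn, hNn, hA, hB, hd⟩ := stepE hAC hp hS hFa hFb (fun n hn A hA hnA => by
      obtain ⟨h', hh', h1, rfl⟩ := (mem_Dec hn).1 hA
      exact key h' (hP.1.trans hh' ha) n h1 (mem_dif.1 hnA).1) hN
    exact ⟨n, A, B, hn, hNn, hA, hB, hd⟩)
  exact ⟨T, f, g, x, w, hT, hf, hg, hx, hfx, hgx, hw, hwf, hwg,
    fun e _ y hy h1 h2 => hlast y hy e h1 h2⟩

theorem claimE_aux {Q t w y e k na nb : M} (hQ : Po Q) (ht : Lab t) (he : e ∈ (omega : M))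
    (hk : k ∈ fs Q) (hna : na ∈ ap t e) (hnb : nb ∈ (omega : M)) (hlt : na ∈ nb)
    (hw : Nc Q w na k) (hyb : ∀ m, m ∈ ap t e → m ∈ nb → Nt Q y m k)
    (hno : Nc Q (exn Q t w y) e k) : False := by
  obtain ⟨k', hk', m, hmo, hmle, hm, hmN, hms⟩ := first_exit hQ ht he hna hk hw
  refine hno k' hk' ((Nt_exn hQ).2 ⟨he, hk'.1, m, hm, hmN, hms, ?_⟩)
  exact (hyb m hm (lt_of_le_of_lt hmo hnb hmle hlt)).down hQ hk'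

theorem claimE (hAC : AC M) {Sm : M → Prop} (hSm : SmC Sm) {p : M} (hp : Selective p)
    {R : M → M → M → M → Prop} (hR : AbsRel Sm p R) {t : M} (ht : Lab t) (hH : H0 Sm R t)
    (hQ : Qp Sm p R t) {P s z y h : M} (hP : SP Sm P) (hs : IsGen P (GG (duS p)) s)
    (hy : Yy P p y h) (hzy : FSub P z y h)
    (hdisj : ∀ n, n ∈ (omega : M) → ∀ h', LE P h' h → Nt P z n h' →
      Nc P (pull P (GG (duS p)) s (gname (duS p))) n h')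
    (H : R P z (exn P t y (pull P (GG (duS p)) s (gname (duS p)))) h) : False := by
  have hS := idealS_duS hp.1 hp.2.1
  have hG : SP Sm (GG (duS p)) := sp_GG hSm hS.1
  obtain ⟨Γ, hΓ⟩ : ∃ Γ : M, Γ = gname (duS p) := ⟨_, rfl⟩
  have hyz : Yy P p z h := hR.yy P z _ h hP H
  obtain ⟨P', r, s', h', hP', hr, hsp, hh', hrh, -, hfwd, hback⟩ := twoStep hSm hP hG hs hyz.1
  -- (1)
  obtain ⟨z1, hz1⟩ : ∃ z1 : M, z1 = pull P' P r z := ⟨_, rfl⟩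
  obtain ⟨y1, hy1⟩ : ∃ y1 : M, y1 = pull P' P r y := ⟨_, rfl⟩
  obtain ⟨E1, hE1⟩ : ∃ E1 : M, E1 = pull P' (GG (duS p)) s' Γ := ⟨_, rfl⟩
  have hYz' : Yy P' p z1 h' := by
    rw [hz1]; exact Yy.pull hP'.1 hP.1 hr hh' (by rw [hrh]; exact hyz)
  have hYy' : Yy P' p y1 h' := by
    rw [hy1]; exact Yy.pull hP'.1 hP.1 hr hh' (by rw [hrh]; exact hy)
  have hzy' : FSub P' z1 y1 h' := by
    rw [hz1, hy1]; exact FSub.pull hP'.1 hP.1 hr (by rw [hrh]; exact hzy)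
  have HA : R P' z1 (exn P' t y1 E1) h' := by
    refine transfer hR hP hP' hr H hh' (by rw [hrh]; exact hP.1.refl hyz.1) hYz'.2.1
      (by rw [hz1]; exact FSub.refl hP'.1 _ _) ?_
    rw [hy1, hE1, hΓ]
    exact (pull_exn_sub hP'.1 hP.1 hr ht y _ h').trans hP'.1
      (exn_mono hP'.1 ht (hfwd (gname (duS p)) h'))
  have key1 : ∀ k, LE P' k h' → ∀ n, Nt P' z1 n k → n ∉ sn (ap s' k) := by
    intro k hk n hkn hcon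
    rw [hz1, Nt_pull hP'.1 hP.1 hr.1] at hkn
    have h1 : Nt P' (pull P' (GG (duS p)) s' (gname (duS p))) n k := by
      rw [Nt_pull hP'.1 hG.1 hsp.1, Nt_gname]
      exact ⟨hkn.1, hk.1, hkn.1, hsp.1.mem hk.1, hcon⟩
    obtain ⟨k'', hk'', h2⟩ := hback (gname (duS p)) k n hkn.1 k (hP'.1.refl hk.1) h1 k
      (hP'.1.refl hk.1)
    rw [Nt_pull hP'.1 hP.1 hr.1] at h2
    refine hdisj n hkn.1 (ap r k) ?_ hkn.2.2 (ap r k'') (hr.1.le hk'') h2.2.2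
    rw [← hrh]
    exact hr.1.le hk
  -- (2)
  obtain ⟨T, f₀, f₁, x, w, hT, hf0, hf1, hx, hfx0, hfx1, hwi, hwf0, hwf1, hlast⟩ :=
    run2 hAC hSm hp hP' hsp hYz' key1
  -- (3)
  obtain ⟨Y0, hY0⟩ : ∃ Y0 : M, Y0 = pull T P' f₀ y1 := ⟨_, rfl⟩
  obtain ⟨Y1, hY1⟩ : ∃ Y1 : M, Y1 = pull T P' f₁ y1 := ⟨_, rfl⟩
  have hE0' : R T w (exn T t Y0 (pull T P' f₀ E1)) x := by
    refine transfer hR hP' hT hf0 HA hx hfx0 hwi hwf0 ?_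
    rw [hY0]; exact pull_exn_sub hT.1 hP'.1 hf0 ht _ _ x
  have hE1' : R T w (exn T t Y1 (pull T P' f₁ E1)) x := by
    refine transfer hR hP' hT hf1 HA hx hfx1 hwi hwf1 ?_
    rw [hY1]; exact pull_exn_sub hT.1 hP'.1 hf1 ht _ _ x
  have hwy0 : FSub T w Y0 x := by
    rw [hY0]; exact hwf0.trans hT.1 (FSub.pull hT.1 hP'.1 hf0 (hzy'.down hP'.1 hfx0))
  have hwy1 : FSub T w Y1 x := by
    rw [hY1]; exact hwf1.trans hT.1 (FSub.pull hT.1 hP'.1 hf1 (hzy'.down hP'.1 hfx1))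
  have hYy0 : Yy T p Y0 x := by
    rw [hY0]; exact Yy.pull hT.1 hP'.1 hf0 hx (hYy'.down hP'.1 hfx0)
  have hYy1 : Yy T p Y1 x := by
    rw [hY1]; exact Yy.pull hT.1 hP'.1 hf1 hx (hYy'.down hP'.1 hfx1)
  obtain ⟨Q1, g1, q1, z2, hQ1, hg1, hq1, hgq1, hz2, hzw1, HD0⟩ := exit_eq hAC hSm hp hR ht hH hT
    hYy0 hwy0 (FSub.refl hT.1 _ _) hwi
  obtain ⟨Q2, g2, q2, z3, hQ2, hg2, hq2, hgq2, hz3, hzw2, HD1⟩ := exit_eq hAC hSm hp hR ht hH hQ1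
    (Yy.pull hQ1.1 hT.1 hg1 hq1 (hYy1.down hT.1 hgq1))
    (FSub.pull hQ1.1 hT.1 hg1 (hwy1.down hT.1 hgq1)) hzw1 hz2
  obtain ⟨g, hgdef⟩ : ∃ g : M, g = cpf Q2 T g1 g2 := ⟨_, rfl⟩
  have hg : IsGen Q2 T g := by rw [hgdef]; exact IsGen.comp hQ1.1 hg1 hg2
  have hgq : LE T (ap g q2) x := by
    rw [hgdef, ap_cpf hg1.1 hg2.1 hq2]
    exact hT.1.trans (hg1.1.le hgq2) hgq1
  have hz3w : FSub Q2 z3 (pull Q2 T g w) q2 := by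
    rw [hgdef]
    exact (hzw2.trans hQ2.1 (FSub.pull hQ2.1 hQ1.1 hg2 (hzw1.down hQ1.1 hgq2))).trans hQ2.1
      (comp_pull_sub hQ2.1 hQ1.1 hT.1 hg1.1 hg2.1 w q2)
  obtain ⟨W, hW⟩ : ∃ W : M, W = pull Q2 T g w := ⟨_, rfl⟩
  obtain ⟨U0, hU0⟩ : ∃ U0 : M, U0 = pull Q2 T g Y0 := ⟨_, rfl⟩
  obtain ⟨U1, hU1⟩ : ∃ U1 : M, U1 = pull Q2 T g Y1 := ⟨_, rfl⟩
  have hC0 : R Q2 z3 (exn Q2 t U0 (pull Q2 T g (pull T P' f₀ E1))) q2 := by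
    refine transfer hR hT hQ2 hg hE0' hq2 hgq hz3 hz3w ?_
    rw [hU0]; exact pull_exn_sub hQ2.1 hT.1 hg ht _ _ q2
  have hC1 : R Q2 z3 (exn Q2 t U1 (pull Q2 T g (pull T P' f₁ E1))) q2 := by
    refine transfer hR hT hQ2 hg hE1' hq2 hgq hz3 hz3w ?_
    rw [hU1]; exact pull_exn_sub hQ2.1 hT.1 hg ht _ _ q2
  have hWc : ∀ τ n k, Nt Q2 (pull Q2 T g τ) n k ↔ Nt Q2 (pull Q2 Q1 g2 (pull Q1 T g1 τ)) n k :=
    fun τ n k => by rw [hgdef]; exact Nt_pull_comp hQ2.1 hQ1.1 hT.1 hg1.1 hg2.1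
  -- exits only depend on the relation `Nt`
  have hexc : ∀ a a' b b', (∀ n k, Nt Q2 a n k ↔ Nt Q2 a' n k) →
      (∀ n k, Nt Q2 b n k ↔ Nt Q2 b' n k) → ∀ q, FSub Q2 (exn Q2 t a b) (exn Q2 t a' b') q := by
    intro a a' b b' ha hb q
    refine FSub.of_le hQ2.1 (fun e k he hk => ?_) q
    rw [Nt_exn hQ2.1] at hk ⊢
    obtain ⟨_, hkQ, n, hn, h1, h2, h3⟩ := hk
    exact ⟨he, hkQ, n, hn, fun k' hk' h4 => h1 k' hk' ((ha n k').2 h4),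
      fun m hm hmn => (ha m k).1 (h2 m hm hmn), (hb n k).1 h3⟩
  have hD0 : R Q2 z3 (cmp Q2 (exn Q2 t W U0)) q2 := by
    refine transfer hR hQ1 hQ2 hg2 HD0 hq2 hgq2 hz3 hzw2 ?_
    refine (pull_cmp_sub hQ2.1 hQ1.1 hg2 _ q2).trans hQ2.1 (FSub.cmp_anti hQ2.1 ?_)
    rw [hW, hU0]
    exact (hexc _ _ _ _ (hWc w) (hWc Y0) q2).trans hQ2.1 (exn_pull_sub hQ2.1 hQ1.1 hg2 ht _ _ q2)
  have hD1 : R Q2 z3 (cmp Q2 (exn Q2 t W U1)) q2 := by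
    refine hR.mono Q2 _ _ _ _ q2 hQ2 HD1 hz3 (FSub.refl hQ2.1 _ _) (FSub.cmp_anti hQ2.1 ?_)
    rw [hW, hU1]
    exact hexc _ _ _ _ (hWc w) (hWc Y1) q2
  have HB := hR.inter Q2 z3 _ _ q2 hQ2 (hR.inter Q2 z3 _ _ q2 hQ2 hC0 hC1)
    (hR.inter Q2 z3 _ _ q2 hQ2 hD0 hD1)
  have hwu0 : FSub Q2 W U0 q2 := by
    rw [hW, hU0]; exact FSub.pull hQ2.1 hT.1 hg (hwy0.down hT.1 hgq)
  have hwu1 : FSub Q2 W U1 q2 := by
    rw [hW, hU1]; exact FSub.pull hQ2.1 hT.1 hg (hwy1.down hT.1 hgq)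
  -- (5)
  have hsh := (GG_fs (hsp.1.mem hh')).1
  rw [mem_duS] at hsh
  have hB0 := UF.compl hp.1 hsh.1 hsh.2
  refine hQ _ hB0 Q2 z3 U0 q2 hQ2 ?_ ?_ (hR.mono Q2 z3 z3 _ _ q2 hQ2 HB hz3
    (FSub.refl hQ2.1 _ _) ?_)
  · rw [hU0]; exact Yy.pull hQ2.1 hT.1 hg hq2 (hYy0.down hT.1 hgq)
  · rw [← hW] at hz3w
    exact hz3w.trans hQ2.1 hwu0
  -- (4)
  refine FSub.of_dense hQ2.1 fun e he k hk hkB => ⟨k, hQ2.1.refl hk.1, ?_⟩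
  rw [Nt_inr hQ2.1, Nt_inr hQ2.1, Nt_inr hQ2.1, Nt_exn hQ2.1, Nt_exn hQ2.1, Nt_cmp hQ2.1,
    Nt_cmp hQ2.1] at hkB
  obtain ⟨_, ⟨_, ⟨_, _, n0, hn0, ha0, hb0, hc0⟩, _, _, n1, hn1, ha1, hb1, hc1⟩,
    _, ⟨_, _, hkd0⟩, _, _, hkd1⟩ := hkB
  have hno0 := ht e he n0 hn0
  have hno1 := ht e he n1 hn1
  have hw0 : Nc Q2 W n0 k := hwu0.nc hQ2.1 hno0 hk ha0
  have hw1 : Nc Q2 W n1 k := hwu1.nc hQ2.1 hno1 hk ha1
  have heq : n0 = n1 := by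
    rcases trichotomy hno0 hno1 with h4 | h4 | h4
    · exact (claimE_aux hQ2.1 ht he hk.1 hn0 hno1 h4 hw0 hb1 hkd1).elim
    · exact h4
    · exact (claimE_aux hQ2.1 ht he hk.1 hn1 hno0 h4 hw1 hb0 hkd0).elim
  subst heq
  rw [Nt_exn hQ2.1]
  refine ⟨he, hk.1, n0, hn0, ha0, hb0, ?_⟩
  rw [Nt_pull hQ2.1 hT.1 hg.1, Nt_pull hT.1 hP'.1 hf0.1, hE1, Nt_pull hP'.1 hG.1 hsp.1, hΓ,
    Nt_gname] at hc0
  rw [Nt_pull hQ2.1 hT.1 hg.1, Nt_pull hT.1 hP'.1 hf1.1, hE1, Nt_pull hP'.1 hG.1 hsp.1, hΓ,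
    Nt_gname] at hc1
  have h6 := hlast n0 hno0 (ap g k) (hT.1.trans (hg.1.le hk) hgq) hc0.2.2.2.2.2.2.2.2
    hc1.2.2.2.2.2.2.2.2
  rw [Nt_chk hQ2.1, mem_dif]
  exact ⟨hno0, ⟨hno0, fun h7 => (mem_dif.1 h7).2 h6⟩, hk.1⟩

end Pool.Agent.ZFIter.NPA.BLI
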