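import Pool.Agent.NMB.IGp

/-!
# BLI/Defs: the core of the positive theorem inside a model of ZF, definitions

This is the folder `BLS` (ground model = the Lean universe) carried out inside an arbitrary model `M`
of ZF (class `ZFM`). Dictionary:

* a forcing notion is ONE element `Q` of `M`: `fs Q` is the set of conditions, `sn Q` the order (a set
  of ordered pairs), `LE Q x y` = `x` and `y` are conditions, `x ≤ y`; `Po Q` = it is a preorder;
* a name for a subset of `omega` is any element `τ` of `M`; `Nt Q τ n h` (BLS: `h ∈ τ n`) = the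
  condition `h` puts `n` into `τ` = there is `k ≥ h` with `opair n k ∈ τ`;
* maps between forcing notions are elements `f` of `M` with `Hom Q P f`;
* all notions are definable (instances `DR`, `DF`), so `sep`, `mkseq`, `omega_induction` etc. can be
  applied to every property in this file, the instances are found automatically.
-/

universe u

namespace Pool.Agent.ZFIter.NPA.BLI

open Pool.Agent.H78.ZF Pool.Agent.ZFIter Pool.Agent.ZFIter.NPA Pool.Agent.ZFIter.NPA.BSM

variable {M : Type u} [ZFM M] {ι : Type}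

/-! ### Forcing notions -/

/-- `x ≤ y` in the forcing notion `Q`. -/
def LE (Q x y : M) : Prop := x ∈ fs Q ∧ y ∈ fs Q ∧ opair x y ∈ sn Q

instance DR.LE (Q x y : (ι → M) → M) [DF Q] [DF x] [DF y] :
    DR (fun v => LE (Q v) (x v) (y v)) := by
  unfold BLI.LE; infer_instance

/-- `Q` is a preorder. -/
def Po (Q : M) : Prop := (∀ x, x ∈ fs Q → LE Q x x) ∧ ∀ x y z, LE Q x y → LE Q y z → LE Q x z

instance DR.Po (Q : (ι → M) → M) [DF Q] : DR (fun v => Po (Q v)) := by
  unfold BLI.Po; infer_instance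

/-- The forcing notion with the conditions `C` and the order `le`. -/
noncomputable def mkPo (C : M) (le : M → M → Prop) : M :=
  opair C (sep (prod C C) (fun w => le (fs w) (sn w)))

theorem fs_mkPo (C : M) (le : M → M → Prop) : fs (mkPo C le) = C := fs_opair _ _

theorem LE_mkPo {C : M} {le : M → M → Prop} [h : D2 le] {x y : M} :
    LE (mkPo C le) x y ↔ x ∈ C ∧ y ∈ C ∧ le x y := by
  have : D1 (fun w : M => le (fs w) (sn w)) := ⟨D2.comp le _ _⟩
  unfold LE
  rw [fs_mkPo]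
  unfold mkPo
  rw [sn_opair, mem_sep, opair_mem_prod, fs_opair, sn_opair]
  constructor
  · rintro ⟨h1, h2, _, h3⟩
    exact ⟨h1, h2, h3⟩
  · rintro ⟨h1, h2, h3⟩
    exact ⟨h1, h2, ⟨h1, h2⟩, h3⟩

/-! ### Names -/

/-- `h` puts `n` into `τ` (BLS: `h ∈ τ n`). -/
def Nt (Q τ n h : M) : Prop := ∃ k, LE Q h k ∧ opair n k ∈ τ

instance DR.Nt (Q τ n h : (ι → M) → M) [DF Q] [DF τ] [DF n] [DF h] :
    DR (fun v => Nt (Q v) (τ v) (n v) (h v)) := by
  unfold BLI.Nt; infer_instance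

/-- `h` forces `n ∈ τ`. -/
def Fc (Q τ n h : M) : Prop := ∀ h', LE Q h' h → ∃ h'', LE Q h'' h' ∧ Nt Q τ n h''

instance DR.Fc (Q τ n h : (ι → M) → M) [DF Q] [DF τ] [DF n] [DF h] :
    DR (fun v => Fc (Q v) (τ v) (n v) (h v)) := by
  unfold BLI.Fc; infer_instance

/-- `h` forces `n ∉ τ`. -/
def Nc (Q τ n h : M) : Prop := ∀ h', LE Q h' h → ¬ Nt Q τ n h'

instance DR.Nc (Q τ n h : (ι → M) → M) [DF Q] [DF τ] [DF n] [DF h] :
    DR (fun v => Nc (Q v) (τ v) (n v) (h v)) := by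
  unfold BLI.Nc; infer_instance

/-- The name given by a property of pairs (number, condition). -/
noncomputable def mkNm (Q : M) (A : M → M → Prop) : M :=
  sep (prod omega (fs Q)) (fun w => A (fs w) (sn w))

theorem opair_mkNm {Q : M} {A : M → M → Prop} [h : D2 A] {n k : M} :
    opair n k ∈ mkNm Q A ↔ n ∈ (omega : M) ∧ k ∈ fs Q ∧ A n k := by
  have : D1 (fun w : M => A (fs w) (sn w)) := ⟨D2.comp A _ _⟩
  unfold mkNm
  rw [mem_sep, opair_mem_prod, fs_opair, sn_opair, and_assoc]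

/-- If the property is inherited by stronger conditions, the name is what it should be. -/
theorem Nt_mkNm {Q : M} (hQ : Po Q) {A : M → M → Prop} [h : D2 A]
    (hA : ∀ n k k', LE Q k' k → A n k → A n k') {n k : M} :
    Nt Q (mkNm Q A) n k ↔ n ∈ (omega : M) ∧ k ∈ fs Q ∧ A n k := by
  constructor
  · rintro ⟨k', h1, h2⟩
    rw [opair_mkNm] at h2
    exact ⟨h2.1, h1.1, hA n k' k h1 h2.2.2⟩
  · rintro ⟨h1, h2, h3⟩
    exact ⟨k, hQ.1 k h2, opair_mkNm.2 ⟨h1, h2, h3⟩⟩

/-- The name of the set `A` of the model. -/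
noncomputable def chk (Q A : M) : M :=
  sep (prod omega (fs Q)) (fun w => fs w ∈ A)

instance DF.chk (Q A : (ι → M) → M) [DF Q] [DF A] : DF (fun v => chk (Q v) (A v)) := by
  unfold BLI.chk; infer_instance

/-- The name of the complement. -/
noncomputable def cmp (Q τ : M) : M :=
  sep (prod omega (fs Q)) (fun w => Nc Q τ (fs w) (sn w))

instance DF.cmp (Q τ : (ι → M) → M) [DF Q] [DF τ] : DF (fun v => cmp (Q v) (τ v)) := by
  unfold BLI.cmp; infer_instance

/-- The name of the intersection. -/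
noncomputable def inr (Q τ υ : M) : M :=
  sep (prod omega (fs Q)) (fun w => Nt Q τ (fs w) (sn w) ∧ Nt Q υ (fs w) (sn w))

instance DF.inr (Q τ υ : (ι → M) → M) [DF Q] [DF τ] [DF υ] :
    DF (fun v => inr (Q v) (τ v) (υ v)) := by
  unfold BLI.inr; infer_instance

/-- `h` forces `τ ⊆ υ`. -/
def FSub (Q τ υ h : M) : Prop :=
  ∀ n, n ∈ (omega : M) → ∀ h', LE Q h' h → Nt Q τ n h' → Fc Q υ n h'

instance DR.FSub (Q τ υ h : (ι → M) → M) [DF Q] [DF τ] [DF υ] [DF h] :
    DR (fun v => FSub (Q v) (τ v) (υ v) (h v)) := by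
  unfold BLI.FSub; infer_instance

/-- `h` forces `τ` to be infinite. -/
def FInf (Q τ h : M) : Prop := ∀ N, N ∈ (omega : M) → ∀ h', LE Q h' h →
  ∃ n, n ∈ (omega : M) ∧ N ⊆ n ∧ ∃ h'', LE Q h'' h' ∧ Nt Q τ n h''

instance DR.FInf (Q τ h : (ι → M) → M) [DF Q] [DF τ] [DF h] :
    DR (fun v => FInf (Q v) (τ v) (h v)) := by
  unfold BLI.FInf; infer_instance

/-- `h` forces `τ` to be almost contained in the set `a` of the model. -/
def FAe (Q τ a h : M) : Prop := ∀ h', LE Q h' h → ∃ h'', LE Q h'' h' ∧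
  ∃ N, N ∈ (omega : M) ∧ ∀ n, n ∈ (omega : M) → N ⊆ n → n ∉ a → Nc Q τ n h''

instance DR.FAe (Q τ a h : (ι → M) → M) [DF Q] [DF τ] [DF a] [DF h] :
    DR (fun v => FAe (Q v) (τ v) (a v) (h v)) := by
  unfold BLI.FAe; infer_instance

/-- `h` is a condition and forces `τ` to be an infinite pseudo-intersection of `p`. -/
def Yy (Q p τ h : M) : Prop := h ∈ fs Q ∧ FInf Q τ h ∧ ∀ a, a ∈ p → FAe Q τ a h

instance DR.Yy (Q p τ h : (ι → M) → M) [DF Q] [DF p] [DF τ] [DF h] :
    DR (fun v => Yy (Q v) (p v) (τ v) (h v)) := by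
  unfold BLI.Yy; infer_instance

/-! ### Maps between forcing notions -/

/-- `f` is an order preserving map from `Q` to `P`. -/
def Hom (Q P f : M) : Prop :=
  Fun f (fs Q) (fs P) ∧ ∀ x y, LE Q x y → LE P (ap f x) (ap f y)

instance DR.Hom (Q P f : (ι → M) → M) [DF Q] [DF P] [DF f] :
    DR (fun v => Hom (Q v) (P v) (f v)) := by
  unfold BLI.Hom; infer_instance

/-- `D` is a dense down-closed set of conditions. -/
def Dns (P D : M) : Prop := D ⊆ fs P ∧ (∀ x y, LE P x y → y ∈ D → x ∈ D) ∧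
  ∀ x, x ∈ fs P → ∃ y, LE P y x ∧ y ∈ D

instance DR.Dns (P D : (ι → M) → M) [DF P] [DF D] : DR (fun v => Dns (P v) (D v)) := by
  unfold BLI.Dns; infer_instance

/-- Generic maps: the conditions above the image of a generic filter of `Q` form a generic filter
of `P`. -/
def IsGen (Q P f : M) : Prop :=
  Hom Q P f ∧ ∀ D, Dns P D → ∀ q, q ∈ fs Q → ∃ q', LE Q q' q ∧ ap f q' ∈ D

instance DR.IsGen (Q P f : (ι → M) → M) [DF Q] [DF P] [DF f] :
    DR (fun v => IsGen (Q v) (P v) (f v)) := by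
  unfold BLI.IsGen; infer_instance

/-- Strong projections. -/
def IsProj (Q P f : M) : Prop :=
  Hom Q P f ∧ ∀ q, q ∈ fs Q → ∀ x, LE P x (ap f q) → ∃ q', LE Q q' q ∧ ap f q' = x

instance DR.IsProj (Q P f : (ι → M) → M) [DF Q] [DF P] [DF f] :
    DR (fun v => IsProj (Q v) (P v) (f v)) := by
  unfold BLI.IsProj; infer_instance

/-- The `P`-name `τ` as a `Q`-name. -/
noncomputable def pull (Q P f τ : M) : M :=
  sep (prod omega (fs Q)) (fun w => Nt P τ (fs w) (ap f (sn w)))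

instance DF.pull (Q P f τ : (ι → M) → M) [DF Q] [DF P] [DF f] [DF τ] :
    DF (fun v => pull (Q v) (P v) (f v) (τ v)) := by
  unfold BLI.pull; infer_instance

/-- The composition `g ∘ f` of `f : A → B` and `g : B → C` (as sets of pairs). -/
noncomputable def cmpf (A C g f : M) : M := mkf A C (fun x => ap g (ap f x))

instance DF.cmpf (A C g f : (ι → M) → M) [DF A] [DF C] [DF g] [DF f] :
    DF (fun v => cmpf (A v) (C v) (g v) (f v)) := by
  unfold BLI.cmpf; infer_instance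

/-! ### Exits -/

/-- The name of `{e | ex_y(e) exists and belongs to Ψ}`, where `ex_y(e)` is the least element of
`t(e)` outside `y`; `t` is a function from `omega` to the subsets of `omega`. -/
noncomputable def exn (Q t y Ψ : M) : M :=
  sep (prod omega (fs Q)) (fun w => ∃ n, n ∈ ap t (fs w) ∧ Nc Q y n (sn w) ∧
    (∀ m, m ∈ ap t (fs w) → m ∈ n → Nt Q y m (sn w)) ∧ Nt Q Ψ n (sn w))

instance DF.exn (Q t y Ψ : (ι → M) → M) [DF Q] [DF t] [DF y] [DF Ψ] :
    DF (fun v => exn (Q v) (t v) (y v) (Ψ v)) := by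
  unfold BLI.exn; infer_instance

/-- The name of `{e | t(e) ⊆ y}`. -/
noncomputable def tsub (Q t y : M) : M := cmp Q (exn Q t y (chk Q omega))

instance DF.tsub (Q t y : (ι → M) → M) [DF Q] [DF t] [DF y] :
    DF (fun v => tsub (Q v) (t v) (y v)) := by
  unfold BLI.tsub; infer_instance

/-- The name of `{f(s) | s ∈ F, s ⊆ y}`; `F` is a set of finite subsets of `omega`. -/
noncomputable def imgN (Q F f y : M) : M :=
  sep (prod omega (fs Q)) (fun w => ∃ s, s ∈ F ∧ (∀ i, i ∈ s → Nt Q y i (sn w)) ∧ ap f s = fs w)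

instance DF.imgN (Q F f y : (ι → M) → M) [DF Q] [DF F] [DF f] [DF y] :
    DF (fun v => imgN (Q v) (F v) (f v) (y v)) := by
  unfold BLI.imgN; infer_instance

/-! ### The abstract forcing relation -/

/-- Closure properties of the class of small sets. -/
structure SmC (Sm : M → Prop) : Prop where
  inj : ∀ f x y, Inj f x y → Sm y → Sm x
  prod : ∀ x y, Sm x → Sm y → Sm (prod x y)
  set : Sm (pow omega)

/-- Small forcing notions. -/
def SP (Sm : M → Prop) (Q : M) : Prop := Po Q ∧ Sm (fs Q)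

instance DR.SP (Sm : M → Prop) [D1 Sm] (Q : (ι → M) → M) [DF Q] : DR (fun v => SP Sm (Q v)) := by
  unfold BLI.SP
  have : DR (fun v => Sm (fs (Q v))) := D1.comp Sm (fun v => fs (Q v))
  infer_instance

/-- Definable relations with four arguments. -/
class D4 (R : M → M → M → M → Prop) : Prop where
  out : DR (fun v : Fin 4 → M => R (v 0) (v 1) (v 2) (v 3))

instance D4.comp (R : M → M → M → M → Prop) [h : D4 R] (Q z A x : (ι → M) → M)
    [DF Q] [DF z] [DF A] [DF x] : DR (fun v => R (Q v) (z v) (A v) (x v)) := by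
  have := h.out
  have hF : ∀ i : Fin 4, DF ((fun i : Fin 4 => match i with
    | 0 => Q | 1 => z | 2 => A | 3 => x : Fin 4 → (ι → M) → M) i) := by
    intro i
    fin_cases i <;> (simp only; infer_instance)
  exact DR.subst (fun v : Fin 4 → M => R (v 0) (v 1) (v 2) (v 3)) (fun i : Fin 4 => match i with
    | 0 => Q | 1 => z | 2 => A | 3 => x)

/-- `R Q z A h` (`h` forces: `z` forces `A ∈ U`) is the forcing relation of a name for an ultrafilter
over the Solovay model. -/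
structure AbsRel (Sm : M → Prop) (p : M) (R : M → M → M → M → Prop) : Prop where
  yy : ∀ Q z A h, SP Sm Q → R Q z A h → Yy Q p z h
  down : ∀ Q z A h h', SP Sm Q → R Q z A h → LE Q h' h → R Q z A h'
  pull : ∀ P Q f z A q, SP Sm P → SP Sm Q → IsGen Q P f → q ∈ fs Q → R P z A (ap f q) →
    R Q (pull Q P f z) (pull Q P f A) q
  mono : ∀ Q z z' A A' h, SP Sm Q → R Q z A h → FInf Q z' h → FSub Q z' z h → FSub Q A A' h →
    R Q z' A' h
  inter : ∀ Q z A B h, SP Sm Q → R Q z A h → R Q z B h → R Q z (inr Q A B) h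
  ne : ∀ Q z A h, SP Sm Q → R Q z A h → ∃ n, n ∈ (omega : M) ∧ ∃ h', LE Q h' h ∧ Nt Q A n h'
  tot : ∀ P z A h, SP Sm P → Yy P p z h → ∃ Q f q z', SP Sm Q ∧ IsGen Q P f ∧ q ∈ fs Q ∧
    LE P (ap f q) h ∧ FInf Q z' q ∧ FSub Q z' (BLI.pull Q P f z) q ∧
      (R Q z' (BLI.pull Q P f A) q ∨ R Q z' (cmp Q (BLI.pull Q P f A)) q)

/-- `A` belongs to the ultrafilter (of the model) given by `R`. -/
def InU (Sm : M → Prop) (R : M → M → M → M → Prop) (A : M) : Prop :=
  ∃ Q h z, SP Sm Q ∧ R Q z (chk Q A) h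

instance DR.InU (Sm : M → Prop) [D1 Sm] (R : M → M → M → M → Prop) [D4 R] (A : (ι → M) → M)
    [DF A] : DR (fun v => InU Sm R (A v)) := by
  unfold BLI.InU; infer_instance

/-! ### Ideals, Grigorieff forcing, Mathias forcing -/

/-- `A` and `B` are disjoint. -/
def Disj (A B : M) : Prop := ∀ k, k ∈ A → k ∉ B

instance DR.Disj (A B : (ι → M) → M) [DF A] [DF B] : DR (fun v => Disj (A v) (B v)) := by
  unfold BLI.Disj; infer_instance

/-- The difference. -/
noncomputable def dif (A B : M) : M := sep A (fun k => k ∉ B)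

instance DF.dif (A B : (ι → M) → M) [DF A] [DF B] : DF (fun v => dif (A v) (B v)) := by
  unfold BLI.dif; infer_instance

@[simp] theorem mem_dif {A B k : M} : k ∈ dif A B ↔ k ∈ A ∧ k ∉ B := by
  unfold dif; rw [mem_sep]

/-- The intersection. -/
noncomputable def itr (A B : M) : M := sep A (fun k => k ∈ B)

instance DF.itr (A B : (ι → M) → M) [DF A] [DF B] : DF (fun v => itr (A v) (B v)) := by
  unfold BLI.itr; infer_instance

@[simp] theorem mem_itr {A B k : M} : k ∈ itr A B ↔ k ∈ A ∧ k ∈ B := by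
  unfold itr; rw [mem_sep]

/-- Ideals of subsets of `omega` which contain the finite sets. -/
def IdealS (S : M) : Prop := S ⊆ pow omega ∧ (∀ A B, B ∈ S → A ⊆ B → A ∈ S) ∧
  (∀ A B, A ∈ S → B ∈ S → un A B ∈ S) ∧ ∀ n, n ∈ (omega : M) → sing n ∈ S

instance DR.IdealS (S : (ι → M) → M) [DF S] : DR (fun v => IdealS (S v)) := by
  unfold BLI.IdealS; infer_instance

/-- Partial functions from `omega` to `2` with domain `Z = fs x` in `S`; `E = sn x` is the set where the
value is `1`. -/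
noncomputable def GG (S : M) : M :=
  opair (sep (prod S (pow omega)) (fun x => sn x ⊆ fs x))
    (sep (prod (prod S (pow omega)) (prod S (pow omega)))
      (fun w => fs (sn w) ⊆ fs (fs w) ∧
        ∀ e, e ∈ fs (sn w) → (e ∈ sn (fs w) ↔ e ∈ sn (sn w))))

instance DF.GG (S : (ι → M) → M) [DF S] : DF (fun v => GG (S v)) := by
  unfold BLI.GG; infer_instance

theorem mem_GG {S x : M} : x ∈ fs (GG S) ↔ ∃ Z E, x = opair Z E ∧ Z ∈ S ∧ E ⊆ omega ∧ E ⊆ Z := by
  unfold GG
  rw [fs_opair, mem_sep, mem_prod]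
  constructor
  · rintro ⟨⟨Z, hZ, E, hE, rfl⟩, h⟩
    rw [fs_opair, sn_opair] at h
    rw [mem_pow] at hE
    exact ⟨Z, E, rfl, hZ, hE, h⟩
  · rintro ⟨Z, E, rfl, hZ, hE, h⟩
    rw [fs_opair, sn_opair]
    exact ⟨⟨Z, hZ, E, by rw [mem_pow]; exact hE, rfl⟩, h⟩

theorem opair_GG {S Z E : M} : opair Z E ∈ fs (GG S) ↔ Z ∈ S ∧ E ⊆ omega ∧ E ⊆ Z := by
  rw [mem_GG]
  constructor
  · rintro ⟨Z', E', h, h'⟩
    obtain ⟨rfl, rfl⟩ := opair_inj h
    exact h'
  · intro h
    exact ⟨Z, E, rfl, h⟩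

theorem LE_GG {S a b : M} : LE (GG S) a b ↔ a ∈ fs (GG S) ∧ b ∈ fs (GG S) ∧
    fs b ⊆ fs a ∧ ∀ e, e ∈ fs b → (e ∈ sn a ↔ e ∈ sn b) := by
  unfold LE
  constructor
  · rintro ⟨h1, h2, h3⟩
    refine ⟨h1, h2, ?_⟩
    unfold GG at h3
    rw [sn_opair, mem_sep, fs_opair, sn_opair] at h3
    exact h3.2
  · rintro ⟨h1, h2, h3⟩
    refine ⟨h1, h2, ?_⟩
    unfold GG at h1 h2 ⊢
    rw [fs_opair, mem_sep] at h1 h2
    rw [sn_opair, mem_sep, fs_opair, sn_opair, opair_mem_prod]
    exact ⟨⟨h1.1, h2.1⟩, h3⟩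

theorem po_GG (S : M) : Po (GG S) := by
  constructor
  · intro x hx
    rw [LE_GG]
    exact ⟨hx, hx, sub_refl _, fun _ _ => Iff.rfl⟩
  · intro x y z h1 h2
    rw [LE_GG] at h1 h2 ⊢
    exact ⟨h1.1, h2.2.1, sub_trans h2.2.2.1 h1.2.2.1, fun e he =>
      (h1.2.2.2 e (h2.2.2.1 e he)).trans (h2.2.2.2 e he)⟩

/-- The name of the generic set of `GG S`. -/
noncomputable def gname (S : M) : M := sep (prod omega (fs (GG S))) (fun w => fs w ∈ sn (sn w))

instance DF.gname (S : (ι → M) → M) [DF S] : DF (fun v => gname (S v)) := by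
  unfold BLI.gname; infer_instance

/-- The Mathias-Prikry forcing with `p`: pairs `(s, a)`, `s` a finite set of numbers, `a ∈ p`, all
elements of `s` below all elements of `a`. -/
noncomputable def MP (p : M) : M :=
  opair (sep (prod (pow omega) p) (fun x => FinM (fs x) ∧ ∀ i, i ∈ fs x → ∀ j, j ∈ sn x → i ∈ j))
    (sep (prod (prod (pow omega) p) (prod (pow omega) p))
      (fun w => fs (sn w) ⊆ fs (fs w) ∧ (∀ i, i ∈ fs (fs w) → i ∉ fs (sn w) → i ∈ sn (sn w)) ∧
        sn (fs w) ⊆ sn (sn w)))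

instance DF.MP (p : (ι → M) → M) [DF p] : DF (fun v => MP (p v)) := by
  unfold BLI.MP; infer_instance

theorem mem_MP {p x : M} : x ∈ fs (MP p) ↔ ∃ s a, x = opair s a ∧ s ⊆ omega ∧ a ∈ p ∧ FinM s ∧
    ∀ i, i ∈ s → ∀ j, j ∈ a → i ∈ j := by
  unfold MP
  rw [fs_opair, mem_sep, mem_prod]
  constructor
  · rintro ⟨⟨Z, hZ, E, hE, rfl⟩, h⟩
    rw [fs_opair, sn_opair] at h
    rw [mem_pow] at hZ
    exact ⟨Z, E, rfl, hZ, hE, h⟩
  · rintro ⟨Z, E, rfl, hZ, hE, h⟩
    rw [fs_opair, sn_opair]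
    exact ⟨⟨Z, by rw [mem_pow]; exact hZ, E, hE, rfl⟩, h⟩

theorem opair_MP {p s a : M} : opair s a ∈ fs (MP p) ↔ s ⊆ omega ∧ a ∈ p ∧ FinM s ∧
    ∀ i, i ∈ s → ∀ j, j ∈ a → i ∈ j := by
  rw [mem_MP]
  constructor
  · rintro ⟨Z', E', h, h'⟩
    obtain ⟨rfl, rfl⟩ := opair_inj h
    exact h'
  · intro h
    exact ⟨s, a, rfl, h⟩

theorem LE_MP {p x y : M} : LE (MP p) x y ↔ x ∈ fs (MP p) ∧ y ∈ fs (MP p) ∧
    fs y ⊆ fs x ∧ (∀ i, i ∈ fs x → i ∉ fs y → i ∈ sn y) ∧ sn x ⊆ sn y := by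
  unfold LE
  constructor
  · rintro ⟨h1, h2, h3⟩
    refine ⟨h1, h2, ?_⟩
    unfold MP at h3
    rw [sn_opair, mem_sep, fs_opair, sn_opair] at h3
    exact h3.2
  · rintro ⟨h1, h2, h3⟩
    refine ⟨h1, h2, ?_⟩
    unfold MP at h1 h2 ⊢
    rw [fs_opair, mem_sep] at h1 h2
    rw [sn_opair, mem_sep, fs_opair, sn_opair, opair_mem_prod]
    exact ⟨⟨h1.1, h2.1⟩, h3⟩

theorem po_MP (p : M) : Po (MP p) := by
  constructor
  · intro x hx
    rw [LE_MP]
    exact ⟨hx, hx, sub_refl _, fun _ h h' => absurd h h', sub_refl _⟩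
  · intro x y z h1 h2
    rw [LE_MP] at h1 h2 ⊢
    refine ⟨h1.1, h2.2.1, sub_trans h2.2.2.1 h1.2.2.1, fun i hi hiz => ?_,
      sub_trans h1.2.2.2.2 h2.2.2.2.2⟩
    by_cases hy : i ∈ fs y
    · exact h2.2.2.2.1 i hy hiz
    · exact h2.2.2.2.2 i (h1.2.2.2.1 i hi hy)

/-- The name of the Mathias real. -/
noncomputable def mname (p : M) : M := sep (prod omega (fs (MP p))) (fun w => fs w ∈ fs (sn w))

instance DF.mname (p : (ι → M) → M) [DF p] : DF (fun v => mname (p v)) := by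
  unfold BLI.mname; infer_instance

/-- Families `F(n)` of sets in the ideal `S` from which every set in `S` can be dropped. -/
def DFam (p S F : M) : Prop := (∀ n, n ∈ (omega : M) → ap F n ⊆ S) ∧
  ∀ Z, Z ∈ S → sep omega (fun n => ∃ A, A ∈ ap F n ∧ Disj A Z) ∈ p

instance DR.DFam (p S F : (ι → M) → M) [DF p] [DF S] [DF F] :
    DR (fun v => DFam (p v) (S v) (F v)) := by
  unfold BLI.DFam; infer_instance

/-- The sets which are decided to be in the generic set (outside the part decided by `h`) when `n`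
enters `z`; `s` is a map from `P` to `GG S`. -/
noncomputable def Dec (P s z h : M) : M :=
  mkseq omega (fun n => img (sep (fs P) (fun h' => LE P h' h ∧ Nt P z n h'))
    (fun h' => dif (sn (ap s h')) (fs (ap s h))))

instance DF.Dec (P s z h : (ι → M) → M) [DF P] [DF s] [DF z] [DF h] :
    DF (fun v => Dec (P v) (s v) (z v) (h v)) := by
  unfold BLI.Dec; infer_instance

theorem mem_Dec {P s z h n A : M} (hn : n ∈ (omega : M)) : A ∈ ap (Dec P s z h) n ↔
    ∃ h', LE P h' h ∧ Nt P z n h' ∧ A = dif (sn (ap s h')) (fs (ap s h)) := by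
  unfold Dec
  rw [ap_mkseq hn, mem_img]
  constructor
  · rintro ⟨x, hx, rfl⟩
    rw [mem_sep] at hx
    exact ⟨x, hx.2.1, hx.2.2, rfl⟩
  · rintro ⟨x, h1, h2, rfl⟩
    exact ⟨x, by rw [mem_sep]; exact ⟨h1.1, h1, h2⟩, rfl⟩

/-- `W` is a `p`-limit of ultrafilters with disjoint supports `A(i)`. -/
def Dcmp (p W : M) : Prop := ∃ A V, (∀ n, n ∈ (omega : M) → ap A n ⊆ omega ∧ Uf (ap V n)) ∧
  (∀ i j, i ∈ (omega : M) → j ∈ (omega : M) → i ≠ j → Disj (ap A i) (ap A j)) ∧
  sep omega (fun n => ap A n ∈ ap V n) ∈ p ∧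
  ∀ X, X ⊆ omega → (X ∈ W ↔ sep omega (fun n => X ∈ ap V n) ∈ p)

instance DR.Dcmp (p W : (ι → M) → M) [DF p] [DF W] : DR (fun v => Dcmp (p v) (W v)) := by
  unfold BLI.Dcmp; infer_instance

/-- The class `F` contains the principal ultrafilters and is closed under `p`-limits over disjoint
supports. -/
def ClFr (p F : M) : Prop :=
  (∀ e, e ∈ (omega : M) → sep (pow omega) (fun X => e ∈ X) ∈ F) ∧
  ∀ A V W, Uf W → (∀ n, n ∈ (omega : M) → ap A n ⊆ omega ∧ ap V n ∈ F) →
    (∀ i j, i ∈ (omega : M) → j ∈ (omega : M) → i ≠ j → Disj (ap A i) (ap A j)) →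
    sep omega (fun n => ap A n ∈ ap V n) ∈ p →
    (∀ X, X ⊆ omega → (X ∈ W ↔ sep omega (fun n => X ∈ ap V n) ∈ p)) → W ∈ F

instance DR.ClFr (p F : (ι → M) → M) [DF p] [DF F] : DR (fun v => ClFr (p v) (F v)) := by
  unfold BLI.ClFr; infer_instance

/-- The smallest class of ultrafilters which contains the principal ones and is closed under
`p`-limits over disjoint supports. -/
def FrU (p W : M) : Prop := ∀ F, ClFr p F → W ∈ F

instance DR.FrU (p W : (ι → M) → M) [DF p] [DF W] : DR (fun v => FrU (p v) (W v)) := by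
  unfold BLI.FrU; infer_instance

/-- The finite set `s` is an initial segment of the set `T`. -/
def Ini (s T : M) : Prop := s ⊆ T ∧ ∀ i, i ∈ T → i ∉ s → ∀ j, j ∈ s → j ∈ i

instance DR.Ini (s T : (ι → M) → M) [DF s] [DF T] : DR (fun v => Ini (s v) (T v)) := by
  unfold BLI.Ini; infer_instance

/-- `e` with label `T` is relevant at stage `n`, when `W` has been chosen before and `n` is chosen
now. -/
def Rlv (T W n : M) : Prop := ∀ m, m ∈ T → m ⊆ n → m ∈ W ∨ m = n

instance DR.Rlv (T W n : (ι → M) → M) [DF T] [DF W] [DF n] :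
    DR (fun v => Rlv (T v) (W v) (n v)) := by
  unfold BLI.Rlv; infer_instance

end Pool.Agent.ZFIter.NPA.BLI
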