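import Pool.Agent.BLI.Mathias
import Pool.Agent.BLI.TwoStep

/-!
# BLI/MGen: every name for a pseudo-intersection of `p` is a pullback of the Mathias name
(inside a model of ZF with choice)
-/

universe u

namespace Pool.Agent.ZFIter.NPA.BLI

open Pool.Agent.H78.ZF Pool.Agent.ZFIter Pool.Agent.ZFIter.NPA Pool.Agent.ZFIter.NPA.BSM

variable {M : Type u} [ZFM M] {ι : Type}

theorem Cap.down {P x d h h' : M} (hP : Po P) (H : Cap P x d h) (hh : LE P h' h) : Cap P x d h' :=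
  ⟨fun i hi => (H.1 i hi).down hP hh, fun n hn hns hna => (H.2 n hn hns hna).down hP hh⟩

theorem Cap.compat {p P x e d k : M} (hp : Uf p) (hP : Po P) (hk : k ∈ fs P)
    (he : e ∈ fs (MP p)) (hd : d ∈ fs (MP p)) (He : Cap P x e k) (Hd : Cap P x d k) :
    ∃ c, LE (MP p) c e ∧ LE (MP p) c d := by
  obtain ⟨h1, h2, h3, _⟩ := MP_fs he
  obtain ⟨h1', h2', h3', _⟩ := MP_fs hd
  have hc : opair (un (fs e) (fs d)) (itr (sn e) (sn d)) ∈ fs (MP p) := by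
    refine opair_MP_of (un_fsw h1 h1') (UF.itr hp h2 h2') fun i hi j hj => ?_
    rw [mem_un] at hi
    rw [mem_itr] at hj
    rcases hi with hi | hi
    · exact h3 i hi j hj.1
    · exact h3' i hi j hj.2
  refine ⟨_, LE_MP.2 ⟨hc, he, ?_, ?_, ?_⟩, LE_MP.2 ⟨hc, hd, ?_, ?_, ?_⟩⟩ <;>
    simp only [fs_opair, sn_opair]
  · exact sub_un_left _ _
  · intro i hi hie
    rw [mem_un] at hi
    rcases hi with h | h
    · exact absurd h hie
    · by_contra hia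
      exact (Hd.1 i h).not_nc hP hk (He.2 i ((mem_fsw.1 h1').1 i h) hie hia)
  · exact fun i hi => (mem_itr.1 hi).1
  · exact sub_un_right _ _
  · intro i hi hid
    rw [mem_un] at hi
    rcases hi with h | h
    · by_contra hia
      exact (He.1 i h).not_nc hP hk (Hd.2 i ((mem_fsw.1 h1).1 i h) hid hia)
    · exact absurd h hid
  · exact fun i hi => (mem_itr.1 hi).2

/-- Pairs of a condition and a Mathias condition captured by it. -/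
noncomputable def MQ (p P x h : M) : M :=
  sep (prod (fs P) (fs (MP p))) (fun y => LE P (fs y) h ∧ Cap P x (sn y) (fs y))

section
variable {p P x h : M}

theorem MQ_sub : MQ p P x h ⊆ prod (fs P) (fs (MP p)) := fun y hy => by
  unfold MQ at hy
  rw [mem_sep] at hy
  exact hy.1

theorem opair_MQ {k d : M} : opair k d ∈ MQ p P x h ↔ d ∈ fs (MP p) ∧ LE P k h ∧ Cap P x d k := by
  unfold MQ
  rw [mem_sep, opair_mem_prod, fs_opair, sn_opair]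
  exact ⟨fun h => ⟨h.1.2, h.2.1, h.2.2⟩, fun h => ⟨⟨h.2.1.1, h.1⟩, h.2.1, h.2.2⟩⟩

theorem mem_MQ {y : M} (hy : y ∈ MQ p P x h) : ∃ k d, y = opair k d ∧ d ∈ fs (MP p) ∧ LE P k h ∧
    Cap P x d k := by
  obtain ⟨a, _, b, _, rfl⟩ := (mem_prod _ _ _).1 (MQ_sub y hy)
  exact ⟨a, b, rfl, opair_MQ.1 hy⟩

theorem mr_gen (hP : Po P) : IsGen (sbP P (MP p) (MQ p P x h)) P (pf1 P (MQ p P x h)) := by
  refine ⟨hom_pf1 MQ_sub, fun D hD q hq => ?_⟩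
  rw [fs_sbP] at hq
  obtain ⟨k0, d, rfl, hd, hk0, hc⟩ := mem_MQ hq
  obtain ⟨k, hk, hkD⟩ := hD.2.2 k0 hk0.1
  have hm : opair k d ∈ MQ p P x h := opair_MQ.2 ⟨hd, hP.trans hk hk0, hc.down hP hk⟩
  refine ⟨opair k d, ?_, ?_⟩
  · rw [LE_sbP]
    simp only [fs_opair, sn_opair]
    exact ⟨hm, hq, hk, (po_MP p).refl hd⟩
  · rw [ap_pf1 MQ_sub hm, fs_opair]
    exact hkD

theorem ms_gen (hAC : AC M) (hp : Selective p) (hP : Po P) (hx : Yy P p x h) :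
    IsGen (sbP P (MP p) (MQ p P x h)) (MP p) (pf2 (MP p) (MQ p P x h)) := by
  refine ⟨hom_pf2 MQ_sub, fun D hD q hq => ?_⟩
  rw [fs_sbP] at hq
  obtain ⟨k, d, rfl, hd, hkh, hcap⟩ := mem_MQ hq
  obtain ⟨D', hD'def⟩ : ∃ D' : M, D' = sep (fs (MP p)) (fun e => (e ∈ D ∧ LE (MP p) e d) ∨
    ∀ c, LE (MP p) c e → ¬ LE (MP p) c d) := ⟨_, rfl⟩
  have hD' : ∀ e, e ∈ D' ↔ e ∈ fs (MP p) ∧ ((e ∈ D ∧ LE (MP p) e d) ∨
    ∀ c, LE (MP p) c e → ¬ LE (MP p) c d) := fun e => by rw [hD'def, mem_sep]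
  obtain ⟨k', e, hk', he, hce⟩ := mathias hAC hp hP (hx.down hP hkh) (D := D') (by
    refine ⟨fun e he => ((hD' e).1 he).1, fun a b hab hb => ?_, fun y hy => ?_⟩
    · rw [hD'] at hb ⊢
      refine ⟨hab.1, ?_⟩
      rcases hb.2 with hb | hb
      · exact Or.inl ⟨hD.2.1 _ _ hab hb.1, (po_MP p).trans hab hb.2⟩
      · exact Or.inr fun c hc => hb c ((po_MP p).trans hc hab)
    · by_cases hy' : ∃ c, LE (MP p) c y ∧ LE (MP p) c d
      · obtain ⟨c, hcy, hcd⟩ := hy'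
        obtain ⟨c', hc', hcD⟩ := hD.2.2 c hcy.1
        exact ⟨c', (po_MP p).trans hc' hcy,
          (hD' _).2 ⟨hc'.1, Or.inl ⟨hcD, (po_MP p).trans hc' hcd⟩⟩⟩
      · push Not at hy'
        exact ⟨y, (po_MP p).refl hy, (hD' _).2 ⟨hy, Or.inr hy'⟩⟩)
  have heM := ((hD' e).1 he).1
  obtain ⟨c, hc1, hc2⟩ := hce.compat hp.1 hP hk'.1 heM hd (hcap.down hP hk')
  rcases ((hD' e).1 he).2 with he | he
  · have hm : opair k' e ∈ MQ p P x h := opair_MQ.2 ⟨heM, hP.trans hk' hkh, hce⟩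
    refine ⟨opair k' e, ?_, ?_⟩
    · rw [LE_sbP]
      simp only [fs_opair, sn_opair]
      exact ⟨hm, hq, hk', he.2⟩
    · rw [ap_pf2 MQ_sub hm, sn_opair]
      exact he.1
  · exact absurd hc2 (he c hc1)

theorem ms_sub (hAC : AC M) (hp : Selective p) (hP : Po P) (hx : Yy P p x h) (y : M) :
    FSub (sbP P (MP p) (MQ p P x h))
      (pull (sbP P (MP p) (MQ p P x h)) P (pf1 P (MQ p P x h)) x)
      (pull (sbP P (MP p) (MQ p P x h)) (MP p) (pf2 (MP p) (MQ p P x h)) (mname p)) y := by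
  have hQ : Po (sbP P (MP p) (MQ p P x h)) := po_sbP hP (po_MP p) MQ_sub
  refine FSub.of_dense hQ fun n hn k _ hk => ?_
  rw [Nt_pull hQ hP (hom_pf1 MQ_sub)] at hk
  obtain ⟨q', hq', j, hj, hnj⟩ := (ms_gen hAC hp hP hx).meet (po_MP p)
    (fun d => ∃ j, j ∈ fs d ∧ n ∈ j) (fun a b hab ⟨j, hj, hnj⟩ => by
      rw [LE_MP] at hab
      exact ⟨j, hab.2.2.1 j hj, hnj⟩) (fun d hd => by
      obtain ⟨j, hj, hnj⟩ := Sel.exists_gt hp (MP_fs hd).2.1 hn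
      refine ⟨_, mp_add hp hd hj, j, ?_, hnj⟩
      rw [fs_opair, mem_ins]
      exact Or.inr rfl) hk.2.1
  have hqC := hq'.1
  rw [fs_sbP] at hqC
  obtain ⟨k1, d, rfl, hd, hk1, hcap⟩ := mem_MQ hqC
  have h1 := hk.2.2.down hP ((hom_pf1 MQ_sub).le hq')
  refine ⟨_, hq', ?_⟩
  rw [Nt_pull hQ (po_MP p) (hom_pf2 MQ_sub), Nt_mname, fs_sbP]
  rw [ap_pf2 MQ_sub hqC, sn_opair] at hj ⊢
  rw [ap_pf1 MQ_sub hqC, fs_opair] at h1
  refine ⟨hn, hqC, hn, hd, ?_⟩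
  by_contra hc
  refine hcap.2 n hn hc (fun hna => ?_) _ (hP.refl hk1.1) h1
  exact lt_asymm hn ((MP_fs hd).2.2.1 j hj n hna) hnj

theorem ms_sup (hP : Po P) (y : M) :
    FSub (sbP P (MP p) (MQ p P x h))
      (pull (sbP P (MP p) (MQ p P x h)) (MP p) (pf2 (MP p) (MQ p P x h)) (mname p))
      (pull (sbP P (MP p) (MQ p P x h)) P (pf1 P (MQ p P x h)) x) y := by
  have hQ : Po (sbP P (MP p) (MQ p P x h)) := po_sbP hP (po_MP p) MQ_sub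
  refine FSub.of_dense hQ fun n hn k _ hk => ?_
  rw [Nt_pull hQ (po_MP p) (hom_pf2 MQ_sub), Nt_mname] at hk
  obtain ⟨_, hkC, _, _, h1⟩ := hk
  rw [fs_sbP] at hkC
  obtain ⟨k1, d, rfl, hd, hk1, hcap⟩ := mem_MQ hkC
  rw [ap_pf2 MQ_sub hkC, sn_opair] at h1
  obtain ⟨k'', hk'', h2⟩ := hcap.1 n h1 k1 (hP.refl hk1.1)
  have hm : opair k'' d ∈ MQ p P x h := opair_MQ.2 ⟨hd, hP.trans hk'' hk1, hcap.down hP hk''⟩
  refine ⟨opair k'' d, ?_, ?_⟩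
  · rw [LE_sbP]
    simp only [fs_opair, sn_opair]
    exact ⟨hm, hkC, hk'', (po_MP p).refl hd⟩
  · rw [Nt_pull hQ hP (hom_pf1 MQ_sub), ap_pf1 MQ_sub hm, fs_opair, fs_sbP]
    exact ⟨hn, hm, h2⟩

end

theorem mgen (hAC : AC M) {Sm : M → Prop} (hSm : SmC Sm) {p : M} (hp : Selective p) {P x h : M}
    (hP : SP Sm P) (hx : Yy P p x h) :
    ∃ Q r s q, SP Sm Q ∧ IsGen Q P r ∧ IsProj Q (MP p) s ∧ q ∈ fs Q ∧ LE P (ap r q) h ∧
      (∀ k, FSub Q (pull Q P r x) (pull Q (MP p) s (mname p)) k) ∧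
      ∀ k, FSub Q (pull Q (MP p) s (mname p)) (pull Q P r x) k := by
  have hM : SP Sm (MP p) := sp_MP hSm fun a ha => (mem_pow _ _).2 (UF.sub hp.1 ha)
  obtain ⟨Q1, hQ1def⟩ : ∃ Q1 : M, Q1 = sbP P (MP p) (MQ p P x h) := ⟨_, rfl⟩
  obtain ⟨r1, hr1def⟩ : ∃ r1 : M, r1 = pf1 P (MQ p P x h) := ⟨_, rfl⟩
  obtain ⟨s1, hs1def⟩ : ∃ s1 : M, s1 = pf2 (MP p) (MQ p P x h) := ⟨_, rfl⟩
  have hQ1 : SP Sm Q1 := by rw [hQ1def]; exact sp_sbP hSm MQ_sub hP hM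
  have hr1 : IsGen Q1 P r1 := by rw [hQ1def, hr1def]; exact mr_gen hP.1
  have hs1 : IsGen Q1 (MP p) s1 := by rw [hQ1def, hs1def]; exact ms_gen hAC hp hP.1 hx
  have hsub : ∀ y, FSub Q1 (pull Q1 P r1 x) (pull Q1 (MP p) s1 (mname p)) y := by
    rw [hQ1def, hr1def, hs1def]; exact ms_sub hAC hp hP.1 hx
  have hsup : ∀ y, FSub Q1 (pull Q1 (MP p) s1 (mname p)) (pull Q1 P r1 x) y := by
    rw [hQ1def, hr1def, hs1def]; exact ms_sup hP.1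
  have h0 : opair h (opair emp omega) ∈ MQ p P x h := by
    refine opair_MQ.2 ⟨MP_top hp.1, hP.1.refl hx.1, ?_, ?_⟩
    · intro i hi
      rw [fs_opair] at hi
      exact absurd hi (not_mem_emp i)
    · intro n hn _ hn2
      rw [sn_opair] at hn2
      exact absurd hn hn2
  obtain ⟨Q, r, s, q, hQ, hr, hs, hq, hrq, -, h1, h2⟩ := twoStep hSm hQ1 hM hs1
    (h := opair h (opair emp omega)) (by rw [hQ1def, fs_sbP]; exact h0)
  have hrr := IsGen.comp hQ1.1 hr1 hr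
  refine ⟨Q, cpf Q P r1 r, s, q, hQ, hrr, hs, hq, ?_, fun k => ?_, fun k => ?_⟩
  · rw [ap_cpf hr1.1 hr.1 hq, hrq, hr1def, ap_pf1 MQ_sub h0, fs_opair]
    exact hP.1.refl hx.1
  · exact ((pull_comp_sub hQ.1 hQ1.1 hP.1 hr1.1 hr.1 x k).trans hQ.1
      (FSub.pull hQ.1 hQ1.1 hr (hsub _))).trans hQ.1 (h1 (mname p) k)
  · exact ((h2 (mname p) k).trans hQ.1 (FSub.pull hQ.1 hQ1.1 hr (hsup _))).trans hQ.1
      (comp_pull_sub hQ.1 hQ1.1 hP.1 hr1.1 hr.1 x k)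

end Pool.Agent.ZFIter.NPA.BLI
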