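import Pool.Agent.BLI.MR

/-!
# BLI/UltV: the ultrafilter of the model (inside a model of ZF)
-/

universe u

namespace Pool.Agent.ZFIter.NPA.BLI

open Pool.Agent.H78.ZF Pool.Agent.ZFIter Pool.Agent.ZFIter.NPA Pool.Agent.ZFIter.NPA.BSM

variable {M : Type u} [ZFM M] {ι : Type}

section
variable {Sm : M → Prop} {p : M} {R : M → M → M → M → Prop} (hR : AbsRel Sm p R)
include hR

/-- Restriction of an instance along a generic map and to a smaller infinite set. -/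
theorem transfer {P Q f z A h q z' A' : M} (hP : SP Sm P) (hQ : SP Sm Q) (hf : IsGen Q P f)
    (H : R P z A h) (hq : q ∈ fs Q) (hqh : LE P (ap f q) h) (hz' : FInf Q z' q)
    (hs : FSub Q z' (pull Q P f z) q) (hA : FSub Q (pull Q P f A) A' q) : R Q z' A' q :=
  hR.mono Q _ _ _ _ q hQ (hR.pull P Q f z A q hP hQ hf hq (hR.down P z A h _ hP H hqh)) hz' hs hA

/-- Totality, when the name `A` is excluded. -/
theorem tot_of_not {P z A h : M} (hP : SP Sm P) (hz : Yy P p z h)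
    (hno : ∀ Q f q z', SP Sm Q → IsGen Q P f → q ∈ fs Q → LE P (ap f q) h → FInf Q z' q →
      FSub Q z' (pull Q P f z) q → ¬ R Q z' (pull Q P f A) q) :
    ∃ Q f q z', SP Sm Q ∧ IsGen Q P f ∧ q ∈ fs Q ∧ LE P (ap f q) h ∧ FInf Q z' q ∧
      FSub Q z' (pull Q P f z) q ∧ R Q z' (cmp Q (pull Q P f A)) q := by
  obtain ⟨Q, f, q, z', hQ, hf, hq, hqh, hz', hs, K | K⟩ := hR.tot P z A h hP hz
  · exact absurd K (hno Q f q z' hQ hf hq hqh hz' hs)
  · exact ⟨Q, f, q, z', hQ, hf, hq, hqh, hz', hs, K⟩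

/-- An instance whose set is forced to be empty is impossible. -/
theorem no_empty {P z A h : M} (hP : SP Sm P) (H : R P z A h)
    (hA : ∀ n, n ∈ (omega : M) → Nc P A n h) : False := by
  obtain ⟨n, hn, h', hh', h1⟩ := hR.ne P z A h hP H
  exact hA n hn h' hh' h1

omit hR in
theorem cmp_chk_sub {P : M} (hP : Po P) (A h : M) :
    FSub P (cmp P (chk P A)) (chk P (dif omega A)) h := by
  refine FSub.of_le hP (fun n k hn hk => ?_) h
  rw [Nt_cmp hP] at hk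
  rw [Nt_chk hP, mem_dif]
  refine ⟨hn, ⟨hn, fun hA => ?_⟩, hk.2.1⟩
  exact hk.2.2 k (hP.refl hk.2.1) ((Nt_chk hP).2 ⟨hn, hA, hk.2.1⟩)

theorem inU_mono {A B : M} (hA : InU Sm R A) (hAB : ∀ n, n ∈ (omega : M) → n ∈ A → n ∈ B) :
    InU Sm R B := by
  obtain ⟨P, h, z, hP, H⟩ := hA
  refine ⟨P, h, z, hP, hR.mono P _ _ _ _ h hP H (hR.yy P z _ h hP H).2.1 (FSub.refl hP.1 _ _)
    (FSub.of_le hP.1 (fun n k hn hk => ?_) h)⟩
  rw [Nt_chk hP.1] at hk ⊢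
  exact ⟨hn, hAB n hn hk.2.1, hk.2.2⟩

theorem inU_ne : ¬ InU Sm R emp := by
  rintro ⟨P, h, z, hP, H⟩
  obtain ⟨n, hn, h', _, h1⟩ := hR.ne P z _ h hP H
  rw [Nt_chk hP.1] at h1
  exact not_mem_emp n h1.2.1

variable (hSm : SmC Sm) (hp : Selective p)
include hSm hp

theorem inU_or (A : M) : InU Sm R A ∨ InU Sm R (dif omega A) := by
  have hM : SP Sm (MP p) := sp_MP hSm fun a ha => (mem_pow _ _).2 (UF.sub hp.1 ha)
  obtain ⟨Q, f, q, z', hQ, hf, hq, hqh, hz', hs, H | H⟩ :=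
    hR.tot (MP p) (mname p) (chk (MP p) A) (opair emp omega) hM (yy_mname hp (MP_top hp.1))
  · exact Or.inl ⟨Q, q, z', hQ, hR.mono Q _ _ _ _ q hQ H hz' (FSub.refl hQ.1 _ _)
      (pull_chk_sub hQ.1 hM.1 hf A q)⟩
  · exact Or.inr ⟨Q, q, z', hQ, hR.mono Q _ _ _ _ q hQ H hz' (FSub.refl hQ.1 _ _)
      (((chk_pull_sub hQ.1 hM.1 hf A q).cmp_anti hQ.1).trans hQ.1 (cmp_chk_sub hQ.1 A q))⟩

theorem inU_inter {A B : M} (hA : InU Sm R A) (hB : InU Sm R B) : InU Sm R (itr A B) := by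
  obtain ⟨P, h, z, hP, H⟩ := hA
  obtain ⟨Q, k, y, hQ, K⟩ := hB
  obtain ⟨T, f, g, x, w, hT, hf, hg, hx, hfx, hgx, hw, hwz, hwy⟩ :=
    mixedRun hSm hp hP hQ (hR.yy P z _ h hP H) (hR.yy Q y _ k hQ K)
  have H1 : R T w (chk T A) x :=
    transfer hR hP hT hf H hx hfx hw hwz (pull_chk_sub hT.1 hP.1 hf A x)
  have H2 : R T w (chk T B) x :=
    transfer hR hQ hT hg K hx hgx hw hwy (pull_chk_sub hT.1 hQ.1 hg B x)
  have H3 : FSub T (inr T (chk T A) (chk T B)) (chk T (itr A B)) x := by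
    refine FSub.of_le hT.1 (fun n k hn hk => ?_) x
    rw [Nt_inr hT.1, Nt_chk hT.1, Nt_chk hT.1] at hk
    rw [Nt_chk hT.1, mem_itr]
    exact ⟨hn, ⟨hk.2.1.2.1, hk.2.2.2.1⟩, hk.2.2.2.2⟩
  exact ⟨T, x, w, hT, hR.mono T _ _ _ _ x hT (hR.inter T w _ _ x hT H1 H2) hw
    (FSub.refl hT.1 _ _) H3⟩

theorem inU_compl {A : M} (hA : InU Sm R A) : ¬ InU Sm R (dif omega A) := by
  intro h
  have h1 := inU_inter hR hSm hp hA h
  have e : itr A (dif omega A) = emp := eq_emp fun z hz => by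
    rw [mem_itr, mem_dif] at hz
    exact hz.2.2 hz.1
  rw [e] at h1
  exact inU_ne hR h1

/-- The ultrafilter of the model. -/
theorem uf_InU [D1 Sm] [D4 R] : Uf (sep (pow omega) (fun A => InU Sm R A)) := by
  have hm : ∀ A, A ∈ sep (pow omega) (fun A => InU Sm R A) ↔ A ⊆ omega ∧ InU Sm R A := fun A => by
    rw [mem_sep, mem_pow]
  refine ⟨fun A hA => ((hm A).1 hA).1, (hm _).2 ⟨sub_refl _, ?_⟩, fun h => inU_ne hR ((hm _).1 h).2,
    fun A B hA hB => ?_, fun A B hA hAB hB => ?_, fun A hA => ?_⟩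
  · rcases inU_or hR hSm hp (omega : M) with h | h
    · exact h
    · have e : dif (omega : M) omega = emp := eq_emp fun z hz => by
        rw [mem_dif] at hz
        exact hz.2 hz.1
      rw [e] at h
      exact absurd h (inU_ne hR)
  · rw [hm] at hA hB
    have := inU_inter hR hSm hp hA.2 hB.2
    unfold itr at this
    exact (hm _).2 ⟨fun k hk => by rw [mem_sep] at hk; exact hA.1 k hk.1, this⟩
  · rw [hm] at hA
    exact (hm _).2 ⟨hB, inU_mono hR hA.2 fun n _ h => hAB n h⟩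
  · rcases inU_or hR hSm hp A with h | h
    · exact Or.inl ((hm _).2 ⟨hA, h⟩)
    · unfold dif at h
      exact Or.inr ((hm _).2 ⟨fun k hk => by rw [mem_sep] at hk; exact hk.1, h⟩)

theorem addU {P z A h A₀ : M} (hP : SP Sm P) (H : R P z A h) (hA₀ : InU Sm R A₀) :
    ∃ Q f q z', SP Sm Q ∧ IsGen Q P f ∧ q ∈ fs Q ∧ LE P (ap f q) h ∧ FInf Q z' q ∧
      FSub Q z' (pull Q P f z) q ∧ R Q z' (inr Q (pull Q P f A) (chk Q A₀)) q := by
  obtain ⟨Q, f, q, z', hQ, hf, hq, hqh, hz', hs, K | K⟩ :=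
    hR.tot P z (chk P A₀) h hP (hR.yy P z A h hP H)
  · have H1 : R Q z' (pull Q P f A) q :=
      transfer hR hP hQ hf H hq hqh hz' hs (FSub.refl hQ.1 _ _)
    have H2 : R Q z' (chk Q A₀) q := hR.mono Q _ _ _ _ q hQ K hz' (FSub.refl hQ.1 _ _)
      (pull_chk_sub hQ.1 hP.1 hf A₀ q)
    exact ⟨Q, f, q, z', hQ, hf, hq, hqh, hz', hs, hR.inter Q z' _ _ q hQ H1 H2⟩
  · exfalso
    refine inU_compl hR hSm hp hA₀ ⟨Q, q, z', hQ, hR.mono Q _ _ _ _ q hQ K hz'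
      (FSub.refl hQ.1 _ _) (((chk_pull_sub hQ.1 hP.1 hf A₀ q).cmp_anti hQ.1).trans hQ.1
        (cmp_chk_sub hQ.1 A₀ q))⟩

end

end Pool.Agent.ZFIter.NPA.BLI
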