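import Pool.Agent.BLI.ExitRun
import Pool.Agent.BLI.MGen
import Pool.Agent.BLI.UltV

/-!
# BLI/ExitNo: exits do not happen earlier for smaller sets (inside a model of ZF with choice)
-/

universe u

namespace Pool.Agent.ZFIter.NPA.BLI

open Pool.Agent.H78.ZF Pool.Agent.ZFIter Pool.Agent.ZFIter.NPA Pool.Agent.ZFIter.NPA.BSM

variable {M : Type u} [ZFM M] {ι : Type}

/-- The labels tend to infinity. -/
def H0 (Sm : M → Prop) (R : M → M → M → M → Prop) (t : M) : Prop :=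
  ∀ N, N ∈ (omega : M) → InU Sm R (sep omega (fun e => ∀ m, m ∈ ap t e → N ∈ m))

theorem exit_no (hAC : AC M) {Sm : M → Prop} (hSm : SmC Sm) {p : M} (hp : Selective p)
    {R : M → M → M → M → Prop} (hR : AbsRel Sm p R) {t : M} (ht : Lab t) (hH : H0 Sm R t)
    {P x y h : M} (hP : SP Sm P) (hx : Yy P p x h) (hyx : FSub P y x h) :
    ¬ R P y (exn P t y x) h := by
  intro H
  obtain ⟨Q, r, s, q, hQ, hr, hs, hq, hrq, hxe, -⟩ := mgen hAC hSm hp hP hx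
  have hM : Po (MP p) := po_MP p
  have hyy : Yy P p y h := hR.yy P y _ h hP H
  obtain ⟨y1, hy1⟩ : ∃ y1 : M, y1 = pull Q P r y := ⟨_, rfl⟩
  obtain ⟨X, hX⟩ : ∃ X : M, X = pull Q (MP p) s (mname p) := ⟨_, rfl⟩
  have hyi : FInf Q y1 q := by
    rw [hy1]; exact FInf.pull hQ.1 hP.1 hr (hyy.2.1.down hP.1 hrq)
  have hysub : FSub Q y1 X q := by
    rw [hy1, hX]
    exact (FSub.pull hQ.1 hP.1 hr (hyx.down hP.1 hrq)).trans hQ.1 (hxe q)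
  have HA : R Q y1 (exn Q t y1 X) q := by
    refine transfer hR hP hQ hr H hq hrq hyi (by rw [hy1]; exact FSub.refl hQ.1 _ _) ?_
    rw [hy1, hX]
    exact (pull_exn_sub hQ.1 hP.1 hr ht y x q).trans hQ.1 (exn_mono hQ.1 ht (hxe q))
  rw [hX] at hysub
  obtain ⟨T, f, g, x', w, hT, hf, hg, hx', hfx, hgx, hwi, hwf, hwg, h1, h2, h3⟩ :=
    exitRun hAC hSm hp hQ hs hq hyi hysub
  have Hf : R T w (pull T Q f (exn Q t y1 X)) x' :=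
    transfer hR hQ hT hf HA hx' (by rw [hfx]; exact hQ.1.refl hq) hwi hwf (FSub.refl hT.1 _ _)
  have Hg : R T w (pull T Q g (exn Q t y1 X)) x' :=
    transfer hR hQ hT hg HA hx' (by rw [hgx]; exact hQ.1.refl hq) hwi hwg (FSub.refl hT.1 _ _)
  have Hfg := hR.inter T w _ _ x' hT Hf Hg
  have hsq := (MP_fs (hs.1.mem hq)).1
  obtain ⟨N, hN, hNs⟩ := fin_bdd (mem_fsw.1 hsq).2 (mem_fsw.1 hsq).1
  obtain ⟨Q'', f'', q'', z'', hQ'', hf'', hq'', hqx, -, -, H''⟩ :=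
    addU hR hSm hp hT Hfg (hH N hN)
  obtain ⟨e, heo, k'', hk'', hke⟩ := hR.ne Q'' z'' _ q'' hQ'' H''
  rw [Nt_inr hQ''.1, Nt_pull hQ''.1 hT.1 hf''.1, Nt_inr hT.1, Nt_chk hQ''.1, mem_sep] at hke
  obtain ⟨_, ⟨_, _, _, hkf, hkg⟩, _, ⟨_, he⟩, _⟩ := hke
  obtain ⟨k, hkdef⟩ : ∃ k : M, k = ap f'' k'' := ⟨_, rfl⟩
  rw [← hkdef] at hkf hkg
  have hk : LE T k x' := by rw [hkdef]; exact hT.1.trans (hf''.1.le hk'') hqx
  rw [Nt_pull hT.1 hQ.1 hf.1, Nt_exn hQ.1] at hkf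
  rw [Nt_pull hT.1 hQ.1 hg.1, Nt_exn hQ.1] at hkg
  obtain ⟨_, _, _, hfk, n₁, hn₁, ha1, hb1, hc1⟩ := hkf
  obtain ⟨_, _, _, hgk, n₂, hn₂, ha2, hb2, hc2⟩ := hkg
  rw [hX, Nt_pull hQ.1 hM hs.1, Nt_mname] at hc1 hc2
  have hc1' := hc1.2.2.2.2
  have hc2' := hc2.2.2.2.2
  have hnot : ∀ m, m ∈ ap t e → m ∉ fs (ap s q) := by
    intro m hm hms
    exact lt_asymm (ht e heo m hm) (he m hm) (hNs m hms)
  have hfkq : LE Q (ap f k) q := by rw [← hfx]; exact hf.1.le hk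
  have hgkq : LE Q (ap g k) q := by rw [← hgx]; exact hg.1.le hk
  rcases trichotomy (ht e heo n₁ hn₁) (ht e heo n₂ hn₂) with h4 | h4 | h4
  · obtain ⟨l, hl, h6⟩ := hysub n₁ (ht e heo n₁ hn₁) (ap g k) hgkq (hb2 n₁ hn₁ h4) _
      (hQ.1.refl hgk)
    rw [Nt_pull hQ.1 hM hs.1, Nt_mname] at h6
    have h7 := h6.2.2.2.2
    have h8 : n₁ ∈ fs (ap s (ap g k)) := by
      by_contra hcon
      exact h2 k hk.1 n₁ hc1' ((LE_MP.1 (hs.1.le hl)).2.2.2.1 n₁ h7 hcon)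
    exact ha1 _ (hQ.1.refl hfk) (h1 k hk.1 n₁ (hnot n₁ hn₁) hc1' h8).1
  · subst h4
    exact ha1 _ (hQ.1.refl hfk) (h1 k hk.1 n₁ (hnot n₁ hn₁) hc1' hc2').1
  · obtain ⟨l, hl, h6⟩ := hysub n₂ (ht e heo n₂ hn₂) (ap f k) hfkq (hb1 n₂ hn₂ h4) _
      (hQ.1.refl hfk)
    rw [Nt_pull hQ.1 hM hs.1, Nt_mname] at h6
    have h7 := h6.2.2.2.2
    have h8 : n₂ ∈ fs (ap s (ap f k)) := by
      by_contra hcon
      exact h3 k hk.1 n₂ hc2' ((LE_MP.1 (hs.1.le hl)).2.2.2.1 n₂ h7 hcon)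
    exact ha2 _ (hQ.1.refl hgk) (h1 k hk.1 n₂ (hnot n₂ hn₂) h8 hc2').2

theorem exit_eq (hAC : AC M) {Sm : M → Prop} (hSm : SmC Sm) {p : M} (hp : Selective p)
    {R : M → M → M → M → Prop} (hR : AbsRel Sm p R) {t : M} (ht : Lab t) (hH : H0 Sm R t)
    {P z w y h : M} (hP : SP Sm P) (hy : Yy P p y h) (hwy : FSub P w y h) (hzw : FSub P z w h)
    (hz : FInf P z h) :
    ∃ Q f q z', SP Sm Q ∧ IsGen Q P f ∧ q ∈ fs Q ∧ LE P (ap f q) h ∧ FInf Q z' q ∧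
      FSub Q z' (pull Q P f z) q ∧
      R Q z' (cmp Q (exn Q t (pull Q P f w) (pull Q P f y))) q := by
  have hYz : Yy P p z h := hy.sub hP.1 (hzw.trans hP.1 hwy) hz
  obtain ⟨Q, f, q, z', hQ, hf, hq, hfq, hz', hs, H⟩ := tot_of_not hR (A := exn P t w y) hP hYz (by
    intro Q f q z' hQ hf hq hfq hz' hs H
    have e1 : FSub Q z' (pull Q P f w) q :=
      hs.trans hQ.1 (FSub.pull hQ.1 hP.1 hf (hzw.down hP.1 hfq))
    have e2 : FSub Q (pull Q P f w) (pull Q P f y) q :=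
      FSub.pull hQ.1 hP.1 hf (hwy.down hP.1 hfq)
    have e3 := hR.mono Q z' z' _ (exn Q t z' (pull Q P f y)) q hQ H hz' (FSub.refl hQ.1 _ _)
      ((pull_exn_sub hQ.1 hP.1 hf ht w y q).trans hQ.1 (exn_sub hQ.1 ht e1 e2))
    exact exit_no hAC hSm hp hR ht hH hQ (Yy.pull hQ.1 hP.1 hf hq (hy.down hP.1 hfq))
      (e1.trans hQ.1 e2) e3)
  exact ⟨Q, f, q, z', hQ, hf, hq, hfq, hz', hs,
    hR.mono Q z' z' _ _ q hQ H hz' (FSub.refl hQ.1 _ _)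
      ((exn_pull_sub hQ.1 hP.1 hf ht w y q).cmp_anti hQ.1)⟩

end Pool.Agent.ZFIter.NPA.BLI
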