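import Pool.Agent.BLI.Accept

/-!
# BLI/ExitRun: two Mathias reals with a small intersection (inside a model of ZF with choice)
-/

universe u

namespace Pool.Agent.ZFIter.NPA.BLI

open Pool.Agent.H78.ZF Pool.Agent.ZFIter Pool.Agent.ZFIter.NPA Pool.Agent.ZFIter.NPA.BSM

variable {M : Type u} [ZFM M] {ι : Type}

/-- The invariant of the two-sided run. -/
def Iv (Q s y h a b : M) : Prop :=
  LE Q a h ∧ LE Q b h ∧
    (∀ n, n ∉ fs (ap s h) → n ∈ fs (ap s a) → n ∈ fs (ap s b) → Nt Q y n a ∧ Nt Q y n b) ∧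
    (∀ n, n ∈ fs (ap s a) → n ∉ sn (ap s b)) ∧ ∀ n, n ∈ fs (ap s b) → n ∉ sn (ap s a)

instance DR.Iv (Q s y h a b : (ι → M) → M) [DF Q] [DF s] [DF y] [DF h] [DF a] [DF b] :
    DR (fun v => Iv (Q v) (s v) (y v) (h v) (a v) (b v)) := by
  unfold BLI.Iv; infer_instance

theorem Iv.symm {Q s y h a b : M} (H : Iv Q s y h a b) : Iv Q s y h b a :=
  ⟨H.2.1, H.1, fun n h0 h1 h2 => (H.2.2.1 n h0 h2 h1).symm, H.2.2.2.2, H.2.2.2.1⟩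

section
variable {p Q s y h : M} (hp : Selective p) (hQ : Po Q) (hs : IsProj Q (MP p) s)
include hp hQ hs

omit hQ in
/-- Remove a finite set from the reservoir. -/
theorem exr_remove {b t : M} (hb : b ∈ fs Q) (ht : FinM t) :
    ∃ b', LE Q b' b ∧ fs (ap s b') = fs (ap s b) ∧ sn (ap s b') = dif (sn (ap s b)) t := by
  have h1 := hs.1.mem hb
  obtain ⟨b', hb', e⟩ := hs.2 b hb _ (mp_shrink h1 (Sel.dif_mem hp (MP_fs h1).2.1 ht)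
    fun k hk => (mem_dif.1 hk).1)
  exact ⟨b', hb', by rw [e, fs_opair], by rw [e, sn_opair]⟩

theorem exr_ext {a b a' : M} (H : Iv Q s y h a b) (ha : LE Q a' a) :
    ∃ b', LE Q b' b ∧ Iv Q s y h a' b' := by
  obtain ⟨b', hb', e1, e2⟩ := exr_remove hp hs H.2.1.1
    (mem_fsw.1 (MP_fs (hs.1.mem ha.1)).1).2
  have hsa := LE_MP.1 (hs.1.le ha)
  refine ⟨b', hb', hQ.trans ha H.1, hQ.trans hb' H.2.1, fun n h0 h1 h2 => ?_, fun n hn hn' => ?_,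
    fun n hn hn' => ?_⟩
  · rw [e1] at h2
    have h3 : n ∈ fs (ap s a) := by
      by_contra h4
      exact H.2.2.2.2 n h2 (hsa.2.2.2.1 n h1 h4)
    have h5 := H.2.2.1 n h0 h3 h2
    exact ⟨h5.1.down hQ ha, h5.2.down hQ hb'⟩
  · rw [e2, mem_dif] at hn'
    exact hn'.2 hn
  · rw [e1] at hn
    exact H.2.2.2.2 n hn (hsa.2.2.2.2 n hn')

theorem exr_step (hAC : AC M) (hy : FInf Q y h) (hsub : FSub Q y (pull Q (MP p) s (mname p)) h)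
    {a b : M} (H : Iv Q s y h a b) {N : M} (hN : N ∈ (omega : M)) :
    ∃ n, n ∈ (omega : M) ∧ N ⊆ n ∧ n ∉ fs (ap s h) ∧ ∃ a' b', LE Q a' a ∧ LE Q b' b ∧
      Iv Q s y h a' b' ∧ n ∈ fs (ap s a') ∧ n ∈ fs (ap s b') := by
  obtain ⟨t1, ht1f, ht1, hN1⟩ := accept hp hQ hs H.1.1 (hy.down hQ H.1) (hsub.down hQ H.1)
  obtain ⟨k, hkf, hk⟩ := ac_rel hAC omega (fs Q) (fun n k => Acc Q s y a t1 n →
    LE Q k a ∧ Nt Q y n k ∧ ∀ m, m ∈ (omega : M) → m ⊆ n →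
      (m ∈ fs (ap s k) ↔ m ∈ fs (ap s a) ∨ m ∈ t1 ∨ m = n)) (fun n _ => by
    by_cases hn : Acc Q s y a t1 n
    · obtain ⟨_, _, k, hk1, hk2, hk3⟩ := hn
      exact ⟨k, hk1.1, fun _ => ⟨hk1, hk2, hk3⟩⟩
    · exact ⟨a, H.1.1, fun h1 => absurd h1 hn⟩)
  -- the bounds
  have hbd : ∀ i, i ∈ (omega : M) → ∃ c, c ∈ (omega : M) ∧ ∀ m, m ∈ fs (ap s (ap k i)) → m ∈ c := by
    intro i hi
    have h1 := mem_fsw.1 (MP_fs (hs.1.mem (hkf.ap_mem hi))).1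
    exact fin_bdd h1.2 h1.1
  have hbl := fun i (hi : i ∈ (omega : M)) =>
    least_spec (fun c => ∀ m, m ∈ fs (ap s (ap k i)) → m ∈ c) (hbd i hi)
  obtain ⟨x, hx, hxs⟩ := Sel.sparse hp
    (fun i => least (fun c => ∀ m, m ∈ fs (ap s (ap k i)) → m ∈ c)) (fun i hi => (hbl i hi).1)
  have hsb := hs.1.mem H.2.1.1
  have hc1 := Sel.dif_mem hp (UF.itr hp.1 (MP_fs hsb).2.1 hx) (mem_fsw.1 ht1f).2
  obtain ⟨b1, hb1, e⟩ := hs.2 b H.2.1.1 _ (mp_shrink hsb hc1 fun k hk =>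
    (mem_itr.1 (mem_dif.1 hk).1).1)
  have e1 : fs (ap s b1) = fs (ap s b) := by rw [e, fs_opair]
  have e2 : sn (ap s b1) = dif (itr (sn (ap s b)) x) t1 := by rw [e, sn_opair]
  obtain ⟨t2, ht2f, ht2, hN2⟩ := accept hp hQ hs hb1.1 (hy.down hQ (hQ.trans hb1 H.2.1))
    (hsub.down hQ (hQ.trans hb1 H.2.1))
  obtain ⟨n, hn⟩ := hp.1.ne (UF.itr hp.1 (UF.itr hp.1 hN1 hN2) (UF.itr hp.1 hx (Sel.gt hp hN)))
  simp only [mem_itr, mem_sep] at hn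
  obtain ⟨⟨⟨hno, hn1⟩, _, hn2⟩, hn3, _, hn4⟩ := hn
  obtain ⟨hn2a, _, l, hl1, hl2, hl3⟩ := hn2
  obtain ⟨hk1, hk2, hk3⟩ := hk n hno hn1
  have hsl := LE_MP.1 (hs.1.le hl1)
  have hslf := (MP_fs (hs.1.mem hl1.1)).1
  have hskf := (MP_fs (hs.1.mem hk1.1)).1
  obtain ⟨a', ha', f1, f2⟩ := exr_remove hp hs hk1.1 (mem_fsw.1 hslf).2
  obtain ⟨b', hb', g1, g2⟩ := exr_remove hp hs hl1.1 (mem_fsw.1 hskf).2
  have hnh : n ∉ fs (ap s h) := by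
    intro h1
    have h2 := (LE_MP.1 (hs.1.le H.1)).2.2.1 n h1
    exact not_mem_self n ((MP_fs (hs.1.mem H.1.1)).2.2.1 n h2 n hn1.1)
  have ha'a := hQ.trans ha' hk1
  have hb'b := hQ.trans hb' (hQ.trans hl1 hb1)
  refine ⟨n, hno, omega_trans hno N hn4, hnh, a', b', ha'a, hb'b,
    ⟨hQ.trans ha'a H.1, hQ.trans hb'b H.2.1, fun m h0 h1 h2 => ?_,
      fun m hm hm' => ?_, fun m hm hm' => ?_⟩, ?_, ?_⟩
  · rw [f1] at h1
    rw [g1] at h2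
    have hmo := (mem_fsw.1 hskf).1 m h1
    rcases trichotomy hmo hno with hmn | hmn | hmn
    · have hmle := omega_trans hno m hmn
      have h3 := (hk3 m hmo hmle).1 h1
      have h4 := (hl3 m hmo hmle).1 h2
      have hne : m ≠ n := fun e => by rw [e] at hmn; exact not_mem_self n hmn
      rcases h3 with h3 | h3 | h3
      · rcases h4 with h4 | h4 | h4
        · rw [e1] at h4
          have h5 := H.2.2.1 m h0 h3 h4
          exact ⟨h5.1.down hQ ha'a, h5.2.down hQ hb'b⟩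
        · have h5 := ht2 m h4
          rw [e2, mem_dif, mem_itr] at h5
          exact absurd h5.1.1 (H.2.2.2.1 m h3)
        · exact absurd h4 hne
      · rcases h4 with h4 | h4 | h4
        · rw [e1] at h4
          exact absurd (ht1 m h3) (H.2.2.2.2 m h4)
        · have h5 := ht2 m h4
          rw [e2, mem_dif] at h5
          exact absurd h3 h5.2
        · exact absurd h4 hne
      · exact absurd h3 hne
    · subst hmn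
      exact ⟨hk2.down hQ ha', hl2.down hQ hb'⟩
    · exfalso
      have h3 : m ∉ fs (ap s b1) := by
        intro h4
        have h5 := (MP_fs (hs.1.mem hb1.1)).2.2.1 m h4 n hn2a
        exact lt_asymm hno h5 hmn
      have h4 := hsl.2.2.2.1 m h2 h3
      rw [e2, mem_dif, mem_itr] at h4
      have h5 := hxs n hn3 m h4.1.2 hmn
      have h6 := (hbl n hno).2.1 m h1
      exact lt_asymm hmo h5 h6
  · rw [f1] at hm
    rw [g2, mem_dif] at hm'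
    exact hm'.2 hm
  · rw [g1] at hm
    rw [f2, mem_dif] at hm'
    exact hm'.2 hm
  · rw [f1]
    exact (hk3 n hno (sub_refl n)).2 (Or.inr (Or.inr rfl))
  · rw [g1]
    exact (hl3 n hno (sub_refl n)).2 (Or.inr (Or.inr rfl))

end

theorem exitRun (hAC : AC M) {Sm : M → Prop} (hSm : SmC Sm) {p Q s y h : M} (hp : Selective p)
    (hQ : SP Sm Q) (hs : IsProj Q (MP p) s) (hh : h ∈ fs Q) (hy : FInf Q y h)
    (hsub : FSub Q y (pull Q (MP p) s (mname p)) h) :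
    ∃ T f g x w, SP Sm T ∧ IsGen T Q f ∧ IsGen T Q g ∧ x ∈ fs T ∧ ap f x = h ∧ ap g x = h ∧
      FInf T w x ∧ FSub T w (pull T Q f y) x ∧ FSub T w (pull T Q g y) x ∧
      (∀ k, k ∈ fs T → ∀ n, n ∉ fs (ap s h) → n ∈ fs (ap s (ap f k)) → n ∈ fs (ap s (ap g k)) →
        Nt Q y n (ap f k) ∧ Nt Q y n (ap g k)) ∧
      (∀ k, k ∈ fs T → ∀ n, n ∈ fs (ap s (ap f k)) → n ∉ sn (ap s (ap g k))) ∧
      ∀ k, k ∈ fs T → ∀ n, n ∈ fs (ap s (ap g k)) → n ∉ sn (ap s (ap f k)) := by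
  obtain ⟨C, hCdef⟩ : ∃ C : M, C = sep (prod (fs Q) (fs Q)) (fun x => Iv Q s y h (fs x) (sn x)) :=
    ⟨_, rfl⟩
  have hC : C ⊆ prod (fs Q) (fs Q) := fun x hx => by rw [hCdef, mem_sep] at hx; exact hx.1
  have hCm : ∀ a b, opair a b ∈ C ↔ Iv Q s y h a b := by
    intro a b
    rw [hCdef, mem_sep, opair_mem_prod, fs_opair, sn_opair]
    exact ⟨fun h => h.2, fun h => ⟨⟨h.1.1, h.2.1.1⟩, h⟩⟩
  have hCe : ∀ x, x ∈ C → ∃ a b, x = opair a b ∧ Iv Q s y h a b := by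
    intro x hx
    obtain ⟨a, _, b, _, rfl⟩ := (mem_prod _ _ _).1 (hC x hx)
    exact ⟨a, b, rfl, (hCm a b).1 hx⟩
  have hT : SP Sm (sbP Q Q C) := sp_sbP hSm hC hQ hQ
  have hfs : ∀ x, x ∈ fs (sbP Q Q C) ↔ x ∈ C := fun x => by rw [fs_sbP]
  have hx0 : opair h h ∈ C := (hCm _ _).2 ⟨hQ.1.refl hh, hQ.1.refl hh,
    fun n h0 h1 _ => absurd h1 h0,
    fun n hn hn' => not_mem_self n ((MP_fs (hs.1.mem hh)).2.2.1 n hn n hn'),
    fun n hn hn' => not_mem_self n ((MP_fs (hs.1.mem hh)).2.2.1 n hn n hn')⟩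
  have hfa : ∀ a b, opair a b ∈ C → ap (pf1 Q C) (opair a b) = a ∧ ap (pf2 Q C) (opair a b) = b :=
    fun a b hm => by rw [ap_pf1 hC hm, ap_pf2 hC hm, fs_opair, sn_opair]; exact ⟨rfl, rfl⟩
  have hle : ∀ a b a' b', LE (sbP Q Q C) (opair a b) (opair a' b') ↔
      opair a b ∈ C ∧ opair a' b' ∈ C ∧ LE Q a a' ∧ LE Q b b' := by
    intro a b a' b'
    rw [LE_sbP]
    simp only [fs_opair, sn_opair]
  obtain ⟨w, hwdef⟩ : ∃ w : M, w = mkNm (sbP Q Q C)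
    (fun n x => n ∉ fs (ap s h) ∧ n ∈ fs (ap s (fs x)) ∧ n ∈ fs (ap s (sn x))) := ⟨_, rfl⟩
  have hw : ∀ n x, Nt (sbP Q Q C) w n x ↔ n ∈ (omega : M) ∧ x ∈ C ∧ n ∉ fs (ap s h) ∧
      n ∈ fs (ap s (fs x)) ∧ n ∈ fs (ap s (sn x)) := by
    intro n x
    rw [hwdef, Nt_mkNm hT.1 (fun n k k' hk hn => ?_), hfs]
    rw [LE_sbP] at hk
    exact ⟨hn.1, (LE_MP.1 (hs.1.le hk.2.2.1)).2.2.1 n hn.2.1,
      (LE_MP.1 (hs.1.le hk.2.2.2)).2.2.1 n hn.2.2⟩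
  refine ⟨sbP Q Q C, pf1 Q C, pf2 Q C, opair h h, w, hT, ⟨hom_pf1 hC, ?_⟩, ⟨hom_pf2 hC, ?_⟩,
    (hfs _).2 hx0, (hfa _ _ hx0).1, (hfa _ _ hx0).2, ?_, ?_, ?_, ?_, ?_, ?_⟩
  · intro D hD q hq
    obtain ⟨a, b, rfl, H⟩ := hCe q ((hfs q).1 hq)
    obtain ⟨a', ha', hD'⟩ := hD.2.2 a H.1.1
    obtain ⟨b', hb', H'⟩ := exr_ext hp hQ.1 hs H ha'
    exact ⟨_, (hle _ _ _ _).2 ⟨(hCm _ _).2 H', (hfs _).1 hq, ha', hb'⟩,
      by rw [(hfa _ _ ((hCm _ _).2 H')).1]; exact hD'⟩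
  · intro D hD q hq
    obtain ⟨a, b, rfl, H⟩ := hCe q ((hfs q).1 hq)
    obtain ⟨b', hb', hD'⟩ := hD.2.2 b H.2.1.1
    obtain ⟨a', ha', H'⟩ := exr_ext hp hQ.1 hs H.symm hb'
    exact ⟨_, (hle _ _ _ _).2 ⟨(hCm _ _).2 H'.symm, (hfs _).1 hq, ha', hb'⟩,
      by rw [(hfa _ _ ((hCm _ _).2 H'.symm)).2]; exact hD'⟩
  · intro N hN q hq
    obtain ⟨a, b, rfl, H⟩ := hCe q ((hfs q).1 hq.1)
    obtain ⟨n, hno, hn, h0, a', b', ha', hb', H', h1, h2⟩ := exr_step hp hQ.1 hs hAC hy hsub H hN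
    refine ⟨n, hno, hn, _, (hle _ _ _ _).2 ⟨(hCm _ _).2 H', (hfs _).1 hq.1, ha', hb'⟩,
      (hw _ _).2 ⟨hno, (hCm _ _).2 H', h0, ?_, ?_⟩⟩
    · rw [fs_opair]; exact h1
    · rw [sn_opair]; exact h2
  · refine FSub.of_le hT.1 (fun n q hn hq => ?_) _
    obtain ⟨_, hqC, h0, h1, h2⟩ := (hw n q).1 hq
    obtain ⟨a, b, rfl, H⟩ := hCe q hqC
    rw [fs_opair] at h1
    rw [sn_opair] at h2
    rw [Nt_pull hT.1 hQ.1 (hom_pf1 hC), (hfa _ _ hqC).1]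
    exact ⟨hn, (hfs _).2 hqC, (H.2.2.1 n h0 h1 h2).1⟩
  · refine FSub.of_le hT.1 (fun n q hn hq => ?_) _
    obtain ⟨_, hqC, h0, h1, h2⟩ := (hw n q).1 hq
    obtain ⟨a, b, rfl, H⟩ := hCe q hqC
    rw [fs_opair] at h1
    rw [sn_opair] at h2
    rw [Nt_pull hT.1 hQ.1 (hom_pf2 hC), (hfa _ _ hqC).2]
    exact ⟨hn, (hfs _).2 hqC, (H.2.2.1 n h0 h1 h2).2⟩
  · intro k hk n h0 h1 h2
    obtain ⟨a, b, rfl, H⟩ := hCe k ((hfs k).1 hk)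
    rw [(hfa _ _ ((hfs _).1 hk)).1] at h1 ⊢
    rw [(hfa _ _ ((hfs _).1 hk)).2] at h2 ⊢
    exact H.2.2.1 n h0 h1 h2
  · intro k hk n
    obtain ⟨a, b, rfl, H⟩ := hCe k ((hfs k).1 hk)
    rw [(hfa _ _ ((hfs _).1 hk)).1, (hfa _ _ ((hfs _).1 hk)).2]
    exact H.2.2.2.1 n
  · intro k hk n
    obtain ⟨a, b, rfl, H⟩ := hCe k ((hfs k).1 hk)
    rw [(hfa _ _ ((hfs _).1 hk)).1, (hfa _ _ ((hfs _).1 hk)).2]
    exact H.2.2.2.2 n

end Pool.Agent.ZFIter.NPA.BLI
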