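import Pool.Agent.BLI.Sel

/-!
# BLI/UDefs: fronts and trees of ultrafilters, the step property, well-founded trees of finite sets

Conventions of `BLI/Defs`, `BLI/Sel` (`fsw` is the set of the finite sets of numbers, `n` is above the
finite set `s` if `∀ i, i ∈ s → i ∈ n`, the successors of `s` are the `ins s n`, `n` above `s`).
-/

universe u

namespace Pool.Agent.ZFIter.NPA.BLI

open Pool.Agent.H78.ZF Pool.Agent.ZFIter Pool.Agent.ZFIter.NPA Pool.Agent.ZFIter.NPA.BSM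

variable {M : Type u} [ZFM M] {ι : Type}

/-- The set of all ultrafilters. -/
noncomputable def Ufs : M := sep (pow (pow omega)) (fun u => Uf u)

theorem mem_Ufs {u : M} : u ∈ (Ufs : M) ↔ Uf u := by
  unfold Ufs
  rw [mem_sep, mem_pow]
  exact ⟨fun h => h.2, fun h => ⟨fun A hA => (mem_pow _ _).2 (h.1 A hA), h⟩⟩

/-- The step property of the ideal `S` and the labels `t` (three sides). -/
def StepP (p S t : M) : Prop :=
  ∀ F0 F1 F2, DFam p S F0 → DFam p S F1 → DFam p S F2 → ∀ W m, W ∈ (fsw : M) →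
    m ∈ (omega : M) → (∀ i, i ∈ W → i ⊆ m) →
    ∃ n, n ∈ (omega : M) ∧ m ∈ n ∧ ∃ A0 A1 A2, A0 ∈ ap F0 n ∧ A1 ∈ ap F1 n ∧ A2 ∈ ap F2 n ∧
      ∀ e, e ∈ A0 → e ∈ A1 → e ∈ A2 → ¬ Rlv (ap t e) W n

/-- Front data: `U` is the limit along a front of the ultrafilters `W(s)`, none of which is
decomposable or principal. -/
structure FrontD (p U t F W : M) : Prop where
  lab : Lab t
  sub : F ⊆ fsw
  uf : ∀ s, s ∈ F → Uf (ap W s)
  cell : ∀ s, s ∈ F → sep omega (fun e => ap t e = s) ∈ ap W s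
  nd : ∀ s, s ∈ F → ¬ Dcmp p (ap W s)
  np : ∀ s n, s ∈ F → n ∈ (omega : M) → sing n ∉ ap W s
  lim : ∀ B X, B ∈ p → X ⊆ omega → (∀ s, s ∈ F → s ⊆ B → X ∈ ap W s) → X ∈ U

/-- Tree data: a full tree of ultrafilters, each of which is the limit of its successors. -/
structure TreeD (p U t b W : M) : Prop where
  lab : Lab t
  uf : ∀ s, s ∈ (fsw : M) → Uf (ap W s)
  mem : b ∈ p
  root : ap W emp = U
  cone : ∀ s, s ∈ (fsw : M) → s ⊆ b → sep omega (fun e => Ini s (ap t e)) ∈ ap W s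
  lim : ∀ s X, s ∈ (fsw : M) → s ⊆ b → X ⊆ omega →
    (X ∈ ap W s ↔ sep omega (fun n => X ∈ ap W (ins s n)) ∈ p)

/-- The ideal of the front `F` of ultrafilters. -/
noncomputable def SFr (F W : M) : M := sep (pow omega) (fun Z => ∀ s, s ∈ F → Z ∉ ap W s)

instance DF.SFr (F W : (ι → M) → M) [DF F] [DF W] : DF (fun v => SFr (F v) (W v)) := by
  unfold BLI.SFr; infer_instance

theorem mem_SFr {F W Z : M} : Z ∈ SFr F W ↔ Z ⊆ omega ∧ ∀ s, s ∈ F → Z ∉ ap W s := by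
  unfold SFr; rw [mem_sep, mem_pow]

/-- The ideal of the full tree of ultrafilters below `b`. -/
noncomputable def STr (b W : M) : M :=
  sep (pow omega) (fun Z => ∀ s, s ∈ (fsw : M) → s ⊆ b → Z ∉ ap W s)

instance DF.STr (b W : (ι → M) → M) [DF b] [DF W] : DF (fun v => STr (b v) (W v)) := by
  unfold BLI.STr; infer_instance

theorem mem_STr {b W Z : M} :
    Z ∈ STr b W ↔ Z ⊆ omega ∧ ∀ s, s ∈ (fsw : M) → s ⊆ b → Z ∉ ap W s := by
  unfold STr; rw [mem_sep, mem_pow]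

/-! ### Well-founded trees of finite sets of numbers -/

/-- `T` is a tree of finite sets of numbers in which every node has either no successor or all
successors. -/
def Tr (T : M) : Prop := T ⊆ fsw ∧ emp ∈ T ∧ (∀ s s', s ∈ T → Ini s' s → s' ∈ T) ∧
  ∀ s m n, s ∈ T → m ∈ (omega : M) → n ∈ (omega : M) → (∀ i, i ∈ s → i ∈ m) →
    (∀ i, i ∈ s → i ∈ n) → ins s m ∈ T → ins s n ∈ T

instance DR.Tr (T : (ι → M) → M) [DF T] : DR (fun v => Tr (T v)) := by
  unfold BLI.Tr; infer_instance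

/-- `r` is a rank function of the tree `T`, with values in the ordinal `θ`. -/
def Rkd (T r θ : M) : Prop := Ord θ ∧ (∀ s, s ∈ T → ap r s ∈ θ) ∧
  ∀ s n, s ∈ T → n ∈ (omega : M) → (∀ i, i ∈ s → i ∈ n) → ins s n ∈ T → ap r (ins s n) ∈ ap r s

instance DR.Rkd (T r θ : (ι → M) → M) [DF T] [DF r] [DF θ] :
    DR (fun v => Rkd (T v) (r v) (θ v)) := by
  unfold BLI.Rkd; infer_instance

/-- The tree `T` is well-founded. -/
def WfT (T : M) : Prop := ∀ X, X ⊆ T → X ≠ emp →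
  ∃ s, s ∈ X ∧ ∀ n, n ∈ (omega : M) → (∀ i, i ∈ s → i ∈ n) → ins s n ∉ X

instance DR.WfT (T : (ι → M) → M) [DF T] : DR (fun v => WfT (T v)) := by
  unfold BLI.WfT; infer_instance

/-- The branches of the tree `T`: the nodes without successors. -/
noncomputable def Br (T : M) : M :=
  sep T (fun s => ∀ n, n ∈ (omega : M) → (∀ i, i ∈ s → i ∈ n) → ins s n ∉ T)

instance DF.Br (T : (ι → M) → M) [DF T] : DF (fun v => Br (T v)) := by
  unfold BLI.Br; infer_instance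

theorem mem_Br {T s : M} : s ∈ Br T ↔ s ∈ T ∧
    ∀ n, n ∈ (omega : M) → (∀ i, i ∈ s → i ∈ n) → ins s n ∉ T := by
  unfold Br; rw [mem_sep]

/-- A tree with a rank function is well-founded. -/
theorem Rkd.wf {T r θ : M} (h : Rkd T r θ) : WfT T := by
  intro X hX hne
  obtain ⟨s0, hs0⟩ := ne_emp_iff.1 hne
  obtain ⟨y, hy, hmin⟩ := foundation (img X (fun s => ap r s))
    (ne_emp_iff.2 ⟨ap r s0, (mem_img _ _ _).2 ⟨s0, hs0, rfl⟩⟩)
  obtain ⟨s, hs, rfl⟩ := (mem_img _ _ _).1 hy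
  refine ⟨s, hs, fun n hn ha hc => ?_⟩
  exact hmin _ (h.2.2 s n (hX s hs) hn ha (hX _ hc)) ((mem_img _ _ _).2 ⟨_, hc, rfl⟩)

end Pool.Agent.ZFIter.NPA.BLI
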