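import Pool.Agent.BLI.Sep
import Pool.Agent.BLI.UDefs

/-!
# BLI/FrUs: the class `FrU` (inside a model of ZF)
-/

universe u

namespace Pool.Agent.ZFIter.NPA.BLI

open Pool.Agent.H78.ZF Pool.Agent.ZFIter Pool.Agent.ZFIter.NPA Pool.Agent.ZFIter.NPA.BSM

variable {M : Type u} [ZFM M] {ι : Type}

theorem FrU.uf {p U : M} (h : FrU p U) : Uf U :=
  mem_Ufs.1 (h Ufs ⟨fun _ he => mem_Ufs.2 (uf_pr he), fun _ _ _ hW _ _ _ _ => mem_Ufs.2 hW⟩)

theorem not_sing_of_not_FrU {p W n : M} (hW : Uf W) (h : ¬ FrU p W) (hn : n ∈ (omega : M)) :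
    sing n ∉ W := by
  intro hc
  apply h
  have e : W = sep (pow omega) (fun X : M => n ∈ X) := by
    refine ext fun X => ?_
    rw [mem_sep, mem_pow]
    constructor
    · intro hX
      refine ⟨hW.1 X hX, ?_⟩
      obtain ⟨k, hk⟩ := hW.ne (UF.itr hW hX hc)
      rw [mem_itr, mem_sing] at hk
      rw [← hk.2]
      exact hk.1
    · rintro ⟨hX, hnX⟩
      exact hW.up hc (fun k hk => by rw [mem_sing] at hk; rw [hk]; exact hnX) hX
  intro F hF
  rw [e]
  exact hF.1 n hn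

theorem exists_dcmp_not {p W : M} (hp : Uf p) (hW : Uf W) (h : ¬ FrU p W) (hd : Dcmp p W) :
    ∃ A V : M, (∀ n, n ∈ (omega : M) → ap A n ⊆ omega ∧ Uf (ap V n)) ∧
      (∀ i j, i ∈ (omega : M) → j ∈ (omega : M) → i ≠ j → Disj (ap A i) (ap A j)) ∧
      sep omega (fun n => ap A n ∈ ap V n ∧ ¬ FrU p (ap V n)) ∈ p ∧
      ∀ X, X ⊆ omega → (X ∈ W ↔ sep omega (fun n => X ∈ ap V n) ∈ p) := by
  obtain ⟨A, V, h0, h1, h2, h3⟩ := hd
  refine ⟨A, V, h0, h1, ?_, h3⟩
  by_contra hcon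
  have h4 : sep omega (fun n => FrU p (ap V n)) ∈ p := by
    refine hp.sep_inter h2 (hp.sep_not hcon) fun n _ hn1 hn2 => ?_
    by_contra hn3
    exact hn2 ⟨hn1, hn3⟩
  apply h
  obtain ⟨V', hV'def⟩ : ∃ V' : M, V' = mkseq omega (fun n => sep (pow omega) (fun X =>
    (FrU p (ap V n) ∧ X ∈ ap V n) ∨ (¬ FrU p (ap V n) ∧ emp ∈ X))) := ⟨_, rfl⟩
  have hV1 : ∀ n, n ∈ (omega : M) → FrU p (ap V n) → ap V' n = ap V n := by
    intro n hn hF
    rw [hV'def, ap_mkseq hn]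
    refine ext fun X => ?_
    rw [mem_sep, mem_pow]
    constructor
    · rintro ⟨_, h | h⟩
      · exact h.2
      · exact absurd hF h.1
    · intro hX
      exact ⟨hF.uf.1 X hX, Or.inl ⟨hF, hX⟩⟩
  have hV2 : ∀ n, n ∈ (omega : M) → ¬ FrU p (ap V n) →
      ap V' n = sep (pow omega) (fun X : M => emp ∈ X) := by
    intro n hn hF
    rw [hV'def, ap_mkseq hn]
    refine ext fun X => ?_
    rw [mem_sep, mem_sep, mem_pow]
    constructor
    · rintro ⟨h, h' | h'⟩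
      · exact absurd h'.1 hF
      · exact ⟨h, h'.2⟩
    · rintro ⟨h, h'⟩
      exact ⟨h, Or.inr ⟨hF, h'⟩⟩
  intro F hF
  refine hF.2 A V' W hW (fun n hn => ⟨(h0 n hn).1, ?_⟩) h1 ?_ ?_
  · by_cases hc : FrU p (ap V n)
    · rw [hV1 n hn hc]
      exact hc F hF
    · rw [hV2 n hn hc]
      exact hF.1 emp emp_mem_omega
  · refine hp.sep_inter h2 h4 fun n hn h5 h6 => ?_
    rw [hV1 n hn h6]
    exact h5
  · intro X hX
    rw [h3 X hX]
    constructor
    · intro h5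
      refine hp.sep_inter h5 h4 fun n hn h6 h7 => ?_
      rw [hV1 n hn h7]
      exact h6
    · intro h5
      refine hp.sep_inter h5 h4 fun n hn h6 h7 => ?_
      rw [hV1 n hn h7] at h6
      exact h6

/-! ### The least element of a finite set -/

/-- The least element. -/
noncomputable def mn (s : M) : M := least (fun n => n ∈ s)

instance DF.mn (s : (ι → M) → M) [DF s] : DF (fun v => mn (s v)) := by
  unfold BLI.mn; infer_instance

/-- The set without its least element. -/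
noncomputable def rs (s : M) : M := sep s (fun i => i ≠ mn s)

instance DF.rs (s : (ι → M) → M) [DF s] : DF (fun v => rs (s v)) := by
  unfold BLI.rs; infer_instance

theorem mem_rs {s i : M} : i ∈ rs s ↔ i ∈ s ∧ i ≠ mn s := by
  unfold rs; rw [mem_sep]

theorem mn_spec {s : M} (hs : s ⊆ omega) (hne : s ≠ emp) : mn s ∈ s ∧ ∀ i, i ∈ s → mn s ⊆ i := by
  obtain ⟨k, hk⟩ := ne_emp_iff.1 hne
  have h := least_spec (fun n => n ∈ s) ⟨k, hs k hk, hk⟩
  refine ⟨h.2.1, fun i hi => ?_⟩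
  exact least_le (fun n => n ∈ s) (hs i hi) hi

theorem mn_eq {s a : M} (hs : s ⊆ omega) (ha : a ∈ s) (h : ∀ i, i ∈ s → a ⊆ i) : mn s = a := by
  have h1 := mn_spec hs (ne_emp_iff.2 ⟨a, ha⟩)
  exact sub_antisymm (h1.2 a ha) (h _ h1.1)

theorem mn_lt_rs {s i : M} (hs : s ⊆ omega) (hi : i ∈ rs s) : mn s ∈ i := by
  rw [mem_rs] at hi
  have h1 := mn_spec hs (ne_emp_iff.2 ⟨i, hi.1⟩)
  rcases (le_iff (hs _ h1.1) (hs i hi.1)).1 (h1.2 i hi.1) with h | h
  · exact h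
  · exact absurd h.symm hi.2

theorem rs_fsw {s : M} (hs : s ∈ (fsw : M)) : rs s ∈ (fsw : M) :=
  sub_fsw hs fun _ hi => (mem_rs.1 hi).1

theorem mn_ins {s n : M} (hn : n ∈ (omega : M)) (hs : s ⊆ omega) (h : ∀ i, i ∈ s → n ∈ i) :
    mn (ins s n) = n ∧ rs (ins s n) = s := by
  have hso : ins s n ⊆ omega := fun i hi => by
    rw [mem_ins] at hi
    rcases hi with h | rfl
    · exact hs i h
    · exact hn
  have e : mn (ins s n) = n := by
    refine mn_eq hso (by rw [mem_ins]; exact Or.inr rfl) fun i hi => ?_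
    rw [mem_ins] at hi
    rcases hi with h' | rfl
    · exact omega_trans (hs i h') n (h i h')
    · exact sub_refl _
  refine ⟨e, ext fun i => ?_⟩
  rw [mem_rs, e, mem_ins]
  constructor
  · rintro ⟨h1 | h1, h2⟩
    · exact h1
    · exact absurd h1 h2
  · intro h1
    refine ⟨Or.inl h1, ?_⟩
    rintro rfl
    exact not_mem_self i (h i h1)

theorem ins_rs {s : M} (hs : s ⊆ omega) (hne : s ≠ emp) : ins (rs s) (mn s) = s := by
  have h1 := mn_spec hs hne
  refine ext fun i => ?_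
  rw [mem_ins, mem_rs]
  constructor
  · rintro (h | rfl)
    · exact h.1
    · exact h1.1
  · intro h
    by_cases hc : i = mn s
    · exact Or.inr hc
    · exact Or.inl ⟨h, hc⟩

theorem mn_top {s m : M} (hs : s ⊆ omega) (hne : s ≠ emp) (hm : m ∈ (omega : M))
    (h : ∀ i, i ∈ s → i ∈ m) : mn (ins s m) = mn s ∧ rs (ins s m) = ins (rs s) m := by
  have h1 := mn_spec hs hne
  have hso : ins s m ⊆ omega := fun i hi => by
    rw [mem_ins] at hi
    rcases hi with h | rfl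
    · exact hs i h
    · exact hm
  have e : mn (ins s m) = mn s := by
    refine mn_eq hso (by rw [mem_ins]; exact Or.inl h1.1) fun i hi => ?_
    rw [mem_ins] at hi
    rcases hi with h' | rfl
    · exact h1.2 i h'
    · exact omega_trans hm _ (h _ h1.1)
  refine ⟨e, ext fun i => ?_⟩
  rw [mem_rs, e, mem_ins, mem_ins, mem_rs]
  constructor
  · rintro ⟨h2 | h2, h3⟩
    · exact Or.inl ⟨h2, h3⟩
    · exact Or.inr h2
  · rintro (h2 | h2)
    · exact ⟨Or.inl h2.1, h2.2⟩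
    · refine ⟨Or.inr h2, ?_⟩
      rintro rfl
      rw [h2] at h1
      exact not_mem_self m (h m h1.1)

theorem mn_ini {s' s : M} (hs : s ⊆ omega) (hne : s' ≠ emp) (h : Ini s' s) :
    mn s' = mn s ∧ Ini (rs s') (rs s) := by
  obtain ⟨k, hk⟩ := ne_emp_iff.1 hne
  have hso : s' ⊆ omega := sub_trans h.1 hs
  have h1 := mn_spec hs (ne_emp_iff.2 ⟨k, h.1 k hk⟩)
  have h2 : mn s ∈ s' := by
    by_contra hc
    have h3 := h.2 _ h1.1 hc k hk
    exact not_mem_self k (h1.2 k (h.1 k hk) k h3)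
  have e : mn s' = mn s := mn_eq hso h2 fun i hi => h1.2 i (h.1 i hi)
  refine ⟨e, fun i hi => ?_, fun i hi hi' j hj => ?_⟩
  · rw [mem_rs] at hi ⊢
    rw [e] at hi
    exact ⟨h.1 i hi.1, hi.2⟩
  · rw [mem_rs] at hi hj
    refine h.2 i hi.1 (fun hc => hi' ?_) j hj.1
    rw [mem_rs, e]
    exact ⟨hc, hi.2⟩

/-! ### The tree of a limit -/

/-- The tree with the trees `ap T n` above the nodes `{n}`. -/
noncomputable def tnd (T : M) : M := sep fsw (fun s => s = emp ∨ rs s ∈ ap T (mn s))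

theorem mem_tnd {T s : M} : s ∈ tnd T ↔ s ∈ (fsw : M) ∧ (s = emp ∨ rs s ∈ ap T (mn s)) := by
  unfold tnd; rw [mem_sep]

theorem mem_tnd_ne {T s : M} (hs : s ∈ (fsw : M)) (hne : s ≠ emp) :
    s ∈ tnd T ↔ rs s ∈ ap T (mn s) := by
  rw [mem_tnd]
  exact ⟨fun h => h.2.resolve_left hne, fun h => ⟨hs, Or.inr h⟩⟩

theorem ins_ne (s n : M) : ins s n ≠ emp := ne_emp_iff.2 ⟨n, by rw [mem_ins]; exact Or.inr rfl⟩

theorem tr_tnd {T : M} (hT : ∀ n, n ∈ (omega : M) → Tr (ap T n)) : Tr (tnd T) := by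
  refine ⟨fun s hs => (mem_tnd.1 hs).1, mem_tnd.2 ⟨emp_fsw, Or.inl rfl⟩, fun s s' hs hini => ?_,
    fun s m n hs hm hn hsm hsn hins => ?_⟩
  · have hsf := (mem_tnd.1 hs).1
    have hsf' : s' ∈ (fsw : M) := sub_fsw hsf hini.1
    by_cases hne : s' = emp
    · rw [hne]; exact mem_tnd.2 ⟨emp_fsw, Or.inl rfl⟩
    · have hso := (mem_fsw.1 hsf).1
      have h1 := mn_ini hso hne hini
      have hne' : s ≠ emp := by
        rintro rfl
        exact hne (eq_emp fun z hz => not_mem_emp z (hini.1 z hz))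
      rw [mem_tnd_ne hsf hne'] at hs
      rw [mem_tnd_ne hsf' hne, h1.1]
      exact (hT _ (hso _ (mn_spec hso hne').1)).2.2.1 _ _ hs h1.2
  · have hsf := (mem_tnd.1 hs).1
    have hso := (mem_fsw.1 hsf).1
    rw [mem_tnd_ne (ins_fsw hsf hm) (ins_ne _ _)] at hins
    rw [mem_tnd_ne (ins_fsw hsf hn) (ins_ne _ _)]
    by_cases hne : s = emp
    · rw [hne]
      have e := mn_ins (s := emp) hn (emp_sub _) fun i hi => absurd hi (not_mem_emp i)
      rw [e.1, e.2]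
      exact (hT n hn).2.1
    · have e1 := mn_top hso hne hm hsm
      have e2 := mn_top hso hne hn hsn
      rw [e1.1, e1.2] at hins
      rw [e2.1, e2.2]
      rw [mem_tnd_ne hsf hne] at hs
      exact (hT _ (hso _ (mn_spec hso hne).1)).2.2.2 _ m n hs hm hn
        (fun i hi => hsm i (mem_rs.1 hi).1) (fun i hi => hsn i (mem_rs.1 hi).1) hins

theorem rkd_tnd {T r α : M} (hα : Ord α) (hT : ∀ n, n ∈ (omega : M) → Tr (ap T n))
    (hr : ∀ n, n ∈ (omega : M) → Rkd (ap T n) (ap r n) α) :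
    Rkd (tnd T) (mkseq fsw (fun s => sep α (fun z => s = emp ∨ z ∈ ap (ap r (mn s)) (rs s))))
      (succ α) := by
  have h0 : ap (mkseq fsw (fun s => sep α (fun z => s = emp ∨ z ∈ ap (ap r (mn s)) (rs s)))) emp
      = α := by
    rw [ap_mkseq emp_fsw]
    refine ext fun z => ?_
    rw [mem_sep]
    exact ⟨fun h => h.1, fun h => ⟨h, Or.inl rfl⟩⟩
  have h1 : ∀ s, s ∈ tnd T → s ≠ emp →
      ap (mkseq fsw (fun s => sep α (fun z => s = emp ∨ z ∈ ap (ap r (mn s)) (rs s)))) s =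
        ap (ap r (mn s)) (rs s) ∧ ap (ap r (mn s)) (rs s) ∈ α := by
    intro s hs hne
    have hsf := (mem_tnd.1 hs).1
    have hso := (mem_fsw.1 hsf).1
    rw [mem_tnd_ne hsf hne] at hs
    have h2 := (hr _ (hso _ (mn_spec hso hne).1)).2.1 _ hs
    refine ⟨?_, h2⟩
    rw [ap_mkseq hsf]
    refine ext fun z => ?_
    rw [mem_sep]
    exact ⟨fun h => h.2.resolve_left hne, fun h => ⟨hα.1 _ h2 z h, Or.inr h⟩⟩
  refine ⟨hα.succ, fun s hs => ?_, fun s n hs hn hsn hins => ?_⟩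
  · by_cases hne : s = emp
    · rw [hne, h0, mem_succ]
      exact Or.inr rfl
    · rw [(h1 s hs hne).1, mem_succ]
      exact Or.inl (h1 s hs hne).2
  · have e3 := h1 _ hins (ins_ne _ _)
    rw [e3.1]
    by_cases hne : s = emp
    · rw [hne] at e3 ⊢
      rw [h0]
      exact e3.2
    · have hsf := (mem_tnd.1 hs).1
      have hso := (mem_fsw.1 hsf).1
      rw [(h1 s hs hne).1]
      rw [mem_tnd_ne (ins_fsw hsf hn) (ins_ne _ _)] at hins
      have e1 := mn_top hso hne hn hsn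
      rw [e1.1, e1.2] at hins ⊢
      rw [mem_tnd_ne hsf hne] at hs
      exact (hr _ (hso _ (mn_spec hso hne).1)).2.2 _ n hs hn
        (fun i hi => hsn i (mem_rs.1 hi).1) hins

/-- The statement of `FrU.labels`. -/
def Lbd (p U T r θ f t : M) : Prop := Tr T ∧ Rkd T r θ ∧ Fun f fsw omega ∧ Fun t omega fsw ∧
  ∀ B, B ∈ p → sep omega (fun e => ap t e ∈ Br T ∧ ap t e ⊆ B ∧ ap f (ap t e) = e) ∈ U

instance DR.Lbd (p U T r θ f t : (ι → M) → M) [DF p] [DF U] [DF T] [DF r] [DF θ] [DF f] [DF t] :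
    DR (fun v => Lbd (p v) (U v) (T v) (r v) (θ v) (f v) (t v)) := by
  unfold BLI.Lbd; infer_instance

theorem labels_pr {p e : M} (he : e ∈ (omega : M)) :
    ∃ T r θ f t : M, Lbd p (sep (pow omega) (fun X => e ∈ X)) T r θ f t := by
  have h0 : ∀ s : M, s ∈ (fsw : M) → e ∈ (omega : M) := fun _ _ => he
  have h0' : ∀ s : M, s ∈ (omega : M) → (emp : M) ∈ (fsw : M) := fun _ _ => emp_fsw
  refine ⟨sing emp, mkseq (sing emp) (fun _ => emp), succ emp, mkf fsw omega (fun _ => e),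
    mkf omega fsw (fun _ => emp), ⟨fun s hs => ?_, ?_, fun s s' hs h => ?_, ?_⟩,
    ⟨ord_emp.succ, fun s hs => ?_, fun s n _ _ _ h => ?_⟩, mkf_fun h0, mkf_fun h0', fun B _ => ?_⟩
  · rw [mem_sing] at hs; rw [hs]; exact emp_fsw
  · rw [mem_sing]
  · rw [mem_sing] at hs ⊢
    rw [hs] at h
    exact eq_emp fun z hz => not_mem_emp z (h.1 z hz)
  · intro s m n _ _ _ _ _ h
    rw [mem_sing] at h
    exact absurd h (ins_ne _ _)
  · rw [ap_mkseq hs, mem_succ]
    exact Or.inr rfl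
  · rw [mem_sing] at h
    exact absurd h (ins_ne _ _)
  · rw [mem_sep, mem_pow]
    refine ⟨fun k hk => by rw [mem_sep] at hk; exact hk.1, ?_⟩
    rw [mem_sep, ap_mkf h0' he, mem_Br, mem_sing, ap_mkf h0 emp_fsw]
    exact ⟨he, ⟨rfl, fun n _ _ h => by rw [mem_sing] at h; exact ins_ne _ _ h⟩, emp_sub _, rfl⟩

theorem labels_lim (hAC : AC M) {p A V W : M} (hp : Selective p)
    (hA : ∀ n, n ∈ (omega : M) → ap A n ⊆ omega ∧ Uf (ap V n) ∧
      ∃ T r θ f t : M, Lbd p (ap V n) T r θ f t)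
    (hd : ∀ i j, i ∈ (omega : M) → j ∈ (omega : M) → i ≠ j → Disj (ap A i) (ap A j))
    (hAV : sep omega (fun n => ap A n ∈ ap V n) ∈ p)
    (hW : ∀ X, X ⊆ omega → (X ∈ W ↔ sep omega (fun n => X ∈ ap V n) ∈ p)) :
    ∃ T r θ f t : M, Lbd p W T r θ f t := by
  -- choose the trees, maps and labels
  obtain ⟨g, hgf, hg⟩ := ac_rel hAC omega
    (prod (pow fsw) (prod (pow (prod fsw omega)) (pow (prod omega fsw))))
    (fun n y => ∃ r θ : M, Lbd p (ap V n) (fs y) r θ (fs (sn y)) (sn (sn y))) (by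
      intro n hn
      obtain ⟨_, _, T, r, θ, f, t, h⟩ := hA n hn
      refine ⟨opair T (opair f t), ?_, r, θ, ?_⟩
      · rw [opair_mem_prod, opair_mem_prod, mem_pow, mem_pow, mem_pow]
        exact ⟨h.1.1, h.2.2.1.sub_prod, h.2.2.2.1.sub_prod⟩
      · rw [fs_opair, sn_opair, fs_opair, sn_opair]
        exact h)
  obtain ⟨T, hTdef⟩ : ∃ T : M, T = mkseq omega (fun n => fs (ap g n)) := ⟨_, rfl⟩
  obtain ⟨f, hfdef⟩ : ∃ f : M, f = mkseq omega (fun n => fs (sn (ap g n))) := ⟨_, rfl⟩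
  obtain ⟨t, htdef⟩ : ∃ t : M, t = mkseq omega (fun n => sn (sn (ap g n))) := ⟨_, rfl⟩
  have hg' : ∀ n, n ∈ (omega : M) → ∃ r θ : M, Lbd p (ap V n) (ap T n) r θ (ap f n) (ap t n) := by
    intro n hn
    rw [hTdef, hfdef, htdef, ap_mkseq hn, ap_mkseq hn, ap_mkseq hn]
    exact hg n hn
  -- the ranks
  obtain ⟨α, hα, hα'⟩ := exists_ord_gt
    (img omega (fun n => leastO (fun θ => ∃ r, Rkd (ap T n) r θ)))
  have hth : ∀ n, n ∈ (omega : M) → ∃ r θ : M, Rkd (ap T n) r θ ∧ θ ∈ α := by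
    intro n hn
    obtain ⟨r, θ, h⟩ := hg' n hn
    have h1 := leastO_spec (fun θ => ∃ r, Rkd (ap T n) r θ) ⟨θ, h.2.1.1, r, h.2.1⟩
    obtain ⟨h2, ⟨r', h3⟩, _⟩ := h1
    exact ⟨r', _, h3, hα' _ ((mem_img _ _ _).2 ⟨n, hn, rfl⟩) h2⟩
  obtain ⟨r, hrf, hr⟩ := ac_rel hAC omega (pow (prod fsw α))
    (fun n r => Rkd (ap T n) r α) (by
      intro n hn
      obtain ⟨r, θ, h, hθ⟩ := hth n hn
      obtain ⟨r0, θ0, h0⟩ := hg' n hn
      have hm : ∀ s, s ∈ ap T n → ap r s ∈ α := fun s hs => hα.1 θ hθ _ (h.2.1 s hs)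
      refine ⟨mkf (ap T n) α (fun s => ap r s), ?_, hα, fun s hs => ?_, fun s m hs hm' ha hi => ?_⟩
      · rw [mem_pow]
        refine sub_trans (mkf_fun hm).sub_prod fun z hz => ?_
        obtain ⟨a, ha, b, hb, rfl⟩ := (mem_prod _ _ _).1 hz
        rw [opair_mem_prod]
        exact ⟨h0.1.1 a ha, hb⟩
      · rw [ap_mkf hm hs]
        exact hm s hs
      · rw [ap_mkf hm hs, ap_mkf hm hi]
        exact h.2.2 s m hs hm' ha hi)
  have hTt : ∀ n, n ∈ (omega : M) → Tr (ap T n) := fun n hn => by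
    obtain ⟨r0, θ0, h0⟩ := hg' n hn
    exact h0.1
  have hff : ∀ n, n ∈ (omega : M) → Fun (ap f n) fsw omega := fun n hn => by
    obtain ⟨r0, θ0, h0⟩ := hg' n hn
    exact h0.2.2.1
  have htf : ∀ n, n ∈ (omega : M) → Fun (ap t n) omega fsw := fun n hn => by
    obtain ⟨r0, θ0, h0⟩ := hg' n hn
    exact h0.2.2.2.1
  -- the map
  have hF0 : ∀ s, s ∈ (fsw : M) →
      sep omega (fun z => s ≠ emp ∧ z ∈ ap (ap f (mn s)) (rs s)) ∈ (omega : M) ∧
      (s ≠ emp → sep omega (fun z => s ≠ emp ∧ z ∈ ap (ap f (mn s)) (rs s)) =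
        ap (ap f (mn s)) (rs s)) := by
    intro s hs
    by_cases hne : s = emp
    · have e : sep omega (fun z => s ≠ emp ∧ z ∈ ap (ap f (mn s)) (rs s)) = (emp : M) :=
        eq_emp fun z hz => by
          rw [mem_sep] at hz
          exact hz.2.1 hne
      rw [e]
      exact ⟨emp_mem_omega, fun h => absurd hne h⟩
    · have hso := (mem_fsw.1 hs).1
      have h1 := (hff _ (hso _ (mn_spec hso hne).1)).ap_mem (rs_fsw hs)
      have e : sep omega (fun z => s ≠ emp ∧ z ∈ ap (ap f (mn s)) (rs s)) =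
          ap (ap f (mn s)) (rs s) := ext fun z => by
        rw [mem_sep]
        exact ⟨fun h => h.2.2, fun h => ⟨omega_sub h1 z h, hne, h⟩⟩
      rw [e]
      exact ⟨h1, fun _ => rfl⟩
  -- the labels
  have hT0 : ∀ e, e ∈ (omega : M) → ∀ n, n ∈ (omega : M) → e ∈ ap A n →
      sep omega (fun i => ∃ n, n ∈ (omega : M) ∧ e ∈ ap A n ∧ (i ∈ ap (ap t n) e ∨ i = n)) =
        ins (ap (ap t n) e) n := by
    intro e he n hn hen
    refine ext fun i => ?_
    rw [mem_sep, mem_ins]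
    constructor
    · rintro ⟨_, m, hm, hem, h⟩
      have e1 : m = n := by
        by_contra hne
        exact hd m n hm hn hne e hem hen
      rw [e1] at h
      exact h
    · intro h
      refine ⟨?_, n, hn, hen, h⟩
      rcases h with h | h
      · exact (mem_fsw.1 ((htf n hn).ap_mem he)).1 i h
      · rw [h]; exact hn
  have hT1 : ∀ e, e ∈ (omega : M) →
      sep omega (fun i => ∃ n, n ∈ (omega : M) ∧ e ∈ ap A n ∧ (i ∈ ap (ap t n) e ∨ i = n)) ∈
        (fsw : M) := by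
    intro e he
    by_cases h : ∃ n, n ∈ (omega : M) ∧ e ∈ ap A n
    · obtain ⟨n, hn, hen⟩ := h
      rw [hT0 e he n hn hen]
      exact ins_fsw ((htf n hn).ap_mem he) hn
    · have e1 : sep omega (fun i => ∃ n, n ∈ (omega : M) ∧ e ∈ ap A n ∧
          (i ∈ ap (ap t n) e ∨ i = n)) = (emp : M) := eq_emp fun z hz => by
        rw [mem_sep] at hz
        obtain ⟨_, n, hn, hen, _⟩ := hz
        exact h ⟨n, hn, hen⟩
      rw [e1]
      exact emp_fsw
  refine ⟨tnd T, mkseq fsw (fun s => sep α (fun z => s = emp ∨ z ∈ ap (ap r (mn s)) (rs s))),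
    succ α, mkf fsw omega (fun s => sep omega (fun z => s ≠ emp ∧ z ∈ ap (ap f (mn s)) (rs s))),
    mkf omega fsw (fun e => sep omega (fun i => ∃ n, n ∈ (omega : M) ∧ e ∈ ap A n ∧
      (i ∈ ap (ap t n) e ∨ i = n))), tr_tnd hTt, rkd_tnd hα hTt hr,
    mkf_fun fun s hs => (hF0 s hs).1, mkf_fun hT1, fun B hB => ?_⟩
  rw [hW _ (fun k hk => by rw [mem_sep] at hk; exact hk.1)]
  have hBo := UF.sub hp.1 hB
  have hBs : sep omega (fun n => n ∈ B) ∈ p := (UF.self hBo).2 hB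
  refine hp.1.sep_inter hAV hBs fun n hn hAn hnB => ?_
  obtain ⟨r0, θ0, h0⟩ := hg' n hn
  have h1 := h0.2.2.2.2 (itr B (sep omega (fun i => n ∈ i))) (UF.itr hp.1 hB (Sel.gt hp hn))
  have hVn := (hA n hn).2.1
  refine hVn.up (UF.itr hVn hAn h1) (fun e he => ?_) (fun k hk => by rw [mem_sep] at hk; exact hk.1)
  rw [mem_itr, mem_sep] at he
  obtain ⟨heA, heo, h2, h3, h4⟩ := he
  have hte := (htf n hn).ap_mem heo
  have hteo := (mem_fsw.1 hte).1
  have hab : ∀ i, i ∈ ap (ap t n) e → n ∈ i := fun i hi => by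
    have := h3 i hi
    rw [mem_itr, mem_sep] at this
    exact this.2.2
  have hmi := mn_ins hn hteo hab
  have htv : ap (mkf omega fsw (fun e => sep omega (fun i => ∃ n, n ∈ (omega : M) ∧ e ∈ ap A n ∧
      (i ∈ ap (ap t n) e ∨ i = n)))) e = ins (ap (ap t n) e) n := by
    rw [ap_mkf hT1 heo, hT0 e heo n hn heA]
  rw [mem_sep, htv]
  have hif : ins (ap (ap t n) e) n ∈ (fsw : M) := ins_fsw hte hn
  refine ⟨heo, ?_, ?_, ?_⟩
  · rw [mem_Br] at h2 ⊢
    refine ⟨?_, fun m hm ham hc => ?_⟩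
    · rw [mem_tnd_ne hif (ins_ne _ _), hmi.1, hmi.2]
      exact h2.1
    · rw [mem_tnd_ne (ins_fsw hif hm) (ins_ne _ _)] at hc
      have h5 := mn_top (mem_fsw.1 hif).1 (ins_ne _ _) hm ham
      rw [h5.1, h5.2, hmi.1, hmi.2] at hc
      exact h2.2 m hm (fun i hi => ham i (by rw [mem_ins]; exact Or.inl hi)) hc
  · intro i hi
    rw [mem_ins] at hi
    rcases hi with hi | rfl
    · exact (mem_itr.1 (h3 i hi)).1
    · exact hnB
  · rw [ap_mkf (fun s hs => (hF0 s hs).1) hif, (hF0 _ hif).2 (ins_ne _ _), hmi.1, hmi.2]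
    exact h4

/-- Every ultrafilter in `FrU` is the image of a well-founded tree of finite sets: `T` is the tree,
`f` the map on its branches, `t(e)` the branch with value `e`. -/
theorem FrU.labels (hAC : AC M) {p U : M} (hp : Selective p) (h : FrU p U) :
    ∃ T r θ f t : M, Tr T ∧ Rkd T r θ ∧ Fun f fsw omega ∧ Fun t omega fsw ∧ ∀ B, B ∈ p →
      sep omega (fun e => ap t e ∈ Br T ∧ ap t e ⊆ B ∧ ap f (ap t e) = e) ∈ U := by
  have key := h (sep Ufs (fun U => ∃ T r θ f t : M, Lbd p U T r θ f t)) (by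
    constructor
    · intro e he
      rw [mem_sep]
      exact ⟨mem_Ufs.2 (uf_pr he), labels_pr he⟩
    · intro A V W hW hA hd hAV hlim
      rw [mem_sep]
      refine ⟨mem_Ufs.2 hW, labels_lim hAC hp (fun n hn => ?_) hd hAV hlim⟩
      have h1 := (hA n hn).2
      rw [mem_sep] at h1
      exact ⟨(hA n hn).1, mem_Ufs.1 h1.1, h1.2⟩)
  rw [mem_sep] at key
  exact key.2

end Pool.Agent.ZFIter.NPA.BLI
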