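import Pool.Agent.BLI.Sub

/-!
# BLI/GGm: facts on the forcings `GG S` and `MP p` (inside a model of ZF)
-/

universe u

namespace Pool.Agent.ZFIter.NPA.BLI

open Pool.Agent.H78.ZF Pool.Agent.ZFIter Pool.Agent.ZFIter.NPA Pool.Agent.ZFIter.NPA.BSM

variable {M : Type u} [ZFM M] {ι : Type}

theorem IdealS.sub {S : M} (h : IdealS S) {A : M} (hA : A ∈ S) : A ⊆ omega :=
  (mem_pow _ _).1 (h.1 A hA)

theorem IdealS.down {S : M} (h : IdealS S) {A B : M} (hB : B ∈ S) (hAB : A ⊆ B) : A ∈ S :=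
  h.2.1 A B hB hAB

theorem IdealS.union {S : M} (h : IdealS S) {A B : M} (hA : A ∈ S) (hB : B ∈ S) : un A B ∈ S :=
  h.2.2.1 A B hA hB

theorem IdealS.sing {S : M} (h : IdealS S) {n : M} (hn : n ∈ (omega : M)) : H78.ZF.sing n ∈ S :=
  h.2.2.2 n hn

theorem IdealS.emp {S : M} (h : IdealS S) : H78.ZF.emp ∈ S :=
  h.down (h.sing emp_mem_omega) (emp_sub _)

theorem IdealS.fin {S : M} (h : IdealS S) {s : M} (hs : s ∈ (fsw : M)) : s ∈ S := by
  rw [mem_fsw] at hs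
  refine fin_induction_max (fun s => s ∈ S) h.emp ?_ s hs.2 hs.1
  intro s a _ _ ha _ ih
  exact h.union ih (h.sing ha)

theorem Nt_gname {S n x : M} :
    Nt (GG S) (gname S) n x ↔ n ∈ (omega : M) ∧ x ∈ fs (GG S) ∧ n ∈ sn x := by
  unfold gname
  constructor
  · rintro ⟨k, h1, h2⟩
    rw [mem_sep, opair_mem_prod, fs_opair, sn_opair] at h2
    refine ⟨h2.1.1, h1.1, ?_⟩
    rw [LE_GG] at h1
    obtain ⟨Z, E, rfl, hZ, _, hE⟩ := mem_GG.1 h1.2.1
    rw [fs_opair, sn_opair] at h1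
    rw [sn_opair] at h2
    exact (h1.2.2.2 n (hE n h2.2)).2 h2.2
  · rintro ⟨h1, h2, h3⟩
    exact ⟨x, (po_GG S).refl h2, by
      rw [mem_sep, opair_mem_prod, fs_opair, sn_opair]; exact ⟨⟨h1, h2⟩, h3⟩⟩

theorem Nt_mname {p n x : M} :
    Nt (MP p) (mname p) n x ↔ n ∈ (omega : M) ∧ x ∈ fs (MP p) ∧ n ∈ fs x := by
  unfold mname
  constructor
  · rintro ⟨k, h1, h2⟩
    rw [mem_sep, opair_mem_prod, fs_opair, sn_opair] at h2
    refine ⟨h2.1.1, h1.1, ?_⟩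
    rw [LE_MP] at h1
    exact h1.2.2.1 n h2.2
  · rintro ⟨h1, h2, h3⟩
    exact ⟨x, (po_MP p).refl h2, by
      rw [mem_sep, opair_mem_prod, fs_opair, sn_opair]; exact ⟨⟨h1, h2⟩, h3⟩⟩

/-! ### The forcing `GG S` -/

theorem GG_fs {S x : M} (hx : x ∈ fs (GG S)) : fs x ∈ S ∧ sn x ⊆ omega ∧ sn x ⊆ fs x ∧
    x = opair (fs x) (sn x) := by
  obtain ⟨Z, E, rfl, hZ, h1, hE⟩ := mem_GG.1 hx
  rw [fs_opair, sn_opair]
  exact ⟨hZ, h1, hE, rfl⟩

theorem opair_GG_of {S Z E : M} (hS : IdealS S) (hZ : Z ∈ S) (hE : E ⊆ Z) :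
    opair Z E ∈ fs (GG S) := opair_GG.2 ⟨hZ, sub_trans hE (hS.sub hZ), hE⟩

theorem GG_top {S : M} (hS : IdealS S) : opair emp emp ∈ fs (GG S) :=
  opair_GG_of hS hS.emp (sub_refl _)

theorem gg_drop {S x Z : M} (hS : IdealS S) (hx : x ∈ fs (GG S)) (hZ : Z ∈ S) :
    LE (GG S) (opair (un (fs x) Z) (sn x)) x := by
  obtain ⟨h1, h2, h3, _⟩ := GG_fs hx
  rw [LE_GG, fs_opair, sn_opair]
  exact ⟨opair_GG_of hS (hS.union h1 hZ) (sub_trans h3 (sub_un_left _ _)), hx, sub_un_left _ _,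
    fun _ _ => Iff.rfl⟩

/-- The flip of a condition. -/
noncomputable def flf (S : M) : M :=
  mkf (fs (GG S)) (fs (GG S)) (fun x => opair (fs x) (dif (fs x) (sn x)))

instance DF.flf (S : (ι → M) → M) [DF S] : DF (fun v => flf (S v)) := by
  unfold BLI.flf; infer_instance

section
variable {S : M} (hS : IdealS S)
include hS

theorem flf_val {x : M} (hx : x ∈ fs (GG S)) :
    opair (fs x) (dif (fs x) (sn x)) ∈ fs (GG S) :=
  opair_GG_of hS (GG_fs hx).1 fun _ hk => (mem_dif.1 hk).1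

theorem ap_flf {x : M} (hx : x ∈ fs (GG S)) :
    ap (flf S) x = opair (fs x) (dif (fs x) (sn x)) := ap_mkf (fun _ h => flf_val hS h) hx

theorem hom_flf : Hom (GG S) (GG S) (flf S) := by
  refine ⟨mkf_fun fun _ h => flf_val hS h, fun x y h => ?_⟩
  rw [ap_flf hS h.1, ap_flf hS h.2.1]
  have h0 := h
  rw [LE_GG] at h ⊢
  rw [fs_opair, sn_opair, fs_opair, sn_opair]
  refine ⟨flf_val hS h.1, flf_val hS h.2.1, h.2.2.1, fun e he => ?_⟩
  rw [mem_dif, mem_dif]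
  have h1 := h.2.2.2 e he
  have h2 := h.2.2.1 e he
  tauto

theorem flf_flf {x : M} (hx : x ∈ fs (GG S)) : ap (flf S) (ap (flf S) x) = x := by
  rw [ap_flf hS hx, ap_flf hS (flf_val hS hx), fs_opair, sn_opair]
  obtain ⟨h1, h2, h3, h4⟩ := GG_fs hx
  conv_rhs => rw [h4]
  congr 1
  refine ext fun z => ?_
  rw [mem_dif, mem_dif]
  constructor
  · rintro ⟨h5, h6⟩
    by_contra h7
    exact h6 ⟨h5, h7⟩
  · intro h5
    exact ⟨h3 z h5, fun h6 => h6.2 h5⟩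

theorem isProj_flf : IsProj (GG S) (GG S) (flf S) := by
  refine ⟨hom_flf hS, fun q hq x hx => ⟨ap (flf S) x, ?_, flf_flf hS hx.1⟩⟩
  have h1 := (hom_flf hS).le hx
  rwa [flf_flf hS hq] at h1

theorem isGen_flf : IsGen (GG S) (GG S) (flf S) := (isProj_flf hS).isGen

variable {P f : M} (hP : Po P) (hf : IsGen P (GG S) f)
include hP hf

theorem gname_flip_iff {n h : M} (hh : h ∈ fs P) :
    Nt P (pull P (GG S) (cpf P (GG S) (flf S) f) (gname S)) n h ↔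
      n ∈ (omega : M) ∧ n ∈ fs (ap f h) ∧ n ∉ sn (ap f h) := by
  rw [Nt_pull hP (po_GG S) ((hom_flf hS).comp hf.1), Nt_gname, ap_cpf (hom_flf hS) hf.1 hh,
    ap_flf hS (hf.1.mem hh), sn_opair, mem_dif]
  constructor
  · rintro ⟨h1, _, _, _, h2⟩; exact ⟨h1, h2⟩
  · rintro ⟨h1, h2⟩; exact ⟨h1, hh, h1, flf_val hS (hf.1.mem hh), h2⟩

omit hS in
theorem gname_pull_iff {n h : M} (hh : h ∈ fs P) :
    Nt P (pull P (GG S) f (gname S)) n h ↔ n ∈ (omega : M) ∧ n ∈ sn (ap f h) := by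
  rw [Nt_pull hP (po_GG S) hf.1, Nt_gname]
  constructor
  · rintro ⟨h1, _, _, _, h2⟩; exact ⟨h1, h2⟩
  · rintro ⟨h1, h2⟩; exact ⟨h1, hh, h1, hf.1.mem hh, h2⟩

/-- The value at `n` can be decided. -/
theorem gname_dense {n h : M} (hn : n ∈ (omega : M)) (hh : h ∈ fs P) :
    ∃ h', LE P h' h ∧ n ∈ fs (ap f h') := by
  refine hf.meet (po_GG S) (fun x => n ∈ fs x) (fun x y hxy hy => ?_) (fun x hx => ?_) hh
  · rw [LE_GG] at hxy
    exact hxy.2.2.1 n hy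
  · refine ⟨_, gg_drop hS hx (hS.sing hn), ?_⟩
    rw [fs_opair, mem_un, mem_sing]
    exact Or.inr rfl

theorem cmp_gname_sub (h : M) :
    FSub P (cmp P (pull P (GG S) f (gname S)))
      (pull P (GG S) (cpf P (GG S) (flf S) f) (gname S)) h := by
  refine FSub.of_dense hP fun n hn k _ hk => ?_
  rw [Nt_cmp hP] at hk
  obtain ⟨k', hk', h1⟩ := gname_dense hS hP hf hn hk.2.1
  refine ⟨k', hk', (gname_flip_iff hS hP hf hk'.1).2 ⟨hn, h1, fun h2 => ?_⟩⟩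
  exact hk.2.2 k' hk' ((gname_pull_iff hP hf hk'.1).2 ⟨hn, h2⟩)

/-- A condition which puts `n` into the generic set forces it out of the flipped generic set. -/
theorem gname_flip_not {n h : M} (h1 : Nt P (pull P (GG S) f (gname S)) n h) :
    Nc P (pull P (GG S) (cpf P (GG S) (flf S) f) (gname S)) n h := by
  intro h' hh' h2
  have h3 := (gname_flip_iff hS hP hf hh'.1).1 h2
  exact h3.2.2 ((gname_pull_iff hP hf hh'.1).1 (h1.down hP hh')).2

theorem gname_of_flip_nc {n h : M} (hn : n ∈ (omega : M))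
    (h1 : Nc P (pull P (GG S) (cpf P (GG S) (flf S) f) (gname S)) n h) :
    Fc P (pull P (GG S) f (gname S)) n h := by
  intro k hk
  obtain ⟨k', hk', h2⟩ := gname_dense hS hP hf hn hk.1
  refine ⟨k', hk', (gname_pull_iff hP hf hk'.1).2 ⟨hn, ?_⟩⟩
  by_contra h3
  exact h1 k' (hP.trans hk' hk) ((gname_flip_iff hS hP hf hk'.1).2 ⟨hn, h2, h3⟩)

end

/-! ### The forcing `MP p` -/

theorem MP_fs {p x : M} (hx : x ∈ fs (MP p)) : fs x ∈ (fsw : M) ∧ sn x ∈ p ∧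
    (∀ i, i ∈ fs x → ∀ j, j ∈ sn x → i ∈ j) ∧ x = opair (fs x) (sn x) := by
  obtain ⟨s, a, rfl, h1, h2, h3, h4⟩ := mem_MP.1 hx
  rw [fs_opair, sn_opair]
  exact ⟨mem_fsw.2 ⟨h1, h3⟩, h2, h4, rfl⟩

theorem opair_MP_of {p s a : M} (hs : s ∈ (fsw : M)) (ha : a ∈ p)
    (h : ∀ i, i ∈ s → ∀ j, j ∈ a → i ∈ j) : opair s a ∈ fs (MP p) := by
  rw [mem_fsw] at hs
  exact opair_MP.2 ⟨hs.1, ha, hs.2, h⟩

theorem MP_top {p : M} (hp : Uf p) : opair emp omega ∈ fs (MP p) :=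
  opair_MP_of emp_fsw hp.2.1 fun i hi => absurd hi (not_mem_emp i)

/-- Shrink the reservoir. -/
theorem mp_shrink {p x b : M} (hx : x ∈ fs (MP p)) (hb : b ∈ p) (hbx : b ⊆ sn x) :
    LE (MP p) (opair (fs x) b) x := by
  obtain ⟨h1, h2, h3, _⟩ := MP_fs hx
  rw [LE_MP, fs_opair, sn_opair]
  exact ⟨opair_MP_of h1 hb fun i hi j hj => h3 i hi j (hbx j hj), hx, sub_refl _,
    fun _ h h' => absurd h h', hbx⟩

/-- Add an element of the reservoir to the stem. -/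
theorem mp_add {p x n : M} (hp : Selective p) (hx : x ∈ fs (MP p)) (hn : n ∈ sn x) :
    LE (MP p) (opair (ins (fs x) n) (sep (sn x) (fun j => n ∈ j))) x := by
  obtain ⟨h1, h2, h3, _⟩ := MP_fs hx
  have hno := UF.sub hp.1 h2 n hn
  rw [LE_MP, fs_opair, sn_opair]
  refine ⟨opair_MP_of (ins_fsw h1 hno) (UF.itr_sep hp.1 h2 (Sel.gt hp hno)) ?_, hx, ?_, ?_, ?_⟩
  · intro i hi j hj
    rw [mem_ins] at hi
    rw [mem_sep] at hj
    rcases hi with hi | rfl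
    · exact h3 i hi j hj.1
    · exact hj.2
  · intro i hi
    rw [mem_ins]; exact Or.inl hi
  · intro i hi hi'
    rw [mem_ins] at hi
    rcases hi with hi | rfl
    · exact absurd hi hi'
    · exact hn
  · intro j hj
    rw [mem_sep] at hj
    exact hj.1

theorem yy_mname {p x : M} (hp : Selective p) (hx : x ∈ fs (MP p)) : Yy (MP p) p (mname p) x := by
  refine ⟨hx, fun N hN x' hx' => ?_, fun a ha x' hx' => ?_⟩
  · obtain ⟨h1, h2, h3, _⟩ := MP_fs hx'.1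
    obtain ⟨n, hn, hNn⟩ := Sel.exists_gt hp h2 hN
    have hno := UF.sub hp.1 h2 n hn
    have h4 := mp_add hp hx'.1 hn
    refine ⟨n, hno, omega_trans hno N hNn, _, h4, Nt_mname.2 ⟨hno, h4.1, ?_⟩⟩
    rw [fs_opair, mem_ins]
    exact Or.inr rfl
  · obtain ⟨h1, h2, h3, _⟩ := MP_fs hx'.1
    have h4 := mp_shrink hx'.1 (UF.itr hp.1 h2 ha) fun k hk => (mem_itr.1 hk).1
    obtain ⟨b, hb, h5⟩ := fin_bdd (mem_fsw.1 h1).2 (mem_fsw.1 h1).1
    refine ⟨_, h4, b, hb, fun n hn hbn hna y hy h6 => ?_⟩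
    rw [Nt_mname] at h6
    rw [LE_MP, fs_opair, sn_opair] at hy
    by_cases h7 : n ∈ fs x'
    · exact not_mem_self n (hbn n (h5 n h7))
    · exact hna (mem_itr.1 (hy.2.2.2.1 n h6.2.2 h7)).2

/-- The sets which are not in `p`. -/
noncomputable def duS (p : M) : M := sep (pow omega) (fun Z => Z ∉ p)

instance DF.duS (p : (ι → M) → M) [DF p] : DF (fun v => duS (p v)) := by
  unfold BLI.duS; infer_instance

theorem mem_duS {p Z : M} : Z ∈ duS p ↔ Z ⊆ omega ∧ Z ∉ p := by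
  unfold duS; rw [mem_sep, mem_pow]

theorem idealS_duS {p : M} (hp : Uf p) (hn : Nonpr p) : IdealS (duS p) := by
  refine ⟨fun Z hZ => (mem_pow _ _).2 (mem_duS.1 hZ).1, fun A B hB hAB => ?_, fun A B hA hB => ?_,
    fun n hn' => ?_⟩
  · rw [mem_duS] at hB ⊢
    exact ⟨sub_trans hAB hB.1, fun h => hB.2 (hp.up h hAB hB.1)⟩
  · rw [mem_duS] at hA hB ⊢
    have hs : un A B ⊆ omega := fun k hk => by
      rw [mem_un] at hk
      rcases hk with hk | hk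
      · exact hA.1 k hk
      · exact hB.1 k hk
    refine ⟨hs, fun h => ?_⟩
    have h1 := UF.itr hp (UF.compl hp hA.1 hA.2) (UF.compl hp hB.1 hB.2)
    refine UF.not_disj hp h h1 fun k hk hk' => ?_
    rw [mem_itr, mem_dif, mem_dif] at hk'
    rw [mem_un] at hk
    rcases hk with hk | hk
    · exact hk'.1.2 hk
    · exact hk'.2.2 hk
  · rw [mem_duS]
    refine ⟨fun k hk => ?_, hn n hn'⟩
    rw [mem_sing] at hk
    rw [hk]; exact hn'

theorem dfam_dec {p S P s z h : M} (hp : Uf p) (hS : IdealS S) (hP : Po P)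
    (hs : IsProj P (GG S) s) (hz : Yy P p z h) : DFam p S (Dec P s z h) := by
  have hsh := hs.1.mem hz.1
  refine ⟨fun n hn A hA => ?_, fun Z hZ => ?_⟩
  · obtain ⟨h', hh', _, rfl⟩ := (mem_Dec hn).1 hA
    obtain ⟨h1, _, h3, _⟩ := GG_fs (hs.1.mem hh'.1)
    exact hS.down h1 fun k hk => h3 k (mem_dif.1 hk).1
  · obtain ⟨h₁, hh₁, e⟩ := hs.2 h hz.1 _ (gg_drop hS hsh hZ)
    have h1 := xmem hP hp (hz.down hP hh₁)
    refine hp.sep_up h1 fun n hn ⟨h', hh', h2⟩ => ?_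
    refine ⟨dif (sn (ap s h')) (fs (ap s h)), (mem_Dec hn).2 ⟨h', hP.trans hh' hh₁, h2, rfl⟩, ?_⟩
    intro k hk hkZ
    rw [mem_dif] at hk
    have h3 := hs.1.le hh'
    rw [e, LE_GG, fs_opair, sn_opair] at h3
    have h4 := (h3.2.2.2 k (by rw [mem_un]; exact Or.inr hkZ)).1 hk.1
    exact hk.2 ((GG_fs hsh).2.2.1 k h4)

end Pool.Agent.ZFIter.NPA.BLI
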