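import Pool.Agent.BLI.UDefs

/-!
# BLI/GpT: the ultrafilter of a well-founded tree is in `G^p` (for the model `N` of Theorem A)

For a node `s` of the tree let `Us s` be the set of the `A` such that `f` maps all branches through `s`
whose new elements are in a certain set of `p` into `A`. By induction from the leaves `Us s` is in
`G^p`: it is principal for branches, and the `p`-limit of the `Us (ins s n)` for the other nodes.
-/

universe u

namespace Pool.Agent.ZFIter.NPA.BLI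

open Pool.Agent.H78.ZF Pool.Agent.ZFIter Pool.Agent.ZFIter.NPA Pool.Agent.ZFIter.NPA.BSM

variable {M : Type u} [ZFM M] {ι : Type}

/-- The ultrafilter of the node `s`. -/
noncomputable def UsT (p T f s : M) : M := sep (pow omega) (fun A => ∃ z, z ∈ p ∧
  ∀ s', s' ∈ Br T → Ini s s' → (∀ i, i ∈ s' → i ∉ s → i ∈ z) → ap f s' ∈ A)

instance DF.UsT (p T f s : (ι → M) → M) [DF p] [DF T] [DF f] [DF s] :
    DF (fun v => UsT (p v) (T v) (f v) (s v)) := by
  unfold BLI.UsT; infer_instance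

theorem mem_UsT {p T f s A : M} : A ∈ UsT p T f s ↔ A ⊆ omega ∧ ∃ z, z ∈ p ∧
    ∀ s', s' ∈ Br T → Ini s s' → (∀ i, i ∈ s' → i ∉ s → i ∈ z) → ap f s' ∈ A := by
  unfold UsT; rw [mem_sep, mem_pow]

/-- A proper extension of a finite set has a least new element. -/
theorem exists_next {s s' : M} (hs' : s' ∈ (fsw : M)) (hi : Ini s s') (hne : s ≠ s') :
    ∃ n, n ∈ s' ∧ n ∉ s ∧ (∀ i, i ∈ s → i ∈ n) ∧ Ini (ins s n) s' ∧
      ∀ i, i ∈ s' → i ∉ ins s n → n ∈ i := by
  have hso := (mem_fsw.1 hs').1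
  have hex : ∃ i, i ∈ s' ∧ i ∉ s := by
    by_contra hc
    push Not at hc
    exact hne (sub_antisymm hi.1 hc)
  obtain ⟨i0, hi0, hi0'⟩ := hex
  obtain ⟨n, hn, ⟨hn1, hn2⟩, hmin⟩ := exists_least (fun n => n ∈ s' ∧ n ∉ s)
    ⟨i0, hso i0 hi0, hi0, hi0'⟩
  have key : ∀ i, i ∈ s' → i ∉ ins s n → n ∈ i := by
    intro i hi1 hi2
    rw [mem_ins, not_or] at hi2
    rcases trichotomy hn (hso i hi1) with h | h | h
    · exact h
    · exact absurd h.symm hi2.2
    · exact absurd ⟨hi1, hi2.1⟩ (hmin i h)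
  refine ⟨n, hn1, hn2, fun i hi' => hi.2 n hn1 hn2 i hi', ⟨fun i hi' => ?_, fun i hi1 hi2 j hj => ?_⟩,
    key⟩
  · rw [mem_ins] at hi'
    rcases hi' with h | rfl
    · exact hi.1 i h
    · exact hn1
  · rw [mem_ins] at hj
    rcases hj with h | rfl
    · exact hi.2 i hi1 (fun hc => hi2 (by rw [mem_ins]; exact Or.inl hc)) j h
    · exact key i hi1 hi2

theorem ini_of_ins {s s' n : M} (hn : ∀ i, i ∈ s → i ∈ n) (hi : Ini (ins s n) s') : Ini s s' := by
  refine ⟨fun i h => hi.1 i (by rw [mem_ins]; exact Or.inl h), fun i h1 h2 j hj => ?_⟩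
  by_cases h : i = n
  · rw [h]; exact hn j hj
  · exact hi.2 i h1 (by rw [mem_ins]; rintro (h3 | h3); exacts [h2 h3, h h3]) j
      (by rw [mem_ins]; exact Or.inl hj)

theorem UsT_leaf {p T f s : M} (hp : Selective p) (hT : Tr T) (hs : s ∈ Br T)
    (hf : ap f s ∈ (omega : M)) {F : M} (hF : Closed F) (hpF : p ∈ F) : UsT p T f s ∈ F := by
  have hc : ∀ n : M, n ∈ (omega : M) → ap f s ∈ (omega : M) := fun _ _ => hf
  have e : UsT p T f s = rkImg (mkf omega omega (fun _ => ap f s)) p := by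
    refine ext fun A => ?_
    rw [mem_UsT, mem_rkImg]
    constructor
    · rintro ⟨hA, z, hz, h⟩
      refine ⟨hA, UF.sep_univ hp.1 fun k hk => ?_⟩
      rw [ap_mkf hc hk]
      exact h s hs ⟨sub_refl _, fun i h1 h2 => absurd h1 h2⟩ fun i h1 h2 => absurd h1 h2
    · rintro ⟨hA, h⟩
      refine ⟨hA, omega, hp.1.2.1, fun s' hs' hi _ => ?_⟩
      obtain ⟨k, hk, h1⟩ := UF.sep_ex hp.1 h
      rw [ap_mkf hc hk] at h1
      have e1 : s = s' := by
        by_contra hne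
        rw [mem_Br] at hs hs'
        obtain ⟨n, hn1, hn2, hn3, hn4, _⟩ := exists_next (hT.1 _ hs'.1) hi hne
        exact hs.2 n ((mem_fsw.1 (hT.1 _ hs'.1)).1 n hn1) hn3 (hT.2.2.1 _ _ hs'.1 hn4)
      rw [← e1]
      exact h1
  rw [e]
  exact hF.2.1 p _ hpF (mem_RS.2 (mkf_fun hc))

theorem UsT_node (hAC : AC M) {p T f s : M} (hp : Selective p) (hT : Tr T) (hs : s ∈ T)
    (hsb : s ∉ Br T) {F : M} (hF : Closed F) (hpF : p ∈ F)
    (ih : ∀ n, n ∈ (omega : M) → (∀ i, i ∈ s → i ∈ n) → UsT p T f (ins s n) ∈ F) :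
    UsT p T f s ∈ F := by
  have hsf := hT.1 s hs
  obtain ⟨q, hq⟩ : ∃ q : M, q = mkseq omega (fun n => sep (pow omega) (fun A =>
    ((∀ i, i ∈ s → i ∈ n) ∧ A ∈ UsT p T f (ins s n)) ∨ (¬ (∀ i, i ∈ s → i ∈ n) ∧ A ∈ p))) :=
    ⟨_, rfl⟩
  have hq1 : ∀ n, n ∈ (omega : M) → (∀ i, i ∈ s → i ∈ n) → ap q n = UsT p T f (ins s n) := by
    intro n hn ha
    rw [hq, ap_mkseq hn]
    refine ext fun A => ?_
    rw [mem_sep, mem_pow]
    constructor
    · rintro ⟨_, h | h⟩
      · exact h.2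
      · exact absurd ha h.1
    · intro h
      exact ⟨(mem_UsT.1 h).1, Or.inl ⟨ha, h⟩⟩
  have hq2 : ∀ n, n ∈ (omega : M) → ¬ (∀ i, i ∈ s → i ∈ n) → ap q n = p := by
    intro n hn ha
    rw [hq, ap_mkseq hn]
    refine ext fun A => ?_
    rw [mem_sep, mem_pow]
    constructor
    · rintro ⟨_, h | h⟩
      · exact absurd h.1 ha
      · exact h.2
    · intro h
      exact ⟨UF.sub hp.1 h, Or.inr ⟨ha, h⟩⟩
  have hqF : ulim p q ∈ F := by
    refine hF.2.2 p q hpF (by rw [hq]; exact isSeq_mkseq) fun n hn => ?_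
    by_cases ha : ∀ i, i ∈ s → i ∈ n
    · rw [hq1 n hn ha]
      exact ih n hn ha
    · rw [hq2 n hn ha]
      exact hpF
  have e : UsT p T f s = ulim p q := by
    refine ext fun A => ?_
    rw [mem_ulim]
    constructor
    · intro hA
      rw [mem_UsT] at hA
      obtain ⟨hAo, z, hz, h⟩ := hA
      refine ⟨hAo, UF.of_mem hp.1 (Sel.above hp hsf hz) fun n hn => ?_⟩
      rw [mem_sep] at hn
      have hno := UF.sub hp.1 hz n hn.1
      rw [hq1 n hno hn.2, mem_UsT]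
      refine ⟨hAo, z, hz, fun s' hs' hi hnew => h s' hs' (ini_of_ins hn.2 hi) fun i h1 h2 => ?_⟩
      by_cases hin : i = n
      · rw [hin]; exact hn.1
      · exact hnew i h1 (by rw [mem_ins]; rintro (h3 | h3); exacts [h2 h3, hin h3])
    · rintro ⟨hAo, hA⟩
      have hY : sep omega (fun n => (∀ i, i ∈ s → i ∈ n) ∧ A ∈ UsT p T f (ins s n)) ∈ p := by
        have h1 := Sel.above hp hsf hp.1.2.1
        refine hp.1.sep_inter hA h1 fun n hn h2 h3 => ?_
        rw [hq1 n hn h3] at h2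
        exact ⟨h3, h2⟩
      obtain ⟨z, hzf, hz⟩ := ac_rel hAC omega p (fun n z => A ∈ UsT p T f (ins s n) →
        ∀ s', s' ∈ Br T → Ini (ins s n) s' → (∀ i, i ∈ s' → i ∉ ins s n → i ∈ z) →
          ap f s' ∈ A) (by
          intro n hn
          by_cases hc : A ∈ UsT p T f (ins s n)
          · obtain ⟨_, z, hz, h⟩ := mem_UsT.1 hc
            exact ⟨z, hz, fun _ => h⟩
          · exact ⟨omega, hp.1.2.1, fun h => absurd h hc⟩)
      obtain ⟨x, hx, hd⟩ := Sel.diag hp (fun k n => n ∈ ap z k) (fun k hk => by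
        have h1 := hzf.ap_mem hk
        exact (UF.self (UF.sub hp.1 h1)).2 h1)
      rw [mem_UsT]
      refine ⟨hAo, _, UF.itr hp.1 hx hY, fun s' hs' hi hnew => ?_⟩
      have hs'T := (mem_Br.1 hs').1
      have hne : s ≠ s' := by
        rintro rfl
        exact hsb hs'
      obtain ⟨n, hn1, hn2, hn3, hn4, hn5⟩ := exists_next (hT.1 _ hs'T) hi hne
      have hnz := hnew n hn1 hn2
      rw [mem_itr, mem_sep] at hnz
      obtain ⟨hnx, hno, _, hnA⟩ := hnz
      refine hz n hno hnA s' hs' hn4 fun i h1 h2 => ?_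
      have h3 : i ∉ s := fun hc => h2 (by rw [mem_ins]; exact Or.inl hc)
      exact hd n hnx i (mem_itr.1 (hnew i h1 h3)).1 (hn5 i h1 h2)
  rw [e]
  exact hqF

theorem gp_of_tree (hAC : AC M) {p T f U : M} (hp : Selective p) (hT : Tr T) (hw : WfT T)
    (hU : Uf U) (hf : ∀ s, s ∈ Br T → ap f s ∈ (omega : M))
    (h : ∀ A, A ⊆ omega → (∃ z, z ∈ p ∧ ∀ s, s ∈ Br T → s ⊆ z → ap f s ∈ A) → A ∈ U) :
    InGp p U := by
  intro F hF hpF
  have key : ∀ s, s ∈ T → UsT p T f s ∈ F := by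
    by_contra hc
    push Not at hc
    obtain ⟨s0, hs0, hs0'⟩ := hc
    obtain ⟨s, hs, hmin⟩ := hw (sep T (fun s => UsT p T f s ∉ F))
      (fun z hz => by rw [mem_sep] at hz; exact hz.1)
      (ne_emp_iff.2 ⟨s0, by rw [mem_sep]; exact ⟨hs0, hs0'⟩⟩)
    rw [mem_sep] at hs
    apply hs.2
    by_cases hb : s ∈ Br T
    · exact UsT_leaf hp hT hb (hf s hb) hF hpF
    · refine UsT_node hAC hp hT hs.1 hb hF hpF fun n hn ha => ?_
      have hmem : ins s n ∈ T := by
        rw [mem_Br] at hb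
        push Not at hb
        obtain ⟨m, hm, ham, hm'⟩ := hb hs.1
        exact hT.2.2.2 s m n hs.1 hm hn ham ha hm'
      by_contra hcon
      exact hmin n hn ha (by rw [mem_sep]; exact ⟨hmem, hcon⟩)
  have h0 := key emp hT.2.1
  have hu := hF.1 _ h0
  have hsub : ∀ A, A ∈ UsT p T f emp → A ∈ U := by
    intro A hA
    obtain ⟨hAo, z, hz, h1⟩ := mem_UsT.1 hA
    refine h A hAo ⟨z, hz, fun s hs hsz => h1 s hs ⟨emp_sub _, fun i _ _ j hj =>
      absurd hj (not_mem_emp j)⟩ fun i hi _ => hsz i hi⟩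
  have e : U = UsT p T f emp := by
    refine ext fun A => ⟨fun hA => ?_, hsub A⟩
    by_contra hc
    have h1 := hsub _ (UF.compl hu (UF.sub hU hA) hc)
    exact UF.not_compl hU hA h1
  rw [e]
  exact h0

end Pool.Agent.ZFIter.NPA.BLI
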