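import Pool.Agent.BLI.GGm

/-!
# BLI/MR: the mixed run (inside a model of ZF)
-/

universe u

namespace Pool.Agent.ZFIter.NPA.BLI

open Pool.Agent.H78.ZF Pool.Agent.ZFIter Pool.Agent.ZFIter.NPA Pool.Agent.ZFIter.NPA.BSM

variable {M : Type u} [ZFM M] {ι : Type}

/-- Finite sets of numbers, ordered by reverse inclusion. -/
noncomputable def fswP : M := mkPo fsw (fun s t => t ⊆ s)

theorem fs_fswP : fs (fswP : M) = fsw := fs_mkPo _ _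

theorem LE_fswP {s t : M} : LE fswP s t ↔ s ∈ (fsw : M) ∧ t ∈ (fsw : M) ∧ t ⊆ s := by
  have : D2 (fun s t : M => t ⊆ s) := ⟨by infer_instance⟩
  exact LE_mkPo

theorem po_fswP : Po (fswP : M) := by
  constructor
  · intro s hs
    rw [fs_fswP] at hs
    exact LE_fswP.2 ⟨hs, hs, sub_refl _⟩
  · intro a b c h1 h2
    rw [LE_fswP] at h1 h2 ⊢
    exact ⟨h1.1, h2.2.1, sub_trans h2.2.2 h1.2.2⟩

theorem sp_fswP {Sm : M → Prop} (hSm : SmC Sm) : SP Sm (fswP : M) := by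
  refine ⟨po_fswP, ?_⟩
  rw [fs_fswP]
  exact sm_fsw hSm

theorem LE_prP {A B a b a' b' : M} :
    LE (prP A B) (opair a b) (opair a' b') ↔ LE A a a' ∧ LE B b b' := by
  unfold prP
  rw [LE_sbP]
  simp only [fs_opair, sn_opair, opair_mem_prod]
  constructor
  · exact fun h => ⟨h.2.2.1, h.2.2.2⟩
  · exact fun h => ⟨⟨h.1.1, h.2.1⟩, ⟨h.1.2.1, h.2.2.1⟩, h.1, h.2⟩

/-- The conditions of the mixed forcing. -/
noncomputable def MT (P Q z h y k : M) : M :=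
  sep (prod (fs (prP P Q)) (fs (fswP : M))) (fun x => LE P (fs (fs x)) h ∧ LE Q (sn (fs x)) k ∧
    ∀ n, n ∈ sn x → Nt P z n (fs (fs x)) ∧ Nt Q y n (sn (fs x)))

section
variable {P Q z h y k : M}

theorem MT_sub : MT P Q z h y k ⊆ prod (fs (prP P Q)) (fs (fswP : M)) := fun x hx => by
  unfold MT at hx
  rw [mem_sep] at hx
  exact hx.1

theorem opair_MT {a b s : M} : opair (opair a b) s ∈ MT P Q z h y k ↔
    LE P a h ∧ LE Q b k ∧ s ∈ (fsw : M) ∧ ∀ n, n ∈ s → Nt P z n a ∧ Nt Q y n b := by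
  unfold MT
  rw [mem_sep]
  simp only [fs_opair, sn_opair, opair_mem_prod, mem_prP, fs_fswP]
  exact ⟨fun h => ⟨h.2.1, h.2.2.1, h.1.2, h.2.2.2⟩,
    fun h => ⟨⟨⟨h.1.1, h.2.1.1⟩, h.2.2.1⟩, h.1, h.2.1, h.2.2.2⟩⟩

theorem mem_MT {x : M} (hx : x ∈ MT P Q z h y k) : ∃ a b s, x = opair (opair a b) s ∧
    LE P a h ∧ LE Q b k ∧ s ∈ (fsw : M) ∧ ∀ n, n ∈ s → Nt P z n a ∧ Nt Q y n b := by
  obtain ⟨c, hc, s, _, rfl⟩ := (mem_prod _ _ _).1 (MT_sub x hx)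
  unfold prP at hc
  rw [fs_sbP] at hc
  obtain ⟨a, _, b, _, rfl⟩ := (mem_prod _ _ _).1 hc
  exact ⟨a, b, s, rfl, opair_MT.1 hx⟩

/-- The mixed forcing. -/
noncomputable def MRP (P Q z h y k : M) : M := sbP (prP P Q) fswP (MT P Q z h y k)

theorem LE_MRP {a b s a' b' s' : M} :
    LE (MRP P Q z h y k) (opair (opair a b) s) (opair (opair a' b') s') ↔
      opair (opair a b) s ∈ MT P Q z h y k ∧ opair (opair a' b') s' ∈ MT P Q z h y k ∧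
        LE P a a' ∧ LE Q b b' ∧ s' ⊆ s := by
  unfold MRP
  rw [LE_sbP]
  simp only [fs_opair, sn_opair, LE_prP, LE_fswP]
  constructor
  · exact fun h => ⟨h.1, h.2.1, h.2.2.1.1, h.2.2.1.2, h.2.2.2.2.2⟩
  · intro h
    exact ⟨h.1, h.2.1, ⟨h.2.2.1, h.2.2.2.1⟩, (opair_MT.1 h.1).2.2.1, (opair_MT.1 h.2.1).2.2.1,
      h.2.2.2.2⟩

/-- The name of the generic set. -/
noncomputable def MRW (P Q z h y k : M) : M :=
  mkNm (MRP P Q z h y k) (fun n x => n ∈ sn x)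

theorem Nt_MRW (hP : Po P) (hQ : Po Q) {n x : M} : Nt (MRP P Q z h y k) (MRW P Q z h y k) n x ↔
    n ∈ (omega : M) ∧ x ∈ MT P Q z h y k ∧ n ∈ sn x := by
  have : D2 (fun n x : M => n ∈ sn x) := ⟨by infer_instance⟩
  have hpo : Po (MRP P Q z h y k) := po_sbP (po_prP hP hQ) po_fswP MT_sub
  unfold MRW
  rw [Nt_mkNm hpo (fun n k k' hk hn => ?_)]
  · unfold MRP
    rw [fs_sbP]
  · have h1 := hk.1
    have h2 := hk.2.1
    unfold MRP at h1 h2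
    rw [fs_sbP] at h1 h2
    obtain ⟨a, b, s, rfl, _⟩ := mem_MT h1
    obtain ⟨a', b', s', rfl, _⟩ := mem_MT h2
    rw [LE_MRP] at hk
    rw [sn_opair] at hn ⊢
    exact hk.2.2.2.2 n hn

end

theorem mixedRun {Sm : M → Prop} (hSm : SmC Sm) {p : M} (hp : Selective p) {P Q z h y k : M}
    (hP : SP Sm P) (hQ : SP Sm Q) (hz : Yy P p z h) (hy : Yy Q p y k) :
    ∃ T f g x w, SP Sm T ∧ IsGen T P f ∧ IsGen T Q g ∧ x ∈ fs T ∧ LE P (ap f x) h ∧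
      LE Q (ap g x) k ∧ FInf T w x ∧ FSub T w (pull T P f z) x ∧ FSub T w (pull T Q g y) x := by
  have hT : SP Sm (MRP P Q z h y k) := sp_sbP hSm MT_sub (sp_prP hSm hP hQ) (sp_fswP hSm)
  have hfs : ∀ x, x ∈ fs (MRP P Q z h y k) ↔ x ∈ MT P Q z h y k := fun x => by
    unfold MRP; rw [fs_sbP]
  have h0 : Hom (MRP P Q z h y k) (prP P Q) (pf1 (prP P Q) (MT P Q z h y k)) := hom_pf1 MT_sub
  have hpP := isProj_fst (A := P) (B := Q) hQ.1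
  have hpQ := isProj_snd (A := P) (B := Q) hP.1
  obtain ⟨f, hfdef⟩ : ∃ f : M, f = cpf (MRP P Q z h y k) P (pf1 P (prod (fs P) (fs Q)))
    (pf1 (prP P Q) (MT P Q z h y k)) := ⟨_, rfl⟩
  obtain ⟨g, hgdef⟩ : ∃ g : M, g = cpf (MRP P Q z h y k) Q (pf2 Q (prod (fs P) (fs Q)))
    (pf1 (prP P Q) (MT P Q z h y k)) := ⟨_, rfl⟩
  have hfH : Hom (MRP P Q z h y k) P f := by rw [hfdef]; exact hpP.1.comp h0
  have hgH : Hom (MRP P Q z h y k) Q g := by rw [hgdef]; exact hpQ.1.comp h0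
  have hfa : ∀ a b s, opair (opair a b) s ∈ MT P Q z h y k →
      ap f (opair (opair a b) s) = a ∧ ap g (opair (opair a b) s) = b := by
    intro a b s hm
    have hab : opair a b ∈ prod (fs P) (fs Q) := by
      rw [opair_mem_prod]
      have := opair_MT.1 hm
      exact ⟨this.1.1, this.2.1.1⟩
    rw [hfdef, hgdef, ap_cpf hpP.1 h0 ((hfs _).2 hm), ap_cpf hpQ.1 h0 ((hfs _).2 hm),
      ap_pf1 MT_sub hm, fs_opair, ap_pf1 (sub_refl _) hab, ap_pf2 (sub_refl _) hab, fs_opair,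
      sn_opair]
    exact ⟨rfl, rfl⟩
  have hfg : IsGen (MRP P Q z h y k) P f := by
    refine IsProj.isGen ⟨hfH, fun q hq x hx => ?_⟩
    obtain ⟨a, b, s, rfl, h1, h2, h3, h4⟩ := mem_MT ((hfs q).1 hq)
    rw [(hfa _ _ _ ((hfs _).1 hq)).1] at hx
    have hm : opair (opair x b) s ∈ MT P Q z h y k :=
      opair_MT.2 ⟨hP.1.trans hx h1, h2, h3, fun n hn => ⟨(h4 n hn).1.down hP.1 hx, (h4 n hn).2⟩⟩
    exact ⟨_, LE_MRP.2 ⟨hm, (hfs _).1 hq, hx, hQ.1.refl h2.1, sub_refl _⟩, (hfa _ _ _ hm).1⟩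
  have hgg : IsGen (MRP P Q z h y k) Q g := by
    refine IsProj.isGen ⟨hgH, fun q hq x hx => ?_⟩
    obtain ⟨a, b, s, rfl, h1, h2, h3, h4⟩ := mem_MT ((hfs q).1 hq)
    rw [(hfa _ _ _ ((hfs _).1 hq)).2] at hx
    have hm : opair (opair a x) s ∈ MT P Q z h y k :=
      opair_MT.2 ⟨h1, hQ.1.trans hx h2, h3, fun n hn => ⟨(h4 n hn).1, (h4 n hn).2.down hQ.1 hx⟩⟩
    exact ⟨_, LE_MRP.2 ⟨hm, (hfs _).1 hq, hP.1.refl h1.1, hx, sub_refl _⟩, (hfa _ _ _ hm).2⟩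
  have hx0 : opair (opair h k) emp ∈ MT P Q z h y k := opair_MT.2
    ⟨hP.1.refl hz.1, hQ.1.refl hy.1, emp_fsw, fun n hn => absurd hn (not_mem_emp n)⟩
  refine ⟨MRP P Q z h y k, f, g, opair (opair h k) emp, MRW P Q z h y k, hT, hfg, hgg,
    (hfs _).2 hx0, ?_, ?_, ?_, ?_, ?_⟩
  · rw [(hfa _ _ _ hx0).1]; exact hP.1.refl hz.1
  · rw [(hfa _ _ _ hx0).2]; exact hQ.1.refl hy.1
  · intro N hN u hu
    obtain ⟨a, b, s, rfl, h1, h2, h3, h4⟩ := mem_MT ((hfs u).1 hu.1)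
    have e1 := xmem hP.1 hp.1 (hz.down hP.1 h1)
    have e2 := xmem hQ.1 hp.1 (hy.down hQ.1 h2)
    obtain ⟨n, hn⟩ := hp.1.ne (UF.itr hp.1 (UF.itr hp.1 e1 e2) (Sel.gt hp hN))
    simp only [mem_itr, mem_sep] at hn
    obtain ⟨⟨⟨hno, a', ha', hz'⟩, _, b', hb', hy'⟩, _, hNn⟩ := hn
    have hm : opair (opair a' b') (ins s n) ∈ MT P Q z h y k := by
      refine opair_MT.2 ⟨hP.1.trans ha' h1, hQ.1.trans hb' h2, ins_fsw h3 hno, fun m hm => ?_⟩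
      rw [mem_ins] at hm
      rcases hm with hm | rfl
      · exact ⟨(h4 m hm).1.down hP.1 ha', (h4 m hm).2.down hQ.1 hb'⟩
      · exact ⟨hz', hy'⟩
    refine ⟨n, hno, omega_trans hno N hNn, _, LE_MRP.2 ⟨hm, (hfs _).1 hu.1, ha', hb',
      fun m hm => by rw [mem_ins]; exact Or.inl hm⟩, (Nt_MRW hP.1 hQ.1).2 ⟨hno, hm, ?_⟩⟩
    rw [sn_opair, mem_ins]
    exact Or.inr rfl
  · refine FSub.of_le hT.1 (fun n u hn h1 => ?_) _
    rw [Nt_MRW hP.1 hQ.1] at h1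
    obtain ⟨_, hu, h2⟩ := h1
    obtain ⟨a, b, s, rfl, h3⟩ := mem_MT hu
    rw [Nt_pull hT.1 hP.1 hfH, (hfa _ _ _ hu).1]
    rw [sn_opair] at h2
    exact ⟨hn, (hfs _).2 hu, (h3.2.2.2 n h2).1⟩
  · refine FSub.of_le hT.1 (fun n u hn h1 => ?_) _
    rw [Nt_MRW hP.1 hQ.1] at h1
    obtain ⟨_, hu, h2⟩ := h1
    obtain ⟨a, b, s, rfl, h3⟩ := mem_MT hu
    rw [Nt_pull hT.1 hQ.1 hgH, (hfa _ _ _ hu).2]
    rw [sn_opair] at h2
    exact ⟨hn, (hfs _).2 hu, (h3.2.2.2 n h2).2⟩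

end Pool.Agent.ZFIter.NPA.BLI
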