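import Pool.Agent.BLI.Tree1

/-!
# BLI/Tree2: an ultrafilter outside `FrU` has front data or tree data (inside a model of ZF)
-/

universe u

namespace Pool.Agent.ZFIter.NPA.BLI

open Pool.Agent.H78.ZF Pool.Agent.ZFIter Pool.Agent.ZFIter.NPA Pool.Agent.ZFIter.NPA.BSM

variable {M : Type u} [ZFM M] {ι : Type}

/-- `g = (A, V)` is a decomposition of `w` into ultrafilters outside `FrU`. -/
def GdD (p w g : M) : Prop :=
  (∀ n, n ∈ (omega : M) → ap (fs g) n ⊆ omega ∧ Uf (ap (sn g) n)) ∧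
    (∀ i j, i ∈ (omega : M) → j ∈ (omega : M) → i ≠ j → Disj (ap (fs g) i) (ap (fs g) j)) ∧
    sep omega (fun n => ap (fs g) n ∈ ap (sn g) n ∧ ¬ FrU p (ap (sn g) n)) ∈ p ∧
    ∀ X, X ⊆ omega → (X ∈ w ↔ sep omega (fun n => X ∈ ap (sn g) n) ∈ p)

instance DR.GdD (p w g : (ι → M) → M) [DF p] [DF w] [DF g] :
    DR (fun v => GdD (p v) (w v) (g v)) := by
  unfold BLI.GdD; infer_instance

/-- The codes of pairs of sequences. -/
noncomputable def KD : M := prod (pow (prod omega (pow omega))) (pow (prod omega Ufs))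

theorem exists_GdD {p w : M} (hp : Uf p) (hw : Uf w) (h : ¬ FrU p w) (hd : Dcmp p w) :
    ∃ g, g ∈ (KD : M) ∧ GdD p w g := by
  obtain ⟨A, V, h1, h2, h3, h4⟩ := exists_dcmp_not hp hw h hd
  obtain ⟨A', hA'⟩ : ∃ A' : M, A' = mkseq omega (fun n => ap A n) := ⟨_, rfl⟩
  obtain ⟨V', hV'⟩ : ∃ V' : M, V' = mkseq omega (fun n => ap V n) := ⟨_, rfl⟩
  have hAn : ∀ n, n ∈ (omega : M) → ap A' n = ap A n := fun n hn => by rw [hA', ap_mkseq hn]
  have hVn : ∀ n, n ∈ (omega : M) → ap V' n = ap V n := fun n hn => by rw [hV', ap_mkseq hn]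
  refine ⟨opair A' V', ?_, ?_, ?_, ?_, ?_⟩
  · unfold KD
    rw [opair_mem_prod, mem_pow, mem_pow]
    constructor
    · intro z hz
      rw [hA', mem_mkseq] at hz
      obtain ⟨n, hn, rfl⟩ := hz
      rw [opair_mem_prod, mem_pow]
      exact ⟨hn, (h1 n hn).1⟩
    · intro z hz
      rw [hV', mem_mkseq] at hz
      obtain ⟨n, hn, rfl⟩ := hz
      rw [opair_mem_prod, mem_Ufs]
      exact ⟨hn, (h1 n hn).2⟩
  · intro n hn
    rw [fs_opair, sn_opair, hAn n hn, hVn n hn]
    exact h1 n hn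
  · intro i j hi hj hij
    rw [fs_opair, hAn i hi, hAn j hj]
    exact h2 i j hi hj hij
  · refine hp.sep_up h3 fun n hn h5 => ?_
    rw [fs_opair, sn_opair, hAn n hn, hVn n hn]
    exact h5
  · intro X hX
    rw [h4 X hX]
    constructor
    · intro h5
      refine hp.sep_up h5 fun n hn h6 => ?_
      rw [sn_opair, hVn n hn]
      exact h6
    · intro h5
      refine hp.sep_up h5 fun n hn h6 => ?_
      rw [sn_opair, hVn n hn] at h6
      exact h6

/-- The chosen decomposition. -/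
noncomputable def dcG (p c w : M) : M := ap c (sep KD (fun g => GdD p w g))

instance DF.KD : DF (fun _ : ι → M => (KD : M)) := by infer_instance

instance DF.dcG (p c w : (ι → M) → M) [DF p] [DF c] [DF w] :
    DF (fun v => dcG (p v) (c v) (w v)) := by
  unfold BLI.dcG; infer_instance

/-- The step function. -/
noncomputable def nxF (p c x : M) : M :=
  csl (¬ FrU p (fs x) ∧ Dcmp p (fs x))
    (opair (ap (fs (dcG p c (fs x))) (sn x)) (ap (sn (dcG p c (fs x))) (sn x)))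
    (opair emp (fs x))

instance DF.nxF (p c x : (ι → M) → M) [DF p] [DF c] [DF x] :
    DF (fun v => nxF (p v) (c v) (x v)) := by
  unfold BLI.nxF; infer_instance

theorem exists_nx (hAC : AC M) {p : M} (hp : Uf p) : ∃ nx : M, ∀ w, Uf w →
    (∀ n, n ∈ (omega : M) → ∃ A V, ap nx (opair w n) = opair A V ∧ A ⊆ omega ∧ Uf V) ∧
    (∀ i j, i ∈ (omega : M) → j ∈ (omega : M) → i ≠ j →
      Disj (fs (ap nx (opair w i))) (fs (ap nx (opair w j)))) ∧
    (¬ FrU p w → Dcmp p w →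
      sep omega (fun n => fs (ap nx (opair w n)) ∈ sn (ap nx (opair w n)) ∧
        ¬ FrU p (sn (ap nx (opair w n)))) ∈ p ∧
      ∀ X, X ⊆ omega → (X ∈ w ↔ sep omega (fun n => X ∈ sn (ap nx (opair w n))) ∈ p)) ∧
    (¬ Dcmp p w → ∀ n, n ∈ (omega : M) → fs (ap nx (opair w n)) = emp) := by
  obtain ⟨c, hc⟩ := ac_fun hAC (KD : M)
  obtain ⟨nx, hnx⟩ : ∃ nx : M, nx = mkseq (prod Ufs omega) (fun x => nxF p c x) := ⟨_, rfl⟩
  refine ⟨nx, fun w hw => ?_⟩
  have hv : ∀ n, n ∈ (omega : M) → ap nx (opair w n) = nxF p c (opair w n) := fun n hn => by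
    rw [hnx, ap_mkseq (by rw [opair_mem_prod, mem_Ufs]; exact ⟨hw, hn⟩)]
  by_cases h : ¬ FrU p w ∧ Dcmp p w
  · have hG : GdD p w (dcG p c w) := by
      obtain ⟨g, hg, hg'⟩ := exists_GdD hp hw h.1 h.2
      have h1 := hc (sep KD (fun g => GdD p w g)) (fun z hz => by rw [mem_sep] at hz; exact hz.1)
        (ne_emp_iff.2 ⟨g, by rw [mem_sep]; exact ⟨hg, hg'⟩⟩)
      rw [mem_sep] at h1
      exact h1.2
    have hv' : ∀ n, n ∈ (omega : M) → ap nx (opair w n) =
        opair (ap (fs (dcG p c w)) n) (ap (sn (dcG p c w)) n) := fun n hn => by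
      rw [hv n hn]
      unfold nxF
      rw [fs_opair, sn_opair, csl_pos h]
    obtain ⟨g1, g2, g3, g4⟩ := hG
    refine ⟨fun n hn => ⟨_, _, hv' n hn, (g1 n hn).1, (g1 n hn).2⟩, fun i j hi hj hij => ?_,
      fun _ _ => ⟨?_, fun X hX => ?_⟩, fun h' => absurd h.2 h'⟩
    · rw [hv' i hi, hv' j hj, fs_opair, fs_opair]
      exact g2 i j hi hj hij
    · refine hp.sep_up g3 fun n hn h5 => ?_
      rw [hv' n hn, fs_opair, sn_opair]
      exact h5
    · rw [g4 X hX]
      constructor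
      · intro h5
        refine hp.sep_up h5 fun n hn h6 => ?_
        rw [hv' n hn, sn_opair]
        exact h6
      · intro h5
        refine hp.sep_up h5 fun n hn h6 => ?_
        rw [hv' n hn, sn_opair] at h6
        exact h6
  · have hv' : ∀ n, n ∈ (omega : M) → ap nx (opair w n) = opair emp w := fun n hn => by
      rw [hv n hn]
      unfold nxF
      rw [fs_opair, csl_neg h]
    refine ⟨fun n hn => ⟨_, _, hv' n hn, emp_sub _, hw⟩, fun i j hi hj hij => ?_,
      fun h1 h2 => absurd ⟨h1, h2⟩ h, fun _ n hn => ?_⟩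
    · rw [hv' i hi, fs_opair]
      exact fun z hz => absurd hz (not_mem_emp z)
    · rw [hv' n hn, fs_opair]

/-! ### Initial segments -/

theorem t2_ini_insert {s s' n : M} (hn : ∀ i, i ∈ s → i ∈ n) (h : Ini s' s) : Ini s' (ins s n) := by
  refine ⟨fun i hi => ?_, fun i hi his j hj => ?_⟩
  · rw [mem_ins]
    exact Or.inl (h.1 i hi)
  · rw [mem_ins] at hi
    rcases hi with hi | rfl
    · exact h.2 i hi his j hj
    · exact hn j (h.1 j hj)

theorem t2_ini_self {s n : M} (hn : ∀ i, i ∈ s → i ∈ n) : Ini s (ins s n) :=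
  t2_ini_insert hn ⟨sub_refl _, fun _ hi his => absurd hi his⟩

theorem t2_ne {s s' n : M} (hn : ∀ i, i ∈ s → i ∈ n) (h : s' ⊆ s) : s' ≠ ins s n := by
  intro e
  exact not_mem_self n (hn n (h n (by rw [e, mem_ins]; exact Or.inr rfl)))

theorem t2_ini_of {s s' n : M} (hno : n ∈ (omega : M)) (hn : ∀ i, i ∈ s → i ∈ n)
    (h : Ini s' (ins s n)) (hne : s' ≠ ins s n) : Ini s' s := by
  have hns : n ∉ s' := by
    intro hmem
    refine hne (ext fun i => ⟨fun hi => h.1 i hi, fun hi => ?_⟩)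
    have hi0 := hi
    rw [mem_ins] at hi
    rcases hi with hi | rfl
    · by_contra hc
      exact lt_asymm hno (hn i hi) (h.2 i hi0 hc n hmem)
    · exact hmem
  refine ⟨fun i hi => ?_, fun i hi his j hj => ?_⟩
  · have := h.1 i hi
    rw [mem_ins] at this
    exact this.resolve_right fun e => hns (e ▸ hi)
  · exact h.2 i (by rw [mem_ins]; exact Or.inl hi) his j hj

theorem t2_above {p s : M} (hp : Selective p) (hs : s ∈ (fsw : M)) :
    sep omega (fun n => ∀ i, i ∈ s → i ∈ n) ∈ p := Sel.above hp hs hp.1.2.1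

theorem lab_of_fun {t : M} (ht : Fun t omega (pow omega)) : Lab t := fun e he => by
  have := ht.ap_mem he
  rwa [mem_pow] at this

theorem exists_data (hAC : AC M) {p U : M} (hp : Selective p) (hUf : Uf U) (hU : ¬ FrU p U) :
    (∃ t F W : M, FrontD p U t F W) ∨ ∃ t b W : M, TreeD p U t b W := by
  obtain ⟨nx, hnx⟩ := exists_nx hAC hp.1
  obtain ⟨W, X, hW0, hX0, hWX, hst⟩ := exists_tree (nx := nx) hUf
    fun w n hw hn => (hnx w hw).1 n hn
  have hWu : ∀ s, s ∈ (fsw : M) → Uf (ap W s) := fun s hs => (hWX s hs).1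
  have hX : ∀ s, s ∈ (fsw : M) → ap X s ⊆ omega := fun s hs => (hWX s hs).2
  have hXn : ∀ s n, s ∈ (fsw : M) → n ∈ (omega : M) → (∀ i, i ∈ s → i ∈ n) →
      ap X (ins s n) ⊆ fs (ap nx (opair (ap W s) n)) := by
    intro s n hs hno hn
    rw [(hst s n hs hno hn).2]
    exact itr_sub_right _ _
  obtain ⟨t, ht0, ht1, ht2⟩ := exists_labels hX
    (fun s n hs hno hn => by rw [(hst s n hs hno hn).2]; exact itr_sub_left _ _)
    (fun s n m hs hno hmo hn hm hnm k hk hk' =>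
      (hnx (ap W s) (hWu s hs)).2.1 n m hno hmo hnm k (hXn s n hs hno hn k hk)
        (hXn s m hs hmo hm k hk'))
  have hfusD : D2 (fun s n : M => ¬ FrU p (ap W s) → ap X s ∈ ap W s → Dcmp p (ap W s) →
      fs (ap nx (opair (ap W s) n)) ∈ sn (ap nx (opair (ap W s) n)) ∧
        ¬ FrU p (sn (ap nx (opair (ap W s) n))) ∧ ap X s ∈ sn (ap nx (opair (ap W s) n))) :=
    ⟨by infer_instance⟩
  obtain ⟨b, hb, hfus⟩ := Sel.fusion hp (fun s n : M => ¬ FrU p (ap W s) → ap X s ∈ ap W s →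
      Dcmp p (ap W s) →
      fs (ap nx (opair (ap W s) n)) ∈ sn (ap nx (opair (ap W s) n)) ∧
        ¬ FrU p (sn (ap nx (opair (ap W s) n))) ∧ ap X s ∈ sn (ap nx (opair (ap W s) n))) (by
    intro s hs
    by_cases h : ¬ FrU p (ap W s) ∧ ap X s ∈ ap W s ∧ Dcmp p (ap W s)
    · obtain ⟨h1, h2, h3⟩ := h
      obtain ⟨h4, h5⟩ := (hnx (ap W s) (hWu s hs)).2.2.1 h1 h3
      exact hp.1.sep_inter h4 ((h5 _ (hX s hs)).1 h2) fun n _ hn1 hn2 _ _ _ =>
        ⟨hn1.1, hn1.2, hn2⟩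
    · exact UF.sep_univ hp.1 fun n _ h1 h2 h3 => absurd ⟨h1, h2, h3⟩ h)
  have hA : ∀ s, s ∈ (fsw : M) → s ⊆ b →
      (∀ s', Ini s' s → s' ≠ s → Dcmp p (ap W s')) → ¬ FrU p (ap W s) ∧ ap X s ∈ ap W s := by
    intro s hs
    rw [mem_fsw] at hs
    refine fin_induction_max (fun s => s ⊆ b → (∀ s', Ini s' s → s' ≠ s → Dcmp p (ap W s')) →
      ¬ FrU p (ap W s) ∧ ap X s ∈ ap W s) ?_ ?_ s hs.2 hs.1
    · intro _ _
      rw [hW0, hX0]
      exact ⟨hU, hUf.2.1⟩
    · intro s n hs1 hs2 hno hn ih hsb hpr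
      have hsF : s ∈ (fsw : M) := mem_fsw.2 ⟨hs2, hs1⟩
      have hsb' : s ⊆ b := fun i hi => hsb i (by rw [mem_ins]; exact Or.inl hi)
      have hnb : n ∈ b := hsb n (by rw [mem_ins]; exact Or.inr rfl)
      obtain ⟨i1, i2⟩ := ih hsb' (fun s' h1 _ => hpr s' (t2_ini_insert hn h1) (t2_ne hn h1.1))
      have hD : Dcmp p (ap W s) := hpr s (t2_ini_self hn) (t2_ne hn (sub_refl s))
      obtain ⟨j1, j2, j3⟩ := hfus s hsF hsb' n hnb hn i1 i2 hD
      obtain ⟨k1, k2⟩ := hst s n hsF hno hn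
      have hUn : Uf (ap W (ins s n)) := hWu _ (ins_fsw hsF hno)
      rw [k1] at hUn
      rw [k1, k2]
      exact ⟨j2, UF.itr hUn j3 j1⟩
  obtain ⟨L, hL⟩ : ∃ L : M, L = sep fsw (fun s => ¬ Dcmp p (ap W s)) := ⟨_, rfl⟩
  have hLm : ∀ s, s ∈ L ↔ s ∈ (fsw : M) ∧ ¬ Dcmp p (ap W s) := fun s => by rw [hL, mem_sep]
  rcases wfl_or (L := L) hp with hwf | ⟨x, hx, hxL⟩
  · left
    obtain ⟨F, hF⟩ : ∃ F : M, F = sep fsw (fun s => s ⊆ b ∧ ¬ Dcmp p (ap W s) ∧
      ∀ s', Ini s' s → s' ≠ s → Dcmp p (ap W s')) := ⟨_, rfl⟩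
    have hFm : ∀ s, s ∈ F ↔ s ∈ (fsw : M) ∧ s ⊆ b ∧ ¬ Dcmp p (ap W s) ∧
      ∀ s', Ini s' s → s' ≠ s → Dcmp p (ap W s') := fun s => by rw [hF, mem_sep]
    refine ⟨t, F, W, lab_of_fun ht0, fun s hs => ((hFm s).1 hs).1,
      fun s hs => hWu s ((hFm s).1 hs).1, ?_, ?_, ?_, ?_⟩
    · intro s hs
      obtain ⟨h0, h1, h2, h3⟩ := (hFm s).1 hs
      refine UF.of_mem (hWu s h0) (hA s h0 h1 h3).2 fun e he => ?_
      refine ht2 s h0 e he fun n hno hn hen => ?_
      have h4 := hXn s n h0 hno hn e hen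
      rw [(hnx (ap W s) (hWu s h0)).2.2.2 h2 n hno] at h4
      exact not_mem_emp e h4
    · intro s hs
      exact ((hFm s).1 hs).2.2.1
    · intro s n hs hn
      obtain ⟨h0, h1, h2, h3⟩ := (hFm s).1 hs
      exact not_sing_of_not_FrU (hWu s h0) (hA s h0 h1 h3).1 hn
    · intro B X' hB hX'o hX'
      obtain ⟨Z, hZ⟩ : ∃ Z : M, Z = sep fsw (fun s => s ⊆ itr b B →
        (∀ s', Ini s' s → s' ≠ s → Dcmp p (ap W s')) → X' ∈ ap W s) := ⟨_, rfl⟩
      have hZm : ∀ s, s ∈ Z ↔ s ∈ (fsw : M) ∧ (s ⊆ itr b B →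
        (∀ s', Ini s' s → s' ≠ s → Dcmp p (ap W s')) → X' ∈ ap W s) := fun s => by
        rw [hZ, mem_sep]
      have hZc : WClosed p L Z := by
        constructor
        · intro s hs hsL
          rw [hLm] at hsL
          rw [hZm]
          refine ⟨hs, fun h1 h2 => hX' s ?_ (sub_trans h1 (itr_sub_right _ _))⟩
          rw [hFm]
          exact ⟨hs, sub_trans h1 (itr_sub_left _ _), hsL.2, h2⟩
        · intro s X₀ hs hX₀ ih
          rw [hZm]
          refine ⟨hs, fun h1 h2 => ?_⟩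
          by_cases hD : Dcmp p (ap W s)
          · obtain ⟨n1, n2⟩ := hA s hs (sub_trans h1 (itr_sub_left _ _)) h2
            rw [((hnx (ap W s) (hWu s hs)).2.2.1 n1 hD).2 X' hX'o]
            refine UF.of_mem hp.1 (Sel.above hp hs (UF.itr hp.1 hX₀ (UF.itr hp.1 hb hB)))
              fun n hn => ?_
            rw [mem_sep, mem_itr, mem_itr] at hn
            obtain ⟨⟨g1, g2, g3⟩, g4⟩ := hn
            have hno := UF.sub hp.1 hb n g2
            have h5 := ih n g1 g4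
            rw [hZm] at h5
            have h6 := h5.2 (by
              intro i hi
              rw [mem_ins] at hi
              rcases hi with hi | rfl
              · exact h1 i hi
              · rw [mem_itr]; exact ⟨g2, g3⟩) (by
              intro s' k1 k2
              by_cases k3 : s' = s
              · rw [k3]; exact hD
              · exact h2 s' (t2_ini_of hno g4 k1 k2) k3)
            rw [(hst s n hs hno g4).1] at h6
            exact h6
          · refine hX' s ?_ (sub_trans h1 (itr_sub_right _ _))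
            rw [hFm]
            exact ⟨hs, sub_trans h1 (itr_sub_left _ _), hD, h2⟩
      have h0 := hwf Z hZc
      rw [hZm, hW0] at h0
      refine h0.2 (emp_sub _) fun s' h1 h2 => absurd ?_ h2
      exact eq_emp fun z hz => not_mem_emp z (h1.1 z hz)
  · right
    have hxL' : ∀ s, s ∈ (fsw : M) → s ⊆ x → Dcmp p (ap W s) := by
      intro s hs hsx
      by_contra h
      exact hxL s hs hsx ((hLm s).2 ⟨hs, h⟩)
    have hpr : ∀ s, s ∈ (fsw : M) → s ⊆ itr b x → ¬ FrU p (ap W s) ∧ ap X s ∈ ap W s := by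
      intro s hs hsb
      refine hA s hs (sub_trans hsb (itr_sub_left _ _)) fun s' h1 _ => ?_
      exact hxL' s' (sub_fsw hs h1.1) (sub_trans h1.1 (sub_trans hsb (itr_sub_right _ _)))
    refine ⟨t, itr b x, W, lab_of_fun ht0, hWu, UF.itr hp.1 hb hx, hW0, ?_, ?_⟩
    · intro s hs hsb
      exact UF.of_mem (hWu s hs) (hpr s hs hsb).2 fun e he => ht1 s hs e he
    · intro s X' hs hsb hX'
      obtain ⟨n1, n2⟩ := hpr s hs hsb
      have hD : Dcmp p (ap W s) := hxL' s hs (sub_trans hsb (itr_sub_right _ _))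
      rw [((hnx (ap W s) (hWu s hs)).2.2.1 n1 hD).2 X' hX']
      constructor
      · intro h
        refine hp.1.sep_inter h (t2_above hp hs) fun n hno g1 g2 => ?_
        rw [(hst s n hs hno g2).1]
        exact g1
      · intro h
        refine hp.1.sep_inter h (t2_above hp hs) fun n hno g1 g2 => ?_
        rw [(hst s n hs hno g2).1] at g1
        exact g1

end Pool.Agent.ZFIter.NPA.BLI
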