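import Pool.Agent.BLI.Cases
import Pool.Agent.BLI.Tree2

/-!
# BLI/Main: the main theorem for abstract relations, inside a model of ZF

The internal version of `BLS/Main`.
-/

universe u

namespace Pool.Agent.ZFIter.NPA.BLI

open Pool.Agent.H78.ZF Pool.Agent.ZFIter Pool.Agent.ZFIter.NPA Pool.Agent.ZFIter.NPA.BSM

variable {M : Type u} [ZFM M] {ι : Type}

theorem main (hAC : AC M) {Sm : M → Prop} [D1 Sm] (hSm : SmC Sm) {p : M} (hp : Selective p)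
    {R : M → M → M → M → Prop} [D4 R] (hR : AbsRel Sm p R) :
    Uf (sep (pow omega) (fun A : M => InU Sm R A)) ∧
      FrU p (sep (pow omega) (fun A : M => InU Sm R A)) ∧
      ∃ T r θ f : M, Tr T ∧ Rkd T r θ ∧ Fun f fsw omega ∧
        ∀ P y h, SP Sm P → Yy P p y h → ∃ Q g q z, SP Sm Q ∧ IsGen Q P g ∧ q ∈ fs Q ∧
          LE P (ap g q) h ∧ FInf Q z q ∧ FSub Q z (pull Q P g y) q ∧
          R Q z (imgN Q (Br T) f (pull Q P g y)) q := by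
  have hUf : Uf (sep (pow omega) (fun A : M => InU Sm R A)) := uf_InU hR hSm hp
  have hU : ∀ A, A ⊆ omega → (A ∈ sep (pow omega) (fun A : M => InU Sm R A) ↔ InU Sm R A) := by
    intro A hA
    rw [mem_sep, mem_pow]
    exact ⟨fun h => h.2, fun h => ⟨hA, h⟩⟩
  have hFr : FrU p (sep (pow omega) (fun A : M => InU Sm R A)) := by
    by_contra hcon
    rcases exists_data hAC hp hUf hcon with ⟨t, F, W, hD⟩ | ⟨t, b, W, hD⟩
    · exact front_false hAC hSm hp hR hU hD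
    · exact tree_false hAC hSm hp hR hU hD
  refine ⟨hUf, hFr, ?_⟩
  obtain ⟨T, r, θ, f, t, hT, hr, hf, htf, ht⟩ := hFr.labels hAC hp
  have htl : ∀ e, e ∈ (omega : M) → ap t e ∈ (fsw : M) := fun e he => htf.ap_mem he
  have hlab : Lab t := fun e he => (mem_fsw.1 (htl e he)).1
  have hin : ∀ B, B ∈ p → InU Sm R (sep omega (fun e => ap t e ∈ Br T ∧ ap t e ⊆ B ∧
      ap f (ap t e) = e)) := fun B hB =>
    (hU _ (fun k hk => ((mem_sep _ _ _).1 hk).1)).1 (ht B hB)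
  have htB : ∀ B, B ∈ p → InU Sm R (sep omega (fun e => ap t e ⊆ B)) := fun B hB =>
    inU_mono hR (hin B hB) fun e he h1 => by
      rw [mem_sep] at h1 ⊢
      exact ⟨he, h1.2.2.1⟩
  have hH : H0 Sm R t := fun N hN => by
    refine inU_mono hR (htB _ (Sel.gt hp hN)) fun e he h1 => ?_
    rw [mem_sep] at h1 ⊢
    exact ⟨he, fun m hm => ((mem_sep _ _ _).1 (h1.2 m hm)).2⟩
  have hQ : Qp Sm p R t := qp_of_rel hSm hp hR htB
  have hRel := rig hAC hSm hp hR hlab hH hQ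
  have hA₀ : InU Sm R (sep omega (fun e => ap t e ∈ Br T ∧ ap f (ap t e) = e)) :=
    inU_mono hR (hin _ hp.1.2.1) fun e he h1 => by
      rw [mem_sep] at h1 ⊢
      exact ⟨he, h1.2.1, h1.2.2.2⟩
  refine ⟨T, r, θ, f, hT, hr, hf, ?_⟩
  intro P y h hP hy
  obtain ⟨Q, g, q, z, hQ', hg, hq, hgq, hzs, hR1⟩ := hRel P y h hP hy
  obtain ⟨Q', g', q', z', hQ'', hg', hq', hgq', hz'i, hz's, hR2⟩ :=
    addU hR hSm hp hQ' hR1 hA₀
  have hgc := hg.comp hQ'.1 hg'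
  refine ⟨Q', cpf Q' P g g', q', z', hQ'', hgc, hq', ?_, hz'i, ?_, ?_⟩
  · rw [ap_cpf hg.1 hg'.1 hq']
    exact hP.1.trans (hg.1.le hgq') hgq
  · exact (hz's.trans hQ''.1 (FSub.pull hQ''.1 hQ'.1 hg' (hzs.down hQ'.1 hgq'))).trans hQ''.1
      (comp_pull_sub hQ''.1 hQ'.1 hP.1 hg.1 hg'.1 y q')
  refine hR.mono Q' z' z' _ _ q' hQ'' hR2 hz'i (FSub.refl hQ''.1 _ _) ?_
  refine FSub.of_dense hQ''.1 fun e he k hkq hk => ?_
  rw [Nt_inr hQ''.1] at hk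
  obtain ⟨_, hk1, hk2⟩ := hk
  rw [Nt_chk hQ''.1, mem_sep] at hk2
  obtain ⟨_, ⟨_, hk2, hk2'⟩, hkQ⟩ := hk2
  obtain ⟨k1, hkk1, hk3⟩ := pull_tsub_sub hQ''.1 hQ'.1 hg' hlab (pull Q P g y) q' e he k hkq hk1 k
    (hQ''.1.refl hkQ)
  unfold tsub at hk3
  rw [Nt_cmp hQ''.1] at hk3
  obtain ⟨_, hk1Q, hk4⟩ := hk3
  obtain ⟨N, hN⟩ := UF.sep_ex hp.1 (P := fun n : M => ∀ i, i ∈ ap t e → i ∈ n)
    (UF.of_mem hp.1 (Sel.above hp (htl e he) hp.1.2.1) fun n hn => ((mem_sep _ _ _).1 hn).2)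
  obtain ⟨k2, hkk2, hdec⟩ := decide_lt hQ''.1 (pull Q' Q g' (pull Q P g y)) hN.1 hk1Q
  have hfsub : ∀ i, i ∈ ap t e → Nt Q' (pull Q' Q g' (pull Q P g y)) i k2 := by
    intro i hi
    by_contra hcon
    have hio : i ∈ (omega : M) := hlab e he i hi
    have hNi : Nc Q' (pull Q' Q g' (pull Q P g y)) i k2 := by
      rcases hdec i (hN.2 i hi) with h1 | h1
      · exact absurd h1 hcon
      · exact h1
    obtain ⟨m0, hm0, ⟨hf1, hf2⟩, hmin⟩ := exists_least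
      (fun m => m ∈ ap t e ∧ Nc Q' (pull Q' Q g' (pull Q P g y)) m k2) ⟨i, hio, hi, hNi⟩
    refine hk4 k2 hkk2 ((Nt_exn hQ''.1).2 ⟨he, hkk2.1, m0, hf1, hf2, fun m' hm' hlt => ?_, ?_⟩)
    · rcases hdec m' (hN.2 m' hm') with h3 | h3
      · exact h3
      · exact absurd ⟨hm', h3⟩ (hmin m' hlt)
    · rw [Nt_chk hQ''.1]
      exact ⟨hm0, hm0, hkk2.1⟩
  refine ⟨k2, hQ''.1.trans hkk2 hkk1, (Nt_imgN hQ''.1).2 ⟨he, hkk2.1, ap t e, hk2, fun i hi => ?_, hk2'⟩⟩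
  rw [Nt_pull_comp hQ''.1 hQ'.1 hP.1 hg.1 hg'.1]
  exact hfsub i hi

end Pool.Agent.ZFIter.NPA.BLI
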