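import Pool.Agent.BLI.GGm

/-!
# BLI/Mathias: every pseudo-intersection of a selective ultrafilter is Mathias generic
(inside a model of ZF with choice)
-/

universe u

namespace Pool.Agent.ZFIter.NPA.BLI

open Pool.Agent.H78.ZF Pool.Agent.ZFIter Pool.Agent.ZFIter.NPA Pool.Agent.ZFIter.NPA.BSM

variable {M : Type u} [ZFM M] {ι : Type}

/-- `h` forces `fs d ⊆ x ⊆ fs d ∪ sn d`. -/
def Cap (P x d h : M) : Prop :=
  (∀ i, i ∈ fs d → Fc P x i h) ∧
    ∀ n, n ∈ (omega : M) → n ∉ fs d → n ∉ sn d → Nc P x n h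

instance DR.Cap (P x d h : (ι → M) → M) [DF P] [DF x] [DF d] [DF h] :
    DR (fun v => Cap (P v) (x v) (d v) (h v)) := by
  unfold BLI.Cap; infer_instance

/-- Some element of `D` has the stem `s`. -/
def Good (D s : M) : Prop := ∃ d, d ∈ D ∧ fs d = s

instance DR.Good (D s : (ι → M) → M) [DF D] [DF s] : DR (fun v => Good (D v) (s v)) := by
  unfold BLI.Good; infer_instance

/-- Every unbounded subset of `b` has an initial segment `v` with `Good (s ∪ v)`. -/
def Brr (D s b : M) : Prop := ∀ y, y ⊆ b → Unb y → ∃ v, v ∈ (fsw : M) ∧ Ini v y ∧ Good D (un s v)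

instance DR.Brr (D s b : (ι → M) → M) [DF D] [DF s] [DF b] :
    DR (fun v => Brr (D v) (s v) (b v)) := by
  unfold BLI.Brr; infer_instance

theorem unb_remove {y n : M} (hy : Unb y) : Unb (sep y (fun m => m ≠ n)) := by
  refine ⟨fun k hk => by rw [mem_sep] at hk; exact hy.1 k hk.1, fun N hN => ?_⟩
  obtain ⟨k, hk, h1⟩ := hy.exists_gt hN
  have hko := hy.1 k hk
  by_cases e : k = n
  · obtain ⟨k', hk', h2⟩ := hy.exists_gt hko
    have hne : k' ≠ n := fun e' => by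
      rw [e', ← e] at h2
      exact not_mem_self k h2
    refine ⟨k', by rw [mem_sep]; exact ⟨hk', hne⟩, ?_⟩
    · exact sub_trans (omega_trans hko N h1) (omega_trans (hy.1 k' hk') k h2)
  · exact ⟨k, by rw [mem_sep]; exact ⟨hk, e⟩, omega_trans hko N h1⟩

theorem bar_good (hAC : AC M) {p : M} (hp : Selective p) {D : M} (hD : Dns (MP p) D) {s : M}
    (hs : s ∈ (fsw : M)) : ∃ b, b ∈ p ∧ Brr D s b := by
  obtain hP | ⟨x, hx, hxP⟩ := Sel.bar hp (fun u => ∃ b, b ∈ p ∧ Brr D (un s u) b) (by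
      intro u hu hX
      obtain ⟨b, hb, h1⟩ := ac_rel hAC omega p
        (fun n b => ((∀ i, i ∈ u → i ∈ n) ∧ ∃ b, b ∈ p ∧ Brr D (un s (ins u n)) b) →
          Brr D (un s (ins u n)) b) (fun n _ => by
          by_cases hn : (∀ i, i ∈ u → i ∈ n) ∧ ∃ b, b ∈ p ∧ Brr D (un s (ins u n)) b
          · obtain ⟨_, b, hb1, hb2⟩ := hn
            exact ⟨b, hb1, fun _ => hb2⟩
          · exact ⟨omega, hp.1.2.1, fun h => absurd h hn⟩)
      obtain ⟨b', hb', hdiag⟩ := Sel.diag hp (fun k n => n ∈ ap b k) (fun k hk =>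
        (UF.self (UF.sub hp.1 (hb.ap_mem hk))).2 (hb.ap_mem hk))
      refine ⟨_, UF.itr hp.1 hb' hX, fun y hy hyinf => ?_⟩
      obtain ⟨k0, hk0, _⟩ := hyinf.2 emp emp_mem_omega
      obtain ⟨n, hno, hn, hmin⟩ := exists_least (fun k => k ∈ y) ⟨k0, hyinf.1 k0 hk0, hk0⟩
      have hle : ∀ m, m ∈ y → n = m ∨ n ∈ m := by
        intro m hm
        rcases trichotomy hno (hyinf.1 m hm) with h2 | h2 | h2
        · exact Or.inr h2
        · exact Or.inl h2
        · exact absurd hm (hmin m h2)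
      have hyn := hy n hn
      rw [mem_itr, mem_sep] at hyn
      obtain ⟨v', hv0, hv1, d, hd, hds⟩ := h1 n hno hyn.2.2 (sep y (fun m => m ≠ n)) (by
        intro m hm
        rw [mem_sep] at hm
        have hym := hy m hm.1
        rw [mem_itr] at hym
        refine hdiag n hyn.1 m hym.1 ?_
        exact (hle m hm.1).resolve_left fun e => hm.2 e.symm) (unb_remove hyinf)
      refine ⟨ins v' n, ins_fsw hv0 hno, ⟨?_, ?_⟩, d, hd, ?_⟩
      · intro i hi
        rw [mem_ins] at hi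
        rcases hi with h | h
        · have := hv1.1 i h
          rw [mem_sep] at this
          exact this.1
        · rw [h]
          exact hn
      · intro i hi hiv j hj
        rw [mem_ins, not_or] at hiv
        rw [mem_ins] at hj
        rcases hj with h | h
        · exact hv1.2 i (by rw [mem_sep]; exact ⟨hi, hiv.2⟩) hiv.1 j h
        · rw [h]
          exact (hle i hi).resolve_left fun e => hiv.2 e.symm
      · rw [hds]
        refine ext fun i => ?_
        rw [mem_un, mem_un, mem_ins, mem_un, mem_un, mem_ins]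
        tauto)
  · obtain ⟨b, hb, hP⟩ := hP
    refine ⟨b, hb, fun y hy hyinf => ?_⟩
    obtain ⟨v, hv0, hv, d, hd, hds⟩ := hP y hy hyinf
    refine ⟨v, hv0, hv, d, hd, ?_⟩
    rw [hds]
    refine ext fun i => ?_
    rw [mem_un, mem_un, mem_un]
    have := not_mem_emp i
    tauto
  · exfalso
    have h0 := Sel.above hp hs hx
    obtain ⟨d, hd, hdD⟩ := hD.2.2 _ (opair_MP_of hs h0 fun i hi j hj => by
      rw [mem_sep] at hj; exact hj.2 i hi)
    have hdM := MP_fs hd.1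
    rw [LE_MP, fs_opair, sn_opair] at hd
    obtain ⟨_, _, h1, h2, _⟩ := hd
    refine hxP (dif (fs d) s) (sub_fsw hdM.1 fun k hk => (mem_dif.1 hk).1) ?_
      ⟨omega, hp.1.2.1, fun y _ _ => ⟨emp, emp_fsw, ⟨emp_sub _, fun i _ _ j hj =>
        absurd hj (not_mem_emp j)⟩, d, hdD, ?_⟩⟩
    · intro i hi
      rw [mem_dif] at hi
      have := h2 i hi.1 hi.2
      rw [mem_sep] at this
      exact this.1
    · refine ext fun i => ?_
      rw [mem_un, mem_un, mem_dif]
      have := not_mem_emp i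
      have := h1 i
      tauto

theorem ma_next {P x h k j : M} (hP : Po P) (hx : FInf P x h) (hk : LE P k h)
    (hj : j ∈ (omega : M)) : ∃ k' n, LE P k' k ∧ n ∈ (omega : M) ∧ j ∈ n ∧ Nt P x n k' ∧
      ∀ i, j ∈ i → i ∈ n → Nc P x i k' := by
  obtain ⟨n, hno, hn, k1, hk1, h1⟩ := hx (succ j) (succ_mem_omega hj) k hk
  obtain ⟨k2, hk2, h2⟩ := decide_lt hP x (succ_mem_omega hno) hk1.1
  have hjn : j ∈ n := (succ_le_iff hno).1 hn
  obtain ⟨m, hmo, ⟨hjm, hm⟩, hmin⟩ := exists_least (fun i => j ∈ i ∧ Nt P x i k2)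
    ⟨n, hno, hjn, h1.down hP hk2⟩
  have hle : m ⊆ n := by
    rw [← not_lt hmo hno]
    intro hc
    exact hmin n hc ⟨hjn, h1.down hP hk2⟩
  refine ⟨k2, m, hP.trans hk2 hk1, hmo, hjm, hm, fun i hi1 hi2 => ?_⟩
  have hio := mem_omega_of_mem hi2 hmo
  rcases h2 i (by rw [mem_succ]; exact Or.inl (hle i hi2)) with h6 | h6
  · exact absurd ⟨hi1, h6⟩ (hmin i hi2)
  · exact h6

theorem mathias (hAC : AC M) {p : M} (hp : Selective p) {P x h : M} (hP : Po P) (hx : Yy P p x h)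
    {D : M} (hD : Dns (MP p) D) : ∃ h' d, LE P h' h ∧ d ∈ D ∧ Cap P x d h' := by
  -- the sets `N s`
  obtain ⟨Nf, hNf, hN⟩ := ac_rel hAC fsw p
    (fun s N => Brr D s N ∧ (Good D s → ∃ d, d ∈ D ∧ fs d = s ∧ N ⊆ sn d)) (fun s hs => by
      obtain ⟨b, hb, hbs⟩ := bar_good hAC hp hD hs
      by_cases hg : Good D s
      · obtain ⟨d, hd, hds⟩ := hg
        have hdp := (MP_fs (hD.1 d hd)).2.1
        exact ⟨itr b (sn d), UF.itr hp.1 hb hdp,
          fun y hy => hbs y fun k hk => (mem_itr.1 (hy k hk)).1,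
          fun _ => ⟨d, hd, hds, fun k hk => (mem_itr.1 hk).2⟩⟩
      · exact ⟨b, hb, hbs, fun h => absurd h hg⟩)
  obtain ⟨b, hb, hdiag⟩ := Sel.diag hp (fun k n => ∀ s, s ∈ pow (succ k) → n ∈ ap Nf s) (by
    intro k hk
    refine UF.fin hp.1 (fun s n => n ∈ ap Nf s) (fin_pow_nat (succ_mem_omega hk)) fun s hs => ?_
    rw [mem_pow] at hs
    have h1 := hNf.ap_mem (sub_fsw (nat_fsw (succ_mem_omega hk)) hs)
    exact (UF.self (UF.sub hp.1 h1)).2 h1)
  have hdiag' : ∀ k, k ∈ b → ∀ n, n ∈ b → k ∈ n → ∀ s, s ∈ (fsw : M) → (∀ i, i ∈ s → i ⊆ k) →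
      n ∈ ap Nf s := by
    intro k hk n hn hkn s hs hsk
    refine hdiag k hk n hn hkn s ?_
    rw [mem_pow]
    intro i hi
    rw [lt_succ_iff ((mem_fsw.1 hs).1 i hi) (UF.sub hp.1 hb k hk)]
    exact hsk i hi
  have hbo := UF.sub hp.1 hb
  obtain ⟨h₁, hh₁, m₀, hm₀o, hm₀⟩ := hx.2.2 b hb h (hP.refl hx.1)
  obtain ⟨m, hmb, hm⟩ := Sel.exists_gt hp hb hm₀o
  have hmo := hbo m hmb
  have hm' : m₀ ⊆ m := omega_trans hmo _ hm
  obtain ⟨h₂, hh₂, hdec⟩ := decide_lt hP x (succ_mem_omega hmo) hh₁.1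
  obtain ⟨s₀, hs₀⟩ : ∃ s₀ : M, s₀ = sep (succ m) (fun i => Nt P x i h₂) := ⟨_, rfl⟩
  have hs₀m : ∀ i, i ∈ s₀ ↔ i ∈ succ m ∧ Nt P x i h₂ := fun i => by rw [hs₀, mem_sep]
  have hs₀f : s₀ ∈ (fsw : M) := sub_fsw (nat_fsw (succ_mem_omega hmo)) fun i hi =>
    ((hs₀m i).1 hi).1
  have hFI : FInf P x h₂ := hx.2.1.down hP (hP.trans hh₂ hh₁)
  -- the sequence
  obtain ⟨f, hf, hf0, hfS⟩ := dc_seq hAC
    (prod (sep (fs P) (fun k => LE P k h₂)) omega)
    (fun _ x1 y1 => LE P (fs y1) (fs x1) ∧ sn x1 ∈ sn y1 ∧ Nt P x (sn y1) (fs y1) ∧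
      ∀ i, sn x1 ∈ i → i ∈ sn y1 → Nc P x i (fs y1)) (opair h₂ m) (by
      rw [opair_mem_prod, mem_sep]
      exact ⟨⟨hh₂.1, hP.refl hh₂.1⟩, hmo⟩) (by
      intro n _ x1 hx1
      obtain ⟨k, hk, j, hj, rfl⟩ := (mem_prod _ _ _).1 hx1
      rw [mem_sep] at hk
      obtain ⟨k', n', h1, h2, h3, h4, h5⟩ := ma_next hP hFI hk.2 hj
      refine ⟨opair k' n', ?_, ?_⟩
      · rw [opair_mem_prod, mem_sep]
        exact ⟨⟨h1.1, hP.trans h1 hk.2⟩, h2⟩
      · rw [fs_opair, sn_opair, fs_opair, sn_opair]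
        exact ⟨h1, h3, h4, h5⟩)
  have hel : ∀ i, i ∈ (omega : M) → LE P (fs (ap f i)) h₂ ∧ sn (ap f i) ∈ (omega : M) := by
    intro i hi
    obtain ⟨k, hk, j, hj, e⟩ := (mem_prod _ _ _).1 (hf.ap_mem hi)
    rw [e, fs_opair, sn_opair]
    rw [mem_sep] at hk
    exact ⟨hk.2, hj⟩
  have hn0 : sn (ap f emp) = m := by rw [hf0, sn_opair]
  have hk0 : fs (ap f emp) = h₂ := by rw [hf0, fs_opair]
  have hnm : ∀ j, j ∈ (omega : M) → ∀ i, i ∈ j → sn (ap f i) ∈ sn (ap f j) := by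
    apply omega_induction (fun j => ∀ i, i ∈ j → sn (ap f i) ∈ sn (ap f j))
    · intro i hi; exact absurd hi (not_mem_emp i)
    · intro j hj ih i hi
      rw [mem_succ] at hi
      have h1 := (hfS j hj).2.1
      rcases hi with hi | rfl
      · exact lt_trans (hel _ (succ_mem_omega hj)).2 (ih i hi) h1
      · exact h1
  have hnle : ∀ j, j ∈ (omega : M) → ∀ i, i ∈ (omega : M) → i ⊆ j →
      sn (ap f i) ⊆ sn (ap f j) := by
    intro j hj i hi hij
    rcases (le_iff hi hj).1 hij with h1 | h1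
    · exact omega_trans (hel j hj).2 _ (hnm j hj i h1)
    · rw [h1]; exact sub_refl _
  have hkm : ∀ j, j ∈ (omega : M) → ∀ i, i ∈ (omega : M) → i ⊆ j →
      LE P (fs (ap f j)) (fs (ap f i)) := by
    apply omega_induction (fun j => ∀ i, i ∈ (omega : M) → i ⊆ j →
      LE P (fs (ap f j)) (fs (ap f i)))
    · intro i _ h
      rw [eq_emp fun z hz => not_mem_emp z (h z hz)]
      exact hP.refl (hel _ emp_mem_omega).1.1
    · intro j hj ih i hi hij
      rcases (le_iff hi (succ_mem_omega hj)).1 hij with h1 | h1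
      · rw [mem_succ] at h1
        have h2 : i ⊆ j := by
          rcases h1 with h1 | h1
          · exact omega_trans hj i h1
          · rw [h1]; exact sub_refl _
        exact hP.trans (hfS j hj).1 (ih i hi h2)
      · rw [h1]; exact hP.refl (hel _ (succ_mem_omega hj)).1.1
  have hmn : ∀ i, i ∈ (omega : M) → m ⊆ sn (ap f i) := by
    intro i hi
    have := hnle i hi emp emp_mem_omega (emp_sub _)
    rwa [hn0] at this
  have hb1 : ∀ i, i ∈ (omega : M) → sn (ap f i) ∈ b := by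
    intro i hi
    rcases eq_emp_or_succ hi with h1 | ⟨j, hj, rfl⟩
    · rw [h1, hn0]; exact hmb
    · by_contra hc
      refine hm₀ _ (hel _ hi).2 (sub_trans hm' (hmn _ hi)) hc _ ?_ (hfS j hj).2.2.1
      exact hP.trans (hel _ hi).1 hh₂
  obtain ⟨y, hydef⟩ : ∃ y : M, y = sep omega (fun l => ∃ i, i ∈ (omega : M) ∧
    l = sn (ap f (succ i))) := ⟨_, rfl⟩
  have hy : ∀ l, l ∈ y ↔ ∃ i, i ∈ (omega : M) ∧ l = sn (ap f (succ i)) := by
    intro l
    rw [hydef, mem_sep]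
    constructor
    · exact fun h => h.2
    · rintro ⟨i, hi, rfl⟩
      exact ⟨(hel _ (succ_mem_omega hi)).2, i, hi, rfl⟩
  have hyN : y ⊆ ap Nf s₀ := by
    intro l hl
    obtain ⟨i, hi, rfl⟩ := (hy l).1 hl
    refine hdiag' m hmb _ (hb1 _ (succ_mem_omega hi)) ?_ s₀ hs₀f fun i' hi' => ?_
    · have h1 := hnm _ (succ_mem_omega hi) emp (by
        rcases eq_emp_or_emp_mem (succ_mem_omega hi) with h1 | h1
        · exact absurd h1 (succ_ne_emp _)
        · exact h1)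
      rwa [hn0] at h1
    · have h1 := ((hs₀m i').1 hi').1
      exact (lt_succ_iff (mem_omega_of_mem h1 (succ_mem_omega hmo)) hmo).1 h1
  have hge : ∀ i, i ∈ (omega : M) → i ⊆ sn (ap f i) := by
    apply omega_induction (fun i => i ⊆ sn (ap f i))
    · exact emp_sub _
    · intro i hi ih
      rw [succ_le_iff (hel _ (succ_mem_omega hi)).2]
      exact lt_of_le_of_lt hi (hel _ (succ_mem_omega hi)).2 ih (hfS i hi).2.1
  have hyu : Unb y := by
    refine ⟨fun l hl => by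
      obtain ⟨i, hi, rfl⟩ := (hy l).1 hl
      exact (hel _ (succ_mem_omega hi)).2, fun n hn => ⟨sn (ap f (succ n)), (hy _).2 ⟨n, hn, rfl⟩, ?_⟩⟩
    exact sub_trans (fun z hz => by rw [mem_succ]; exact Or.inl hz) (hge _ (succ_mem_omega hn))
  obtain ⟨v, hv0, hv, hgood⟩ := (hN s₀ hs₀f).1 y hyN hyu
  -- `v` is `{n_1, .., n_j}`
  obtain ⟨j, hj, hjv⟩ : ∃ j, j ∈ (omega : M) ∧ ∀ l, l ∈ v ↔ ∃ i, i ∈ (omega : M) ∧ succ i ⊆ j ∧
      l = sn (ap f (succ i)) := by
    by_cases he : v = emp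
    · refine ⟨emp, emp_mem_omega, fun l => ⟨fun hl => ?_, ?_⟩⟩
      · rw [he] at hl; exact absurd hl (not_mem_emp l)
      · rintro ⟨i, hi, h1, _⟩
        exact absurd (h1 i (by rw [mem_succ]; exact Or.inr rfl)) (not_mem_emp i)
    · obtain ⟨k, hk, hmax⟩ := exists_max hv0 he
      obtain ⟨i0, hi0, rfl⟩ := (hy k).1 (hv.1 k hk)
      refine ⟨succ i0, succ_mem_omega hi0, fun l => ⟨fun hl => ?_, ?_⟩⟩
      · obtain ⟨i, hi, rfl⟩ := (hy l).1 (hv.1 l hl)
        refine ⟨i, hi, ?_, rfl⟩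
        rw [← not_lt (succ_mem_omega hi) (succ_mem_omega hi0)]
        intro hc
        have h1 := hnm _ (succ_mem_omega hi) _ hc
        exact not_mem_self _ (hmax _ hl _ h1)
      · rintro ⟨i, hi, h1, rfl⟩
        by_contra hc
        have h2 := hv.2 _ ((hy _).2 ⟨i, hi, rfl⟩) hc _ hk
        exact not_mem_self _ (hnle _ (succ_mem_omega hi0) _ (succ_mem_omega hi) h1 _ h2)
  have hsv := un_fsw hs₀f hv0
  obtain ⟨d, hd, hds, hda⟩ := (hN _ hsv).2 hgood
  have hkj : LE P (fs (ap f j)) h := hP.trans (hel j hj).1 (hP.trans hh₂ hh₁)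
  refine ⟨fs (ap f j), d, hkj, hd, ?_, ?_⟩
  · intro i hi
    rw [hds, mem_un] at hi
    rcases hi with h1 | h1
    · exact Fc.of_mem hP (((hs₀m i).1 h1).2.down hP (hel j hj).1)
    · obtain ⟨i', hi', h2, rfl⟩ := (hjv i).1 h1
      exact Fc.of_mem hP ((hfS i' hi').2.2.1.down hP (hkm j hj _ (succ_mem_omega hi') h2))
  · intro l hlo hl1 hl2
    rw [hds, mem_un, not_or] at hl1
    rcases le_or_lt hlo hmo with hlm | hlm
    · have h0 : l ∈ succ m := (lt_succ_iff hlo hmo).2 hlm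
      have h1 : ¬ Nt P x l h₂ := fun h1 => hl1.1 ((hs₀m l).2 ⟨h0, h1⟩)
      exact ((hdec l h0).resolve_left h1).down hP (hel j hj).1
    · rcases le_or_lt hlo (hel j hj).2 with hlj | hlj
      · -- `m < l ≤ n_j`
        obtain ⟨i, hio, h1, hmin⟩ := exists_least (fun i => l ⊆ sn (ap f i)) ⟨j, hj, hlj⟩
        have h2 : i ⊆ j := by
          rw [← not_lt hio hj]
          intro hc
          exact hmin j hc hlj
        rcases eq_emp_or_succ hio with h3 | ⟨i', hi', rfl⟩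
        · rw [h3, hn0] at h1
          exact absurd (h1 m hlm) (not_mem_self m)
        · have h4 : sn (ap f i') ∈ l := by
            have h5 := hmin i' (by rw [mem_succ]; exact Or.inr rfl)
            rcases le_or_lt hlo (hel i' hi').2 with h6 | h6
            · exact absurd h6 h5
            · exact h6
          rcases (le_iff hlo (hel _ (succ_mem_omega hi')).2).1 h1 with h5 | h5
          · exact ((hfS i' hi').2.2.2 l h4 h5).down hP (hkm j hj _ hio h2)
          · exact absurd ((hjv l).2 ⟨i', hi', h2, h5⟩) hl1.2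
      · have hlb : l ∉ b := by
          intro hlb
          refine hl2 (hda l (hdiag' _ (hb1 j hj) l hlb hlj _ hsv fun i hi => ?_))
          rw [mem_un] at hi
          rcases hi with h1 | h1
          · have h2 := ((hs₀m i).1 h1).1
            exact sub_trans ((lt_succ_iff (mem_omega_of_mem h2 (succ_mem_omega hmo)) hmo).1 h2)
              (hmn j hj)
          · obtain ⟨i', hi', h2, rfl⟩ := (hjv i).1 h1
            exact hnle j hj _ (succ_mem_omega hi') h2
        exact (hm₀ l hlo (sub_trans hm' (omega_trans hlo m hlm)) hlb).down hP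
          (hP.trans (hel j hj).1 hh₂)

end Pool.Agent.ZFIter.NPA.BLI
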