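import Pool.Agent.BLI.UDefs

/-!
# BLI/NW: two-colourings of the branches of a tree (inside a model of ZF)

`nw_sel`: `p` is selective, `T` a tree of finite sets of numbers, `f` a function on its branches, `A` a
set: on some `x ∈ p` either all branches have `f(s) ∈ A` or none has.

Proof: `Sel.bar` for the class of all `s ∈ T` such that for some `x ∈ p` all branches `s'` which extend `s`
by elements of `x` have `f(s') ∈ A`.
-/

universe u

namespace Pool.Agent.ZFIter.NPA.BLI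

open Pool.Agent.H78.ZF Pool.Agent.ZFIter Pool.Agent.ZFIter.NPA Pool.Agent.ZFIter.NPA.BSM

variable {M : Type u} [ZFM M] {ι : Type}

/-- the next element of a proper end extension -/
private theorem next_elt {s s' : M} (hs' : s' ⊆ omega) (h : Ini s s') (hne : s' ≠ s) :
    ∃ n, n ∈ (omega : M) ∧ n ∈ s' ∧ n ∉ s ∧ (∀ i, i ∈ s → i ∈ n) ∧ Ini (ins s n) s' ∧
      ∀ i, i ∈ s' → i ∉ ins s n → n ∈ i := by
  have hex : ∃ n, n ∈ (omega : M) ∧ n ∈ s' ∧ n ∉ s := by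
    by_contra hcon
    push Not at hcon
    exact hne (ext fun z => ⟨fun hz => hcon z (hs' z hz) hz, fun hz => h.1 z hz⟩)
  obtain ⟨n, hn, ⟨h1, h2⟩, hmin⟩ := exists_least (fun n => n ∈ s' ∧ n ∉ s) hex
  have h3 : ∀ i, i ∈ s' → i ∉ ins s n → n ∈ i := by
    intro i hi hin
    rw [mem_ins, not_or] at hin
    rcases trichotomy hn (hs' i hi) with h4 | h4 | h4
    · exact h4
    · exact absurd h4.symm hin.2
    · exact absurd ⟨hi, hin.1⟩ (hmin i h4)
  refine ⟨n, hn, h1, h2, fun i hi => h.2 n h1 h2 i hi, ⟨?_, fun i hi hin j hj => ?_⟩, h3⟩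
  · intro i hi
    rw [mem_ins] at hi
    rcases hi with hi | rfl
    · exact h.1 i hi
    · exact h1
  · have hin' := hin
    rw [mem_ins, not_or] at hin'
    rw [mem_ins] at hj
    rcases hj with hj | rfl
    · exact h.2 i hi hin'.1 j hj
    · exact h3 i hi hin

/-- A branch has no proper end extension in the tree. -/
theorem br_max {T s s' : M} (hT : Tr T) (hs : s ∈ Br T) (hs' : s' ∈ T) (h : Ini s s') : s' = s := by
  by_contra hne
  obtain ⟨n, hn, _, _, h1, h2, _⟩ := next_elt (mem_fsw.1 (hT.1 s' hs')).1 h hne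
  exact (mem_Br.1 hs).2 n hn h1 (hT.2.2.1 s' _ hs' h2)

theorem nw_sel (hAC : AC M) {p T f A z : M} (hp : Selective p) (hT : Tr T) (hz : z ∈ p) :
    ∃ x, x ∈ p ∧ x ⊆ z ∧ ((∀ s, s ∈ Br T → s ⊆ x → ap f s ∈ A) ∨
      ∀ s, s ∈ Br T → s ⊆ x → ap f s ∉ A) := by
  rcases Sel.bar hp (fun s => s ∈ T ∧ ∃ x, x ∈ p ∧ ∀ s', s' ∈ Br T → Ini s s' →
      (∀ i, i ∈ s' → i ∉ s → i ∈ x) → ap f s' ∈ A) (fun s hs hB => by
    obtain ⟨g, hg, hg1⟩ := ac_rel hAC omega p (fun n y => ((∀ i, i ∈ s → i ∈ n) ∧ ins s n ∈ T ∧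
        ∃ x, x ∈ p ∧ ∀ s', s' ∈ Br T → Ini (ins s n) s' →
      (∀ i, i ∈ s' → i ∉ ins s n → i ∈ x) → ap f s' ∈ A) → ∀ s', s' ∈ Br T → Ini (ins s n) s' →
      (∀ i, i ∈ s' → i ∉ ins s n → i ∈ y) → ap f s' ∈ A) (fun n _ => by
        by_cases h : (∀ i, i ∈ s → i ∈ n) ∧ ins s n ∈ T ∧
          ∃ x, x ∈ p ∧ ∀ s', s' ∈ Br T → Ini (ins s n) s' →
          (∀ i, i ∈ s' → i ∉ ins s n → i ∈ x) → ap f s' ∈ A
        · obtain ⟨_, _, x, hx, h1⟩ := h
          exact ⟨x, hx, fun _ => h1⟩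
        · exact ⟨z, hz, fun h' => absurd h' h⟩)
    obtain ⟨x0, hx0, h0⟩ := Sel.diag hp (fun k n => n ∈ ap g k) (fun k hk =>
      (UF.self (UF.sub hp.1 (hg.ap_mem hk))).2 (hg.ap_mem hk))
    obtain ⟨n0, hn0, hn0s, hn0T, _⟩ := UF.sep_ex hp.1 hB
    have hsT : s ∈ T := by
      refine hT.2.2.1 _ s hn0T ⟨fun i hi => by rw [mem_ins]; exact Or.inl hi, fun i hi hin j hj => ?_⟩
      rw [mem_ins] at hi
      rcases hi with hi | rfl
      · exact absurd hi hin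
      · exact hn0s j hj
    refine ⟨hsT, _, UF.itr hp.1 hx0 hB, fun s' hs' hI hsub => ?_⟩
    have hne : s' ≠ s := by
      rintro rfl
      exact (mem_Br.1 hs').2 n0 hn0 hn0s hn0T
    obtain ⟨n, hn, h1, h2, h3, h4, h5⟩ := next_elt (mem_fsw.1 (hT.1 s' (mem_Br.1 hs').1)).1 hI hne
    obtain ⟨hnx, hnB⟩ := mem_itr.1 (hsub n h1 h2)
    rw [mem_sep] at hnB
    refine hg1 n hn hnB.2 s' hs' h4 fun i hi hin => ?_
    have hin' := hin
    rw [mem_ins, not_or] at hin'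
    exact h0 n hnx i (mem_itr.1 (hsub i hi hin'.1)).1 (h5 i hi hin)) with h | ⟨x, hx, h⟩
  · obtain ⟨_, x, hx, h1⟩ := h
    refine ⟨itr x z, UF.itr hp.1 hx hz, fun k hk => (mem_itr.1 hk).2, Or.inl fun s hs hsx => ?_⟩
    exact h1 s hs ⟨emp_sub s, fun i _ _ j hj => absurd hj (not_mem_emp j)⟩
      fun i hi _ => (mem_itr.1 (hsx i hi)).1
  · refine ⟨itr x z, UF.itr hp.1 hx hz, fun k hk => (mem_itr.1 hk).2, Or.inr fun s hs hsx hA => ?_⟩
    have hsT := (mem_Br.1 hs).1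
    refine h s (hT.1 s hsT) (fun i hi => (mem_itr.1 (hsx i hi)).1) ⟨hsT, omega, hp.1.2.1,
      fun s' hs' hI _ => ?_⟩
    rw [br_max hT hs (mem_Br.1 hs').1 hI]
    exact hA

end Pool.Agent.ZFIter.NPA.BLI
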