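import Pool.Agent.BLI.ExitNo

/-!
# BLI/QpD: the hypotheses (Q') and relevance (inside a model of ZF)
-/

universe u

namespace Pool.Agent.ZFIter.NPA.BLI

open Pool.Agent.H78.ZF Pool.Agent.ZFIter Pool.Agent.ZFIter.NPA Pool.Agent.ZFIter.NPA.BSM

variable {M : Type u} [ZFM M] {ι : Type}

/-- Hypothesis (Q'): no instance with exits outside a set of `p`. -/
def Qp (Sm : M → Prop) (p : M) (R : M → M → M → M → Prop) (t : M) : Prop :=
  ∀ B, B ∈ p → ∀ P z y h, SP Sm P → Yy P p y h → FSub P z y h →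
    ¬ R P z (exn P t y (chk P (dif omega B))) h

/-- Relevance: `t(e) ⊆ y` almost everywhere, for all `y`. -/
def RelT (Sm : M → Prop) (p : M) (R : M → M → M → M → Prop) (t : M) : Prop :=
  ∀ P y h, SP Sm P → Yy P p y h →
    ∃ Q f q z, SP Sm Q ∧ IsGen Q P f ∧ q ∈ fs Q ∧ LE P (ap f q) h ∧
      FSub Q z (pull Q P f y) q ∧ R Q z (tsub Q t (pull Q P f y)) q

/-- If `k` forces that `m` is outside `w`, then some `k' ≤ k` decides the first exit of `t(e)`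
from `w`. -/
theorem first_exit {P t w e m k : M} (hP : Po P) (ht : Lab t) (he : e ∈ (omega : M))
    (hm : m ∈ ap t e) (hkP : k ∈ fs P) (hk : Nc P w m k) :
    ∃ k', LE P k' k ∧ ∃ n, n ∈ (omega : M) ∧ n ⊆ m ∧ n ∈ ap t e ∧ Nc P w n k' ∧
      ∀ i, i ∈ ap t e → i ∈ n → Nt P w i k' := by
  have hmo := ht e he m hm
  obtain ⟨k', hk', h1⟩ := decide_lt hP w (succ_mem_omega hmo) hkP
  obtain ⟨n, hno, ⟨h2, h3, h4⟩, hmin⟩ := exists_least (fun n => n ∈ ap t e ∧ n ⊆ m ∧ Nc P w n k')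
    ⟨m, hmo, hm, sub_refl m, hk.down hP hk'⟩
  refine ⟨k', hk', n, hno, h3, h2, h4, fun i hi hin => ?_⟩
  have hio := ht e he i hi
  have him : i ⊆ m := sub_trans (omega_trans hno i hin) h3
  rcases h1 i ((lt_succ_iff hio hmo).2 him) with h5 | h5
  · exact h5
  · exact absurd ⟨hi, him, h5⟩ (hmin i hin)

theorem qp_of_rel {Sm : M → Prop} (hSm : SmC Sm) {p : M} (hp : Selective p)
    {R : M → M → M → M → Prop} (hR : AbsRel Sm p R) {t : M}
    (H : ∀ B, B ∈ p → InU Sm R (sep omega (fun e => ap t e ⊆ B))) : Qp Sm p R t := by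
  intro B hB P z y h hP hy hzy HR
  obtain ⟨Q, f, q, z', hQ, hf, hq, hfq, hz', hz'z, HR'⟩ := addU hR hSm hp hP HR (H B hB)
  refine no_empty hR hQ HR' ?_
  intro e he k hk hkA
  rw [Nt_inr hQ.1, Nt_pull hQ.1 hP.1 hf.1, Nt_exn hP.1, Nt_chk hQ.1, mem_sep] at hkA
  obtain ⟨_, ⟨_, _, _, _, n, hn, _, _, hn3⟩, _, ⟨_, h1⟩, _⟩ := hkA
  rw [Nt_chk hP.1, mem_dif] at hn3
  exact hn3.2.1.2 (h1 n hn)

end Pool.Agent.ZFIter.NPA.BLI
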