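import Pool.Agent.BLI.UltV
import Pool.Agent.BLI.TwoStep

/-!
# BLI/Start: starting point of the runs (inside a model of ZF)
-/

universe u

namespace Pool.Agent.ZFIter.NPA.BLI

open Pool.Agent.H78.ZF Pool.Agent.ZFIter Pool.Agent.ZFIter.NPA Pool.Agent.ZFIter.NPA.BSM

variable {M : Type u} [ZFM M] {ι : Type}

theorem start {Sm : M → Prop} (hSm : SmC Sm) {p : M} (hp : Selective p)
    {R : M → M → M → M → Prop} (hR : AbsRel Sm p R) {S : M} (hS : IdealS S) :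
    ∃ P s h z, SP Sm P ∧ IsProj P (GG S) s ∧ h ∈ fs P ∧ R P z (pull P (GG S) s (gname S)) h := by
  have hM : SP Sm (MP p) := sp_MP hSm fun a ha => (mem_pow _ _).2 (UF.sub hp.1 ha)
  have hG : SP Sm (GG S) := sp_GG hSm hS.1
  have hP0 : SP Sm (prP (GG S) (MP p)) := sp_prP hSm hG hM
  have hp1 := isProj_fst (A := GG S) (B := MP p) hM.1
  have hp2 := isProj_snd (A := GG S) (B := MP p) hG.1
  obtain ⟨f1, hf1⟩ : ∃ f1 : M, f1 = pf1 (GG S) (prod (fs (GG S)) (fs (MP p))) := ⟨_, rfl⟩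
  obtain ⟨f2, hf2⟩ : ∃ f2 : M, f2 = pf2 (MP p) (prod (fs (GG S)) (fs (MP p))) := ⟨_, rfl⟩
  rw [← hf1] at hp1
  rw [← hf2] at hp2
  have h0 : opair (opair emp emp) (opair emp omega) ∈ fs (prP (GG S) (MP p)) :=
    mem_prP.2 ⟨GG_top hS, MP_top hp.1⟩
  have hY := Yy.pull hP0.1 hM.1 hp2.isGen h0 (yy_mname hp (hp2.1.mem h0))
  obtain ⟨Q, f, q, z', hQ, hf, hq, hqh, hz', hs, hc⟩ := hR.tot _ _
    (pull (prP (GG S) (MP p)) (GG S) f1 (gname S)) _ hP0 hY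
  have hg0 := IsGen.comp hP0.1 hp1.isGen hf
  obtain ⟨g, hg, H⟩ : ∃ g, IsGen Q (GG S) g ∧ R Q z' (pull Q (GG S) g (gname S)) q := by
    rcases hc with hc | hc
    · exact ⟨_, hg0, hR.mono Q _ _ _ _ q hQ hc hz' (FSub.refl hQ.1 _ _)
        (comp_pull_sub hQ.1 hP0.1 hG.1 hp1.1 hf.1 _ q)⟩
    · exact ⟨_, IsGen.comp hG.1 (isGen_flf hS) hg0, hR.mono Q _ _ _ _ q hQ hc hz'
        (FSub.refl hQ.1 _ _) (((pull_comp_sub hQ.1 hP0.1 hG.1 hp1.1 hf.1 _ q).cmp_anti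
          hQ.1).trans hQ.1 (cmp_gname_sub hS hQ.1 hg0 q))⟩
  obtain ⟨Q2, r, s, q2, hQ2, hr, hsp, hq2, e, -, h1, -⟩ := twoStep hSm hQ hG hg hq
  refine ⟨Q2, s, q2, pull Q2 Q r z', hQ2, hsp, hq2, ?_⟩
  refine transfer hR hQ hQ2 hr H hq2 ?_ (FInf.pull hQ2.1 hQ.1 hr ?_) (FSub.refl hQ2.1 _ _)
    (h1 (gname S) q2)
  · rw [e]; exact hQ.1.refl hq
  · rw [e]; exact hz'

end Pool.Agent.ZFIter.NPA.BLI
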