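import Pool.Agent.BLI.GRun
import Pool.Agent.BLI.Start
import Pool.Agent.BLI.QpD
import Pool.Agent.BLI.UDefs

/-!
# BLI/Run3: the run with three sides refutes the step property (inside a model of ZF)
-/

universe u

namespace Pool.Agent.ZFIter.NPA.BLI

open Pool.Agent.H78.ZF Pool.Agent.ZFIter Pool.Agent.ZFIter.NPA Pool.Agent.ZFIter.NPA.BSM

variable {M : Type u} [ZFM M] {ι : Type}

theorem run3 {Sm : M → Prop} (hSm : SmC Sm) {p : M} (hp : Selective p)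
    {R : M → M → M → M → Prop} (hR : AbsRel Sm p R) {S t : M} (hS : IdealS S)
    (hU : ∀ Z, Z ∈ S → ¬ InU Sm R Z) (ht : Lab t) (hrel : RelT Sm p R t)
    (hstep : StepP p S t) : False := by
  obtain ⟨P, s, h, z, hP, hs, hh, hRh⟩ := start hSm hp hR hS
  have hyz : Yy P p z h := hR.yy P z _ h hP hRh
  obtain ⟨Γ, hΓ⟩ : ∃ Γ : M, Γ = pull P (GG S) s (gname S) := ⟨_, rfl⟩
  rw [← hΓ] at hRh
  obtain ⟨T, f, g, k, x, w, hT, hf, hg, hk, hx, hfx, hgx, hkx, hwi, hw1, hw2, hw3, hlast⟩ :=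
    grun3 (t := t) hSm hS hP hs hyz (by
      intro a b c ha hb hc _ _ W N hW hN hWN
      have a2 := dfam_dec hp.1 hS hP.1 hs (hyz.down hP.1 ha)
      have b2 := dfam_dec hp.1 hS hP.1 hs (hyz.down hP.1 hb)
      have c2 := dfam_dec hp.1 hS hP.1 hs (hyz.down hP.1 hc)
      obtain ⟨n, hn, hNn, A, B, C, hA, hB, hC, H⟩ := hstep _ _ _ a2 b2 c2 W N hW hN hWN
      exact ⟨n, A, B, C, hn, hNn, hA, hB, hC, H⟩)
  have hR1 : R T w (pull T P f Γ) x :=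
    transfer hR hP hT hf hRh hx hfx hwi hw1 (FSub.refl hT.1 _ _)
  have hR2 : R T w (pull T P g Γ) x :=
    transfer hR hP hT hg hRh hx hgx hwi hw2 (FSub.refl hT.1 _ _)
  have hR3 : R T w (pull T P k Γ) x :=
    transfer hR hP hT hk hRh hx hkx hwi hw3 (FSub.refl hT.1 _ _)
  obtain ⟨A, hAdef⟩ : ∃ A : M, A = inr T (pull T P f Γ) (inr T (pull T P g Γ) (pull T P k Γ)) :=
    ⟨_, rfl⟩
  have hRA : R T w A x := by
    rw [hAdef]
    exact hR.inter T w _ _ x hT hR1 (hR.inter T w _ _ x hT hR2 hR3)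
  have hYw : Yy T p w x := hR.yy T w A x hT hRA
  obtain ⟨Q, r, q, z', hQ, hr, hq, hrq, hz's, hRt⟩ := hrel T w x hT hYw
  have hz'i : FInf Q z' q := (hR.yy Q z' _ q hQ hRt).2.1
  have hRgA : R Q z' (pull Q T r A) q :=
    transfer hR hT hQ hr hRA hq hrq hz'i hz's (FSub.refl hQ.1 _ _)
  have hRint := hR.inter Q z' _ _ q hQ hRgA hRt
  have hsub : FSub Q (inr Q (pull Q T r A) (tsub Q t (pull Q T r w))) (chk Q (fs (ap s h))) q := by
    refine FSub.of_dense hQ.1 fun e he u hu hue => ⟨u, hQ.1.refl hu.1, ?_⟩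
    rw [Nt_chk hQ.1]
    refine ⟨he, ?_, hu.1⟩
    by_contra hcon
    rw [Nt_inr hQ.1] at hue
    obtain ⟨_, hu1, hu2⟩ := hue
    unfold tsub at hu2
    rw [Nt_cmp hQ.1] at hu2
    obtain ⟨_, _, hu2⟩ := hu2
    rw [Nt_pull hQ.1 hT.1 hr.1, hAdef, Nt_inr hT.1, Nt_inr hT.1] at hu1
    obtain ⟨_, _, _, h1, _, h2, h3⟩ := hu1
    have hru : LE T (ap r u) x := hT.1.trans (hr.1.le hu) hrq
    have key : ∀ j, IsGen T P j → Nt T (pull T P j Γ) e (ap r u) → e ∈ sn (ap s (ap j (ap r u))) := by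
      intro j hj h4
      rw [hΓ, Nt_pull hT.1 hP.1 hj.1, Nt_pull hP.1 (po_GG S) hs.1, Nt_gname] at h4
      exact h4.2.2.2.2.2.2
    obtain ⟨m, hm, hmN⟩ := hlast (ap r u) hru e hcon (key f hf h1) (key g hg h2) (key k hk h3)
    have hmN' : Nc Q (pull Q T r w) m u := Nc.pull hQ.1 hT.1 hr hmN
    obtain ⟨u', hu', n, hno, _, hn, hnN, hns⟩ := first_exit hQ.1 ht he hm hu.1 hmN'
    refine hu2 u' hu' ((Nt_exn hQ.1).2 ⟨he, hu'.1, n, hn, hnN, hns, ?_⟩)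
    exact (Nt_chk hQ.1).2 ⟨hno, hno, hu'.1⟩
  have hfin := hR.mono Q z' z' _ (chk Q (fs (ap s h))) q hQ hRint hz'i (FSub.refl hQ.1 _ _) hsub
  exact hU (fs (ap s h)) (fs_mem_S hs hh) ⟨Q, q, z', hQ, hfin⟩

end Pool.Agent.ZFIter.NPA.BLI
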