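import Pool.Agent.BLI.Basic

/-!
# BLI/Sel: selective ultrafilters inside a model of ZF: diagonalisation, fusion, bar induction
-/

universe u

namespace Pool.Agent.ZFIter.NPA.BLI

open Pool.Agent.H78.ZF Pool.Agent.ZFIter Pool.Agent.ZFIter.NPA Pool.Agent.ZFIter.NPA.BSM

variable {M : Type u} [ZFM M] {ι : Type}

/-! ### Ultrafilters -/

theorem UF.sub {u A : M} (h : Uf u) (hA : A ∈ u) : A ⊆ omega := h.1 A hA

theorem UF.itr {u A B : M} (h : Uf u) (hA : A ∈ u) (hB : B ∈ u) : itr A B ∈ u := by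
  unfold BLI.itr; exact h.inter hA hB

theorem UF.not_disj {u A B : M} (h : Uf u) (hA : A ∈ u) (hB : B ∈ u) : ¬ Disj A B := by
  intro hd
  obtain ⟨k, hk⟩ := h.ne (UF.itr h hA hB)
  rw [mem_itr] at hk
  exact hd k hk.1 hk.2

theorem UF.em {u A : M} (h : Uf u) (hA : A ⊆ omega) : A ∈ u ∨ dif omega A ∈ u := by
  unfold dif; exact h.2.2.2.2.2 A hA

theorem UF.compl {u A : M} (h : Uf u) (hA : A ⊆ omega) (h' : A ∉ u) : dif omega A ∈ u :=
  (UF.em h hA).resolve_left h'

theorem UF.not_compl {u A : M} (h : Uf u) (hA : A ∈ u) : dif omega A ∉ u := by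
  intro h'
  exact UF.not_disj h hA h' fun k hk hk' => (mem_dif.1 hk').2 hk

theorem UF.sep_em {u : M} (h : Uf u) (P : M → Prop) [D1 P] :
    sep omega P ∈ u ∨ sep omega (fun k => ¬ P k) ∈ u := by
  by_cases h1 : sep omega P ∈ u
  · exact Or.inl h1
  · exact Or.inr (h.sep_not h1)

theorem UF.sep_false {u : M} (h : Uf u) {P : M → Prop} [D1 P] (hP : sep omega P ∈ u)
    (hc : ∀ k, k ∈ (omega : M) → ¬ P k) : False := by
  obtain ⟨k, hk⟩ := h.ne hP
  rw [mem_sep] at hk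
  exact hc k hk.1 hk.2

theorem UF.sep_ex {u : M} (h : Uf u) {P : M → Prop} [D1 P] (hP : sep omega P ∈ u) :
    ∃ k, k ∈ (omega : M) ∧ P k := by
  obtain ⟨k, hk⟩ := h.ne hP
  rw [mem_sep] at hk
  exact ⟨k, hk.1, hk.2⟩

theorem UF.sep_univ {u : M} (h : Uf u) {P : M → Prop} [D1 P]
    (hP : ∀ k, k ∈ (omega : M) → P k) : sep omega P ∈ u := by
  refine h.up h.2.1 (fun k hk => ?_) (fun k hk => by rw [mem_sep] at hk; exact hk.1)
  rw [mem_sep]; exact ⟨hk, hP k hk⟩

theorem UF.of_mem {u A : M} (h : Uf u) {P : M → Prop} [D1 P] (hA : A ∈ u)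
    (hP : ∀ k, k ∈ A → P k) : sep omega P ∈ u := by
  refine h.up hA (fun k hk => ?_) (fun k hk => by rw [mem_sep] at hk; exact hk.1)
  rw [mem_sep]; exact ⟨UF.sub h hA k hk, hP k hk⟩

theorem UF.self {u A : M} (hA : A ⊆ omega) :
    sep omega (fun k => k ∈ A) ∈ u ↔ A ∈ u := by
  have e : sep omega (fun k => k ∈ A) = A := ext fun k => by
    rw [mem_sep]; exact ⟨fun h => h.2, fun h => ⟨hA k h, h⟩⟩
  rw [e]

theorem UF.itr_sep {u A : M} (h : Uf u) {P : M → Prop} [D1 P] (hA : A ∈ u)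
    (hP : sep omega P ∈ u) : sep A P ∈ u := by
  refine h.up (h.inter hA hP) (fun k hk => ?_) (fun k hk => by
    rw [mem_sep] at hk; exact UF.sub h hA k hk.1)
  rw [mem_sep, mem_sep] at hk
  rw [mem_sep]; exact ⟨hk.1, hk.2.2⟩

/-- Finite intersections. -/
theorem UF.fin {u : M} (h : Uf u) (P : M → M → Prop) [D2 P] {F : M} (hF : FinM F)
    (hP : ∀ s, s ∈ F → sep omega (fun n => P s n) ∈ u) :
    sep omega (fun n => ∀ s, s ∈ F → P s n) ∈ u := by
  have e1 : ∀ κ : Type, ∀ a b : (κ → M) → M, [DF a] → [DF b] → DR (fun v => P (a v) (b v)) :=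
    fun κ a b _ _ => D2.comp P a b
  have e2 : ∀ s : M, D1 (fun n => P s n) := fun s => ⟨e1 Unit (fun _ => s) (fun v => v ())⟩
  have e3 : ∀ F : M, D1 (fun n => ∀ s, s ∈ F → P s n) := fun F => by
    have := e1 (Option Unit) (fun v => v none) (fun v => v (some ()))
    exact ⟨by infer_instance⟩
  have e4 : D1 (fun F : M => (∀ s, s ∈ F → sep omega (fun n => P s n) ∈ u) →
      sep omega (fun n => ∀ s, s ∈ F → P s n) ∈ u) := by
    have := e1 (Option (Option Unit)) (fun v => v (some none)) (fun v => v none)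
    have := e1 (Option (Option Unit)) (fun v => v none) (fun v => v (some none))
    exact ⟨by infer_instance⟩
  have key : ∀ F : M, FinM F → (∀ s, s ∈ F → sep omega (fun n => P s n) ∈ u) →
      sep omega (fun n => ∀ s, s ∈ F → P s n) ∈ u := by
    apply fin_induction (fun F : M => (∀ s, s ∈ F → sep omega (fun n => P s n) ∈ u) →
      sep omega (fun n => ∀ s, s ∈ F → P s n) ∈ u)
    · intro _
      exact UF.sep_univ h fun k _ s hs => absurd hs (not_mem_emp s)
    · intro x a _ _ ih hx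
      have h1 := ih fun s hs => hx s (by rw [mem_ins]; exact Or.inl hs)
      have h2 := hx a (by rw [mem_ins]; exact Or.inr rfl)
      refine h.sep_inter h1 h2 fun k _ h3 h4 s hs => ?_
      rw [mem_ins] at hs
      rcases hs with hs | rfl
      · exact h3 s hs
      · exact h4
  exact key F hF hP

/-! ### Finite sets of numbers -/

theorem fin_induction_max (P : M → Prop) [D1 P] (h0 : P emp)
    (hs : ∀ s a, FinM s → s ⊆ omega → a ∈ (omega : M) → (∀ i, i ∈ s → i ∈ a) → P s →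
      P (ins s a)) : ∀ s, FinM s → s ⊆ omega → P s := by
  have key : ∀ n, n ∈ (omega : M) → ∀ s, s ⊆ n → P s := by
    apply omega_induction (fun n => ∀ s, s ⊆ n → P s)
    · intro s hs'
      rw [eq_emp fun z hz => not_mem_emp z (hs' z hz)]
      exact h0
    · intro n hn ih s hs'
      by_cases hns : n ∈ s
      · have e : s = ins (sep s (fun z => z ≠ n)) n := ext fun z => by
          rw [mem_ins, mem_sep]
          constructor
          · intro hz
            by_cases e : z = n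
            · exact Or.inr e
            · exact Or.inl ⟨hz, e⟩
          · rintro (hz | rfl)
            · exact hz.1
            · exact hns
        have h1 : sep s (fun z => z ≠ n) ⊆ n := fun z hz => by
          rw [mem_sep] at hz
          have := hs' z hz.1
          rw [mem_succ] at this
          exact this.resolve_right hz.2
        rw [e]
        exact hs _ _ (fin_sub (nat_fin hn) h1) (sub_trans h1 (omega_sub hn)) hn
          (fun i hi => h1 i hi) (ih _ h1)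
      · refine ih s fun z hz => ?_
        have := hs' z hz
        rw [mem_succ] at this
        rcases this with h1 | h1
        · exact h1
        · rw [h1] at hz
          exact absurd hz hns
  intro s hs1 hs2
  obtain ⟨b, hb, h1⟩ := fin_bdd hs1 hs2
  exact key b hb s h1

/-- The set of the finite sets of numbers. -/
noncomputable def fsw : M := sep (pow omega) (fun s => FinM s)

theorem mem_fsw {s : M} : s ∈ (fsw : M) ↔ s ⊆ omega ∧ FinM s := by
  unfold fsw; rw [mem_sep, mem_pow]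

theorem emp_fsw : emp ∈ (fsw : M) := mem_fsw.2 ⟨emp_sub _, fin_emp⟩

theorem ins_fsw {s a : M} (hs : s ∈ (fsw : M)) (ha : a ∈ (omega : M)) : ins s a ∈ (fsw : M) := by
  rw [mem_fsw] at hs ⊢
  refine ⟨fun k hk => ?_, fin_ins hs.2 a⟩
  rw [mem_ins] at hk
  rcases hk with hk | rfl
  · exact hs.1 k hk
  · exact ha

theorem un_fsw {s t : M} (hs : s ∈ (fsw : M)) (ht : t ∈ (fsw : M)) : un s t ∈ (fsw : M) := by
  rw [mem_fsw] at hs ht ⊢
  refine ⟨fun k hk => ?_, fin_un hs.2 ht.2⟩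
  rw [mem_un] at hk
  rcases hk with hk | hk
  · exact hs.1 k hk
  · exact ht.1 k hk

theorem sub_fsw {s t : M} (ht : t ∈ (fsw : M)) (h : s ⊆ t) : s ∈ (fsw : M) := by
  rw [mem_fsw] at ht ⊢
  exact ⟨sub_trans h ht.1, fin_sub ht.2 h⟩

theorem nat_fsw {n : M} (h : n ∈ (omega : M)) : n ∈ (fsw : M) := mem_fsw.2 ⟨omega_sub h, nat_fin h⟩

/-- A nonempty finite set of numbers has a maximum. -/
theorem exists_max {s : M} (hs : s ∈ (fsw : M)) (hne : s ≠ emp) :
    ∃ k, k ∈ s ∧ ∀ i, i ∈ s → i ⊆ k := by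
  rw [mem_fsw] at hs
  obtain ⟨x, hx, h1⟩ := fin_max ord_omega hs.2 hs.1 hne
  refine ⟨x, hx, fun i hi => ?_⟩
  rcases h1 i hi with h2 | h2
  · rw [h2]; exact sub_refl _
  · exact omega_trans (hs.1 x hx) i h2

/-! ### Selective ultrafilters -/

section
variable {p : M} (hp : Selective p)
include hp

theorem Sel.gt {k : M} (hk : k ∈ (omega : M)) : sep omega (fun n => k ∈ n) ∈ p := by
  have key : ∀ k, k ∈ (omega : M) → sep omega (fun n => k ⊆ n) ∈ p := by
    apply omega_induction (fun k => sep omega (fun n => k ⊆ n) ∈ p)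
    · exact UF.sep_univ hp.1 fun n _ => emp_sub n
    · intro n hn ih
      have h1 : sep omega (fun k => k ∉ sing n) ∈ p := by
        rcases hp.1.2.2.2.2.2 (sing n) (fun k hk => by
          rw [mem_sing] at hk; rw [hk]; exact hn) with h1 | h1
        · exact absurd h1 (hp.2.1 n hn)
        · exact h1
      refine hp.1.sep_inter ih h1 fun k hk h2 h3 => ?_
      rw [succ_le_iff hk]
      rw [mem_sing] at h3
      exact ((le_iff hn hk).1 h2).resolve_right fun e => h3 e.symm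
  refine hp.1.sep_up (key (succ k) (succ_mem_omega hk)) fun n hn h1 => ?_
  exact (succ_le_iff hn).1 h1

theorem Sel.unb {x : M} (hx : x ∈ p) : Unb x := by
  refine ⟨UF.sub hp.1 hx, fun n hn => ?_⟩
  obtain ⟨k, hk⟩ := hp.1.ne (UF.itr hp.1 hx (Sel.gt hp hn))
  rw [mem_itr, mem_sep] at hk
  exact ⟨k, hk.1, omega_trans hk.2.1 n hk.2.2⟩

theorem Sel.exists_gt {x n : M} (hx : x ∈ p) (hn : n ∈ (omega : M)) : ∃ k, k ∈ x ∧ n ∈ k :=
  (Sel.unb hp hx).exists_gt hn

theorem Sel.fin_compl {s : M} (hs : FinM s) : dif omega s ∈ p := by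
  by_cases h : itr omega s ∈ p
  · exfalso
    obtain ⟨b, hb, h1⟩ := fin_bdd (fin_sub hs fun k hk => (mem_itr.1 hk).2) (UF.sub hp.1 h)
    obtain ⟨k, hk, h2⟩ := Sel.exists_gt hp h hb
    exact lt_asymm (UF.sub hp.1 h k hk) h2 (h1 k hk)
  · have h1 := UF.compl hp.1 (fun k hk => (mem_itr.1 hk).1) h
    refine hp.1.up h1 (fun k hk => ?_) (fun k hk => (mem_dif.1 hk).1)
    rw [mem_dif] at hk ⊢
    exact ⟨hk.1, fun hc => hk.2 (mem_itr.2 ⟨hk.1, hc⟩)⟩

theorem Sel.dif_mem {a s : M} (ha : a ∈ p) (hs : FinM s) : dif a s ∈ p := by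
  refine hp.1.up (UF.itr hp.1 ha (Sel.fin_compl hp hs)) (fun k hk => ?_) (fun k hk =>
    UF.sub hp.1 ha k (mem_dif.1 hk).1)
  rw [mem_itr, mem_dif] at hk
  rw [mem_dif]
  exact ⟨hk.1, hk.2.2⟩

theorem Sel.not_fin {s : M} (hs : FinM s) : s ∉ p := by
  intro h
  exact UF.not_disj hp.1 h (Sel.fin_compl hp hs) fun k hk hk' => (mem_dif.1 hk').2 hk

theorem Sel.above {s x : M} (hs : s ∈ (fsw : M)) (hx : x ∈ p) :
    sep x (fun n => ∀ i, i ∈ s → i ∈ n) ∈ p := by
  rw [mem_fsw] at hs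
  have h1 := UF.fin hp.1 (fun i n => i ∈ n) hs.2 (fun i hi => Sel.gt hp (hs.1 i hi))
  exact UF.itr_sep hp.1 hx h1

/-- P-point property for decreasing sequences (given by a property). -/
theorem Sel.ppt (P : M → M → Prop) [hD : D2 P]
    (hP : ∀ k, k ∈ (omega : M) → sep omega (fun n => P k n) ∈ p) :
    ∃ A, A ∈ p ∧ ∀ z, z ∈ (omega : M) → ∃ m, m ∈ (omega : M) ∧ z ∈ m ∧
      ∀ n, n ∈ A → m ⊆ n → ∀ i, i ∈ succ z → P i n := by
  have hPk : ∀ k, k ∈ (omega : M) → sep omega (fun n => k ∈ n ∧ ∀ i, i ∈ succ k → P i n) ∈ p := by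
    intro k hk
    have h1 := UF.fin hp.1 P (nat_fin (succ_mem_omega hk)) fun s hs => by
      refine hP s ?_
      exact mem_omega_of_mem hs (succ_mem_omega hk)
    have e1 : D1 (fun n => ∀ i, i ∈ succ k → P i n) := by
      have : ∀ κ : Type, ∀ a b : (κ → M) → M, [DF a] → [DF b] → DR (fun v => P (a v) (b v)) :=
        fun κ a b _ _ => D2.comp P a b
      refine ⟨?_⟩
      have := this (Option Unit) (fun v => v none) (fun v => v (some ()))
      infer_instance
    exact hp.1.sep_inter (Sel.gt hp hk) h1 fun n _ h2 h3 => ⟨h2, h3⟩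
  have hDg : D2 (fun n k : M => n ⊆ k ∨ ∃ i, i ∈ succ k ∧ ¬ P i n) := by
    refine ⟨?_⟩
    have := D2.comp P (fun v : Option (Fin 2) → M => v none) (fun v => v (some 0))
    infer_instance
  have hF : F1 (fun n : M => least (fun k => n ⊆ k ∨ ∃ i, i ∈ succ k ∧ ¬ P i n)) := by
    refine ⟨?_⟩
    have := D2.comp (fun n k : M => n ⊆ k ∨ ∃ i, i ∈ succ k ∧ ¬ P i n)
      (fun v : Option Unit → M => v (some ())) (fun v => v none)
    infer_instance
  have hD1 : ∀ n, D1 (fun k : M => n ⊆ k ∨ ∃ i, i ∈ succ k ∧ ¬ P i n) := by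
    intro n
    exact ⟨D2.comp (fun n k : M => n ⊆ k ∨ ∃ i, i ∈ succ k ∧ ¬ P i n)
      (fun _ : Unit → M => n) (fun v => v ())⟩
  obtain ⟨g, hg⟩ : ∃ g : M, g = mkf omega omega
    (fun n : M => least (fun k => n ⊆ k ∨ ∃ i, i ∈ succ k ∧ ¬ P i n)) := ⟨_, rfl⟩
  have hgs : ∀ n, n ∈ (omega : M) → least (fun k => n ⊆ k ∨ ∃ i, i ∈ succ k ∧ ¬ P i n) ∈ (omega : M) ∧
      (n ⊆ least (fun k => n ⊆ k ∨ ∃ i, i ∈ succ k ∧ ¬ P i n) ∨
        ∃ i, i ∈ succ (least (fun k => n ⊆ k ∨ ∃ i, i ∈ succ k ∧ ¬ P i n)) ∧ ¬ P i n) ∧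
      ∀ k, k ∈ least (fun k => n ⊆ k ∨ ∃ i, i ∈ succ k ∧ ¬ P i n) →
        ¬ (n ⊆ k ∨ ∃ i, i ∈ succ k ∧ ¬ P i n) := by
    intro n hn
    have := hD1 n
    exact least_spec (fun k => n ⊆ k ∨ ∃ i, i ∈ succ k ∧ ¬ P i n) ⟨n, hn, Or.inl (sub_refl n)⟩
  have hgf : Fun g omega omega := by
    rw [hg]; exact mkf_fun fun n hn => (hgs n hn).1
  have hga : ∀ n, n ∈ (omega : M) → ap g n = least (fun k => n ⊆ k ∨ ∃ i, i ∈ succ k ∧ ¬ P i n) := by
    intro n hn
    rw [hg]; exact ap_mkf (fun n hn => (hgs n hn).1) hn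
  obtain ⟨k, hk, h1⟩ | ⟨A, hA, h1⟩ := hp.2.2 g (mem_RS.2 hgf)
  · exfalso
    obtain ⟨n, hn, h2, h3, h4⟩ := hp.1.sep_and h1 (hPk k hk)
    rw [hga n hn] at h2
    have h5 := (hgs n hn).2.1
    rw [h2] at h5
    rcases h5 with h5 | ⟨i, hi, h5⟩
    · exact not_mem_self _ (h5 _ h3)
    · exact h5 (h4 i hi)
  · refine ⟨A, hA, fun z hz => ?_⟩
    obtain ⟨b, hb, h2⟩ := fin_bounded (fun y k => k ∈ A ∧ ap g k = y) (nat_fin (succ_mem_omega hz))
      (fun y _ => by
        by_cases hy : ∃ k, k ∈ A ∧ ap g k = y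
        · obtain ⟨k, hk, hky⟩ := hy
          refine ⟨succ k, succ_mem_omega (UF.sub hp.1 hA k hk), fun k' _ hk' => ?_⟩
          rw [mem_succ]
          exact Or.inr (h1 k' k hk'.1 hk (hk'.2.trans hky.symm))
        · exact ⟨emp, emp_mem_omega, fun k _ hk => absurd ⟨k, hk⟩ hy⟩)
    refine ⟨un b (succ z), un_omega hb (succ_mem_omega hz), ?_, fun n hn hmn i hi => ?_⟩
    · rw [mem_un, mem_succ]; exact Or.inr (Or.inr rfl)
    · have hno := UF.sub hp.1 hA n hn
      by_contra hc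
      have hzn : z ∈ n := hmn z (by rw [mem_un, mem_succ]; exact Or.inr (Or.inr rfl))
      -- `g n ≤ z`
      have h3 : ap g n ∈ succ z := by
        rw [hga n hno]
        have := hD1 n
        have h4 := least_le (fun k => n ⊆ k ∨ ∃ i, i ∈ succ k ∧ ¬ P i n) hz (Or.inr ⟨i, hi, hc⟩)
        rw [lt_succ_iff (hgs n hno).1 hz]
        exact h4
      have h4 := h2 (ap g n) h3 n hno ⟨hn, rfl⟩
      exact not_mem_self n (hmn n (by rw [mem_un]; exact Or.inl h4))

/-- Diagonalisation. -/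
theorem Sel.diag (P : M → M → Prop) [hD : D2 P]
    (hP : ∀ k, k ∈ (omega : M) → sep omega (fun n => P k n) ∈ p) :
    ∃ x, x ∈ p ∧ ∀ k, k ∈ x → ∀ n, n ∈ x → k ∈ n → P k n := by
  obtain ⟨A, hA, hm⟩ := Sel.ppt hp P hP
  have e1 : ∀ κ : Type, ∀ a b : (κ → M) → M, [DF a] → [DF b] → DR (fun v => P (a v) (b v)) :=
    fun κ a b _ _ => D2.comp P a b
  -- the step
  have hF1 : F1 (fun z : M => least (fun m => z ∈ m ∧ ∀ n, n ∈ A → m ⊆ n → ∀ i, i ∈ succ z → P i n)) := by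
    refine ⟨?_⟩
    have := e1 (Option (Option (Option Unit))) (fun v => v none) (fun v => v (some none))
    infer_instance
  have hD1 : ∀ z : M, D1 (fun m : M => z ∈ m ∧ ∀ n, n ∈ A → m ⊆ n → ∀ i, i ∈ succ z → P i n) := by
    intro z
    refine ⟨?_⟩
    have := e1 (Option (Option Unit)) (fun v => v none) (fun v => v (some none))
    infer_instance
  obtain ⟨F, hFdef⟩ : ∃ F : M → M, F = fun z : M =>
    least (fun m => z ∈ m ∧ ∀ n, n ∈ A → m ⊆ n → ∀ i, i ∈ succ z → P i n) := ⟨_, rfl⟩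
  rw [← hFdef] at hF1
  have hF : ∀ z, z ∈ (omega : M) → F z ∈ (omega : M) ∧ z ∈ F z ∧
      ∀ n, n ∈ A → F z ⊆ n → ∀ i, i ∈ succ z → P i n := by
    intro z hz
    have := hD1 z
    have h1 := least_spec (fun m => z ∈ m ∧ ∀ n, n ∈ A → m ⊆ n → ∀ i, i ∈ succ z → P i n) (hm z hz)
    rw [hFdef]
    exact ⟨h1.1, h1.2.1⟩
  -- the blocks
  obtain ⟨a, hadef⟩ : ∃ a : M → M, a = fun i => recc F emp i := ⟨_, rfl⟩
  have ha1 : F1 a := by rw [hadef]; exact ⟨by infer_instance⟩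
  have ha0 : a emp = emp := by rw [hadef]; exact recc_zero
  have haS : ∀ i, i ∈ (omega : M) → a (succ i) = F (a i) := fun i hi => by
    rw [hadef]; exact recc_succ hi
  have ham : ∀ i, i ∈ (omega : M) → a i ∈ (omega : M) := by
    apply omega_induction (fun i => a i ∈ (omega : M))
    · rw [ha0]; exact emp_mem_omega
    · intro n hn ih
      rw [haS n hn]; exact (hF _ ih).1
  have halt : ∀ i, i ∈ (omega : M) → a i ∈ a (succ i) := fun i hi => by
    rw [haS i hi]; exact (hF _ (ham i hi)).2.1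
  have hale : ∀ i, i ∈ (omega : M) → i ⊆ a i := by
    apply omega_induction (fun i => i ⊆ a i)
    · exact emp_sub _
    · intro n hn ih
      rw [succ_le_iff (ham _ (succ_mem_omega hn))]
      exact lt_of_le_of_lt hn (ham _ (succ_mem_omega hn)) ih (halt n hn)
  have hamono : ∀ j, j ∈ (omega : M) → ∀ i, i ∈ (omega : M) → i ⊆ j → a i ⊆ a j := by
    apply omega_induction (fun j => ∀ i, i ∈ (omega : M) → i ⊆ j → a i ⊆ a j)
    · intro i _ h
      rw [eq_emp fun z hz => not_mem_emp z (h z hz)]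
      exact sub_refl _
    · intro n hn ih i hi h
      rcases (le_iff hi (succ_mem_omega hn)).1 h with h1 | h1
      · rw [mem_succ] at h1
        have h2 : i ⊆ n := by
          rcases h1 with h1 | h1
          · exact omega_trans hn i h1
          · rw [h1]; exact sub_refl _
        exact sub_trans (ih i hi h2) (omega_trans (ham _ (succ_mem_omega hn)) _ (halt n hn))
      · rw [h1]; exact sub_refl _
  -- the block of `n`
  have hbD : ∀ n : M, D1 (fun i : M => n ∈ a (succ i)) := fun n =>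
    ⟨by have := F1.comp a (fun v : Unit → M => succ (v ())); infer_instance⟩
  have hbF : F1 (fun n : M => least (fun i => n ∈ a (succ i))) :=
    ⟨by have := F1.comp a (fun v : Option Unit → M => succ (v none)); infer_instance⟩
  obtain ⟨b, hbdef⟩ : ∃ b : M → M, b = fun n => least (fun i => n ∈ a (succ i)) := ⟨_, rfl⟩
  rw [← hbdef] at hbF
  have hb : ∀ n, n ∈ (omega : M) → b n ∈ (omega : M) ∧ n ∈ a (succ (b n)) ∧
      ∀ i, i ∈ b n → n ∉ a (succ i) := by
    intro n hn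
    have := hbD n
    rw [hbdef]
    refine least_spec (fun i => n ∈ a (succ i)) ⟨n, hn, ?_⟩
    exact hale _ (succ_mem_omega hn) n (by rw [mem_succ]; exact Or.inr rfl)
  have hb1 : ∀ n, n ∈ (omega : M) → a (b n) ⊆ n := by
    intro n hn
    obtain ⟨h1, h2, h3⟩ := hb n hn
    rcases eq_emp_or_succ h1 with h4 | ⟨j, hj, h4⟩
    · rw [h4, ha0]; exact emp_sub _
    · rw [h4]
      rw [← not_lt (ham _ (succ_mem_omega hj)) hn]
      exact h3 j (by rw [h4, mem_succ]; exact Or.inr rfl)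
  have hbmono : ∀ k n, n ∈ (omega : M) → k ∈ n → b k ⊆ b n := by
    intro k n hn hkn
    have hk := mem_omega_of_mem hkn hn
    have := hbD k
    obtain ⟨h1, h2, h3⟩ := hb n hn
    have h4 := least_le (fun i => k ∈ a (succ i)) h1 (lt_trans (ham _ (succ_mem_omega h1)) hkn h2)
    rw [hbdef] at h4 ⊢
    exact h4
  obtain ⟨g, hgdef⟩ : ∃ g : M, g = mkf omega omega b := ⟨_, rfl⟩
  have hgf : Fun g omega omega := by
    rw [hgdef]; exact mkf_fun fun n hn => (hb n hn).1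
  have hga : ∀ n, n ∈ (omega : M) → ap g n = b n := by
    intro n hn
    rw [hgdef]; exact ap_mkf (fun n hn => (hb n hn).1) hn
  obtain ⟨B, hB, hinj⟩ : ∃ B, B ∈ p ∧ ∀ j k, j ∈ B → k ∈ B → ap g j = ap g k → j = k := by
    rcases hp.2.2 g (mem_RS.2 hgf) with ⟨i, hi, h1⟩ | h1
    · exfalso
      obtain ⟨n, hn, h2⟩ := Sel.exists_gt hp h1 (ham _ (succ_mem_omega hi))
      rw [mem_sep] at hn
      rw [hga n hn.1] at hn
      have h3 := (hb n hn.1).2.1
      rw [hn.2] at h3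
      exact lt_asymm hn.1 h2 h3
    · exact h1
  have hDe : D1 (fun n : M => Evn (b n)) := ⟨by have := F1.comp b (fun v : Unit → M => v ()); infer_instance⟩
  obtain ⟨C, hC, hpar⟩ : ∃ C, C ∈ p ∧ ∀ k n, k ∈ C → n ∈ C → (Evn (b k) ↔ Evn (b n)) := by
    rcases UF.sep_em hp.1 (fun n => Evn (b n)) with h1 | h1
    · refine ⟨_, h1, fun k n hk hn => ?_⟩
      rw [mem_sep] at hk hn
      exact iff_of_true hk.2 hn.2
    · refine ⟨_, h1, fun k n hk hn => ?_⟩
      rw [mem_sep] at hk hn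
      exact iff_of_false hk.2 hn.2
  refine ⟨itr (itr A B) C, UF.itr hp.1 (UF.itr hp.1 hA hB) hC, fun k hk n hn hkn => ?_⟩
  rw [mem_itr, mem_itr] at hk hn
  have hno := UF.sub hp.1 hA n hn.1.1
  have hko := UF.sub hp.1 hA k hk.1.1
  have hbk := (hb k hko).1
  have hbn := (hb n hno).1
  have h1 := hbmono k n hno hkn
  have h2 : b k ≠ b n := fun e => not_mem_self n (by
    have := hinj k n hk.1.2 hn.1.2 (by rw [hga k hko, hga n hno, e])
    rw [this] at hkn
    exact hkn)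
  have h3 : b k ∈ b n := ((le_iff hbk hbn).1 h1).resolve_right h2
  have h4 : succ (b k) ∈ b n := by
    rcases succ_le hbn _ h3 with h4 | h4
    · exact h4
    · exfalso
      have h5 := hpar k n hk.2 hn.2
      rw [← h4, evn_succ hbk] at h5
      tauto
  have h5 : succ (succ (b k)) ⊆ b n := (succ_le_iff hbn).2 h4
  have h6 : a (succ (succ (b k))) ⊆ n :=
    sub_trans (hamono _ hbn _ (succ_mem_omega (succ_mem_omega hbk)) h5) (hb1 n hno)
  rw [haS _ (succ_mem_omega hbk)] at h6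
  refine (hF _ (ham _ (succ_mem_omega hbk))).2.2 n hn.1.1 h6 k ?_
  rw [mem_succ]
  exact Or.inl (hb k hko).2.1

theorem Sel.sparse (b : M → M) [hb : F1 b] (h : ∀ k, k ∈ (omega : M) → b k ∈ (omega : M)) :
    ∃ x, x ∈ p ∧ ∀ k, k ∈ x → ∀ n, n ∈ x → k ∈ n → b k ∈ n := by
  have : D2 (fun k n : M => b k ∈ n) :=
    ⟨by have := F1.comp b (fun v : Fin 2 → M => v 0); infer_instance⟩
  exact Sel.diag hp (fun k n => b k ∈ n) fun k hk => Sel.gt hp (h k hk)

/-- Fusion. -/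
theorem Sel.fusion (P : M → M → Prop) [hD : D2 P]
    (hP : ∀ s, s ∈ (fsw : M) → sep omega (fun n => P s n) ∈ p) :
    ∃ x, x ∈ p ∧ ∀ s, s ∈ (fsw : M) → s ⊆ x → ∀ n, n ∈ x → (∀ i, i ∈ s → i ∈ n) → P s n := by
  have e1 : ∀ κ : Type, ∀ a b : (κ → M) → M, [DF a] → [DF b] → DR (fun v => P (a v) (b v)) :=
    fun κ a b _ _ => D2.comp P a b
  have : D2 (fun k n : M => ∀ s, s ∈ pow (succ k) → P s n) := by
    refine ⟨?_⟩
    have := e1 (Option (Fin 2)) (fun v => v none) (fun v => v (some 1))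
    infer_instance
  have hD0 : D1 (fun n => P emp n) := ⟨e1 Unit (fun _ => emp) (fun v => v ())⟩
  obtain ⟨x, hx, h1⟩ := Sel.diag hp (fun k n : M => ∀ s, s ∈ pow (succ k) → P s n) fun k hk => by
    refine UF.fin hp.1 P (fin_pow_nat (succ_mem_omega hk)) fun s hs => hP s ?_
    rw [mem_pow] at hs
    exact sub_fsw (nat_fsw (succ_mem_omega hk)) hs
  refine ⟨sep x (fun n => P emp n), UF.itr_sep hp.1 hx (hP emp emp_fsw), fun s hs hsx n hn hi => ?_⟩
  rw [mem_sep] at hn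
  by_cases he : s = emp
  · rw [he]; exact hn.2
  · obtain ⟨k, hk, h2⟩ := exists_max hs he
    have hkx := hsx k hk
    rw [mem_sep] at hkx
    refine h1 k hkx.1 n hn.1 (hi k hk) s ?_
    rw [mem_pow]
    intro i hi'
    have hko := UF.sub hp.1 hx k hkx.1
    rw [lt_succ_iff ((mem_fsw.1 hs).1 i hi') hko]
    exact h2 i hi'

/-- Bar induction. -/
theorem Sel.bar (P : M → Prop) [hD : D1 P]
    (hP : ∀ s, s ∈ (fsw : M) →
      sep omega (fun n => (∀ i, i ∈ s → i ∈ n) ∧ P (ins s n)) ∈ p → P s) :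
    P emp ∨ ∃ x, x ∈ p ∧ ∀ s, s ∈ (fsw : M) → s ⊆ x → ¬ P s := by
  by_cases h0 : P emp
  · exact Or.inl h0
  right
  have e1 : ∀ κ : Type, ∀ a : (κ → M) → M, [DF a] → DR (fun v => P (a v)) :=
    fun κ a _ => D1.comp P a
  have hD2 : D2 (fun s n : M => ¬ P s → ¬ ((∀ i, i ∈ s → i ∈ n) ∧ P (ins s n))) := by
    refine ⟨?_⟩
    have := e1 (Fin 2) (fun v => v 0)
    have := e1 (Fin 2) (fun v => ins (v 0) (v 1))
    infer_instance
  have hDs : ∀ s : M, D1 (fun n : M => (∀ i, i ∈ s → i ∈ n) ∧ P (ins s n)) := fun s => by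
    have := e1 Unit (fun v => ins s (v ()))
    exact ⟨by infer_instance⟩
  obtain ⟨x, hx, h1⟩ := Sel.fusion hp
    (fun s n : M => ¬ P s → ¬ ((∀ i, i ∈ s → i ∈ n) ∧ P (ins s n))) fun s hs => by
      have := hDs s
      by_cases hPs : P s
      · have : D1 (fun n : M => ¬ P s → ¬ ((∀ i, i ∈ s → i ∈ n) ∧ P (ins s n))) :=
          ⟨D2.comp (fun s n : M => ¬ P s → ¬ ((∀ i, i ∈ s → i ∈ n) ∧ P (ins s n)))
            (fun _ => s) (fun v => v ())⟩
        exact UF.sep_univ hp.1 fun n _ h => absurd hPs h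
      · have h2 : sep omega (fun n => (∀ i, i ∈ s → i ∈ n) ∧ P (ins s n)) ∉ p := fun h => hPs (hP s hs h)
        have h3 := hp.1.sep_not h2
        have : D1 (fun n : M => ¬ P s → ¬ ((∀ i, i ∈ s → i ∈ n) ∧ P (ins s n))) :=
          ⟨D2.comp (fun s n : M => ¬ P s → ¬ ((∀ i, i ∈ s → i ∈ n) ∧ P (ins s n)))
            (fun _ => s) (fun v => v ())⟩
        have : D1 (fun n : M => ¬ ((∀ i, i ∈ s → i ∈ n) ∧ P (ins s n))) := by
          have := e1 Unit (fun v => ins s (v ()))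
          exact ⟨by infer_instance⟩
        exact hp.1.sep_up h3 fun n _ h4 _ => h4
  refine ⟨x, hx, ?_⟩
  have hDm : D1 (fun s : M => s ⊆ x → ¬ P s) := ⟨by have := e1 Unit (fun v => v ()); infer_instance⟩
  intro s hs
  rw [mem_fsw] at hs
  refine fin_induction_max (fun s => s ⊆ x → ¬ P s) (fun _ => h0) ?_ s hs.2 hs.1
  intro s a hs1 hs2 ha hlt ih hsub hPa
  have h2 : s ⊆ x := fun i hi => hsub i (by rw [mem_ins]; exact Or.inl hi)
  have h3 : a ∈ x := hsub a (by rw [mem_ins]; exact Or.inr rfl)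
  exact h1 s (mem_fsw.2 ⟨hs2, hs1⟩) h2 a h3 hlt (ih h2) ⟨hlt, hPa⟩

end

end Pool.Agent.ZFIter.NPA.BLI
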