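import Pool.Agent.BLI.Sel

/-!
# BLI/Sub: products, sets of pairs of conditions, small sets
-/

universe u

namespace Pool.Agent.ZFIter.NPA.BLI

open Pool.Agent.H78.ZF Pool.Agent.ZFIter Pool.Agent.ZFIter.NPA Pool.Agent.ZFIter.NPA.BSM

variable {M : Type u} [ZFM M] {ι : Type}

/-- The set `C` of pairs of conditions of `A` and `B`, with the product order. -/
noncomputable def sbP (A B C : M) : M :=
  mkPo C (fun x y => LE A (fs x) (fs y) ∧ LE B (sn x) (sn y))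

theorem fs_sbP (A B C : M) : fs (sbP A B C) = C := fs_mkPo _ _

theorem LE_sbP {A B C x y : M} :
    LE (sbP A B C) x y ↔ x ∈ C ∧ y ∈ C ∧ LE A (fs x) (fs y) ∧ LE B (sn x) (sn y) := by
  have : D2 (fun x y : M => LE A (fs x) (fs y) ∧ LE B (sn x) (sn y)) := ⟨by infer_instance⟩
  exact LE_mkPo

theorem po_sbP {A B C : M} (hA : Po A) (hB : Po B) (hC : C ⊆ prod (fs A) (fs B)) :
    Po (sbP A B C) := by
  constructor
  · intro x hx
    rw [fs_sbP] at hx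
    rw [LE_sbP]
    obtain ⟨a, ha, b, hb, rfl⟩ := (mem_prod _ _ _).1 (hC x hx)
    rw [fs_opair, sn_opair]
    exact ⟨hx, hx, hA.refl ha, hB.refl hb⟩
  · intro x y z h1 h2
    rw [LE_sbP] at h1 h2 ⊢
    exact ⟨h1.1, h2.2.1, hA.trans h1.2.2.1 h2.2.2.1, hB.trans h1.2.2.2 h2.2.2.2⟩

/-- The first projection. -/
noncomputable def pf1 (A C : M) : M := mkf C (fs A) (fun x => fs x)

/-- The second projection. -/
noncomputable def pf2 (B C : M) : M := mkf C (fs B) (fun x => sn x)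

instance DF.pf1 (A C : (ι → M) → M) [DF A] [DF C] : DF (fun v => pf1 (A v) (C v)) := by
  unfold BLI.pf1; infer_instance

instance DF.pf2 (A C : (ι → M) → M) [DF A] [DF C] : DF (fun v => pf2 (A v) (C v)) := by
  unfold BLI.pf2; infer_instance

section
variable {A B C : M} (hC : C ⊆ prod (fs A) (fs B))
include hC

theorem fs_mem_of {x : M} (hx : x ∈ C) : fs x ∈ fs A ∧ sn x ∈ fs B := by
  obtain ⟨a, ha, b, hb, rfl⟩ := (mem_prod _ _ _).1 (hC x hx)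
  rw [fs_opair, sn_opair]
  exact ⟨ha, hb⟩

theorem ap_pf1 {x : M} (hx : x ∈ C) : ap (pf1 A C) x = fs x :=
  ap_mkf (fun _ h => (fs_mem_of hC h).1) hx

theorem ap_pf2 {x : M} (hx : x ∈ C) : ap (pf2 B C) x = sn x :=
  ap_mkf (fun _ h => (fs_mem_of hC h).2) hx

theorem hom_pf1 : Hom (sbP A B C) A (pf1 A C) := by
  refine ⟨by rw [fs_sbP]; exact mkf_fun fun _ h => (fs_mem_of hC h).1, fun x y h => ?_⟩
  rw [LE_sbP] at h
  rw [ap_pf1 hC h.1, ap_pf1 hC h.2.1]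
  exact h.2.2.1

theorem hom_pf2 : Hom (sbP A B C) B (pf2 B C) := by
  refine ⟨by rw [fs_sbP]; exact mkf_fun fun _ h => (fs_mem_of hC h).2, fun x y h => ?_⟩
  rw [LE_sbP] at h
  rw [ap_pf2 hC h.1, ap_pf2 hC h.2.1]
  exact h.2.2.2

end

/-- The product. -/
noncomputable def prP (A B : M) : M := sbP A B (prod (fs A) (fs B))

theorem po_prP {A B : M} (hA : Po A) (hB : Po B) : Po (prP A B) := po_sbP hA hB (sub_refl _)

theorem mem_prP {A B a b : M} : opair a b ∈ fs (prP A B) ↔ a ∈ fs A ∧ b ∈ fs B := by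
  unfold prP
  rw [fs_sbP, opair_mem_prod]

theorem isProj_fst {A B : M} (hB : Po B) : IsProj (prP A B) A (pf1 A (prod (fs A) (fs B))) := by
  refine ⟨hom_pf1 (sub_refl _), fun q hq x hx => ?_⟩
  unfold prP at hq ⊢
  rw [fs_sbP] at hq
  have h1 := fs_mem_of (sub_refl _) hq
  rw [ap_pf1 (sub_refl _) hq] at hx
  have h2 : opair x (sn q) ∈ prod (fs A) (fs B) := (opair_mem_prod _ _ _ _).2 ⟨hx.1, h1.2⟩
  refine ⟨opair x (sn q), ?_, ?_⟩
  · rw [LE_sbP, fs_opair, sn_opair]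
    exact ⟨h2, hq, hx, hB.refl h1.2⟩
  · rw [ap_pf1 (sub_refl _) h2, fs_opair]

theorem isProj_snd {A B : M} (hA : Po A) : IsProj (prP A B) B (pf2 B (prod (fs A) (fs B))) := by
  refine ⟨hom_pf2 (sub_refl _), fun q hq x hx => ?_⟩
  unfold prP at hq ⊢
  rw [fs_sbP] at hq
  have h1 := fs_mem_of (sub_refl _) hq
  rw [ap_pf2 (sub_refl _) hq] at hx
  have h2 : opair (fs q) x ∈ prod (fs A) (fs B) := (opair_mem_prod _ _ _ _).2 ⟨h1.1, hx.1⟩
  refine ⟨opair (fs q) x, ?_, ?_⟩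
  · rw [LE_sbP, fs_opair, sn_opair]
    exact ⟨h2, hq, hA.refl h1.1, hx⟩
  · rw [ap_pf2 (sub_refl _) h2, sn_opair]

/-! ### Small sets -/

section
variable {Sm : M → Prop} (hSm : SmC Sm)
include hSm

theorem sm_sub {x y : M} (h : x ⊆ y) (hy : Sm y) : Sm x := by
  refine hSm.inj (mkf x y (fun z => z)) x y ?_ hy
  rw [inj_iff]
  refine ⟨mkf_fun fun z hz => h z hz, fun a b ha hb e => ?_⟩
  rw [ap_mkf (fun z hz => h z hz) ha, ap_mkf (fun z hz => h z hz) hb] at e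
  exact e

theorem sm_inj {x y : M} (F : M → M) [F1 F] (hF : ∀ a, a ∈ x → F a ∈ y)
    (hi : ∀ a b, a ∈ x → b ∈ x → F a = F b → a = b) (hy : Sm y) : Sm x := by
  refine hSm.inj (mkf x y F) x y ?_ hy
  rw [inj_iff]
  refine ⟨mkf_fun hF, fun a b ha hb e => ?_⟩
  rw [ap_mkf hF ha, ap_mkf hF hb] at e
  exact hi a b ha hb e

theorem sm_omega : Sm (omega : M) :=
  sm_sub hSm (fun n hn => by rw [mem_pow]; exact omega_sub hn) hSm.set

theorem sm_fsw : Sm (fsw : M) :=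
  sm_sub hSm (fun n hn => by rw [mem_pow]; exact (mem_fsw.1 hn).1) hSm.set

theorem sm_sbP {A B C : M} (hC : C ⊆ prod (fs A) (fs B)) (hA : Sm (fs A)) (hB : Sm (fs B)) :
    Sm (fs (sbP A B C)) := by
  rw [fs_sbP]
  exact sm_sub hSm hC (hSm.prod _ _ hA hB)

theorem sp_sbP {A B C : M} (hC : C ⊆ prod (fs A) (fs B)) (hA : SP Sm A) (hB : SP Sm B) :
    SP Sm (sbP A B C) := ⟨po_sbP hA.1 hB.1 hC, sm_sbP hSm hC hA.2 hB.2⟩

theorem sp_prP {A B : M} (hA : SP Sm A) (hB : SP Sm B) : SP Sm (prP A B) :=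
  sp_sbP hSm (sub_refl _) hA hB

theorem sp_GG {S : M} (hS : S ⊆ pow omega) : SP Sm (GG S) := by
  refine ⟨po_GG S, sm_sub hSm (y := prod (pow omega) (pow omega)) ?_ (hSm.prod _ _ hSm.set hSm.set)⟩
  intro x hx
  obtain ⟨Z, E, rfl, hZ, hE, _⟩ := mem_GG.1 hx
  rw [opair_mem_prod]
  exact ⟨hS Z hZ, (mem_pow _ _).2 hE⟩

theorem sp_MP {p : M} (hp : p ⊆ pow omega) : SP Sm (MP p) := by
  refine ⟨po_MP p, sm_sub hSm (y := prod (pow omega) (pow omega)) ?_ (hSm.prod _ _ hSm.set hSm.set)⟩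
  intro x hx
  obtain ⟨s, a, rfl, hs, ha, _⟩ := mem_MP.1 hx
  rw [opair_mem_prod]
  exact ⟨(mem_pow _ _).2 hs, hp a ha⟩

end

end Pool.Agent.ZFIter.NPA.BLI
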