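import Pool.Agent.BLI.FrUs

/-!
# BLI/Tree1: trees of ultrafilters and their labels (inside a model of ZF)
-/

universe u

namespace Pool.Agent.ZFIter.NPA.BLI

open Pool.Agent.H78.ZF Pool.Agent.ZFIter Pool.Agent.ZFIter.NPA Pool.Agent.ZFIter.NPA.BSM

variable {M : Type u} [ZFM M] {ι : Type}

/-- Definition by cases. -/
noncomputable def csl (P : Prop) (a b : M) : M := iota (fun y => (P ∧ y = a) ∨ (¬ P ∧ y = b))

instance DF.csl (P : (ι → M) → Prop) (a b : (ι → M) → M) [DR P] [DF a] [DF b] :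
    DF (fun v => csl (P v) (a v) (b v)) := by
  unfold BLI.csl; infer_instance

theorem csl_pos {P : Prop} {a b : M} (h : P) : csl P a b = a := by
  refine iota_eq (P := fun y => (P ∧ y = a) ∨ (¬ P ∧ y = b)) (Or.inl ⟨h, rfl⟩) ?_
  rintro x (hx | hx)
  · exact hx.2
  · exact absurd h hx.1

theorem csl_neg {P : Prop} {a b : M} (h : ¬ P) : csl P a b = b := by
  refine iota_eq (P := fun y => (P ∧ y = a) ∨ (¬ P ∧ y = b)) (Or.inr ⟨h, rfl⟩) ?_
  rintro x (hx | hx)
  · exact absurd hx.1 h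
  · exact hx.2

/-! ### Recursion along the finite sets -/

/-- The node after `x` with the new number `m`. -/
noncomputable def ndC (nx x m : M) : M :=
  opair (itr (fs x) (fs (ap nx (opair (sn x) m)))) (sn (ap nx (opair (sn x) m)))

instance DF.ndC (nx x m : (ι → M) → M) [DF nx] [DF x] [DF m] :
    DF (fun v => ndC (nx v) (x v) (m v)) := by
  unfold BLI.ndC; infer_instance

/-- The node of the finite set of the elements of `s` below `k`. -/
noncomputable def ndE (nx U s k : M) : M :=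
  erec (fun k g => csl (itr s k = emp) (opair omega U)
    (ndC nx (ap g (sUn (itr s k))) (sUn (itr s k)))) k

instance DF.ndE (nx U s k : (ι → M) → M) [DF nx] [DF U] [DF s] [DF k] :
    DF (fun v => ndE (nx v) (U v) (s v) (k v)) := by
  unfold BLI.ndE; infer_instance

theorem sUn_max {s m : M} (hm : m ∈ s) (h : ∀ i, i ∈ s → i ⊆ m) : sUn s = m := by
  refine ext fun z => ?_
  rw [mem_sUn]
  exact ⟨fun ⟨y, hy, hz⟩ => h y hy z hz, fun hz => ⟨m, hm, hz⟩⟩

theorem ndE_emp {nx U s k : M} (h : itr s k = emp) : ndE nx U s k = opair omega U := by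
  have hF2 : F2 (fun k g : M => csl (itr s k = emp) (opair omega U)
    (ndC nx (ap g (sUn (itr s k))) (sUn (itr s k)))) := ⟨by infer_instance⟩
  unfold ndE
  rw [erec_eq, csl_pos h]

theorem ndE_max {nx U s k m : M} (hm : m ∈ itr s k) (h : ∀ i, i ∈ itr s k → i ⊆ m) :
    ndE nx U s k = ndC nx (ndE nx U s m) m := by
  have hF2 : F2 (fun k g : M => csl (itr s k = emp) (opair omega U)
    (ndC nx (ap g (sUn (itr s k))) (sUn (itr s k)))) := ⟨by infer_instance⟩
  unfold ndE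
  rw [erec_eq, csl_neg (ne_emp_iff.2 ⟨m, hm⟩), sUn_max hm h, ap_mkseq (mem_itr.1 hm).2]

theorem ndE_congr {nx U s s' : M} (hs : s ⊆ omega) : ∀ k, k ∈ (omega : M) →
    (∀ i, i ∈ k → (i ∈ s ↔ i ∈ s')) → ndE nx U s k = ndE nx U s' k := by
  have key : ∀ n, n ∈ (omega : M) → ∀ k, k ∈ n → (∀ i, i ∈ k → (i ∈ s ↔ i ∈ s')) →
      ndE nx U s k = ndE nx U s' k := by
    apply omega_induction (fun n => ∀ k, k ∈ n → (∀ i, i ∈ k → (i ∈ s ↔ i ∈ s')) →
      ndE nx U s k = ndE nx U s' k)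
    · intro k hk
      exact absurd hk (not_mem_emp k)
    · intro n hn ih k hk hkk
      rw [mem_succ] at hk
      rcases hk with hk | rfl
      · exact ih k hk hkk
      · have e : itr s k = itr s' k := ext fun z => by
          rw [mem_itr, mem_itr]
          exact ⟨fun h => ⟨(hkk z h.2).1 h.1, h.2⟩, fun h => ⟨(hkk z h.2).2 h.1, h.2⟩⟩
        by_cases he : itr s k = emp
        · rw [ndE_emp he, ndE_emp (e ▸ he)]
        · obtain ⟨m, hm, h⟩ := exists_max (sub_fsw (nat_fsw hn) (itr_sub_right s k)) he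
          have hmk := (mem_itr.1 hm).2
          have hm' : m ∈ itr s' k := e ▸ hm
          have h' : ∀ i, i ∈ itr s' k → i ⊆ m := e ▸ h
          rw [ndE_max (s := s) (k := k) hm h, ndE_max (s := s') (k := k) hm' h',
            ih m hmk fun i hi => hkk i (lt_trans hn hi hmk)]
  intro k hk
  exact key (succ k) (succ_mem_omega hk) k (by rw [mem_succ]; exact Or.inr rfl)

theorem itr_om {s : M} (hs : s ⊆ omega) : itr s omega = s := ext fun z => by
  rw [mem_itr]; exact ⟨fun h => h.1, fun h => ⟨h, hs z h⟩⟩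

theorem ndE_top {nx U s k : M} (hs : s ∈ (fsw : M)) (hk : s ⊆ k) :
    ndE nx U s k = ndE nx U s omega := by
  have hso := (mem_fsw.1 hs).1
  have e1 : itr s k = s := ext fun z => by
    rw [mem_itr]; exact ⟨fun h => h.1, fun h => ⟨h, hk z h⟩⟩
  by_cases he : s = emp
  · rw [ndE_emp (by rw [e1]; exact he), ndE_emp (by rw [itr_om hso]; exact he)]
  · obtain ⟨m, hm, h⟩ := exists_max hs he
    rw [ndE_max (k := k) (by rw [e1]; exact hm) (by rw [e1]; exact h),
      ndE_max (k := omega) (by rw [itr_om hso]; exact hm) (by rw [itr_om hso]; exact h)]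

theorem ndE_ins {nx U s n : M} (hs : s ∈ (fsw : M)) (hn : n ∈ (omega : M))
    (ha : ∀ i, i ∈ s → i ∈ n) : ndE nx U (ins s n) omega = ndC nx (ndE nx U s omega) n := by
  have hi := ins_fsw hs hn
  have hio := (mem_fsw.1 hi).1
  have hso := (mem_fsw.1 hs).1
  rw [ndE_max (m := n) (by rw [itr_om hio, mem_ins]; exact Or.inr rfl) (by
    rw [itr_om hio]
    intro i h
    rw [mem_ins] at h
    rcases h with h | rfl
    · exact omega_trans hn i (ha i h)
    · exact sub_refl _)]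
  rw [ndE_congr (s' := s) hio n hn (fun i h => by
    rw [mem_ins]
    refine ⟨fun h' => h'.resolve_right fun e => ?_, Or.inl⟩
    rw [e] at h
    exact not_mem_self n h), ndE_top hs ha]

/-- Recursion along the finite sets: `nx` is a map on `prod Ufs omega`, the value
`opair A V` consists of a set and an ultrafilter. -/
theorem exists_tree {U nx : M} (hU : Uf U)
    (hnx : ∀ w n, Uf w → n ∈ (omega : M) → ∃ A V, ap nx (opair w n) = opair A V ∧ A ⊆ omega ∧
      Uf V) :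
    ∃ W X : M, ap W emp = U ∧ ap X emp = omega ∧
      (∀ s, s ∈ (fsw : M) → Uf (ap W s) ∧ ap X s ⊆ omega) ∧
      ∀ s n, s ∈ (fsw : M) → n ∈ (omega : M) → (∀ i, i ∈ s → i ∈ n) →
        ap W (ins s n) = sn (ap nx (opair (ap W s) n)) ∧
        ap X (ins s n) = itr (ap X s) (fs (ap nx (opair (ap W s) n))) := by
  obtain ⟨W, hW⟩ : ∃ W : M, W = mkseq fsw (fun s => sn (ndE nx U s omega)) := ⟨_, rfl⟩
  obtain ⟨X, hX⟩ : ∃ X : M, X = mkseq fsw (fun s => fs (ndE nx U s omega)) := ⟨_, rfl⟩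
  have hWs : ∀ s, s ∈ (fsw : M) → ap W s = sn (ndE nx U s omega) := fun s hs => by
    rw [hW, ap_mkseq hs]
  have hXs : ∀ s, s ∈ (fsw : M) → ap X s = fs (ndE nx U s omega) := fun s hs => by
    rw [hX, ap_mkseq hs]
  have h0 : ndE nx U emp omega = opair omega U := ndE_emp (eq_emp fun z hz =>
    not_mem_emp z (mem_itr.1 hz).1)
  have hst : ∀ s n, s ∈ (fsw : M) → n ∈ (omega : M) → (∀ i, i ∈ s → i ∈ n) →
        ap W (ins s n) = sn (ap nx (opair (ap W s) n)) ∧
        ap X (ins s n) = itr (ap X s) (fs (ap nx (opair (ap W s) n))) := by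
    intro s n hs hn ha
    rw [hWs _ (ins_fsw hs hn), hXs _ (ins_fsw hs hn), hWs s hs, hXs s hs, ndE_ins hs hn ha]
    unfold ndC
    rw [sn_opair, fs_opair]
    exact ⟨rfl, rfl⟩
  refine ⟨W, X, by rw [hWs _ emp_fsw, h0, sn_opair], by rw [hXs _ emp_fsw, h0, fs_opair],
    fun s hs => ?_, hst⟩
  rw [mem_fsw] at hs
  refine fin_induction_max (fun s => Uf (ap W s) ∧ ap X s ⊆ omega) ?_ ?_ s hs.2 hs.1
  · rw [hWs _ emp_fsw, hXs _ emp_fsw, h0, sn_opair, fs_opair]
    exact ⟨hU, sub_refl _⟩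
  · intro s n hs1 hs2 hn ha ih
    obtain ⟨h1, h2⟩ := hst s n (mem_fsw.2 ⟨hs2, hs1⟩) hn ha
    obtain ⟨A, V, e, _, hV⟩ := hnx _ n ih.1 hn
    rw [e] at h1 h2
    rw [h1, h2, sn_opair]
    exact ⟨hV, sub_trans (itr_sub_left _ _) ih.2⟩

/-! ### Labels -/

section
variable {X : M}
  (h1 : ∀ s n, s ∈ (fsw : M) → n ∈ (omega : M) → (∀ i, i ∈ s → i ∈ n) → ap X (ins s n) ⊆ ap X s)
include h1

theorem lab_filter {k : M} (hk : k ∈ (omega : M)) {s : M} (hs : s ∈ (fsw : M)) :
    ap X s ⊆ ap X (itr s k) := by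
  rw [mem_fsw] at hs
  refine fin_induction_max (fun s => ap X s ⊆ ap X (itr s k)) ?_ ?_ s hs.2 hs.1
  · have e : itr emp k = (emp : M) := eq_emp fun z hz => not_mem_emp z (mem_itr.1 hz).1
    rw [e]
    exact sub_refl _
  · intro s a hs1 hs2 ha hab ih
    by_cases hak : a ∈ k
    · have e : itr (ins s a) k = ins s a := ext fun z => by
        rw [mem_itr, mem_ins]
        refine ⟨fun h => h.1, fun h => ⟨h, ?_⟩⟩
        rcases h with h | rfl
        · exact lt_trans hk (hab z h) hak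
        · exact hak
      rw [e]
      exact sub_refl _
    · have e : itr (ins s a) k = itr s k := ext fun z => by
        rw [mem_itr, mem_itr, mem_ins]
        refine ⟨fun h => ⟨h.1.resolve_right fun e => ?_, h.2⟩, fun h => ⟨Or.inl h.1, h.2⟩⟩
        rw [e] at h
        exact hak h.2
      rw [e]
      exact sub_trans (h1 s a (mem_fsw.2 ⟨hs2, hs1⟩) ha hab) ih

variable (h2 : ∀ s n m, s ∈ (fsw : M) → n ∈ (omega : M) → m ∈ (omega : M) →
  (∀ i, i ∈ s → i ∈ n) → (∀ i, i ∈ s → i ∈ m) → n ≠ m → Disj (ap X (ins s n)) (ap X (ins s m)))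
include h2

theorem lab_aux {s s' e k : M} (hsF : s ∈ (fsw : M)) (hsF' : s' ∈ (fsw : M)) (hs : e ∈ ap X s)
    (hs' : e ∈ ap X s') (hk : k ∈ s) (hk' : k ∉ s') (hlt : ∀ i, i ∈ k → (i ∈ s ↔ i ∈ s')) :
    Ini s' s := by
  have hso := (mem_fsw.1 hsF).1
  have hso' := (mem_fsw.1 hsF').1
  have hko := hso k hk
  have hall : ∀ i, i ∈ s' → i ∈ k := by
    by_contra hcon
    push Not at hcon
    obtain ⟨i, hi, hik⟩ := hcon
    have hki : k ∈ i := by
      rcases trichotomy (hso' i hi) hko with h | h | h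
      · exact absurd h hik
      · exact absurd (h ▸ hi) hk'
      · exact h
    obtain ⟨l, hlo, ⟨hl1, hl2⟩, hmin⟩ := exists_least (fun l => l ∈ s' ∧ k ∈ l)
      ⟨i, hso' i hi, hi, hki⟩
    have e1 : itr s (succ k) = ins (itr s' k) k := ext fun z => by
      rw [mem_itr, mem_ins, mem_itr, mem_succ]
      constructor
      · rintro ⟨h3, h4 | h4⟩
        · exact Or.inl ⟨(hlt z h4).1 h3, h4⟩
        · exact Or.inr h4
      · rintro (⟨h3, h4⟩ | rfl)
        · exact ⟨(hlt z h4).2 h3, Or.inl h4⟩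
        · exact ⟨hk, Or.inr rfl⟩
    have e2 : itr s' (succ l) = ins (itr s' k) l := ext fun z => by
      rw [mem_itr, mem_ins, mem_itr, mem_succ]
      constructor
      · rintro ⟨h3, h4 | h4⟩
        · refine Or.inl ⟨h3, ?_⟩
          rcases trichotomy (hso' z h3) hko with h | h | h
          · exact h
          · exact absurd (h ▸ h3) hk'
          · exact absurd ⟨h3, h⟩ (hmin z h4)
        · exact Or.inr h4
      · rintro (⟨h3, h4⟩ | rfl)
        · exact ⟨h3, Or.inl (lt_trans hlo h4 hl2)⟩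
        · exact ⟨hl1, Or.inr rfl⟩
    have m1 := lab_filter h1 (succ_mem_omega hko) hsF e hs
    have m2 := lab_filter h1 (succ_mem_omega hlo) hsF' e hs'
    rw [e1] at m1
    rw [e2] at m2
    refine h2 (itr s' k) k l (sub_fsw hsF' (itr_sub_left _ _)) hko hlo
      (fun i hi => (mem_itr.1 hi).2) (fun i hi => lt_trans hlo (mem_itr.1 hi).2 hl2) ?_ e m1 m2
    intro e3
    rw [← e3] at hl2
    exact not_mem_self k hl2
  refine ⟨fun i hi => (hlt i (hall i hi)).2 hi, fun i hi hi' j hj => ?_⟩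
  have hki : k ⊆ i := by
    refine (not_lt hko (hso i hi)).1 ?_
    exact fun h => hi' ((hlt i h).1 hi)
  exact hki j (hall j hj)

theorem lab_cmp {s s' e : M} (hsF : s ∈ (fsw : M)) (hsF' : s' ∈ (fsw : M)) (hs : e ∈ ap X s)
    (hs' : e ∈ ap X s') : Ini s s' ∨ Ini s' s := by
  by_cases hss : s = s'
  · rw [hss]
    exact Or.inl ⟨sub_refl _, fun i hi hi' => absurd hi hi'⟩
  · have hex : ∃ k, k ∈ (omega : M) ∧ ¬ (k ∈ s ↔ k ∈ s') := by
      by_contra hcon
      push Not at hcon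
      refine hss (ext fun z => ?_)
      by_cases hz : z ∈ (omega : M)
      · exact hcon z hz
      · exact iff_of_false (fun h => hz ((mem_fsw.1 hsF).1 z h))
          (fun h => hz ((mem_fsw.1 hsF').1 z h))
    obtain ⟨k, hko, hk, hmin⟩ := exists_least (fun k => ¬ (k ∈ s ↔ k ∈ s')) hex
    have hmin' : ∀ i, i ∈ k → (i ∈ s ↔ i ∈ s') := fun i hi => not_not.1 (hmin i hi)
    by_cases hks : k ∈ s
    · have hks' : k ∉ s' := fun h => hk ⟨fun _ => h, fun _ => hks⟩
      exact Or.inr (lab_aux h1 h2 hsF hsF' hs hs' hks hks' hmin')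
    · have hks' : k ∈ s' := by
        by_contra h
        exact hk ⟨fun h' => absurd h' hks, fun h' => absurd h' h⟩
      exact Or.inl (lab_aux h1 h2 hsF' hsF hs' hs hks' hks fun i hi => (hmin' i hi).symm)

end

theorem exists_labels {X : M} (hX : ∀ s, s ∈ (fsw : M) → ap X s ⊆ omega)
    (h1 : ∀ s n, s ∈ (fsw : M) → n ∈ (omega : M) → (∀ i, i ∈ s → i ∈ n) →
      ap X (ins s n) ⊆ ap X s)
    (h2 : ∀ s n m, s ∈ (fsw : M) → n ∈ (omega : M) → m ∈ (omega : M) → (∀ i, i ∈ s → i ∈ n) →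
      (∀ i, i ∈ s → i ∈ m) → n ≠ m → Disj (ap X (ins s n)) (ap X (ins s m))) :
    ∃ t : M, Fun t omega (pow omega) ∧ (∀ s, s ∈ (fsw : M) → ∀ e, e ∈ ap X s → Ini s (ap t e)) ∧
      ∀ s, s ∈ (fsw : M) → ∀ e, e ∈ ap X s →
        (∀ n, n ∈ (omega : M) → (∀ i, i ∈ s → i ∈ n) → e ∉ ap X (ins s n)) → ap t e = s := by
  obtain ⟨t, ht⟩ : ∃ t : M, t = mkf omega (pow omega) (fun e => sep omega (fun n =>
    ∃ s, s ∈ (fsw : M) ∧ (∀ i, i ∈ s → i ∈ n) ∧ e ∈ ap X (ins s n))) := ⟨_, rfl⟩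
  have hfm : ∀ e, e ∈ (omega : M) → sep omega (fun n =>
      ∃ s, s ∈ (fsw : M) ∧ (∀ i, i ∈ s → i ∈ n) ∧ e ∈ ap X (ins s n)) ∈ pow (omega : M) :=
    fun e _ => by
      rw [mem_pow]
      intro n hn
      rw [mem_sep] at hn
      exact hn.1
  have hte : ∀ e n, e ∈ (omega : M) → (n ∈ ap t e ↔ n ∈ (omega : M) ∧
      ∃ s, s ∈ (fsw : M) ∧ (∀ i, i ∈ s → i ∈ n) ∧ e ∈ ap X (ins s n)) := fun e n he => by
    rw [ht, ap_mkf hfm he, mem_sep]
  have hc : ∀ s, s ∈ (fsw : M) → ∀ e, e ∈ ap X s → Ini s (ap t e) := by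
    intro s hs e he
    have heo := hX s hs e he
    have hso := (mem_fsw.1 hs).1
    constructor
    · intro n hn
      have hno := hso n hn
      rw [hte e n heo]
      refine ⟨hno, itr s n, sub_fsw hs (itr_sub_left _ _), fun i hi => (mem_itr.1 hi).2, ?_⟩
      have e1 : itr s (succ n) = ins (itr s n) n := ext fun z => by
        rw [mem_itr, mem_ins, mem_itr, mem_succ]
        constructor
        · rintro ⟨h3, h4 | h4⟩
          · exact Or.inl ⟨h3, h4⟩
          · exact Or.inr h4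
        · rintro (⟨h3, h4⟩ | rfl)
          · exact ⟨h3, Or.inl h4⟩
          · exact ⟨hn, Or.inr rfl⟩
      rw [← e1]
      exact lab_filter h1 (succ_mem_omega hno) hs e he
    · intro m hm hms j hj
      rw [hte e m heo] at hm
      obtain ⟨hmo, s', hs', hsm, hm⟩ := hm
      rcases lab_cmp h1 h2 hs (ins_fsw hs' hmo) he hm with h | h
      · exact h.2 m (by rw [mem_ins]; exact Or.inr rfl) hms j hj
      · exact absurd (h.1 m (by rw [mem_ins]; exact Or.inr rfl)) hms
  refine ⟨t, by rw [ht]; exact mkf_fun hfm, hc, ?_⟩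
  intro s hs e he hno
  have heo := hX s hs e he
  have hso := (mem_fsw.1 hs).1
  refine ext fun m => ⟨fun hmt => ?_, fun h => (hc s hs e he).1 m h⟩
  by_contra hms
  rw [hte e m heo] at hmt
  obtain ⟨hmo, s', hs', hsm, hm⟩ := hmt
  have hsi := ins_fsw hs' hmo
  have hini : Ini s (ins s' m) := by
    rcases lab_cmp h1 h2 hs hsi he hm with h | h
    · exact h
    · exact absurd (h.1 m (by rw [mem_ins]; exact Or.inr rfl)) hms
  obtain ⟨k, hko, ⟨hk1, hk2⟩, hmin⟩ := exists_least (fun k => k ∈ ins s' m ∧ k ∉ s)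
    ⟨m, hmo, by rw [mem_ins]; exact Or.inr rfl, hms⟩
  have hks : ∀ j, j ∈ s → j ∈ k := fun j hj => hini.2 k hk1 hk2 j hj
  have e1 : itr (ins s' m) (succ k) = ins s k := ext fun z => by
    rw [mem_itr, mem_ins (x := s), mem_succ]
    constructor
    · rintro ⟨h3, h4 | h4⟩
      · refine Or.inl ?_
        by_contra h5
        exact hmin z h4 ⟨h3, h5⟩
      · exact Or.inr h4
    · rintro (h3 | rfl)
      · exact ⟨hini.1 z h3, Or.inl (hks z h3)⟩
      · exact ⟨hk1, Or.inr rfl⟩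
  have m1 := lab_filter h1 (succ_mem_omega hko) hsi e hm
  rw [e1] at m1
  exact hno k hko hks m1

/-- The set `Z` of finite sets contains the finite sets in `L` and is closed under `p`-many
successors. -/
def WClosed (p L Z : M) : Prop :=
  (∀ s, s ∈ (fsw : M) → s ∈ L → s ∈ Z) ∧
    ∀ s X, s ∈ (fsw : M) → X ∈ p → (∀ n, n ∈ X → (∀ i, i ∈ s → i ∈ n) → ins s n ∈ Z) → s ∈ Z

instance DR.WClosed (p L Z : (ι → M) → M) [DF p] [DF L] [DF Z] :
    DR (fun v => WClosed (p v) (L v) (Z v)) := by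
  unfold BLI.WClosed; infer_instance

/-- `s` can be extended to a set in `L`, along almost all branches. -/
def Wfl (p L s : M) : Prop := ∀ Z, WClosed p L Z → s ∈ Z

instance DR.Wfl (p L s : (ι → M) → M) [DF p] [DF L] [DF s] :
    DR (fun v => Wfl (p v) (L v) (s v)) := by
  unfold BLI.Wfl; infer_instance

theorem wfl_or {p L : M} (hp : Selective p) :
    Wfl p L emp ∨ ∃ x, x ∈ p ∧ ∀ s, s ∈ (fsw : M) → s ⊆ x → s ∉ L := by
  rcases Sel.bar hp (fun s => Wfl p L s) (fun s hs hX Z hZ => hZ.2 s _ hs hX (fun n hn _ => by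
    rw [mem_sep] at hn
    exact hn.2.2 Z hZ)) with h | ⟨x, hx, h⟩
  · exact Or.inl h
  · exact Or.inr ⟨x, hx, fun s hs hsx hL => h s hs hsx fun Z hZ => hZ.1 s hs hL⟩

end Pool.Agent.ZFIter.NPA.BLI
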